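import Pool.Agent.QPL.InjT
import Pool.Agent.TGF.Rl
import Pool.Agent.TGF.Df

set_option autoImplicit false

/-!
# QPL-34: chains and five-term relations are defined over finitely generated subfields

`colim_T`: `Tx_ind`-type induction (every element is a finite rational combination of `dm v`).
`colim_X`: `x_ind`.  `colim_Rel`: `Submodule.span_induction` over the generators of `Rel`
(`x, y ∈ S`, and `ω` lifted by `colim_T`; if `x ≠ 0, 1`, ... in `F` then also in `L`).
`colim_ZX`: lift `z` to `z'` and `d3 z` to a relation `r`; `mX (d3 z') = d3 z = mX r`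
(`TGF.mX_d3`), `mX_injective`.  `colim_ker`: `TGF.resT_d2`, `resT_injective`.
-/

noncomputable section

open Polynomial TensorProduct
open scoped Classical

namespace QPL

open Helper14.Gon Helper14.W4 TGF

universe u v w

variable {F : Type u} [Field F]

/-- the decomposable elements span -/
private lemma colim_span (j : ℕ) (ω : Tx j F) :
    ω ∈ Submodule.span ℚ {z : Tx j F | ∃ v : Fin j → Additive Fˣ, z = dm v} := by
  have h : (Submodule.span ℚ {z : Tx j F | ∃ v : Fin j → Additive Fˣ, z = dm v}).mkQ = 0 := by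
    refine Tx_ext fun v => ?_
    rw [LinearMap.zero_apply, Submodule.mkQ_apply, Submodule.Quotient.mk_eq_zero]
    exact Submodule.subset_span ⟨v, rfl⟩
  rw [← Submodule.Quotient.mk_eq_zero, ← Submodule.mkQ_apply, h, LinearMap.zero_apply]

/-- units of `F` in `L` come from `L` -/
private lemma colim_unit {L : Subfield F} (v : Additive Fˣ) (hv : (v.toMul : F) ∈ L) :
    resU L.subtype (lg (⟨(v.toMul : F), hv⟩ : L)) = v := by
  rw [resU_lg]
  exact lg_unit v.toMul

theorem colim_T (j : ℕ) (ω : Tx j F) : ∃ S : Finset F, ∀ L : Subfield F, (S : Set F) ⊆ L →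
    ∃ ω' : Tx j L, resT j L.subtype ω' = ω := by
  induction colim_span j ω using Submodule.span_induction with
  | mem z hz =>
    obtain ⟨v, rfl⟩ := hz
    refine ⟨Finset.univ.image fun i => ((v i).toMul : F), fun L hL => ?_⟩
    have h : ∀ i, ((v i).toMul : F) ∈ L := fun i =>
      hL (Finset.mem_coe.2 (Finset.mem_image_of_mem _ (Finset.mem_univ i)))
    refine ⟨dm fun i => lg (⟨((v i).toMul : F), h i⟩ : L), ?_⟩
    rw [resT_eq_tm, tm_dm]
    exact congrArg dm (funext fun i => colim_unit (v i) (h i))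
  | zero => exact ⟨∅, fun L _ => ⟨0, map_zero _⟩⟩
  | add a b _ _ ha hb =>
    obtain ⟨S, hS⟩ := ha
    obtain ⟨S', hS'⟩ := hb
    refine ⟨S ∪ S', fun L hL => ?_⟩
    rw [Finset.coe_union, Set.union_subset_iff] at hL
    obtain ⟨a', ha'⟩ := hS L hL.1
    obtain ⟨b', hb'⟩ := hS' L hL.2
    exact ⟨a' + b', by rw [map_add, ha', hb']⟩
  | smul r a _ ha =>
    obtain ⟨S, hS⟩ := ha
    refine ⟨S, fun L hL => ?_⟩
    obtain ⟨a', ha'⟩ := hS L hL
    exact ⟨r • a', by rw [map_smul, ha']⟩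

/-- the chains which come from `N L` for all large `L` -/
private def colim_M {j : ℕ} (N : ∀ L : Subfield F, Submodule ℚ (X j L)) : Submodule ℚ (X j F) where
  carrier := {z | ∃ S : Finset F, ∀ L : Subfield F, (S : Set F) ⊆ L →
    ∃ z' : X j L, z' ∈ N L ∧ mX j L.subtype z' = z}
  zero_mem' := ⟨∅, fun L _ => ⟨0, zero_mem _, map_zero _⟩⟩
  add_mem' := by
    rintro a b ⟨S, hS⟩ ⟨S', hS'⟩
    refine ⟨S ∪ S', fun L hL => ?_⟩
    rw [Finset.coe_union, Set.union_subset_iff] at hL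
    obtain ⟨a', ha, ha'⟩ := hS L hL.1
    obtain ⟨b', hb, hb'⟩ := hS' L hL.2
    exact ⟨a' + b', add_mem ha hb, by rw [map_add, ha', hb']⟩
  smul_mem' := by
    rintro r a ⟨S, hS⟩
    refine ⟨S, fun L hL => ?_⟩
    obtain ⟨a', ha, ha'⟩ := hS L hL
    exact ⟨r • a', Submodule.smul_mem _ _ ha, by rw [map_smul, ha']⟩

/-- generators -/
private lemma colim_gen {j : ℕ} {N : ∀ L : Subfield F, Submodule ℚ (X j L)} (T : Finset F)
    (ω : Tx j F) (z : X j F)
    (h : ∀ L : Subfield F, (T : Set F) ⊆ L → ∀ ω' : Tx j L, resT j L.subtype ω' = ω →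
      ∃ z' : X j L, z' ∈ N L ∧ mX j L.subtype z' = z) : z ∈ colim_M N := by
  obtain ⟨S, hS⟩ := colim_T j ω
  refine ⟨T ∪ S, fun L hL => ?_⟩
  rw [Finset.coe_union, Set.union_subset_iff] at hL
  obtain ⟨ω', hω⟩ := hS L hL.2
  exact h L hL.1 ω' hω

private lemma colim_mem {L : Subfield F} {T : Finset F} (hT : (T : Set F) ⊆ L) {x : F}
    (hx : x ∈ T) : x ∈ L := hT (Finset.mem_coe.2 hx)

theorem colim_X (j : ℕ) (z : X j F) : ∃ S : Finset F, ∀ L : Subfield F, (S : Set F) ⊆ L →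
    ∃ z' : X j L, mX j L.subtype z' = z := by
  have h : z ∈ colim_M (j := j) (F := F) (fun L => (⊤ : Submodule ℚ (X j L))) := by
    induction z using x_ind with
    | h0 => exact zero_mem _
    | hadd a b ha hb => exact add_mem ha hb
    | h1 x ω =>
      refine colim_gen {x} ω _ fun L hL ω' hω => ?_
      refine ⟨bx ⟨x, colim_mem hL (Finset.mem_singleton_self x)⟩ ω', trivial, ?_⟩
      rw [mX_bx, hω]
      rfl
  obtain ⟨S, hS⟩ := h
  refine ⟨S, fun L hL => ?_⟩
  obtain ⟨z', _, hz'⟩ := hS L hL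
  exact ⟨z', hz'⟩

theorem colim_Rel (j : ℕ) (z : X j F) (hz : z ∈ Rel j F) : ∃ S : Finset F,
    ∀ L : Subfield F, (S : Set F) ⊆ L → ∃ z' : X j L, z' ∈ Rel j L ∧ mX j L.subtype z' = z := by
  have h : Rel j F ≤ colim_M (j := j) (F := F) (fun L => Rel j L) := by
    rw [TGF.Rel, Submodule.span_le]
    rintro z ((((⟨ω, rfl⟩ | ⟨ω, rfl⟩) | ⟨x, ω, rfl⟩) | ⟨x, ω, rfl⟩) | ⟨x, y, ω, a, b, c, d, e, rfl⟩)
    · refine colim_gen ∅ ω _ fun L _ ω' hω => ⟨bx 0 ω', ?_, ?_⟩
      · exact Submodule.subset_span (Or.inl (Or.inl (Or.inl (Or.inl ⟨_, rfl⟩))))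
      · rw [mX_bx, hω, map_zero]
    · refine colim_gen ∅ ω _ fun L _ ω' hω => ⟨bx 1 ω', ?_, ?_⟩
      · exact Submodule.subset_span (Or.inl (Or.inl (Or.inl (Or.inr ⟨_, rfl⟩))))
      · rw [mX_bx, hω, map_one]
    · refine colim_gen {x} ω _ fun L hL ω' hω => ?_
      have hx := colim_mem hL (Finset.mem_singleton_self x)
      refine ⟨bx ⟨x, hx⟩ ω' + bx (⟨x, hx⟩ : L)⁻¹ ω', ?_, ?_⟩
      · exact Submodule.subset_span (Or.inl (Or.inl (Or.inr ⟨_, _, rfl⟩)))
      · rw [map_add, mX_bx, mX_bx, hω, map_inv₀]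
        rfl
    · refine colim_gen {x} ω _ fun L hL ω' hω => ?_
      have hx := colim_mem hL (Finset.mem_singleton_self x)
      refine ⟨bx ⟨x, hx⟩ ω' + bx (1 - (⟨x, hx⟩ : L)) ω', ?_, ?_⟩
      · exact Submodule.subset_span (Or.inl (Or.inr ⟨_, _, rfl⟩))
      · rw [map_add, mX_bx, mX_bx, hω, map_sub, map_one]
        rfl
    · refine colim_gen {x, y} ω _ fun L hL ω' hω => ?_
      have hx : x ∈ L := colim_mem hL (Finset.mem_insert_self x {y})
      have hy : y ∈ L := colim_mem hL (Finset.mem_insert_of_mem (Finset.mem_singleton_self y))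
      refine ⟨five (⟨x, hx⟩ : L) ⟨y, hy⟩ ω', ?_, ?_⟩
      · refine Submodule.subset_span (Or.inr ⟨⟨x, hx⟩, ⟨y, hy⟩, ω', ?_, ?_, ?_, ?_, ?_, rfl⟩)
        · exact fun h => a (congrArg Subtype.val h)
        · exact fun h => b (congrArg Subtype.val h)
        · exact fun h => c (congrArg Subtype.val h)
        · exact fun h => d (congrArg Subtype.val h)
        · exact fun h => e (congrArg Subtype.val h)
      · rw [five, five, map_add, map_sub, map_add, map_sub, mX_bx, mX_bx, mX_bx, mX_bx, mX_bx,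
          map_div₀, map_div₀, map_div₀, map_sub, map_sub, map_sub, map_sub, map_inv₀, map_inv₀,
          map_one, hω]
        rfl
  exact h hz

theorem colim_ZX (j : ℕ) (z : X j F) (hz : z ∈ ZX j F) : ∃ S : Finset F,
    ∀ L : Subfield F, (S : Set F) ⊆ L → ∃ z' : X j L, z' ∈ ZX j L ∧ mX j L.subtype z' = z := by
  obtain ⟨S, hS⟩ := colim_X j z
  obtain ⟨S', hS'⟩ := colim_Rel (j + 1) (d3 j z) hz
  refine ⟨S ∪ S', fun L hL => ?_⟩
  rw [Finset.coe_union, Set.union_subset_iff] at hL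
  obtain ⟨z', hz'⟩ := hS L hL.1
  obtain ⟨r', hr, hr'⟩ := hS' L hL.2
  refine ⟨z', ?_, hz'⟩
  have h : d3 j z' = r' := by
    refine mX_injective L.subtype (j + 1) ?_
    rw [mX_d3, hz', hr']
  change d3 j z' ∈ TGF.Rel (j + 1) L
  rw [h]
  exact hr

theorem colim_ker (j : ℕ) (z : X j F) (hz : d2 j z = 0) : ∃ S : Finset F,
    ∀ L : Subfield F, (S : Set F) ⊆ L → ∃ z' : X j L, d2 j z' = 0 ∧ mX j L.subtype z' = z := by
  obtain ⟨S, hS⟩ := colim_X j z
  refine ⟨S, fun L hL => ?_⟩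
  obtain ⟨z', hz'⟩ := hS L hL
  refine ⟨z', ?_, hz'⟩
  refine resT_injective L.subtype (j + 2) ?_
  rw [resT_d2, hz', hz, map_zero]

end QPL
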