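import Pool.Agent.TGF.Defs
import Pool.Agent.TGF.Tm
import Pool.Agent.Helper14.W4.H2

set_option autoImplicit false

/-!
# QPL-33: `Λ^j F^* ⊗ ℚ → Λ^j L^* ⊗ ℚ` is injective

Induction on `j`: every homomorphism `F^* → ℚ` is the restriction of some homomorphism `L^* → ℚ`,
so the kernel is killed by all contractions.
-/

noncomputable section

open Polynomial TensorProduct
open scoped Classical

namespace QPL

open Helper14.Gon Helper14.W4 TGF

universe u v w

private lemma injt_zero {F : Type u} {L : Type v} [Field F] [Field L]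
    (σ σ' : Additive Fˣ →+ Additive Lˣ) (ω : Tx 0 F) : tm 0 σ ω = tm 0 σ' ω := by
  have h : tm 0 σ = tm 0 σ' := by
    refine Tx_ext fun v => ?_
    change tm 0 σ (dm v) = tm 0 σ' (dm v)
    rw [tm_dm, tm_dm]
    congr 1
    funext i
    exact i.elim0
  exact LinearMap.congr_fun h ω

private lemma injt_resU {F : Type u} {L : Type v} [Field F] [Field L] (φ : F →+* L) :
    Function.Injective (resU φ) := by
  intro a b h
  have h1 : Units.map (φ : F →* L) a.toMul = Units.map (φ : F →* L) b.toMul := h
  have h2 := congrArg Units.val h1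
  have h3 : (a.toMul : F) = (b.toMul : F) := φ.injective h2
  have h4 : a.toMul = b.toMul := Units.ext h3
  exact h4

private lemma injt_ext {F : Type u} {L : Type v} [Field F] [Field L] (φ : F →+* L)
    (θ : Additive Fˣ →+ ℚ) : ∃ θ' : Additive Lˣ →+ ℚ, θ'.comp (resU φ) = θ := by
  exact (Module.Baer.of_divisible ℚ).extension_property_addMonoidHom (resU φ) (injt_resU φ) θ

theorem resT_injective {F : Type u} {L : Type v} [Field F] [Field L] (φ : F →+* L) (j : ℕ) :
    Function.Injective (resT j φ) := by
  rw [injective_iff_map_eq_zero]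
  induction j with
  | zero =>
    intro ω h
    have h1 : tm 0 (0 : Additive Lˣ →+ Additive Fˣ) (tm 0 (resU φ) ω) = ω := by
      rw [← tm_comp, injt_zero _ (AddMonoidHom.id (Additive Fˣ)), tm_id]
    rw [resT_eq_tm] at h
    rw [← h1, h, map_zero]
  | succ j ih =>
    intro ω h
    refine sepT fun θ => ih _ ?_
    obtain ⟨θ', hθ⟩ := injt_ext φ θ
    have h2 := ctT_tm j (resU φ) θ' ω
    rw [resT_eq_tm] at h
    rw [h, map_zero, hθ] at h2
    rw [resT_eq_tm]
    exact h2.symm

private lemma injt_app {F : Type u} {L : Type v} [Field F] [Field L] (φ : F →+* L) (j : ℕ)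
    (z : X j F) (x : F) : (mX j φ z) (φ x) = resT j φ (z x) := by
  refine x_ind (fun z => (mX j φ z) (φ x) = resT j φ (z x)) ?_ ?_ ?_ z
  · change (mX j φ 0) (φ x) = resT j φ ((0 : X j F) x)
    rw [map_zero, Finsupp.zero_apply, Finsupp.zero_apply, map_zero]
  · intro a b ha hb
    change (mX j φ (a + b)) (φ x) = resT j φ ((a + b) x)
    rw [map_add, Finsupp.add_apply, Finsupp.add_apply, map_add, ha, hb]
  · intro y ω
    change (mX j φ (bx y ω)) (φ x) = resT j φ ((bx y ω) x)
    rw [mX_bx, bx, bx]
    by_cases h : y = x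
    · rw [h, Finsupp.single_eq_same, Finsupp.single_eq_same]
    · rw [Finsupp.single_apply, Finsupp.single_apply, if_neg h,
        if_neg (fun h' => h (φ.injective h')), map_zero]

theorem mX_injective {F : Type u} {L : Type v} [Field F] [Field L] (φ : F →+* L) (j : ℕ) :
    Function.Injective (mX j φ) := by
  rw [injective_iff_map_eq_zero]
  intro z hz
  refine Finsupp.ext fun x => ?_
  have h := injt_app φ j z x
  rw [hz, Finsupp.zero_apply] at h
  rw [Finsupp.zero_apply]
  exact resT_injective φ j (h.symm.trans (map_zero _).symm)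

end QPL
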