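import Pool.Agent.TGF.Defs
import Pool.Agent.Helper14.Gon.FrobThm

set_option autoImplicit false

/-!
# QPL-27: Frobenius (law `frob` of `TGF.Thy`)

`c3 (mX φ z) = resC 2 j φ (c3 z)`, `c2 (mX φ z) = resC 1 j φ (c2 z)` (on `bx x ω`), `frob_cx`,
`frob_tx`; `0 ∈ bdry`.
-/

noncomputable section

open Polynomial TensorProduct
open scoped Classical

namespace QPL

open Helper14.Gon Helper14.W4 TGF

universe u v w

private theorem lawfrob_PB {F : Type u} {L : Type v} [Field F] [Field L] (k j : ℕ) (φ : F →+* L)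
    (x : F) (ω : Tx j F) :
    PB (k + 1) j (cl (k + 1) (some (φ x))) (resT j φ ω) =
      resC k j φ (PB (k + 1) j (cl (k + 1) (some x)) ω) := by
  have h : (PB (k + 1) j (cl (k + 1) (some (φ x)))) ∘ₗ (resT j φ) =
      (resC k j φ) ∘ₗ (PB (k + 1) j (cl (k + 1) (some x))) := by
    refine Tx_ext' fun ω => ?_
    rw [LinearMap.comp_apply, LinearMap.comp_apply, resT_toQ, PB_gen, PB_gen, resC_gen]
    rfl
  exact LinearMap.congr_fun h ω

theorem c3_mX {F : Type u} {L : Type v} [Field F] [Field L] (j : ℕ) (φ : F →+* L) (z : X j F) :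
    c3 j (mX j φ z) = resC 2 j φ (c3 j z) := by
  have h : (c3 j) ∘ₗ (mX j φ) = (resC 2 j φ) ∘ₗ (c3 j) := by
    refine x_ext fun x ω => ?_
    rw [LinearMap.comp_apply, LinearMap.comp_apply, mX_bx, c3_bx, c3_bx]
    exact lawfrob_PB 2 j φ x ω
  exact LinearMap.congr_fun h z

theorem c2_mX {F : Type u} {L : Type v} [Field F] [Field L] (j : ℕ) (φ : F →+* L) (z : X j F) :
    c2 j (mX j φ z) = resC 1 j φ (c2 j z) := by
  have h : (c2 j) ∘ₗ (mX j φ) = (resC 1 j φ) ∘ₗ (c2 j) := by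
    refine x_ext fun x ω => ?_
    rw [LinearMap.comp_apply, LinearMap.comp_apply, mX_bx, c2_bx, c2_bx]
    exact lawfrob_PB 1 j φ x ω
  exact LinearMap.congr_fun h z

variable (p : ℕ) (hp : p.Prime) {F : Type u} [Field F] [CharP F p] [ExpChar F p]

include hp in
theorem frob_NX (j : ℕ) (z : X j F) :
    mX j (frobenius F p) z - ((p : ℚ) ^ (j + 3)) • z ∈ NX j F := by
  have e : (2 + 1 + j : ℕ) = j + 3 := by omega
  have h : c3 j (mX j (frobenius F p) z - ((p : ℚ) ^ (j + 3)) • z) = 0 := by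
    rw [map_sub, map_smul, c3_mX, frob_cx p hp 2 j, e, sub_self]
  change c3 j (mX j (frobenius F p) z - ((p : ℚ) ^ (j + 3)) • z) ∈ bdry F 1 j
  rw [h]
  exact Submodule.zero_mem _

include hp in
theorem frob_N2 (j : ℕ) (z : X j F) :
    mX j (frobenius F p) z - ((p : ℚ) ^ (j + 2)) • z ∈ N2 j F := by
  have e : (1 + 1 + j : ℕ) = j + 2 := by omega
  have h : c2 j (mX j (frobenius F p) z - ((p : ℚ) ^ (j + 2)) • z) = 0 := by
    rw [map_sub, map_smul, c2_mX, frob_cx p hp 1 j, e, sub_self]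
  change c2 j (mX j (frobenius F p) z - ((p : ℚ) ^ (j + 2)) • z) ∈ bdry F 0 j
  rw [h]
  exact Submodule.zero_mem _

include hp in
theorem frob_N0 (j : ℕ) (z : Tx j F) :
    resT j (frobenius F p) z - ((p : ℚ) ^ j) • z ∈ N0 j F := by
  rw [frob_tx p j z, sub_self]
  exact Submodule.zero_mem _

end QPL
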