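import Pool.Agent.QPL.ColimA
import Pool.Agent.QPL.LawFrob
import Pool.Agent.QPL.InjT
import Pool.Agent.Helper14.Gon.Tower

set_option autoImplicit false

/-!
# QPL: null cochains are null over a finitely generated extension (law `colimN`)
-/

noncomputable section

open Polynomial TensorProduct
open scoped Classical

namespace QPL

open Helper14.Gon Helper14.W4 TGF

universe u v w

private theorem colimn_resT_comp {A : Type u} {B : Type u} {C : Type u} [Field A] [Field B]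
    [Field C] (j : ℕ) (ψ : B →+* C) (φ : A →+* B) (z : Tx j A) :
    resT j (ψ.comp φ) z = resT j ψ (resT j φ z) := by
  have h : resT j (ψ.comp φ) = (resT j ψ) ∘ₗ (resT j φ) := by
    refine Tx_ext' fun ω => ?_
    rw [LinearMap.comp_apply, resT_toQ, resT_toQ, resT_toQ, resL_comp]
  exact LinearMap.congr_fun h z

variable {M F : Type u} [Field M] [Field F] (φ : M →+* F)

theorem colimN_NX (j : ℕ) (z : X j M) (hz : mX j φ z ∈ NX j F) : ∃ S : Finset F,
    ∀ (L : Type u) [Field L] (ψ : M →+* L) (i : L →+* F), i.comp ψ = φ →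
      (∀ x ∈ S, ∃ y : L, i y = x) → mX j ψ z ∈ NX j L := by
  have h1 : resC 2 j φ (c3 j z) ∈ bdry F 1 j := by
    have h2 : c3 j (mX j φ z) ∈ bdry F 1 j := hz
    rw [c3_mX] at h2
    exact h2
  obtain ⟨s, hs⟩ := ks_bdry φ 1 j (c3 j z) h1
  refine ⟨s, fun L _ ψ i hi hS => ?_⟩
  obtain ⟨e, he⟩ := ks_lift φ s ψ i hi hS
  change c3 j (mX j ψ z) ∈ bdry L 1 j
  rw [c3_mX, ← he, resC_comp]
  exact resC_bdry e 1 j hs

theorem colimN_N2 (j : ℕ) (z : X j M) (hz : mX j φ z ∈ N2 j F) : ∃ S : Finset F,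
    ∀ (L : Type u) [Field L] (ψ : M →+* L) (i : L →+* F), i.comp ψ = φ →
      (∀ x ∈ S, ∃ y : L, i y = x) → mX j ψ z ∈ N2 j L := by
  have h1 : resC 1 j φ (c2 j z) ∈ bdry F 0 j := by
    have h2 : c2 j (mX j φ z) ∈ bdry F 0 j := hz
    rw [c2_mX] at h2
    exact h2
  obtain ⟨s, hs⟩ := ks_bdry φ 0 j (c2 j z) h1
  refine ⟨s, fun L _ ψ i hi hS => ?_⟩
  obtain ⟨e, he⟩ := ks_lift φ s ψ i hi hS
  change c2 j (mX j ψ z) ∈ bdry L 0 j
  rw [c2_mX, ← he, resC_comp]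
  exact resC_bdry e 0 j hs

private theorem colimn_bot (j : ℕ) (z : Tx j M) (hz : resT j φ z = 0)
    (L : Type u) [Field L] (ψ : M →+* L) : resT j ψ z = 0 := by
  have h0 : z = 0 := resT_injective φ j (by rw [hz, map_zero])
  rw [h0, map_zero]

theorem colimN_N0 (j : ℕ) (z : Tx j M) (hz : resT j φ z ∈ N0 j F) : ∃ S : Finset F,
    ∀ (L : Type u) [Field L] (ψ : M →+* L) (i : L →+* F), i.comp ψ = φ →
      (∀ x ∈ S, ∃ y : L, i y = x) → resT j ψ z ∈ N0 j L := by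
  match j, z, hz with
  | 0, z, hz =>
    refine ⟨∅, fun L _ ψ i hi hS => ?_⟩
    have h1 : resT 0 φ z = 0 := hz
    change resT 0 ψ z = 0
    exact colimn_bot φ 0 z h1 L ψ
  | 1, z, hz =>
    refine ⟨∅, fun L _ ψ i hi hS => ?_⟩
    have h1 : resT 1 φ z = 0 := hz
    change resT 1 ψ z = 0
    exact colimn_bot φ 1 z h1 L ψ
  | j + 2, z, hz =>
    have h1 : resT (j + 2) φ z ∈ LinearMap.range (dT j : Cx 2 j F →ₗ[ℚ] Tx (j + 2) F) := hz
    obtain ⟨s, hs⟩ := ks_bdryT φ j z h1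
    refine ⟨s, fun L _ ψ i hi hS => ?_⟩
    obtain ⟨e, he⟩ := ks_lift φ s ψ i hi hS
    change resT (j + 2) ψ z ∈ LinearMap.range (dT j : Cx 2 j L →ₗ[ℚ] Tx (j + 2) L)
    obtain ⟨η, hη⟩ := hs
    refine ⟨resC 1 j e η, ?_⟩
    rw [resT_dT, hη, ← colimn_resT_comp, he]

end QPL
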