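import Pool.Agent.QPL.LawFrob
import Pool.Agent.Helper14.Gon.Inj

set_option autoImplicit false

/-!
# QPL-28: null cochains over algebraically closed fields (law `inj` of `TGF.Thy`)

`F` algebraically closed, `φ : F → L`: as in `Helper14.Gon.Inj` (`exists_point`, `pointsHom`,
`pointsHom_const` with `algebra = φ.toAlgebra`): `range_dC`, `range_dT`, `resC_inj`, `resT_inj`,
and `c3_mX`, `c2_mX`.
-/

noncomputable section

open Polynomial TensorProduct
open scoped Classical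

namespace QPL

open Helper14.Gon Helper14.W4 TGF

universe u v w

variable {F : Type u} {L : Type u} [Field F] [Field L] [IsAlgClosed F] (φ : F →+* L)

private theorem lawinj_ev : ∃ H : EvHom (Filter.atTop : Filter (Finset L)) L (fun _ => F),
    ∀ x : F, ∀ᶠ s in (Filter.atTop : Filter (Finset L)), H.f s (φ x) = x := by
  let _ : Algebra F L := φ.toAlgebra
  have hp : ∀ s : Finset L, Nonempty (Algebra.adjoin F (s : Set L) →ₐ[F] F) :=
    fun s => exists_point s
  exact ⟨pointsHom (fun s => (hp s).some), fun x => pointsHom_const (fun s => (hp s).some) x⟩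

theorem inj_bdry (k j : ℕ) (z : Cx (k + 2) j F) (h : resC (k + 1) j φ z ∈ bdry L k j) :
    z ∈ bdry F k j := by
  obtain ⟨H, hH⟩ := lawinj_ev φ
  cases j with
  | zero =>
    have h1 : resC (k + 1) 0 φ z = 0 := (Submodule.mem_bot ℚ).1 h
    exact (Submodule.mem_bot ℚ).2 (H.resC_inj φ hH (k + 1) 0 z h1)
  | succ j =>
    obtain ⟨η, hη⟩ := h
    obtain ⟨η', h2⟩ := H.range_dC φ hH k j z η hη
    exact ⟨η', h2⟩

theorem inj_NX (j : ℕ) (z : X j F) (hz : mX j φ z ∈ NX j L) : z ∈ NX j F := by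
  have h1 : c3 j (mX j φ z) ∈ bdry L 1 j := hz
  rw [c3_mX] at h1
  exact inj_bdry φ 1 j (c3 j z) h1

theorem inj_N2 (j : ℕ) (z : X j F) (hz : mX j φ z ∈ N2 j L) : z ∈ N2 j F := by
  have h1 : c2 j (mX j φ z) ∈ bdry L 0 j := hz
  rw [c2_mX] at h1
  exact inj_bdry φ 0 j (c2 j z) h1

theorem inj_N0 (j : ℕ) (z : Tx j F) (hz : resT j φ z ∈ N0 j L) : z ∈ N0 j F := by
  obtain ⟨H, hH⟩ := lawinj_ev φ
  match j, z, hz with
  | 0, z, hz =>
    have h1 : resT 0 φ z = 0 := (Submodule.mem_bot ℚ).1 hz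
    exact (Submodule.mem_bot ℚ).2 (H.resT_inj φ hH 0 z h1)
  | 1, z, hz =>
    have h1 : resT 1 φ z = 0 := (Submodule.mem_bot ℚ).1 hz
    exact (Submodule.mem_bot ℚ).2 (H.resT_inj φ hH 1 z h1)
  | j + 2, z, hz =>
    obtain ⟨η, hη⟩ := hz
    obtain ⟨η', h2⟩ := H.range_dT φ hH j z η hη
    exact ⟨η', h2⟩

end QPL
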