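import Pool.Agent.QPL.ReD

set_option autoImplicit false

/-!
# QPL-26: residues of null cochains (law `re_N` of `TGF.Thy`)

`NX`, `N2`, `N0` are defined by `bdry`, `dT`: use `c3_reX`, `c2_reX`, `reC_dC`, `reC_dC_zero`,
`reT_dT`, `reT_dT_zero`, cases on `j`.
-/

noncomputable section

open Polynomial TensorProduct
open scoped Classical

namespace QPL

open Helper14.Gon Helper14.W4 TGF

universe u v w

variable {L : Type u} {k : Type v} [Field L] [Field k] (V : AC L k)

theorem reX_NX (j : ℕ) (z : X (j + 1) L) (hz : z ∈ NX (j + 1) L) : reX V j z ∈ NX j k := by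
  obtain ⟨y, hy⟩ := hz
  change c3 j (reX V j z) ∈ bdry k 1 j
  rw [c3_reX, ← hy]
  cases j with
  | zero =>
    change _ ∈ (⊥ : Submodule ℚ _)
    rw [Submodule.mem_bot]
    exact reC_dC_zero V 1 y
  | succ j =>
    refine ⟨- reC 2 V j y, ?_⟩
    rw [map_neg]
    exact (reC_dC V 1 j y).symm

theorem reX_N2 (j : ℕ) (z : X (j + 1) L) (hz : z ∈ N2 (j + 1) L) : reX V j z ∈ N2 j k := by
  obtain ⟨y, hy⟩ := hz
  change c2 j (reX V j z) ∈ bdry k 0 j
  rw [c2_reX, ← hy]
  cases j with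
  | zero =>
    change _ ∈ (⊥ : Submodule ℚ _)
    rw [Submodule.mem_bot]
    exact reC_dC_zero V 0 y
  | succ j =>
    refine ⟨- reC 1 V j y, ?_⟩
    rw [map_neg]
    exact (reC_dC V 0 j y).symm

theorem reT_N0 (j : ℕ) (z : Tx (j + 1) L) (hz : z ∈ N0 (j + 1) L) : reT V j z ∈ N0 j k := by
  match j, z, hz with
  | 0, z, hz =>
    have h : z = 0 := hz
    rw [h, map_zero]
    exact Submodule.zero_mem _
  | 1, z, hz =>
    obtain ⟨y, rfl⟩ := hz
    rw [reT_dT_zero]
    exact Submodule.zero_mem _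
  | j + 2, z, hz =>
    obtain ⟨y, rfl⟩ := hz
    exact ⟨reC 0 V j y, (reT_dT V j y).symm⟩

end QPL
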