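import Pool.Agent.QPL.CxMap

set_option autoImplicit false

/-!
# QPL-25: residues and differentials

The residues anticommute with the differentials `dC` and commute with `dT` (compatibility on the
generators `PB (m+3) (j+1) (cl (m+3) x) ω`).
-/

noncomputable section

open Polynomial TensorProduct
open scoped Classical

namespace QPL

open Helper14.Gon Helper14.W4 TGF

universe u v w

variable {L : Type u} {k : Type v} [Field L] [Field k] (V : AC L k)

/-- the cases for the reduction of a point -/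
private lemma red_cases (x : P1 L) : (lgP x = 0 ∧ lgP (V.rd x) = 0) ∨
    (∃ a : L, x = some a ∧ a ≠ 0 ∧ V.v a = 0 ∧ V.rd x = some (V.lc a)) ∨
    (∀ n : ℕ, cl (n + 1) (V.rd x) = 0) := by
  cases x with
  | none => left; exact ⟨rfl, rfl⟩
  | some a =>
    by_cases ha : a = 0
    · left
      subst ha
      rw [AC.rd_zero]
      exact ⟨lg_zero, lg_zero⟩
    · rcases lt_trichotomy (V.v a) 0 with h | h | h
      · right; right
        intro n
        rw [AC.rd_neg V ha h]
        exact (QuotientAddGroup.eq_zero_iff _).2 (br_inf_mem n)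
      · right; left
        exact ⟨a, rfl, ha, h, AC.rd_unit V ha h⟩
      · right; right
        intro n
        rw [AC.rd_pos V h]
        exact (QuotientAddGroup.eq_zero_iff _).2 (br_zero_mem n)

private lemma red_PB0 (n j : ℕ) (b : B n k) (hb : b = 0) (ω : Tx j k) : PB n j b ω = 0 := by
  rw [hb, map_zero, LinearMap.zero_apply]

theorem reC_dC (m j : ℕ) (y : Cx (m + 3) (j + 1) L) :
    reC m V (j + 1) (dC m (j + 1) y) = - dC m j (reC (m + 1) V j y) := by
  refine Cx_ind (fun y => reC m V (j + 1) (dC m (j + 1) y) = - dC m j (reC (m + 1) V j y))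
    ?_ ?_ ?_ y
  · rw [map_zero, map_zero, map_zero, map_zero, neg_zero]
  · intro a b ha hb
    rw [map_add, map_add, ha, hb, map_add, map_add, neg_add]
  · intro x ω
    have h2 : reC (m + 1) V j (PB (m + 3) (j + 1) (cl (m + 3) x) ω) =
        PB (m + 3) j (cl (m + 3) (V.rd x)) (reT V j ω) := reC_PB (m + 1) V j x ω
    rw [dC_PB, reC_PB, h2, dC_PB, reT_wT]
    rcases red_cases V x with ⟨h3, h4⟩ | ⟨a, rfl, ha, hv, hr⟩ | h
    · rw [h3, h4, map_zero, map_zero, wT_zero, zero_smul, LinearMap.zero_apply,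
        sub_zero, LinearMap.map_zero, neg_zero]
    · rw [hr, lgP_some, lgP_some, vH_lg V ha, lH_lg V ha, hv, zero_smul, zero_sub, map_neg]
    · rw [red_PB0 _ _ _ (h (m + 1)), red_PB0 _ _ _ (h (m + 1)), neg_zero]

theorem reC_dC_zero (m : ℕ) (y : Cx (m + 3) 0 L) : reC m V 0 (dC m 0 y) = 0 := by
  refine Cx_ind (fun y => reC m V 0 (dC m 0 y) = 0) ?_ ?_ ?_ y
  · rw [map_zero, map_zero]
  · intro a b ha hb
    rw [map_add, map_add, ha, hb, add_zero]
  · intro x ω
    rw [dC_PB, reC_PB, reT_wT_zero]
    rcases red_cases V x with ⟨h3, h4⟩ | ⟨a, rfl, ha, hv, hr⟩ | h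
    · rw [h3, map_zero, zero_smul, LinearMap.map_zero]
    · rw [lgP_some, vH_lg V ha, hv, zero_smul, LinearMap.map_zero]
    · exact red_PB0 _ _ _ (h (m + 1)) _

theorem reT_dT (j : ℕ) (y : Cx 2 (j + 1) L) :
    reT V (j + 2) (dT (j + 1) y) = dT j (reC 0 V j y) := by
  refine Cx_ind (fun y => reT V (j + 2) (dT (j + 1) y) = dT j (reC 0 V j y)) ?_ ?_ ?_ y
  · rw [map_zero, map_zero, map_zero, map_zero]
  · intro a b ha hb
    rw [map_add, map_add, ha, hb, map_add, map_add]
  · intro x ω
    have h2 : reC 0 V j (PB 2 (j + 1) (cl 2 x) ω) =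
        PB 2 j (cl 2 (V.rd x)) (reT V j ω) := reC_PB 0 V j x ω
    rw [dT_PB, h2, dT_PB]
    cases x with
    | none =>
      rw [lgP_none, wT_zero, LinearMap.zero_apply, map_zero, map_zero, AC.rd_none, lgP_none,
        wT_zero, LinearMap.zero_apply, map_zero]
    | some a =>
      rw [lgP_some]
      change reT V (j + 2) (wT (j + 2) (lg (1 - a)) (wT (j + 1) (lg a) ω)) = _
      rw [reT_st]
      by_cases ha : a = 0
      · subst ha
        rw [if_neg (fun h => h.1 rfl), AC.rd_zero, lgP_some, lg_zero, wT_zero,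
          LinearMap.zero_apply, map_zero]
      · rcases lt_trichotomy (V.v a) 0 with h | h | h
        · rw [if_neg (fun h' => h.ne h'.2), AC.rd_neg V ha h, lgP_none, wT_zero,
            LinearMap.zero_apply, map_zero]
        · rw [if_pos ⟨ha, h⟩, AC.rd_unit V ha h]
          rfl
        · rw [if_neg (fun h' => h.ne' h'.2), AC.rd_pos V h, lgP_some, lg_zero, wT_zero,
            LinearMap.zero_apply, map_zero]

theorem reT_dT_zero (y : Cx 2 0 L) : reT V 1 (dT 0 y) = 0 := by
  refine Cx_ind (fun y => reT V 1 (dT 0 y) = 0) ?_ ?_ ?_ y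
  · rw [map_zero, map_zero]
  · intro a b ha hb
    rw [map_add, map_add, ha, hb, add_zero]
  · intro x ω
    rw [dT_PB]
    cases x with
    | none => rw [lgP_none, wT_zero, LinearMap.zero_apply, map_zero, map_zero]
    | some a => exact reT_st_zero V a ω

end QPL
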