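import Pool.Agent.QPL.CxMap
import Pool.Agent.Helper14.W4.H3
import Pool.Agent.Helper14.W4.H5

set_option autoImplicit false

/-!
# QPL-30: residues of constants and of `(t - a) ∧ z`

`at_C`, `inf_C`: `RatFunc.C x = algebraMap _ _ (C x)`.  `reC_const`: on the generators `rC_PB`,
`reC_PB`; `reT W j (rT (j+1) ω) = 0` since `W.vH` vanishes on constants (`ctT_dm`).
`reC_ee`: `wC_PB`, `reT_wT`, `reT_wT_zero`, `W.rd (mapP C x) = x`, `spT W j (rT j ω) = ω`.
-/

noncomputable section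

open Polynomial TensorProduct
open scoped Classical

namespace QPL

open Helper14.Gon Helper14.W4 TGF

universe u v w

variable {K : Type u} [Field K]

theorem at_C {b : K} {W : AC (RatFunc K) K} (h : IsAt b W) (x : K) (hx : x ≠ 0) :
    W.v (RatFunc.C x) = 0 ∧ W.lc (RatFunc.C x) = x := by
  have hC : (C x : K[X]) ≠ 0 := C_ne_zero.2 hx
  have h1 := h.v (C x) hC
  have h2 := h.lc (C x) hC
  rw [RatFunc.algebraMap_C] at h1 h2
  rw [rootMultiplicity_C, Nat.cast_zero] at h1
  rw [rootMultiplicity_C, pow_zero, divByMonic_one, eval_C] at h2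
  exact ⟨h1, h2⟩

theorem inf_C {W : AC (RatFunc K) K} (h : IsInf W) (x : K) (hx : x ≠ 0) :
    W.v (RatFunc.C x) = 0 ∧ W.lc (RatFunc.C x) = x := by
  have hC : (C x : K[X]) ≠ 0 := C_ne_zero.2 hx
  have h1 := h.v (C x) hC
  have h2 := h.lc (C x) hC
  rw [RatFunc.algebraMap_C] at h1 h2
  rw [natDegree_C, Nat.cast_zero, neg_zero] at h1
  rw [leadingCoeff_C] at h2
  exact ⟨h1, h2⟩

theorem at_X {b : K} {W : AC (RatFunc K) K} (h : IsAt b W) (a : K) :
    W.v (RatFunc.X - RatFunc.C a) = if a = b then 1 else 0 := by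
  have h1 := h.v (Polynomial.X - C a) (X_sub_C_ne_zero a)
  rw [map_sub, RatFunc.algebraMap_X, RatFunc.algebraMap_C, rootMultiplicity_X_sub_C] at h1
  rw [h1]
  by_cases hab : a = b
  · rw [if_pos hab.symm, if_pos hab, Nat.cast_one]
  · rw [if_neg (Ne.symm hab), if_neg hab, Nat.cast_zero]

theorem inf_X {W : AC (RatFunc K) K} (h : IsInf W) (a : K) :
    W.v (RatFunc.X - RatFunc.C a) = -1 := by
  have h1 := h.v (Polynomial.X - C a) (X_sub_C_ne_zero a)
  rw [map_sub, RatFunc.algebraMap_X, RatFunc.algebraMap_C, natDegree_X_sub_C, Nat.cast_one] at h1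
  exact h1

private lemma reca_tm {L : Type u} {k : Type v} [Field L] [Field k] {j : ℕ} (σ : Additive Lˣ →+ Additive kˣ)
    (v : Fin j → Additive Lˣ) : tm j σ (dm v) = dm (fun i => σ (v i)) := by
  rw [tm, dm, toQ, LinearMap.baseChange_tmul, exteriorPower.map_apply_ιMulti]; rfl

private lemma reca_ne (a : K) : (RatFunc.X - RatFunc.C a : RatFunc K) ≠ 0 := by
  have h := RatFunc.algebraMap_ne_zero (K := K) (X_sub_C_ne_zero a)
  rwa [map_sub, RatFunc.algebraMap_X, RatFunc.algebraMap_C] at h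

private lemma reca_ct {F : Type u} [Field F] (j : ℕ) (ω : Tx (j + 1) F) : ctT j (0 : Additive Fˣ →+ ℚ) ω = 0 := by
  have h := ctT_add j (0 : Additive Fˣ →+ ℚ) 0 ω
  rw [add_zero] at h
  exact left_eq_add.1 h

variable (W : AC (RatFunc K) K)
  (hW : ∀ x : K, x ≠ 0 → W.v (RatFunc.C x) = 0 ∧ W.lc (RatFunc.C x) = x)

include hW

private lemma reca_v : W.vH.comp rU = 0 := by
  refine DFunLike.ext _ _ fun v => ?_
  have hv : v = lg ((v.toMul : K)) := (lg_unit v.toMul).symm
  have h0 : (RatFunc.C ((v.toMul : K)) : RatFunc K) ≠ 0 := by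
    rw [_root_.map_ne_zero]
    exact v.toMul.ne_zero
  rw [AddMonoidHom.comp_apply, hv, rU, resU_lg, vH_lg W h0, (hW _ v.toMul.ne_zero).1]
  rfl

private lemma reca_l (v : Additive Kˣ) : W.lH (rU v) = v := by
  have hv : v = lg ((v.toMul : K)) := (lg_unit v.toMul).symm
  have h0 : (RatFunc.C ((v.toMul : K)) : RatFunc K) ≠ 0 := by
    rw [_root_.map_ne_zero]
    exact v.toMul.ne_zero
  rw [hv, rU, resU_lg, lH_lg W h0, (hW _ v.toMul.ne_zero).2]

private lemma reca_sp (j : ℕ) (ω : Tx j K) : TGF.spT W j (rT j ω) = ω := by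
  have : (TGF.spT W j) ∘ₗ (rT j) = LinearMap.id := by
    refine Tx_ext fun v => ?_
    change TGF.spT W j (rT j (dm v)) = dm v
    rw [rT_dm, TGF.spT, reca_tm]
    congr 1
    funext i
    exact reca_l W hW _
  exact LinearMap.congr_fun this ω

private lemma reca_rd (x : P1 K) : W.rd (mapP (RatFunc.C : K →+* RatFunc K) x) = x := by
  cases x with
  | none => rfl
  | some x =>
    rw [mapP_some]
    by_cases hx : x = 0
    · subst hx
      rw [map_zero]
      exact W.rd_zero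
    · have h0 : (RatFunc.C x : RatFunc K) ≠ 0 := by
        rw [_root_.map_ne_zero]
        exact hx
      rw [W.rd_unit h0 (hW x hx).1, (hW x hx).2]

theorem reT_const (j : ℕ) (ω : Tx (j + 1) K) : reT W j (rT (j + 1) ω) = 0 := by
  change tm j W.lH (ctT j W.vH (rT (j + 1) ω)) = 0
  rw [ctT_rT, reca_v W hW, reca_ct, map_zero, map_zero]

theorem reT_ee (j : ℕ) (a : K) (ω : Tx j K) :
    reT W j (wT j (ee a) (rT j ω)) = W.v (RatFunc.X - RatFunc.C a) • ω := by
  cases j with
  | zero => rw [reT_wT_zero, reca_sp W hW, ee, vH_lg W (reca_ne a)]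
  | succ j => rw [reT_wT, reca_sp W hW, reT_const W hW, map_zero, sub_zero, ee, vH_lg W (reca_ne a)]

theorem reC_const (m j : ℕ) (z : Cx (m + 2) (j + 1) K) : reC m W j (rC m (j + 1) z) = 0 := by
  have : (reC m W j) ∘ₗ (rC m (j + 1)) = 0 := by
    refine Cx_ext fun x ω => ?_
    rw [LinearMap.comp_apply, ← PB_gen]
    have e := rC_PB m (j + 1) x (toQ ω)
    rw [e, reC_PB, reT_const W hW, map_zero]
    rfl
  exact LinearMap.congr_fun this z

theorem reC_ee (m j : ℕ) (a : K) (z : Cx (m + 2) j K) :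
    reC m W j (wC (m + 2) j (ee a) (rC m j z)) = W.v (RatFunc.X - RatFunc.C a) • z := by
  have : (reC m W j) ∘ₗ (wC (m + 2) j (ee a)) ∘ₗ (rC m j) = W.v (RatFunc.X - RatFunc.C a) • LinearMap.id := by
    refine Cx_ext fun x ω => ?_
    rw [LinearMap.comp_apply, LinearMap.comp_apply, ← PB_gen]
    have e := rC_PB m j x (toQ ω)
    rw [e, wC_PB, reC_PB, reT_ee W hW, reca_rd W hW, map_smul]
    rfl
  exact LinearMap.congr_fun this z

end QPL
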