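import Pool.Agent.QPL.RecFin
import Pool.Agent.QPL.RecA
import Pool.Agent.QPL.ReD
import Pool.Agent.Helper52.W4.Top

set_option autoImplicit false

/-!
# QPL-32: reciprocity on the line, top degree

`j = 0`: `Tx 1`: `S1_top` of `Helper52.W4.Top` (see `locTop_zero` in `Helper14.Loc.Top`):
`z = rT z0 + Σ (t - a) ∧ rT (za a)`.  `j + 1`: `surjT j z`; `reT_const`, `reT_ee`, `at_X`,
`inf_X`, `reT_dT`, `reT_dT_zero`.
-/

noncomputable section

open Polynomial TensorProduct
open scoped Classical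

namespace QPL

open Helper14.Gon Helper14.W4 TGF

universe u v w

variable {K : Type u} [Field K] [IsAlgClosed K] (V : K → AC (RatFunc K) K)
  (V' : AC (RatFunc K) K) (hV : ∀ a, IsAt a (V a)) (hV' : IsInf V')

include hV in
omit [IsAlgClosed K] in
/-- the residue at `b` of `const + ∑ (t - a) ∧ const` -/
private theorem rect_at (j : ℕ) (z0 : Tx (j + 1) K) (s : Finset K) (za : K → Tx j K) (b : K) :
    reT (V b) j (rT (j + 1) z0 + ∑ a ∈ s, wT j (ee a) (rT j (za a))) =
      if b ∈ s then za b else 0 := by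
  rw [map_add, reT_const (V b) (at_C (hV b)) j z0, zero_add, map_sum]
  have h : ∀ a ∈ s, reT (V b) j (wT j (ee a) (rT j (za a))) = if a = b then za a else 0 := by
    intro a _
    rw [reT_ee (V b) (at_C (hV b)) j a (za a), at_X (hV b) a]
    split_ifs
    · rw [one_smul]
    · rw [zero_smul]
  rw [Finset.sum_congr rfl h, Finset.sum_ite_eq']

include hV' in
omit [IsAlgClosed K] in
/-- the residue at `∞` of `const + ∑ (t - a) ∧ const` -/
private theorem rect_inf (j : ℕ) (z0 : Tx (j + 1) K) (s : Finset K) (za : K → Tx j K) :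
    reT V' j (rT (j + 1) z0 + ∑ a ∈ s, wT j (ee a) (rT j (za a))) = - ∑ a ∈ s, za a := by
  rw [map_add, reT_const V' (inf_C hV') j z0, zero_add, map_sum, ← Finset.sum_neg_distrib]
  refine Finset.sum_congr rfl fun a _ => ?_
  rw [reT_ee V' (inf_C hV') j a (za a), inf_X hV' a, neg_smul, one_smul]

include hV hV' in
theorem recip_N0 (j : ℕ) (z : Tx (j + 1) (RatFunc K)) :
    ∃ s : Finset K, (∀ a, a ∉ s → reT (V a) j z = 0) ∧
      ∑ a ∈ s, reT (V a) j z + reT V' j z ∈ N0 j K := by
  cases j with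
  | zero =>
    obtain ⟨x, ⟨w0, rfl⟩, y, ⟨f, rfl⟩, rfl⟩ := Submodule.mem_sup.1 (TopAux.S1_top z)
    refine ⟨f.support, fun a ha => ?_, ?_⟩
    · rw [TopAux.EM_apply, rect_at V hV 0 w0 f.support f a, if_neg ha]
    · rw [TopAux.EM_apply, rect_inf V' hV' 0 w0 f.support f,
        Finset.sum_congr rfl fun a ha => by rw [rect_at V hV 0 w0 f.support f a, if_pos ha],
        add_neg_cancel]
      exact zero_mem _
  | succ j =>
    obtain ⟨w0, s, wa, v, hz⟩ := surjT j z
    obtain ⟨s', hs'⟩ := reT_fin V hV (j + 1) z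
    refine ⟨s ∪ s', fun a ha => hs' a fun h => ha (Finset.mem_union_right _ h), ?_⟩
    have e1 : ∀ b, reT (V b) (j + 1) z = (if b ∈ s then wa b else 0) + reT (V b) (j + 1) (dT j v) := by
      intro b
      rw [hz, map_add, rect_at V hV (j + 1) w0 s wa b]
    have e2 : reT V' (j + 1) z = - ∑ a ∈ s, wa a + reT V' (j + 1) (dT j v) := by
      rw [hz, map_add, rect_inf V' hV' (j + 1) w0 s wa]
    have e3 : ∑ b ∈ s ∪ s', (if b ∈ s then wa b else 0) = ∑ a ∈ s, wa a := by
      rw [Finset.sum_ite_mem, Finset.union_inter_cancel_left]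
    have e4 : ∑ a ∈ s ∪ s', reT (V a) (j + 1) z + reT V' (j + 1) z =
        ∑ b ∈ s ∪ s', reT (V b) (j + 1) (dT j v) + reT V' (j + 1) (dT j v) := by
      rw [e2, Finset.sum_congr rfl fun b _ => e1 b, Finset.sum_add_distrib, e3]
      abel
    rw [e4]
    have e5 : ∀ W : AC (RatFunc K) K, reT W (j + 1) (dT j v) ∈ N0 (j + 1) K := by
      intro W
      cases j with
      | zero =>
        rw [reT_dT_zero W v]
        exact zero_mem _
      | succ j =>
        rw [reT_dT W j v]
        exact ⟨reC 0 W j v, rfl⟩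
    exact add_mem (Submodule.sum_mem _ fun b _ => e5 (V b)) (e5 V')

end QPL
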