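import Pool.Agent.QPL.RecFin
import Pool.Agent.QPL.RecA
import Pool.Agent.QPL.ReD
import Pool.Agent.Helper14.Loc.Main
import Pool.Agent.Helper42.LT.Fin1
import Pool.Agent.Helper42.LT.Fin0
import Pool.Agent.TGF.Cc

set_option autoImplicit false

/-!
# QPL-31: reciprocity on the line (law `recip` of `TGF.Thy`), below the top degree

`recip_C`: `Surj` gives `z = rC z0 + Σ_{a ∈ s0} (t - a) ∧ rC (za a) + dC w`; for `s ⊇ s0`:
`Σ_{b ∈ s} reC (V b) z = Σ_{a ∈ s0} za a + Σ_{b ∈ s} reC (V b) (dC w)` and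
`reC V' z = - Σ_{a ∈ s0} za a + reC V' (dC w)` (`reC_const`, `reC_ee`, `at_X`, `inf_X`), and
`reC (dC w) ∈ bdry` (`reC_dC`, `reC_dC_zero`).
`recip_NX`: `c3 z` is a cocycle since `dC 0 (j+1) (c3 z) = c2 (d3 z) = 0` (`dC_PB`); take
`s` containing `s0` and the set of `reX_fin`; `c3_reX`.  `surj_one`.
`recip_N2`: `dT (c2 z) = d2 z` (`dT_PB`); `surj_zero`.
-/

noncomputable section

open Polynomial TensorProduct
open scoped Classical

namespace QPL

open Helper14.Gon Helper14.W4 TGF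

universe u v w

variable {K : Type u} [Field K] [IsAlgClosed K] (V : K → AC (RatFunc K) K)
  (V' : AC (RatFunc K) K) (hV : ∀ a, IsAt a (V a)) (hV' : IsInf V')

omit [IsAlgClosed K] in
include hV hV' in
theorem recip_C (k j : ℕ) (hs : Helper14.Loc.Surj K k j) (z : Cx (k + 2) (j + 1) (RatFunc K))
    (hz : z ∈ cyc (RatFunc K) k (j + 1)) : ∃ s0 : Finset K, ∀ s : Finset K, s0 ⊆ s →
      ∑ a ∈ s, reC k (V a) j z + reC k V' j z ∈ bdry K k j := by
  obtain ⟨z0, s0, za, w, hz0, hza, rfl⟩ := hs z hz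
  have hb : ∀ W : AC (RatFunc K) K, reC k W j (dC k j w) ∈ bdry K k j := by
    intro W
    cases j with
    | zero => rw [reC_dC_zero]; exact zero_mem _
    | succ j =>
      rw [reC_dC]
      exact neg_mem ⟨reC (k + 1) W j w, rfl⟩
  have h1 : ∀ a : K, reC k (V a) j (Helper14.W4.rC k (j + 1) z0 +
      ∑ c ∈ s0, wC (k + 2) j (ee c) (rC k j (za c)) + dC k j w) =
      ∑ c ∈ s0, (if c = a then (1 : ℚ) else 0) • za c + reC k (V a) j (dC k j w) := by
    intro a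
    rw [map_add, map_add, reC_const (V a) (at_C (hV a)), zero_add, map_sum]
    congr 1
    refine Finset.sum_congr rfl fun c _ => ?_
    rw [reC_ee (V a) (at_C (hV a)), at_X (hV a)]
  have h2 : reC k V' j (Helper14.W4.rC k (j + 1) z0 +
      ∑ c ∈ s0, wC (k + 2) j (ee c) (rC k j (za c)) + dC k j w) =
      - ∑ c ∈ s0, za c + reC k V' j (dC k j w) := by
    rw [map_add, map_add, reC_const V' (inf_C hV'), zero_add, map_sum]
    congr 1
    rw [← Finset.sum_neg_distrib]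
    refine Finset.sum_congr rfl fun c _ => ?_
    rw [reC_ee V' (inf_C hV'), inf_X hV', neg_smul, one_smul]
  refine ⟨s0, fun s hs0 => ?_⟩
  rw [Finset.sum_congr rfl fun a _ => h1 a, h2, Finset.sum_add_distrib, Finset.sum_comm]
  have h3 : ∑ c ∈ s0, ∑ a ∈ s, (if c = a then (1 : ℚ) else 0) • za c = ∑ c ∈ s0, za c := by
    refine Finset.sum_congr rfl fun c hc => ?_
    rw [← Finset.sum_smul, Finset.sum_ite_eq, if_pos (hs0 hc), one_smul]
  rw [h3]
  have h4 : ∑ c ∈ s0, za c + ∑ a ∈ s, reC k (V a) j (dC k j w) +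
      (- ∑ c ∈ s0, za c + reC k V' j (dC k j w)) =
      ∑ a ∈ s, reC k (V a) j (dC k j w) + reC k V' j (dC k j w) := by abel
  rw [h4]
  exact add_mem (sum_mem fun a _ => hb (V a)) (hb V')

include hV hV' in
theorem recip_NX (j : ℕ) (z : X (j + 1) (RatFunc K)) (hz : c2 (j + 2) (d3 (j + 1) z) = 0) :
    ∃ s : Finset K, (∀ a, a ∉ s → reX (V a) j z = 0) ∧
      ∑ a ∈ s, reX (V a) j z + reX V' j z ∈ NX j K := by
  have hc : c3 (j + 1) z ∈ cyc (RatFunc K) 1 (j + 1) := by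
    change dC 0 (j + 1) (c3 (j + 1) z) = 0
    rw [← TGF.c2_d3]; exact hz
  obtain ⟨s0, h0⟩ := recip_C V V' hV hV' 1 j (Helper42.LT.surj_one j) (c3 (j + 1) z) hc
  obtain ⟨s1, h1⟩ := reX_fin V hV j z
  refine ⟨s0 ∪ s1, fun a ha => h1 a fun h => ha (Finset.mem_union_right _ h), ?_⟩
  change c3 j _ ∈ bdry K 1 j
  rw [map_add, map_sum, c3_reX, Finset.sum_congr rfl fun a _ => c3_reX (V a) j z]
  exact h0 _ Finset.subset_union_left

include hV hV' in
theorem recip_N2 (j : ℕ) (z : X (j + 1) (RatFunc K)) (hz : d2 (j + 1) z = 0) :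
    ∃ s : Finset K, (∀ a, a ∉ s → reX (V a) j z = 0) ∧
      ∑ a ∈ s, reX (V a) j z + reX V' j z ∈ N2 j K := by
  have hc : c2 (j + 1) z ∈ cyc (RatFunc K) 0 (j + 1) := by
    change dT (j + 1) (c2 (j + 1) z) = 0
    rw [TGF.dT_c2]; exact hz
  obtain ⟨s0, h0⟩ := recip_C V V' hV hV' 0 j (Helper42.LT.surj_zero j) (c2 (j + 1) z) hc
  obtain ⟨s1, h1⟩ := reX_fin V hV j z
  refine ⟨s0 ∪ s1, fun a ha => h1 a fun h => ha (Finset.mem_union_right _ h), ?_⟩
  change c2 j _ ∈ bdry K 0 j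
  rw [map_add, map_sum, c2_reX, Finset.sum_congr rfl fun a _ => c2_reX (V a) j z]
  exact h0 _ Finset.subset_union_left

end QPL
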