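import Pool.Agent.TGF.Pf
import Pool.Agent.QPL.LawFrob

set_option autoImplicit false

/-!
# QPL-37: cochains which reduce to a field algebraic over `F_p` (law `small`)

Elementwise: `lc_φ : F^* → k^*`, `x ↦ lc (φ x)`, is torsion valued, so `spT V (j+1) (resT (j+1) φ ω) = 0`
and `tm (j+1) V.lH (resT ..) = 0` (`TGF.tm_tors`, `TGF.resT_eq_tm`, `tm_comp`, `ctT_tm`).
`ζ ^ m = 1`, `m ≠ 0` in characteristic `p`: there is `r ≥ 1` with `ζ ^ (p ^ r) = ζ` (the order of `ζ`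
is prime to `p`, Euler), so `N • br (some ζ) ∈ R (n + 1) k` for some `N ≠ 0` (`frob_pow`, as in
`tors_all`), so `c3 j (bx ζ ω) = 0`, `c2 j (bx ζ ω) = 0`.
`reX V j (wX j v z)` for `z = mX j φ (bx x ω)`: it is `0` or `bx ζ _` with `ζ = lc (φ x)`; so `c3`,
`c2` of it is `0` (`reX_bx`), and `0 ∈ bdry`.
`N0`: `j ≥ 2`: `reT_wT`: `spT .. (resT φ z) = 0` and `reT V (j-1) (resT φ z) = 0` (both are
in the image of a power `Λ^(≥ 1)` of the torsion valued map).
-/

noncomputable section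

open Polynomial TensorProduct
open scoped Classical

namespace QPL

open Helper14.Gon Helper14.W4 TGF

universe u v w

variable (p : ℕ) (hp : p.Prime) {F L k : Type u} [Field F] [Field L] [Field k] [CharP k p]
  (V : AC L k) (φ : F →+* L) (h : ∀ x : F, x ≠ 0 → ∃ m : ℕ, m ≠ 0 ∧ V.lc (φ x) ^ m = 1)

include hp in
private theorem small_pow {ζ : k} (hζ : ∃ m : ℕ, m ≠ 0 ∧ ζ ^ m = 1) :
    ∃ r : ℕ, r ≠ 0 ∧ ζ ^ p ^ r = ζ := by
  have := Fact.mk hp
  obtain ⟨m, hm, h1⟩ := hζ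
  have hd : 0 < orderOf ζ := orderOf_pos_iff.2 (isOfFinOrder_iff_pow_eq_one.2 ⟨m, Nat.pos_of_ne_zero hm, h1⟩)
  have hc : Nat.Coprime p (orderOf ζ) := by
    rw [Nat.Prime.coprime_iff_not_dvd hp]
    rintro ⟨e, he⟩
    have h2 : (ζ ^ e) ^ p = 1 := by
      rw [← pow_mul, mul_comm, ← he, pow_orderOf_eq_one]
    have h3 : ζ ^ e = 1 := by
      refine frobenius_inj k p ?_
      rw [frobenius_def, frobenius_def, h2, one_pow]
    have h4 := orderOf_dvd_of_pow_eq_one h3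
    have he0 : 0 < e := by
      rcases Nat.eq_zero_or_pos e with h5 | h5
      · rw [h5, mul_zero] at he
        omega
      · exact h5
    have h5 := Nat.le_of_dvd he0 h4
    have h6 := hp.two_le
    rw [he] at h5
    nlinarith
  refine ⟨Nat.totient (orderOf ζ), (Nat.totient_pos.2 hd).ne', ?_⟩
  have h2 := Nat.ModEq.pow_totient hc
  have h3 : ζ ^ p ^ Nat.totient (orderOf ζ) = ζ ^ 1 := by
    rw [← pow_mod_orderOf ζ (p ^ Nat.totient (orderOf ζ)), ← pow_mod_orderOf ζ 1]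
    exact congrArg (fun i => ζ ^ i) h2
  rw [h3, pow_one]

include hp in
private theorem small_cl (n : ℕ) {ζ : k} (hζ : ∃ m : ℕ, m ≠ 0 ∧ ζ ^ m = 1) :
    ∃ N : ℤ, N ≠ 0 ∧ N • cl (n + 1) (some ζ) = 0 := by
  obtain ⟨m, hm, hx⟩ := small_pow p hp hζ
  have h2 := frob_pow p hp n k ζ m
  rw [hx] at h2
  refine ⟨1 - (p : ℤ) ^ ((n + 1) * m), ?_, (QuotientAddGroup.eq_zero_iff _).2 ?_⟩
  · intro h0
    have h3 : (p : ℤ) ^ ((n + 1) * m) = 1 := by linarith
    have h4 : p ^ ((n + 1) * m) = 1 := by exact_mod_cast h3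
    have h5 : (n + 1) * m ≠ 0 := mul_ne_zero (Nat.succ_ne_zero n) hm
    exact (pow_eq_one_iff.1 h4).elim hp.one_lt.ne' h5
  · change (1 - (p : ℤ) ^ ((n + 1) * m)) • br (some ζ) ∈ R (n + 1) k
    rwa [sub_smul, one_smul]

include hp in
private theorem small_PB (n j : ℕ) {ζ : k} (hζ : ∃ m : ℕ, m ≠ 0 ∧ ζ ^ m = 1) (ω : Tx j k) :
    PB (n + 1) j (cl (n + 1) (some ζ)) ω = 0 := by
  obtain ⟨N, hN, h1⟩ := small_cl p hp n hζ
  have h2 : N • PB (n + 1) j (cl (n + 1) (some ζ)) ω = 0 := by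
    have h3 : N • PB (n + 1) j (cl (n + 1) (some ζ)) = 0 := by
      rw [← map_zsmul, h1, map_zero]
    have h4 := LinearMap.congr_fun h3 ω
    exact h4
  rw [← Int.cast_smul_eq_zsmul ℚ, smul_eq_zero] at h2
  rcases h2 with h2 | h2
  · exact absurd (Int.cast_eq_zero.1 h2) hN
  · exact h2

include hp in
theorem small_c3 (j : ℕ) (ζ : k) (hζ : ∃ m : ℕ, m ≠ 0 ∧ ζ ^ m = 1) (ω : Tx j k) :
    c3 j (bx ζ ω) = 0 ∧ c2 j (bx ζ ω) = 0 := by
  rw [c3_bx, c2_bx]
  exact ⟨small_PB p hp 2 j hζ ω, small_PB p hp 1 j hζ ω⟩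

include hp h in
private theorem small_c (j : ℕ) (v : Additive Lˣ) (z : X j F) :
    c3 j (reX V j (wX j v (mX j φ z))) = 0 ∧ c2 j (reX V j (wX j v (mX j φ z))) = 0 := by
  induction z using x_ind with
  | h0 => simp only [map_zero, and_self]
  | hadd a b ha hb =>
    simp only [map_add]
    rw [ha.1, ha.2, hb.1, hb.2]
    simp only [add_zero, and_self]
  | h1 x ω =>
    rw [mX_bx, wX_bx, reX_bx]
    split_ifs with hc
    · by_cases hx : x = 0
      · rw [hx, map_zero, map_zero, c3_bx, c2_bx, cl_zero 2, cl_zero 1, map_zero, map_zero]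
        exact ⟨rfl, rfl⟩
      · exact small_c3 p hp j _ (h x hx) _
    · simp only [map_zero, and_self]

include hp h in
theorem small_NX (j : ℕ) (v : Additive Lˣ) (z : X j F) :
    reX V j (wX j v (mX j φ z)) ∈ NX j k := by
  change c3 j (reX V j (wX j v (mX j φ z))) ∈ bdry k 1 j
  rw [(small_c p hp V φ h j v z).1]
  exact Submodule.zero_mem _

include hp h in
theorem small_N2 (j : ℕ) (v : Additive Lˣ) (z : X j F) :
    reX V j (wX j v (mX j φ z)) ∈ N2 j k := by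
  change c2 j (reX V j (wX j v (mX j φ z))) ∈ bdry k 0 j
  rw [(small_c p hp V φ h j v z).2]
  exact Submodule.zero_mem _

include h in
omit [CharP k p] in
private theorem small_tors (v : Additive Fˣ) :
    ∃ N : ℤ, N ≠ 0 ∧ N • (V.lH.comp (resU φ)) v = 0 := by
  obtain ⟨m, hm, h1⟩ := h (v.toMul : F) (Units.ne_zero _)
  refine ⟨m, by exact_mod_cast hm, ?_⟩
  rw [natCast_zsmul]
  have h2 : ((m • (V.lH.comp (resU φ)) v).toMul : k) = V.lc (φ (v.toMul : F)) ^ m := rfl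
  rw [h1] at h2
  exact congrArg Additive.ofMul (Units.ext h2)

include h in
omit [CharP k p] in
theorem small_N0 (j : ℕ) (hj : 2 ≤ j) (v : Additive Lˣ) (z : Tx j F) :
    reT V j (wT j v (resT j φ z)) ∈ N0 j k := by
  obtain ⟨i, rfl⟩ : ∃ i, j = i + 2 := ⟨j - 2, by omega⟩
  have h1 : spT V (i + 2) (resT (i + 2) φ z) = 0 := by
    change tm (i + 2) V.lH (resT (i + 2) φ z) = 0
    rw [resT_eq_tm, ← tm_comp]
    exact tm_tors (i + 1) _ (small_tors V φ h) z
  have h2 : reT V (i + 1) (resT (i + 2) φ z) = 0 := by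
    change tm (i + 1) V.lH (ctT (i + 1) V.vH (resT (i + 2) φ z)) = 0
    rw [resT_eq_tm, ctT_tm, ← tm_comp]
    exact tm_tors i _ (small_tors V φ h) _
  have h3 : reT V (i + 2) (wT (i + 2) v (resT (i + 2) φ z)) = 0 := by
    rw [reT_wT, h1, h2, smul_zero, map_zero, sub_zero]
  rw [h3]
  exact Submodule.zero_mem _

end QPL
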