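import Pool.Agent.QPL.Calc
import Pool.Agent.SRG.Defs

set_option autoImplicit false

/-!
# QPL-7: five-term functions and reduction

`g' = g ∘ rd` with value `0` at `∞`.  `zero`, `one`, `inv`, `sub`: cases `rd x = ∞, 0, a`.
`five`: the left-hand side changes its sign under `(x, y) ↦ (y, x)`, `(x⁻¹, y⁻¹)` and
`(1 - x, 1 - y)`, so that one may assume `rd x = 0` or `rd x, rd y ≠ 0, 1, ∞`.
If `rd x = 0`: for `rd y = 0` the quotient `(1 - x) / (1 - y)` reduces to `1` and
`(1 - x⁻¹)/(1 - y⁻¹) = (y / x) ((1 - x) / (1 - y))` has the reduction of `y / x`; for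
`rd y ≠ 0` both `y / x` and `(1 - x⁻¹)/(1 - y⁻¹)` reduce to `∞` and `(1 - x) / (1 - y)` to
`1 / (1 - rd y)`.
If `rd x = rd y ≠ 0, 1, ∞` the last three points reduce to `1`.
-/

noncomputable section

open Polynomial
open scoped Classical

namespace QPL

open Helper14.Gon

universe u v w

variable {L : Type u} {k : Type v} [Field L] [Field k] {W : Type w} [AddCommGroup W] [Module ℚ W]

/-- `ψ` composed with the reduction map. -/
private def five_g (V : AC L k) (ψ : SRG.FV k W) (x : L) : W := (V.rd (some x)).elim 0 ψ.g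

omit [Module ℚ W] in
private theorem five_g_none {V : AC L k} (ψ : SRG.FV k W) {x : L} (h : V.rd (some x) = none) :
    five_g V ψ x = 0 := by
  simp [five_g, h]

omit [Module ℚ W] in
private theorem five_g_some {V : AC L k} (ψ : SRG.FV k W) {x : L} {a : k}
    (h : V.rd (some x) = some a) : five_g V ψ x = ψ.g a := by
  simp [five_g, h]

private theorem five_sub_none {V : AC L k} {x : L} (h : V.rd (some x) = none) :
    V.rd (some (1 - x)) = none := by
  rcases h2 : V.rd (some (1 - x)) with _ | a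
  · rfl
  · have h3 := V.rd_sub V.rd_one h2
    rw [sub_sub_cancel, h] at h3
    exact absurd h3 (by simp)

private theorem five_sub_some {V : AC L k} {x : L} {a : k} (h : V.rd (some x) = some a) :
    V.rd (some (1 - x)) = some (1 - a) :=
  V.rd_sub V.rd_one h

private theorem five_mul_none {V : AC L k} {x y : L} (hx : V.rd (some x) = none)
    (hy : V.rd (some y) ≠ some 0) : V.rd (some (x * y)) = none := by
  obtain ⟨hx0, hxv⟩ := V.rd_eq_none.1 hx
  have hy0 : y ≠ 0 := by
    rintro rfl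
    exact hy V.rd_zero
  have hyv : V.v y ≤ 0 := by
    by_contra hcon
    exact hy (V.rd_pos (not_le.1 hcon))
  refine V.rd_eq_none.2 ⟨mul_ne_zero hx0 hy0, ?_⟩
  rw [V.v_mul hx0 hy0]
  linarith

private theorem five_g_zero (V : AC L k) (ψ : SRG.FV k W) : five_g V ψ 0 = 0 := by
  rw [five_g_some ψ V.rd_zero, ψ.zero]

private theorem five_g_one (V : AC L k) (ψ : SRG.FV k W) : five_g V ψ 1 = 0 := by
  rw [five_g_some ψ V.rd_one, ψ.one]

private theorem five_g_inv (V : AC L k) (ψ : SRG.FV k W) (x : L) :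
    five_g V ψ x⁻¹ = - five_g V ψ x := by
  rcases eq_or_ne x 0 with rfl | hx
  · rw [inv_zero, five_g_zero, neg_zero]
  rcases h : V.rd (some x) with _ | a
  · rw [five_g_none ψ h, five_g_some ψ (V.rd_inv_none h), ψ.zero, neg_zero]
  · rcases eq_or_ne a 0 with rfl | ha
    · rw [five_g_some ψ h, five_g_none ψ (V.rd_inv_zero hx h), ψ.zero, neg_zero]
    · rw [five_g_some ψ h, five_g_some ψ (V.rd_inv_some ha h), ψ.inv]

private theorem five_g_sub (V : AC L k) (ψ : SRG.FV k W) (x : L) :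
    five_g V ψ (1 - x) = - five_g V ψ x := by
  rcases h : V.rd (some x) with _ | a
  · rw [five_g_none ψ h, five_g_none ψ (five_sub_none h), neg_zero]
  · rw [five_g_some ψ h, five_g_some ψ (five_sub_some h), ψ.sub]

private theorem five_g_mul (V : AC L k) (ψ : SRG.FV k W) {x u : L}
    (hu : V.rd (some u) = some 1) : five_g V ψ (x * u) = five_g V ψ x := by
  rcases h : V.rd (some x) with _ | a
  · rw [five_g_none ψ h, five_g_none ψ (five_mul_none h ?_)]
    rw [hu]
    simp
  · rw [five_g_some ψ h, five_g_some ψ (V.rd_mul h hu), mul_one]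

/-- The left-hand side of the five-term relation. -/
private def five_F (V : AC L k) (ψ : SRG.FV k W) (x y : L) : W :=
  five_g V ψ x - five_g V ψ y + five_g V ψ (y / x) -
    five_g V ψ ((1 - x⁻¹) / (1 - y⁻¹)) + five_g V ψ ((1 - x) / (1 - y))

private theorem five_F_swap (V : AC L k) (ψ : SRG.FV k W) (x y : L) :
    five_F V ψ y x = - five_F V ψ x y := by
  have h1 : five_g V ψ (x / y) = - five_g V ψ (y / x) := by
    rw [← five_g_inv, inv_div]
  have h2 : five_g V ψ ((1 - y⁻¹) / (1 - x⁻¹)) = - five_g V ψ ((1 - x⁻¹) / (1 - y⁻¹)) := by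
    rw [← five_g_inv, inv_div]
  have h3 : five_g V ψ ((1 - y) / (1 - x)) = - five_g V ψ ((1 - x) / (1 - y)) := by
    rw [← five_g_inv, inv_div]
  rw [five_F, five_F, h1, h2, h3]
  abel

private theorem five_F_inv (V : AC L k) (ψ : SRG.FV k W) (x y : L) :
    five_F V ψ x⁻¹ y⁻¹ = - five_F V ψ x y := by
  have h1 : five_g V ψ (y⁻¹ / x⁻¹) = - five_g V ψ (y / x) := by
    rw [← five_g_inv, inv_div, inv_div_inv]
  rw [five_F, five_F, h1, inv_inv, inv_inv, five_g_inv, five_g_inv]
  abel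

private theorem five_F_sub (V : AC L k) (ψ : SRG.FV k W) {x y : L} (hx : x ≠ 0) (hx1 : x ≠ 1)
    (hy : y ≠ 0) (hy1 : y ≠ 1) :
    five_F V ψ (1 - x) (1 - y) = - five_F V ψ x y := by
  have key : ∀ z : L, z ≠ 0 → z ≠ 1 → 1 - (1 - z)⁻¹ = (1 - z⁻¹)⁻¹ := by
    intro z hz hz1
    have h1 : 1 - z ≠ 0 := sub_ne_zero.2 (Ne.symm hz1)
    have h2 : z - 1 ≠ 0 := sub_ne_zero.2 hz1
    have h3 : 1 - z⁻¹ = (z - 1) / z := by field_simp
    have h4 : 1 - (1 - z)⁻¹ = - z / (1 - z) := by field_simp; ring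
    rw [h3, h4, inv_div, div_eq_div_iff h1 h2]
    ring
  have h1 : five_g V ψ ((1 - y) / (1 - x)) = - five_g V ψ ((1 - x) / (1 - y)) := by
    rw [← five_g_inv, inv_div]
  have h2 : five_g V ψ ((1 - (1 - x)⁻¹) / (1 - (1 - y)⁻¹)) =
      - five_g V ψ ((1 - x⁻¹) / (1 - y⁻¹)) := by
    rw [key x hx hx1, key y hy hy1, inv_div_inv, ← five_g_inv, inv_div]
  have h3 : five_g V ψ ((1 - (1 - x)) / (1 - (1 - y))) = - five_g V ψ (y / x) := by
    rw [sub_sub_cancel, sub_sub_cancel, ← five_g_inv, inv_div]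
  rw [five_F, five_F, h1, h2, h3, five_g_sub, five_g_sub]
  abel

/-- The case `rd x = 0`. -/
private theorem five_F_zero (V : AC L k) (ψ : SRG.FV k W) {x y : L} (hx : x ≠ 0)
    (hy : y ≠ 0) (hy1 : y ≠ 1) (h : V.rd (some x) = some 0) : five_F V ψ x y = 0 := by
  have hy1' : 1 - y ≠ 0 := sub_ne_zero.2 (Ne.symm hy1)
  have hxi : V.rd (some x⁻¹) = none := V.rd_inv_zero hx h
  have hxs : V.rd (some (1 - x)) = some 1 := by
    rw [five_sub_some h, sub_zero]
  have hxis : V.rd (some (1 - x⁻¹)) = none := five_sub_none hxi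
  have hgx : five_g V ψ x = 0 := by rw [five_g_some ψ h, ψ.zero]
  rcases h2 : V.rd (some y) with _ | b
  · -- `rd y = ∞`
    have h3 : V.rd (some (y / x)) = none := by
      rw [div_eq_mul_inv]
      refine five_mul_none h2 ?_
      rw [hxi]
      simp
    have h4 : V.rd (some (1 - y⁻¹)) = some 1 := by
      rw [five_sub_some (V.rd_inv_none h2), sub_zero]
    have h5 : V.rd (some ((1 - x⁻¹) / (1 - y⁻¹))) = none := by
      rw [div_eq_mul_inv]
      refine five_mul_none hxis ?_
      rw [V.rd_inv_some one_ne_zero h4]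
      simp
    have h6 : V.rd (some ((1 - x) / (1 - y))) = some 0 := by
      rw [div_eq_mul_inv, V.rd_mul hxs (V.rd_inv_none (five_sub_none h2)), mul_zero]
    rw [five_F, hgx, five_g_none ψ h2, five_g_none ψ h3, five_g_none ψ h5, five_g_some ψ h6,
      ψ.zero]
    simp
  · rcases eq_or_ne b 0 with rfl | hb
    · -- `rd y = 0`
      have h3 : V.rd (some (1 - y)) = some 1 := by
        rw [five_sub_some h2, sub_zero]
      have h4 : V.rd (some ((1 - x) / (1 - y))) = some 1 := by
        rw [div_eq_mul_inv, V.rd_mul hxs (V.rd_inv_some one_ne_zero h3), inv_one, mul_one]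
      have h5 : (1 - x⁻¹) / (1 - y⁻¹) = y / x * ((1 - x) / (1 - y)) := by
        have h6 : 1 - x⁻¹ = - (1 - x) / x := by field_simp; ring
        have h7 : 1 - y⁻¹ = - (1 - y) / y := by field_simp; ring
        rw [h6, h7, div_div_div_eq, div_mul_div_comm, neg_mul, mul_neg, neg_div_neg_eq,
          mul_comm (1 - x) y]
      rw [five_F, h5, five_g_mul V ψ h4, hgx, five_g_some ψ h2, five_g_some ψ h4, ψ.zero, ψ.one]
      simp
    · -- `rd y ≠ 0, ∞`
      have h3 : V.rd (some (y / x)) = none := by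
        rw [div_eq_mul_inv, mul_comm]
        refine five_mul_none hxi ?_
        rw [h2]
        simpa using hb
      have h4 : V.rd (some (1 - y⁻¹)) = some (1 - b⁻¹) := five_sub_some (V.rd_inv_some hb h2)
      have hy2 : 1 - y⁻¹ ≠ 0 := by
        intro h5
        apply hy1
        have h6 : y⁻¹ = 1 := (sub_eq_zero.1 h5).symm
        rw [← inv_inv y, h6, inv_one]
      have h5 : V.rd (some (1 - y⁻¹)⁻¹) ≠ some 0 := by
        rcases eq_or_ne (1 - b⁻¹) 0 with h6 | h6
        · rw [h6] at h4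
          rw [V.rd_inv_zero hy2 h4]
          simp
        · rw [V.rd_inv_some h6 h4]
          simpa using h6
      have h6 : V.rd (some ((1 - x⁻¹) / (1 - y⁻¹))) = none := by
        rw [div_eq_mul_inv]
        exact five_mul_none hxis h5
      have h7 : five_g V ψ ((1 - x) / (1 - y)) = ψ.g b := by
        rcases eq_or_ne b 1 with rfl | hb1
        · have h8 : V.rd (some (1 - y)) = some 0 := by
            rw [five_sub_some h2, sub_self]
          have h9 : V.rd (some ((1 - x) / (1 - y))) = none := by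
            rw [div_eq_mul_inv, mul_comm]
            refine five_mul_none (V.rd_inv_zero hy1' h8) ?_
            rw [hxs]
            simp
          rw [five_g_none ψ h9, ψ.one]
        · have h8 : (1 : k) - b ≠ 0 := sub_ne_zero.2 (Ne.symm hb1)
          have h9 : V.rd (some ((1 - x) / (1 - y))) = some (1 - b)⁻¹ := by
            rw [div_eq_mul_inv, V.rd_mul hxs (V.rd_inv_some h8 (five_sub_some h2)), one_mul]
          rw [five_g_some ψ h9, ψ.inv, ψ.sub, neg_neg]
      rw [five_F, h7, hgx, five_g_some ψ h2, five_g_none ψ h3, five_g_none ψ h6]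
      simp

/-- The case `rd x = 0, 1, ∞`. -/
private theorem five_F_spec (V : AC L k) (ψ : SRG.FV k W) {x y : L} (hx : x ≠ 0) (hx1 : x ≠ 1)
    (hy : y ≠ 0) (hy1 : y ≠ 1)
    (h : V.rd (some x) = none ∨ V.rd (some x) = some 0 ∨ V.rd (some x) = some 1) :
    five_F V ψ x y = 0 := by
  rcases h with h | h | h
  · have h1 : five_F V ψ x⁻¹ y⁻¹ = 0 := by
      refine five_F_zero V ψ (inv_ne_zero hx) (inv_ne_zero hy) ?_ (V.rd_inv_none h)
      rwa [Ne, inv_eq_one]
    rwa [five_F_inv, neg_eq_zero] at h1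
  · exact five_F_zero V ψ hx hy hy1 h
  · have h1 : five_F V ψ (1 - x) (1 - y) = 0 := by
      refine five_F_zero V ψ (sub_ne_zero.2 (Ne.symm hx1)) (sub_ne_zero.2 (Ne.symm hy1)) ?_ ?_
      · intro h2
        apply hy
        rwa [sub_eq_self] at h2
      · rw [five_sub_some h, sub_self]
    rwa [five_F_sub V ψ hx hx1 hy hy1, neg_eq_zero] at h1

private theorem five_F_all (V : AC L k) (ψ : SRG.FV k W) {x y : L} (hx : x ≠ 0) (hx1 : x ≠ 1)
    (hy : y ≠ 0) (hy1 : y ≠ 1) : five_F V ψ x y = 0 := by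
  by_cases h1 : V.rd (some x) = none ∨ V.rd (some x) = some 0 ∨ V.rd (some x) = some 1
  · exact five_F_spec V ψ hx hx1 hy hy1 h1
  by_cases h2 : V.rd (some y) = none ∨ V.rd (some y) = some 0 ∨ V.rd (some y) = some 1
  · have h3 := five_F_spec V ψ hy hy1 hx hx1 h2
    rwa [five_F_swap, neg_eq_zero] at h3
  push Not at h1 h2
  obtain ⟨h1n, h10, h11⟩ := h1
  obtain ⟨h2n, h20, h21⟩ := h2
  rcases ha : V.rd (some x) with _ | a
  · exact absurd ha h1n
  rcases hb : V.rd (some y) with _ | b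
  · exact absurd hb h2n
  have ha0 : a ≠ 0 := by
    rintro rfl
    exact h10 ha
  have ha1 : a ≠ 1 := by
    rintro rfl
    exact h11 ha
  have hb0 : b ≠ 0 := by
    rintro rfl
    exact h20 hb
  have hb1 : b ≠ 1 := by
    rintro rfl
    exact h21 hb
  have hb2 : 1 - b ≠ 0 := sub_ne_zero.2 (Ne.symm hb1)
  have hb3 : 1 - b⁻¹ ≠ 0 := by
    intro h
    apply hb1
    rw [← inv_inv b, ← sub_eq_zero.1 h, inv_one]
  have ha2 : 1 - a ≠ 0 := sub_ne_zero.2 (Ne.symm ha1)
  have ha3 : 1 - a⁻¹ ≠ 0 := by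
    intro h
    apply ha1
    rw [← inv_inv a, ← sub_eq_zero.1 h, inv_one]
  have e1 : V.rd (some (y / x)) = some (b / a) := by
    rw [div_eq_mul_inv, div_eq_mul_inv]
    exact V.rd_mul hb (V.rd_inv_some ha0 ha)
  have e2 : V.rd (some ((1 - x⁻¹) / (1 - y⁻¹))) = some ((1 - a⁻¹) / (1 - b⁻¹)) := by
    rw [div_eq_mul_inv, div_eq_mul_inv]
    exact V.rd_mul (five_sub_some (V.rd_inv_some ha0 ha))
      (V.rd_inv_some hb3 (five_sub_some (V.rd_inv_some hb0 hb)))
  have e3 : V.rd (some ((1 - x) / (1 - y))) = some ((1 - a) / (1 - b)) := by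
    rw [div_eq_mul_inv, div_eq_mul_inv]
    exact V.rd_mul (five_sub_some ha) (V.rd_inv_some hb2 (five_sub_some hb))
  rw [five_F, five_g_some ψ ha, five_g_some ψ hb, five_g_some ψ e1, five_g_some ψ e2,
    five_g_some ψ e3]
  rcases eq_or_ne a b with rfl | hab
  · rw [div_self ha0, div_self ha3, div_self ha2, ψ.one]
    simp
  · exact ψ.five a b ha0 ha1 hb0 hb1 hab

theorem fv_rd (V : AC L k) (ψ : SRG.FV k W) : ∃ φ : SRG.FV L W,
    ∀ x : L, φ.g x = (V.rd (some x)).elim 0 ψ.g :=
  ⟨{ g := five_g V ψ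
     zero := five_g_zero V ψ
     one := five_g_one V ψ
     inv := five_g_inv V ψ
     sub := five_g_sub V ψ
     five := fun _ _ hx hx1 hy hy1 _ => five_F_all V ψ hx hx1 hy hy1 }, fun _ => rfl⟩

end QPL
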