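import Pool.Agent.QPL.Th
import Pool.Agent.TGF.Pf
import Pool.Agent.TGF.Df
import Pool.Agent.TGF.Rl
import Pool.Agent.TGF.Rl2
import Pool.Agent.TGF.S
import Pool.Agent.TGF.Cc
import Pool.Agent.QPL.ReN
import Pool.Agent.QPL.LawInj
import Pool.Agent.QPL.Colim
import Pool.Agent.QPL.ColimN
import Pool.Agent.QPL.Small
import Pool.Agent.QPL.RecX
import Pool.Agent.QPL.RecT

set_option autoImplicit false

/-!
# QPL-41: the laws of `th0`

One known lemma for each law.  `map_id`, `map_comp`, `map_cup`, `re_cup*`, `re_comap`, `sp_comap`,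
`re_push`, `re_triv`, `sp_triv`, `re_unif`: `TGF.Pf` (`mX_id` ... `reX_unif`, `reT_unif`; for `resT` see
also `TGF.Tm`, `Helper14.Gon.Tower`).  `map_Z`, `cup_Z`, `re_Z`: `TGF.Df`, `TGF.Rl`, `TGF.Rl2`.
`map_N`: `resC_bdry`, `c3_mX`, `c2_mX`, `resT_dT`.  `re_N`: `QPL.ReN`.  `frob`, `inj`: `QPL.LawFrob`,
`QPL.LawInj`.  `small`: `QPL.Small`.  `colim`: `QPL.Colim`.  `colimN`: `QPL.ColimN`.  `recip`:
`QPL.RecX` (`TGF.c2_rel` for `th2`), `QPL.RecT`.
-/

noncomputable section

open Polynomial TensorProduct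
open scoped Classical

namespace QPL

open Helper14.Gon Helper14.W4 TGF

universe u v w

private lemma th0_resU_id (F : Type u) [Field F] :
    resU (RingHom.id F) = AddMonoidHom.id (Additive Fˣ) := by
  refine AddMonoidHom.ext fun v => ?_
  exact congrArg Additive.ofMul (Units.ext rfl)

private lemma th0_resU_comp {F L M : Type u} [Field F] [Field L] [Field M] (φ : F →+* L)
    (ψ : L →+* M) : resU (ψ.comp φ) = (resU ψ).comp (resU φ) := by
  refine AddMonoidHom.ext fun v => ?_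
  exact congrArg Additive.ofMul (Units.ext rfl)

private lemma th0_map_N {F L : Type u} [Field F] [Field L] (φ : F →+* L) (j : ℕ) (z : Tx j F)
    (hz : z ∈ N0 j F) : resT j φ z ∈ N0 j L := by
  match j, z, hz with
  | 0, z, hz =>
    have h : z = 0 := (Submodule.mem_bot ℚ).1 hz
    rw [h, map_zero]
    exact Submodule.zero_mem _
  | 1, z, hz =>
    have h : z = 0 := (Submodule.mem_bot ℚ).1 hz
    rw [h, map_zero]
    exact Submodule.zero_mem _
  | j + 2, z, hz =>
    obtain ⟨y, rfl⟩ := hz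
    exact ⟨resC 1 j φ y, resT_dT j φ y⟩

private lemma th0_top (F : Type u) [Field F] (j : ℕ) (z : Tx j F) :
    z ∈ (⊤ : Submodule ℚ (Tx j F)) := Submodule.mem_top

theorem laws0 (hres : Resid th0.{u}) : Laws th0.{u} where
  map_id F _ j z := by
    change resT j (RingHom.id F) z = z
    rw [resT_eq_tm, th0_resU_id, tm_id]
  map_comp F L M _ _ _ φ ψ j z := by
    change resT j (ψ.comp φ) z = resT j ψ (resT j φ z)
    rw [resT_eq_tm, resT_eq_tm, resT_eq_tm, th0_resU_comp, tm_comp]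
  map_cup F L _ _ φ j v z := by
    change resT (j + 1) φ (wT j v z) = wT j (resU φ v) (resT j φ z)
    rw [resT_eq_tm, resT_eq_tm, tm_wT]
  map_Z _ L _ _ _ j z _ := th0_top L j _
  map_N F L _ _ φ j z hz := th0_map_N φ j z hz
  cup_Z F _ j _ _ _ := th0_top F (j + 1) _
  re_Z _ k _ _ _ j _ _ := th0_top k j _
  re_N L k _ _ V j z hz := reT_N0 V j z hz
  re_cup_zero L k _ _ V v z := reT_wT_zero V v z
  re_cup L k _ _ V j v z := reT_wT V j v z
  re_comap F L k _ _ _ V φ j z := reT_comap V φ j z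
  sp_comap F L k _ _ _ V φ j z := spT_comap V φ j z
  re_push L k l _ _ _ V ψ j z := reT_push V ψ j z
  re_triv L k _ _ V ψ h j z := reT_triv V ψ h j z
  sp_triv L k _ _ V ψ h j z := spT_triv V ψ h j z
  re_unif L k _ _ V V' m h h' j z := reT_unif V V' m h h' j z
  frob p hp F _ _ _ j z := frob_N0 p hp j z
  small p hp F L k _ _ _ _ V φ h j hj v z := small_N0 V φ h j hj v z
  inj F L _ _ _ φ j z hz := inj_N0 φ j z hz
  colim F _ j z _ := by
    obtain ⟨S, hS⟩ := colim_T j z
    refine ⟨S, fun L hL => ?_⟩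
    obtain ⟨z', hz'⟩ := hS L hL
    exact ⟨z', th0_top L j z', hz'⟩
  colimN F M _ _ φ j z hz := colimN_N0 φ j z hz
  recip K _ _ j z _ V V' hV hV' := recip_N0 V V' hV hV' j z
  resid := hres

end QPL
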