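import Pool.Agent.TGF.Thy

set_option autoImplicit false

/-!
# QPL-38: the three theories
-/

noncomputable section

open Polynomial TensorProduct
open scoped Classical

namespace QPL

open Helper14.Gon Helper14.W4 TGF

universe u v w

/-- `H^{n-2}`: terms `B_3 ⊗ Λ^j`, weight `j + 3`. -/
def th2 : Thy.{u} where
  Y F _ j := X j F
  iA _ _ _ := inferInstance
  iM _ _ _ := inferInstance
  map φ j := mX j φ
  cup j v := wX j v
  sp V j := spX V j
  re V j := reX V j
  Z F _ j := ZX j F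
  N F _ j := NX j F
  off := 3

/-- `H^{n-1}`: terms `B_2 ⊗ Λ^j`, weight `j + 2`. -/
def th1 : Thy.{u} where
  Y F _ j := X j F
  iA _ _ _ := inferInstance
  iM _ _ _ := inferInstance
  map φ j := mX j φ
  cup j v := wX j v
  sp V j := spX V j
  re V j := reX V j
  Z _ _ j := LinearMap.ker (d2 j)
  N F _ j := N2 j F
  off := 2

/-- `H^n`: terms `Λ^j`, weight `j`. -/
def th0 : Thy.{u} where
  Y F _ j := Tx j F
  iA _ _ _ := inferInstance
  iM _ _ _ := inferInstance
  map φ j := resT j φ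
  cup j v := wT j v
  sp V j := spT V j
  re V j := reT V j
  Z _ _ _ := ⊤
  N F _ j := N0 j F
  off := 0

/-- The statement of the law `resid`. -/
def Resid (H : Thy.{u}) : Prop :=
  ∀ (K k : Type u) [Field K] [Field k] (p : SRG.Pl K k) (V : AC (RatFunc K) k),
    IsPt p V → ∀ (j : ℕ) (w : H.Y k j), w ∈ H.Z k j → ∃ z : H.Y (RatFunc K) (j + 1),
      z ∈ H.Z (RatFunc K) (j + 1) ∧ H.re V j z - w ∈ H.N k j ∧
      ∀ (k' : Type u) [Field k'] (p' : SRG.Pl K k') (V' : AC (RatFunc K) k'), IsPt p' V' →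
        p'.P ≠ p.P → p.P.natDegree ≤ p'.P.natDegree → H.re V' j z = 0

end QPL
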