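import Pool.Agent.QPL.Calc

set_option autoImplicit false

/-!
# QPL-3: extension of a place to the field of fractions

`v (a / b) = v a - v b`, `lc (a / b) = lc a / lc b`.  For sums: common denominator.
(`A` is a domain because `L` is a field and `A → L` is injective; use
`IsLocalization.mk'_surjective`, or `IsFractionRing.div_surjective (A := A)`.)
-/

noncomputable section

open Polynomial
open scoped Classical

namespace QPL

open Helper14.Gon

universe u v w

variable {A : Type u} {k : Type v} [CommRing A] [Field k]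

section
variable (V : AC A k) (L : Type w) [Field L] [Algebra A L] [IsFractionRing A L]

/-- `x = a / b`. -/
private def frac_R (x : L) (a b : A) : Prop := b ≠ 0 ∧ x * algebraMap A L b = algebraMap A L a

private lemma frac_inj : Function.Injective (algebraMap A L) := IsFractionRing.injective A L

private lemma frac_ne {b : A} (hb : b ≠ 0) : algebraMap A L b ≠ 0 := fun h =>
  hb (frac_inj L (by rw [h, map_zero]))

include V in
private lemma frac_ex (x : L) : ∃ p : A × A, frac_R L x p.1 p.2 := by
  obtain ⟨a, b, hb, h⟩ := IsFractionRing.div_surjective (A := A) x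
  have hb0 : b ≠ 0 := by
    rintro rfl
    have h1 := (mem_nonZeroDivisors_iff.1 hb).1 1 (by rw [zero_mul])
    exact V.one_ne h1
  refine ⟨(a, b), hb0, ?_⟩
  rw [← h]
  exact div_mul_cancel₀ _ (frac_ne L hb0)

include V in
private lemma frac_ex2 (x y : L) : ∃ a c d : A, frac_R L x a d ∧ frac_R L y c d := by
  obtain ⟨⟨a, b⟩, hb, h⟩ := frac_ex V L x
  obtain ⟨⟨c, d⟩, hd, h'⟩ := frac_ex V L y
  refine ⟨a * d, c * b, b * d, ⟨V.mul_ne hb hd, ?_⟩, ⟨V.mul_ne hb hd, ?_⟩⟩
  · simp only at h
    rw [map_mul, map_mul, ← mul_assoc, h]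
  · simp only at h'
    rw [map_mul, map_mul, ← h']
    ring

private lemma frac_num {x : L} {a b : A} (h : frac_R L x a b) (hx : x ≠ 0) : a ≠ 0 := by
  rintro rfl
  have h1 := h.2
  rw [map_zero] at h1
  exact (mul_ne_zero hx (frac_ne L h.1)) h1

private lemma frac_num0 {a b : A} (h : frac_R L 0 a b) : a = 0 := by
  have h1 := h.2
  rw [zero_mul] at h1
  exact frac_inj L (by rw [← h1, map_zero])

private lemma frac_cross {x : L} {a b c d : A} (h : frac_R L x a b) (h' : frac_R L x c d) :
    a * d = c * b := by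
  apply frac_inj L
  rw [map_mul, map_mul, ← h.2, ← h'.2]
  ring

private def frac_v (x : L) : ℚ := V.v (frac_ex V L x).choose.1 - V.v (frac_ex V L x).choose.2

private def frac_l (x : L) : k := V.lc (frac_ex V L x).choose.1 / V.lc (frac_ex V L x).choose.2

private lemma frac_v_eq {x : L} {a b : A} (h : frac_R L x a b) (hx : x ≠ 0) :
    frac_v V L x = V.v a - V.v b := by
  have h1 := (frac_ex V L x).choose_spec
  unfold frac_v
  have h2 := frac_cross L h1 h
  have h3 := congrArg V.v h2
  rw [V.v_mul (frac_num L h1 hx) h.1, V.v_mul (frac_num L h hx) h1.1] at h3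
  linarith

private lemma frac_l_eq {x : L} {a b : A} (h : frac_R L x a b) :
    frac_l V L x = V.lc a / V.lc b := by
  have h1 := (frac_ex V L x).choose_spec
  unfold frac_l
  have h2 := frac_cross L h1 h
  rw [div_eq_div_iff (V.lc_ne h1.1) (V.lc_ne h.1), ← map_mul, ← map_mul, h2]

private lemma frac_R_add {x y : L} {a c d : A} (h : frac_R L x a d) (h' : frac_R L y c d) :
    frac_R L (x + y) (a + c) d := ⟨h.1, by rw [add_mul, h.2, h'.2, map_add]⟩

include V in
private lemma frac_R_mul {x y : L} {a b c d : A} (h : frac_R L x a b) (h' : frac_R L y c d) :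
    frac_R L (x * y) (a * c) (b * d) := ⟨V.mul_ne h.1 h'.1, by
  rw [map_mul, map_mul, ← h.2, ← h'.2]
  ring⟩

private lemma frac_ne_of {x : L} {a b : A} (h : frac_R L x a b) (ha : a ≠ 0) : x ≠ 0 := by
  rintro rfl
  exact ha (frac_num0 L h)

private lemma frac_zero_of {x : L} {a b : A} (h : frac_R L x a b) (ha : a = 0) : x = 0 := by
  by_contra hx
  exact frac_num L h hx ha

/-- The extension. -/
private def frac_W : AC L k where
  v := frac_v V L
  lc :=
    { toFun := frac_l V L
      map_zero' := by
        have h : frac_R L (0 : L) (0 : A) 1 := ⟨V.one_ne, by rw [zero_mul, map_zero]⟩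
        rw [frac_l_eq V L h, map_zero, zero_div]
      map_one' := by
        have h : frac_R L (1 : L) (1 : A) 1 := ⟨V.one_ne, by rw [one_mul]⟩
        rw [frac_l_eq V L h, map_one, div_one]
      map_mul' := by
        intro x y
        obtain ⟨⟨a, b⟩, h⟩ := frac_ex V L x
        obtain ⟨⟨c, d⟩, h'⟩ := frac_ex V L y
        rw [frac_l_eq V L h, frac_l_eq V L h', frac_l_eq V L (frac_R_mul V L h h'), map_mul, map_mul,
          div_mul_div_comm] }
  lc_ne := by
    intro x hx
    obtain ⟨⟨a, b⟩, h⟩ := frac_ex V L x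
    change frac_l V L x ≠ 0
    rw [frac_l_eq V L h]
    exact div_ne_zero (V.lc_ne (frac_num L h hx)) (V.lc_ne h.1)
  v_mul := by
    intro x y hx hy
    obtain ⟨⟨a, b⟩, h⟩ := frac_ex V L x
    obtain ⟨⟨c, d⟩, h'⟩ := frac_ex V L y
    rw [frac_v_eq V L h hx, frac_v_eq V L h' hy, frac_v_eq V L (frac_R_mul V L h h') (mul_ne_zero hx hy),
      V.v_mul (frac_num L h hx) (frac_num L h' hy), V.v_mul h.1 h'.1]
    ring
  add_lt := by
    intro x y hx hy
    obtain ⟨a, c, d, h, h'⟩ := frac_ex2 V L x y
    have ha := frac_num L h hx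
    have hc : c = 0 ∨ V.v a < V.v c := by
      rcases hy with hy | hy
      · left
        rw [hy] at h'
        exact frac_num0 L h'
      · by_cases hc : c = 0
        · exact Or.inl hc
        · right
          rw [frac_v_eq V L h hx, frac_v_eq V L h' (frac_ne_of L h' hc)] at hy
          linarith
    obtain ⟨h1, h2, h3⟩ := V.add_lt ha hc
    have hs := frac_R_add L h h'
    have hs0 := frac_ne_of L hs h1
    refine ⟨hs0, ?_, ?_⟩
    · rw [frac_v_eq V L h hx, frac_v_eq V L hs hs0, h2]
    · change frac_l V L (x + y) = frac_l V L x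
      rw [frac_l_eq V L h, frac_l_eq V L hs, h3]
  add_ne := by
    intro x y hx hy h1 h2
    obtain ⟨a, c, d, h, h'⟩ := frac_ex2 V L x y
    have ha := frac_num L h hx
    have hc := frac_num L h' hy
    rw [frac_v_eq V L h hx, frac_v_eq V L h' hy] at h1
    change frac_l V L x + frac_l V L y ≠ 0 at h2
    rw [frac_l_eq V L h, frac_l_eq V L h', ← add_div] at h2
    have h3 : V.lc a + V.lc c ≠ 0 := by
      intro h3
      rw [h3, zero_div] at h2
      exact h2 rfl
    obtain ⟨h4, h5, h6⟩ := V.add_ne ha hc (by linarith) h3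
    have hs := frac_R_add L h h'
    have hs0 := frac_ne_of L hs h4
    refine ⟨hs0, ?_, ?_⟩
    · rw [frac_v_eq V L h hx, frac_v_eq V L hs hs0, h5]
    · change frac_l V L (x + y) = frac_l V L x + frac_l V L y
      rw [frac_l_eq V L h, frac_l_eq V L h', frac_l_eq V L hs, h6, add_div]
  add_eq := by
    intro x y hx hy h1 h2
    obtain ⟨a, c, d, h, h'⟩ := frac_ex2 V L x y
    have ha := frac_num L h hx
    have hc := frac_num L h' hy
    rw [frac_v_eq V L h hx, frac_v_eq V L h' hy] at h1
    change frac_l V L x + frac_l V L y = 0 at h2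
    rw [frac_l_eq V L h, frac_l_eq V L h', ← add_div] at h2
    have h3 : V.lc a + V.lc c = 0 := by
      rcases div_eq_zero_iff.1 h2 with h3 | h3
      · exact h3
      · exact absurd h3 (V.lc_ne h.1)
    have hs := frac_R_add L h h'
    rcases V.add_eq ha hc (by linarith) h3 with h4 | h4
    · exact Or.inl (frac_zero_of L hs h4)
    · by_cases hs0 : x + y = 0
      · exact Or.inl hs0
      · right
        rw [frac_v_eq V L h hx, frac_v_eq V L hs hs0]
        linarith

end

theorem exists_frac (V : AC A k) (L : Type w) [Field L] [Algebra A L] [IsFractionRing A L] :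
    ∃ W : AC L k, ∀ x : A, x ≠ 0 →
      W.v (algebraMap A L x) = V.v x ∧ W.lc (algebraMap A L x) = V.lc x := by
  refine ⟨frac_W V L, fun x hx => ?_⟩
  have h : frac_R L (algebraMap A L x) x 1 := ⟨V.one_ne, by rw [map_one, mul_one]⟩
  constructor
  · change frac_v V L (algebraMap A L x) = V.v x
    rw [frac_v_eq V L h (frac_ne L hx), V.v_one, sub_zero]
  · change frac_l V L (algebraMap A L x) = V.lc x
    rw [frac_l_eq V L h, map_one, div_one]

/-- The same for `ge`, `ini`. -/
theorem frac_ge (V : AC A k) (L : Type w) [Field L] [Algebra A L] [IsFractionRing A L]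
    (W : AC L k) (hW : ∀ x : A, x ≠ 0 →
      W.v (algebraMap A L x) = V.v x ∧ W.lc (algebraMap A L x) = V.lc x) (m : ℚ) (x : A) :
    (W.ge m (algebraMap A L x) ↔ V.ge m x) ∧ W.ini m (algebraMap A L x) = V.ini m x := by
  by_cases hx : x = 0
  · rw [hx, map_zero]
    exact ⟨⟨fun _ => Or.inl rfl, fun _ => Or.inl rfl⟩, by rw [AC.ini_zero, AC.ini_zero]⟩
  · obtain ⟨h1, h2⟩ := hW x hx
    have h3 : algebraMap A L x ≠ 0 := frac_ne L hx
    constructor
    · unfold AC.ge
      rw [h1]
      constructor
      · rintro (h | h)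
        · exact absurd h h3
        · exact Or.inr h
      · rintro (h | h)
        · exact absurd h hx
        · exact Or.inr h
    · unfold AC.ini
      rw [h1, h2]
      by_cases hm : V.v x = m
      · rw [if_pos ⟨h3, hm⟩, if_pos ⟨hx, hm⟩]
      · rw [if_neg (fun h => hm h.2), if_neg (fun h => hm h.2)]

end QPL
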