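import Pool.Agent.QPL.Frac

set_option autoImplicit false

/-!
# QPL-5: the places `t = c` and `t = ∞` of `k(t)`

First places of `k[X]` with `v P = P.rootMultiplicity c`,
`lc P = (P /ₘ (X - C c)^v).eval c` resp. `v P = - P.natDegree`, `lc P = P.leadingCoeff`
(`Polynomial.leadingCoeff_mul`, `degree_add_eq_left_of_degree_lt`, ...), then `exists_frac`.
The reduction map is `spec c` resp. `specI` (`f = f.num / f.denom`, `RatFunc.num_div_denom`;
`f.num`, `f.denom` are coprime, so not both vanish at `c`).
-/

noncomputable section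

open Polynomial
open scoped Classical

namespace QPL

open Helper14.Gon

universe u v w

variable {k : Type u} [Field k]

private lemma at_key (c : k) {P : k[X]} (hP : P ≠ 0) :
    ∃ q : k[X], P = (X - C c) ^ P.rootMultiplicity c * q ∧ q.eval c ≠ 0 ∧
      (P /ₘ (X - C c) ^ P.rootMultiplicity c).eval c = q.eval c :=
  ⟨_, (pow_mul_divByMonic_rootMultiplicity_eq P c).symm,
    eval_divByMonic_pow_rootMultiplicity_ne_zero c hP, rfl⟩

private lemma at_ne (c : k) {q : k[X]} (hq : q.eval c ≠ 0) : q ≠ 0 := by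
  rintro rfl
  exact hq eval_zero

private lemma at_pow_ne (c : k) (n : ℕ) : ((X - C c) ^ n : k[X]) ≠ 0 :=
  pow_ne_zero _ (X_sub_C_ne_zero c)

private lemma at_mul_ne (c : k) (n : ℕ) {q : k[X]} (hq : q.eval c ≠ 0) :
    (X - C c) ^ n * q ≠ 0 := mul_ne_zero (at_pow_ne c n) (at_ne c hq)

private lemma at_rm (c : k) (n : ℕ) {q : k[X]} (hq : q.eval c ≠ 0) :
    ((X - C c) ^ n * q).rootMultiplicity c = n := by
  rw [rootMultiplicity_mul (at_mul_ne c n hq), rootMultiplicity_X_sub_C_pow,
    rootMultiplicity_eq_zero (p := q) (x := c) hq, add_zero]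

private lemma at_lc (c : k) (n : ℕ) {q : k[X]} (hq : q.eval c ≠ 0) :
    (((X - C c) ^ n * q) /ₘ (X - C c) ^ ((X - C c) ^ n * q).rootMultiplicity c).eval c =
      q.eval c := by
  rw [at_rm c n hq, mul_divByMonic_cancel_left q ((monic_X_sub_C c).pow n)]

/-- The place of `k[X]` at `c`. -/
private def at_V (c : k) : AC k[X] k where
  v P := (P.rootMultiplicity c : ℚ)
  lc :=
    { toFun := fun P => (P /ₘ (X - C c) ^ P.rootMultiplicity c).eval c
      map_zero' := by rw [zero_divByMonic, eval_zero]
      map_one' := by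
        have h : (1 : k[X]).eval c ≠ 0 := by rw [eval_one]; exact one_ne_zero
        have h2 := at_lc c 0 h
        rw [pow_zero, one_mul, eval_one] at h2
        exact h2
      map_mul' := by
        intro P Q
        by_cases hP : P = 0
        · rw [hP, zero_mul, zero_divByMonic, eval_zero, zero_mul]
        by_cases hQ : Q = 0
        · rw [hQ, mul_zero, zero_divByMonic, eval_zero, mul_zero]
        obtain ⟨p, e1, h1, h1'⟩ := at_key c hP
        obtain ⟨q, e2, h2, h2'⟩ := at_key c hQ
        have e3 : P * Q = (X - C c) ^ (P.rootMultiplicity c + Q.rootMultiplicity c) * (p * q) := by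
          rw [pow_add]
          calc P * Q = ((X - C c) ^ P.rootMultiplicity c * p) *
                ((X - C c) ^ Q.rootMultiplicity c * q) := by rw [← e1, ← e2]
            _ = _ := by ring
        have h3 : (p * q).eval c ≠ 0 := by rw [eval_mul]; exact mul_ne_zero h1 h2
        have h4 := at_lc c (P.rootMultiplicity c + Q.rootMultiplicity c) h3
        rw [← e3, eval_mul] at h4
        rw [h4, h1', h2'] }
  lc_ne := fun {P} hP => eval_divByMonic_pow_rootMultiplicity_ne_zero c hP
  v_mul := by
    intro P Q hP hQ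
    rw [rootMultiplicity_mul (mul_ne_zero hP hQ), Nat.cast_add]
  add_lt := by
    intro P Q hP hQ
    rcases hQ with rfl | hQ
    · rw [add_zero]
      exact ⟨hP, rfl, rfl⟩
    by_cases hQ0 : Q = 0
    · subst hQ0
      rw [add_zero]
      exact ⟨hP, rfl, rfl⟩
    obtain ⟨p, e1, h1, h1'⟩ := at_key c hP
    obtain ⟨q, e2, h2, h2'⟩ := at_key c hQ0
    have hlt : P.rootMultiplicity c < Q.rootMultiplicity c := by exact_mod_cast hQ
    obtain ⟨m, hm⟩ : ∃ m, Q.rootMultiplicity c = P.rootMultiplicity c + (m + 1) :=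
      ⟨Q.rootMultiplicity c - P.rootMultiplicity c - 1, by omega⟩
    rw [hm] at e2
    have e3 : P + Q = (X - C c) ^ P.rootMultiplicity c * (p + (X - C c) ^ (m + 1) * q) := by
      calc P + Q = (X - C c) ^ P.rootMultiplicity c * p +
            (X - C c) ^ (P.rootMultiplicity c + (m + 1)) * q := by rw [← e1, ← e2]
        _ = _ := by rw [pow_add]; ring
    have h3 : (p + (X - C c) ^ (m + 1) * q).eval c = p.eval c := by simp
    have h4 : (p + (X - C c) ^ (m + 1) * q).eval c ≠ 0 := by rw [h3]; exact h1
    have a1 := at_mul_ne c (P.rootMultiplicity c) h4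
    have a2 := at_rm c (P.rootMultiplicity c) h4
    have a3 := at_lc c (P.rootMultiplicity c) h4
    rw [← e3] at a1 a2 a3
    refine ⟨a1, ?_, ?_⟩
    · rw [a2]
    · change ((P + Q) /ₘ (X - C c) ^ (P + Q).rootMultiplicity c).eval c =
        (P /ₘ (X - C c) ^ P.rootMultiplicity c).eval c
      rw [a3, h3, h1']
  add_ne := by
    intro P Q hP hQ0 hv hl
    obtain ⟨p, e1, h1, h1'⟩ := at_key c hP
    obtain ⟨q, e2, h2, h2'⟩ := at_key c hQ0
    have hv' : P.rootMultiplicity c = Q.rootMultiplicity c := by exact_mod_cast hv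
    change (P /ₘ (X - C c) ^ P.rootMultiplicity c).eval c +
      (Q /ₘ (X - C c) ^ Q.rootMultiplicity c).eval c ≠ 0 at hl
    rw [h1', h2'] at hl
    rw [← hv'] at e2
    have e3 : P + Q = (X - C c) ^ P.rootMultiplicity c * (p + q) := by
      calc P + Q = (X - C c) ^ P.rootMultiplicity c * p +
            (X - C c) ^ P.rootMultiplicity c * q := by rw [← e1, ← e2]
        _ = _ := by ring
    have h4 : (p + q).eval c ≠ 0 := by rw [eval_add]; exact hl
    have a1 := at_mul_ne c (P.rootMultiplicity c) h4
    have a2 := at_rm c (P.rootMultiplicity c) h4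
    have a3 := at_lc c (P.rootMultiplicity c) h4
    rw [← e3] at a1 a2 a3
    refine ⟨a1, ?_, ?_⟩
    · rw [a2]
    · change ((P + Q) /ₘ (X - C c) ^ (P + Q).rootMultiplicity c).eval c =
        (P /ₘ (X - C c) ^ P.rootMultiplicity c).eval c +
          (Q /ₘ (X - C c) ^ Q.rootMultiplicity c).eval c
      rw [a3, eval_add, h1', h2']
  add_eq := by
    intro P Q hP hQ0 hv hl
    obtain ⟨p, e1, h1, h1'⟩ := at_key c hP
    obtain ⟨q, e2, h2, h2'⟩ := at_key c hQ0
    have hv' : P.rootMultiplicity c = Q.rootMultiplicity c := by exact_mod_cast hv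
    change (P /ₘ (X - C c) ^ P.rootMultiplicity c).eval c +
      (Q /ₘ (X - C c) ^ Q.rootMultiplicity c).eval c = 0 at hl
    rw [h1', h2', ← eval_add] at hl
    rw [← hv'] at e2
    by_cases h0 : P + Q = 0
    · exact Or.inl h0
    right
    obtain ⟨r, hr⟩ := dvd_iff_isRoot.2 (show IsRoot (p + q) c from hl)
    have e3 : P + Q = (X - C c) ^ (P.rootMultiplicity c + 1) * r := by
      calc P + Q = (X - C c) ^ P.rootMultiplicity c * p +
            (X - C c) ^ P.rootMultiplicity c * q := by rw [← e1, ← e2]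
        _ = (X - C c) ^ P.rootMultiplicity c * (p + q) := by ring
        _ = _ := by rw [hr, pow_succ]; ring
    have h5 := (le_rootMultiplicity_iff h0 (a := c)
      (n := P.rootMultiplicity c + 1)).2 ⟨r, e3⟩
    change ((P.rootMultiplicity c : ℕ) : ℚ) < (((P + Q).rootMultiplicity c : ℕ) : ℚ)
    exact_mod_cast h5

private lemma at_rd (W : AC (RatFunc k) k) (f : RatFunc k) (hf : f ≠ 0) :
    W.v f = W.v (algebraMap k[X] (RatFunc k) f.num) -
        W.v (algebraMap k[X] (RatFunc k) f.denom) ∧
      W.lc f = W.lc (algebraMap k[X] (RatFunc k) f.num) /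
        W.lc (algebraMap k[X] (RatFunc k) f.denom) := by
  have hn : algebraMap k[X] (RatFunc k) f.num ≠ 0 :=
    RatFunc.algebraMap_ne_zero (RatFunc.num_ne_zero hf)
  have hd : algebraMap k[X] (RatFunc k) f.denom ≠ 0 :=
    RatFunc.algebraMap_ne_zero (RatFunc.denom_ne_zero f)
  rw [← W.v_div hn hd, ← W.lc_div, RatFunc.num_div_denom]
  exact ⟨rfl, rfl⟩

theorem exists_at (c : k) : ∃ W : AC (RatFunc k) k, IsAt c W := by
  obtain ⟨W, hW⟩ := exists_frac (at_V c) (RatFunc k)
  refine ⟨W, ?_, fun P hP => (hW P hP).1, fun P hP => (hW P hP).2⟩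
  funext x
  rcases x with _ | f
  · rfl
  by_cases hf : f = 0
  · rw [hf]
    exact W.rd_zero.trans (spec_zero c).symm
  obtain ⟨h1, h2⟩ := at_rd W f hf
  have hn0 := RatFunc.num_ne_zero hf
  have hd0 := RatFunc.denom_ne_zero f
  obtain ⟨v1, l1⟩ := hW f.num hn0
  obtain ⟨v2, l2⟩ := hW f.denom hd0
  rw [v1, v2] at h1
  rw [l1, l2] at h2
  change W.v f = ((f.num.rootMultiplicity c : ℕ) : ℚ) - ((f.denom.rootMultiplicity c : ℕ) : ℚ) at h1
  change W.lc f = (f.num /ₘ (X - C c) ^ f.num.rootMultiplicity c).eval c /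
    (f.denom /ₘ (X - C c) ^ f.denom.rootMultiplicity c).eval c at h2
  have hcop : f.num.eval c ≠ 0 ∨ f.denom.eval c ≠ 0 := by
    obtain ⟨a, b, hab⟩ := RatFunc.isCoprime_num_denom f
    have hev := congrArg (eval c) hab
    rw [eval_add, eval_mul, eval_mul, eval_one] at hev
    by_contra hcon
    push Not at hcon
    rw [hcon.1, hcon.2, mul_zero, mul_zero, add_zero] at hev
    exact zero_ne_one hev
  have hsp := spec_div c f.num f.denom hd0 hcop
  rw [RatFunc.num_div_denom] at hsp
  change W.rd (some f) = spec c (some f)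
  rw [hsp]
  have hz : ∀ P : k[X], P.eval c ≠ 0 → P.rootMultiplicity c = 0 :=
    fun P hP => rootMultiplicity_eq_zero (p := P) (x := c) hP
  have hl : ∀ P : k[X], P.eval c ≠ 0 →
      (P /ₘ (X - C c) ^ P.rootMultiplicity c).eval c = P.eval c := by
    intro P hP
    rw [hz P hP, pow_zero, divByMonic_one]
  by_cases hd : f.denom.eval c = 0
  · rw [if_pos hd]
    have hn : f.num.eval c ≠ 0 := by
      rcases hcop with h | h
      · exact h
      · exact absurd hd h
    apply W.rd_neg hf
    rw [h1, hz _ hn]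
    have h3 : 0 < f.denom.rootMultiplicity c := (rootMultiplicity_pos hd0).2 hd
    have h4 : (0 : ℚ) < ((f.denom.rootMultiplicity c : ℕ) : ℚ) := by exact_mod_cast h3
    rw [Nat.cast_zero]
    linarith
  · rw [if_neg hd]
    by_cases hn : f.num.eval c = 0
    · rw [hn, zero_div]
      apply W.rd_pos
      rw [h1, hz _ hd]
      have h3 : 0 < f.num.rootMultiplicity c := (rootMultiplicity_pos hn0).2 hn
      have h4 : (0 : ℚ) < ((f.num.rootMultiplicity c : ℕ) : ℚ) := by exact_mod_cast h3
      rw [Nat.cast_zero]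
      linarith
    · rw [W.rd_unit hf (by rw [h1, hz _ hn, hz _ hd, sub_self]), h2, hl _ hn, hl _ hd]

/-- The place of `k[X]` at infinity. -/
private def at_I : AC k[X] k where
  v P := -(P.natDegree : ℚ)
  lc :=
    { toFun := leadingCoeff
      map_zero' := leadingCoeff_zero
      map_one' := leadingCoeff_one
      map_mul' := leadingCoeff_mul }
  lc_ne := fun {P} hP => leadingCoeff_ne_zero.2 hP
  v_mul := by
    intro P Q hP hQ
    rw [natDegree_mul hP hQ, Nat.cast_add]
    ring
  add_lt := by
    intro P Q hP hQ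
    rcases hQ with rfl | hQ
    · rw [add_zero]
      exact ⟨hP, rfl, rfl⟩
    by_cases hQ0 : Q = 0
    · subst hQ0
      rw [add_zero]
      exact ⟨hP, rfl, rfl⟩
    have hlt : Q.natDegree < P.natDegree := by
      have h : (Q.natDegree : ℚ) < (P.natDegree : ℚ) := by linarith
      exact_mod_cast h
    have h1 : (P + Q).natDegree = P.natDegree := natDegree_add_eq_left_of_natDegree_lt hlt
    have h2 : (P + Q).leadingCoeff = P.leadingCoeff :=
      leadingCoeff_add_of_degree_lt' (degree_lt_degree hlt)
    refine ⟨?_, ?_, h2⟩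
    · intro h
      rw [h, natDegree_zero] at h1
      omega
    · rw [h1]
  add_ne := by
    intro P Q hP hQ0 hv hl
    have hv' : P.natDegree = Q.natDegree := by
      have h : (P.natDegree : ℚ) = (Q.natDegree : ℚ) := by linarith
      exact_mod_cast h
    change P.leadingCoeff + Q.leadingCoeff ≠ 0 at hl
    have hd : P.degree = Q.degree := by
      rw [degree_eq_natDegree hP, degree_eq_natDegree hQ0, hv']
    have h2 : (P + Q).leadingCoeff = P.leadingCoeff + Q.leadingCoeff :=
      leadingCoeff_add_of_degree_eq hd hl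
    have h1 : (P + Q).natDegree = P.natDegree := by
      apply le_antisymm
      · have h := natDegree_add_le P Q
        rw [← hv', max_self] at h
        exact h
      · apply le_natDegree_of_ne_zero
        rw [coeff_add]
        nth_rewrite 2 [hv']
        exact hl
    refine ⟨?_, ?_, h2⟩
    · intro h
      rw [h, leadingCoeff_zero] at h2
      exact hl h2.symm
    · rw [h1]
  add_eq := by
    intro P Q hP hQ0 hv hl
    have hv' : P.natDegree = Q.natDegree := by
      have h : (P.natDegree : ℚ) = (Q.natDegree : ℚ) := by linarith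
      exact_mod_cast h
    change P.leadingCoeff + Q.leadingCoeff = 0 at hl
    by_cases h0 : P + Q = 0
    · exact Or.inl h0
    right
    have hd : P.degree = (-Q).degree := by
      rw [degree_neg, degree_eq_natDegree hP, degree_eq_natDegree hQ0, hv']
    have h3 := degree_sub_lt_left hd hP (by rw [leadingCoeff_neg]; exact eq_neg_of_add_eq_zero_left hl)
    rw [sub_neg_eq_add] at h3
    have h4 := natDegree_lt_natDegree h0 h3
    have h5 : ((P + Q).natDegree : ℚ) < (P.natDegree : ℚ) := by exact_mod_cast h4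
    linarith

theorem exists_inf : ∃ W : AC (RatFunc k) k, IsInf W := by
  obtain ⟨W, hW⟩ := exists_frac (at_I (k := k)) (RatFunc k)
  refine ⟨W, ?_, fun P hP => (hW P hP).1, fun P hP => (hW P hP).2⟩
  funext x
  rcases x with _ | f
  · rfl
  by_cases hf : f = 0
  · rw [hf]
    refine W.rd_zero.trans ?_
    change some 0 = if (RatFunc.denom (0 : RatFunc k)).natDegree <
      (RatFunc.num (0 : RatFunc k)).natDegree then none else _
    rw [RatFunc.num_zero, RatFunc.denom_zero, natDegree_zero, natDegree_one,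
      if_neg (lt_irrefl 0), coeff_zero, zero_div]
  obtain ⟨h1, h2⟩ := at_rd W f hf
  have hn0 := RatFunc.num_ne_zero hf
  have hd0 := RatFunc.denom_ne_zero f
  obtain ⟨v1, l1⟩ := hW f.num hn0
  obtain ⟨v2, l2⟩ := hW f.denom hd0
  rw [v1, v2] at h1
  rw [l1, l2] at h2
  change W.v f = -(f.num.natDegree : ℚ) - -(f.denom.natDegree : ℚ) at h1
  change W.lc f = f.num.leadingCoeff / f.denom.leadingCoeff at h2
  change W.rd (some f) = if f.denom.natDegree < f.num.natDegree then none
      else some (f.num.coeff f.denom.natDegree / f.denom.leadingCoeff)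
  rcases lt_trichotomy f.denom.natDegree f.num.natDegree with h | h | h
  · rw [if_pos h]
    apply W.rd_neg hf
    have h3 : (f.denom.natDegree : ℚ) < (f.num.natDegree : ℚ) := by exact_mod_cast h
    linarith
  · rw [if_neg (by omega)]
    rw [W.rd_unit hf (by rw [h1, h]; ring), h2, h]
    rfl
  · rw [if_neg (by omega), coeff_eq_zero_of_natDegree_lt h, zero_div]
    apply W.rd_pos
    have h3 : (f.num.natDegree : ℚ) < (f.denom.natDegree : ℚ) := by exact_mod_cast h
    linarith

end QPL
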