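import Pool.Agent.QPL.Calc

set_option autoImplicit false

/-!
# QPL-20: the leading coefficients of the extension

`ext_group`: the map `H₁ × H₂ → D`, `(x, y) ↦ f₁ x + f₂ y` vanishes on the kernel of
`H₁ × H₂ → G`, so it is defined on its image (`H₁ ⊔ H₂`), and extends to `G` since `D` is
divisible (`Module.Baer.of_divisible`, `Module.Baer.extension_property_addMonoidHom`).
`ext_lc`: `G = Additive L^*`, `D = Additive Ω^*` (divisible: `Ω` is algebraically closed,
`IsAlgClosed.exists_pow_nat_eq`), `H₁` the image of `K^*`, `H₂` the units of `O`; on the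
intersection the two maps agree: `x ∈ K^*` with `x, x⁻¹ ∈ O` has `v x = 0`, `lc x = ini 0 x`.
(`f₁` is defined on the range of the injective map `K^* → L^*`.)
-/

noncomputable section

open Polynomial
open scoped Classical

namespace QPL

open Helper14.Gon

universe u v w

private theorem extlc_baer {D : Type v} [AddCommGroup D]
    (hD : ∀ (n : ℕ), 0 < n → ∀ x : D, ∃ y : D, n • y = x) : Module.Baer ℤ D := by
  have hZ : ∀ (n : ℤ), n ≠ 0 → ∀ x : D, ∃ y : D, n • y = x := by
    intro n hn x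
    have hpos : 0 < n.natAbs := Int.natAbs_pos.2 hn
    obtain ⟨y, hy⟩ := hD n.natAbs hpos x
    rcases Int.natAbs_eq n with h | h
    · refine ⟨y, ?_⟩
      rw [h, natCast_zsmul, hy]
    · refine ⟨-y, ?_⟩
      rw [h, neg_smul, smul_neg, neg_neg, natCast_zsmul, hy]
  let _ : DivisibleBy D ℤ :=
    { div := fun x n => if h : n ≠ 0 then Classical.choose (hZ n h x) else 0
      div_zero := fun x => dif_neg (fun h => h rfl)
      div_cancel := fun {n} x hn => by
        rw [dif_pos hn]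
        exact Classical.choose_spec (hZ n hn x) }
  exact Module.Baer.of_divisible D

theorem ext_group {G : Type u} {D : Type v} [AddCommGroup G] [AddCommGroup D]
    (hD : ∀ (n : ℕ), 0 < n → ∀ x : D, ∃ y : D, n • y = x)
    (H₁ H₂ : AddSubgroup G) (f₁ : H₁ →+ D) (f₂ : H₂ →+ D)
    (h : ∀ (x : G) (h1 : x ∈ H₁) (h2 : x ∈ H₂), f₁ ⟨x, h1⟩ = f₂ ⟨x, h2⟩) :
    ∃ f : G →+ D, (∀ x : H₁, f x = f₁ x) ∧ (∀ x : H₂, f x = f₂ x) := by
  have hI : Module.Baer ℤ D := extlc_baer hD
  let s : (H₁ × H₂) →+ G := H₁.subtype.coprod H₂.subtype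
  let F : (H₁ × H₂) →+ D := f₁.coprod f₂
  have hs : ∀ p : H₁ × H₂, s p = (p.1 : G) + (p.2 : G) := fun p => rfl
  have hF : ∀ p : H₁ × H₂, F p = f₁ p.1 + f₂ p.2 := fun p => rfl
  have hker : s.ker ≤ F.ker := by
    rintro ⟨x, y⟩ hp
    rw [AddMonoidHom.mem_ker, hs] at hp
    have hp' : (x : G) + (y : G) = 0 := hp
    rw [AddMonoidHom.mem_ker, hF]
    have e : (x : G) = -(y : G) := eq_neg_of_add_eq_zero_left hp'
    have h2 : (x : G) ∈ H₂ := by
      rw [e]
      exact H₂.neg_mem y.2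
    have h3 := h (x : G) x.2 h2
    have e2 : (⟨(x : G), h2⟩ : H₂) = -y := Subtype.ext e
    have e3 : (⟨(x : G), x.2⟩ : H₁) = x := rfl
    rw [e2, e3, map_neg] at h3
    show f₁ x + f₂ y = 0
    rw [h3, neg_add_cancel]
  obtain ⟨f, hf⟩ := hI.extension_property_addMonoidHom (QuotientAddGroup.kerLift s)
    (QuotientAddGroup.kerLift_injective s) (QuotientAddGroup.lift s.ker F hker)
  have key : ∀ p : H₁ × H₂, f (s p) = F p := by
    intro p
    have h1 := DFunLike.congr_fun hf (QuotientAddGroup.mk p)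
    exact h1
  refine ⟨f, fun x => ?_, fun x => ?_⟩
  · have h1 := key (x, 0)
    rw [hs, hF] at h1
    have h2 : f ((x : G) + ((0 : H₂) : G)) = f₁ x + f₂ 0 := h1
    rw [map_zero, add_zero, AddSubgroup.coe_zero, add_zero] at h2
    exact h2
  · have h1 := key (0, x)
    rw [hs, hF] at h1
    have h2 : f (((0 : H₁) : G) + (x : G)) = f₁ 0 + f₂ x := h1
    rw [map_zero, zero_add, AddSubgroup.coe_zero, zero_add] at h2
    exact h2

variable {K : Type u} {L : Type v} {Ω : Type w} [Field K] [Field L] [Algebra K L]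
  [Field Ω] [IsAlgClosed Ω]

theorem ext_lc (V : AC K Ω) (O : ValuationSubring L) (r : O →+* Ω)
    (hO : ∀ x : K, algebraMap K L x ∈ O ↔ V.ge 0 x)
    (hr : ∀ (x : K) (h : algebraMap K L x ∈ O), r ⟨algebraMap K L x, h⟩ = V.ini 0 x) :
    ∃ l : L →*₀ Ω, (∀ x : K, l (algebraMap K L x) = V.lc x) ∧
      (∀ y : O, IsUnit y → l y = r y) := by
  let i₁ : Additive Kˣ →+ Additive Lˣ := MonoidHom.toAdditive (Units.map (algebraMap K L : K →* L))
  let i₂ : Additive Oˣ →+ Additive Lˣ := MonoidHom.toAdditive (Units.map (O.subtype : O →* L))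
  let g₂ : Additive Oˣ →+ Additive Ωˣ := MonoidHom.toAdditive (Units.map (r : O →* Ω))
  have hi₁ : Function.Injective i₁ := by
    intro a b hab
    have h1 : algebraMap K L (a.toMul : K) = algebraMap K L (b.toMul : K) :=
      congrArg (fun z : Additive Lˣ => ((z.toMul : Lˣ) : L)) hab
    have h2 : (a.toMul : K) = (b.toMul : K) := (algebraMap K L).injective h1
    have h3 : a.toMul = b.toMul := Units.ext h2
    exact h3
  have hi₂ : Function.Injective i₂ := by
    intro a b hab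
    have h1 : (((a.toMul : Oˣ) : O) : L) = (((b.toMul : Oˣ) : O) : L) :=
      congrArg (fun z : Additive Lˣ => ((z.toMul : Lˣ) : L)) hab
    have h2 : ((a.toMul : Oˣ) : O) = ((b.toMul : Oˣ) : O) := Subtype.ext h1
    have h3 : a.toMul = b.toMul := Units.ext h2
    exact h3
  have hD : ∀ (n : ℕ), 0 < n → ∀ x : Additive Ωˣ, ∃ y : Additive Ωˣ, n • y = x := by
    intro n hn x
    obtain ⟨z, hz⟩ := IsAlgClosed.exists_pow_nat_eq ((x.toMul : Ωˣ) : Ω) hn
    have hz0 : z ≠ 0 := by
      rintro rfl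
      rw [zero_pow hn.ne'] at hz
      exact (Units.ne_zero _) hz.symm
    refine ⟨Additive.ofMul (Units.mk0 z hz0), ?_⟩
    have h1 : (Units.mk0 z hz0) ^ n = x.toMul := by
      refine Units.ext ?_
      rw [Units.val_pow_eq_pow_val, Units.val_mk0, hz]
    have h2 : n • Additive.ofMul (Units.mk0 z hz0) = Additive.ofMul ((Units.mk0 z hz0) ^ n) := rfl
    rw [h2, h1]
    rfl
  let e₁ := AddMonoidHom.ofInjective hi₁
  let e₂ := AddMonoidHom.ofInjective hi₂
  have he₁ : ∀ (a : Additive Kˣ) (h : i₁ a ∈ i₁.range), e₁.symm ⟨i₁ a, h⟩ = a := by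
    intro a h
    rw [AddEquiv.symm_apply_eq]
    rfl
  have he₂ : ∀ (a : Additive Oˣ) (h : i₂ a ∈ i₂.range), e₂.symm ⟨i₂ a, h⟩ = a := by
    intro a h
    rw [AddEquiv.symm_apply_eq]
    rfl
  obtain ⟨f, hf₁, hf₂⟩ := ext_group hD i₁.range i₂.range
    (V.lH.comp e₁.symm.toAddMonoidHom) (g₂.comp e₂.symm.toAddMonoidHom) (by
      rintro x ⟨a, rfl⟩ ⟨b, hb⟩
      have hx2 : i₂ b ∈ i₂.range := ⟨b, rfl⟩
      show V.lH (e₁.symm ⟨i₁ a, ⟨a, rfl⟩⟩) = g₂ (e₂.symm ⟨i₁ a, ⟨b, hb⟩⟩)
      have e2 : (⟨i₁ a, ⟨b, hb⟩⟩ : i₂.range) = ⟨i₂ b, hx2⟩ := Subtype.ext hb.symm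
      rw [he₁, e2, he₂]
      have hab : (((b.toMul : Oˣ) : O) : L) = algebraMap K L ((a.toMul : Kˣ) : K) :=
        congrArg (fun z : Additive Lˣ => ((z.toMul : Lˣ) : L)) hb
      have hab' : ((((b.toMul)⁻¹ : Oˣ) : O) : L) = algebraMap K L (((a.toMul : Kˣ) : K)⁻¹) := by
        have h1 : ((((b.toMul)⁻¹ : Oˣ) : O) : L) * (((b.toMul : Oˣ) : O) : L) = 1 := by
          have h2 : (((b.toMul)⁻¹ : Oˣ) : O) * ((b.toMul : Oˣ) : O) = 1 := Units.inv_mul _
          exact congrArg Subtype.val h2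
        rw [eq_inv_of_mul_eq_one_left h1, hab, map_inv₀]
      have h1 : algebraMap K L ((a.toMul : Kˣ) : K) ∈ O := by
        rw [← hab]
        exact Subtype.property _
      have h2 : algebraMap K L (((a.toMul : Kˣ) : K)⁻¹) ∈ O := by
        rw [← hab']
        exact Subtype.property _
      have h3 := (hO _).1 h1
      have h4 := (hO _).1 h2
      have ha0 : ((a.toMul : Kˣ) : K) ≠ 0 := Units.ne_zero _
      have h5 : V.v ((a.toMul : Kˣ) : K) = 0 := by
        have h6 := h3.resolve_left ha0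
        have h7 := h4.resolve_left (inv_ne_zero ha0)
        rw [V.v_inv ha0] at h7
        linarith
      have h8 : V.ini 0 ((a.toMul : Kˣ) : K) = V.lc ((a.toMul : Kˣ) : K) := by
        have h9 := V.ini_self ((a.toMul : Kˣ) : K)
        rw [h5] at h9
        exact h9
      have h10 : r ((b.toMul : Oˣ) : O) = V.lc ((a.toMul : Kˣ) : K) := by
        rw [← h8, ← hr _ h1]
        congr 1
        exact Subtype.ext hab
      have h11 : (V.lH a).toMul = (g₂ b).toMul := by
        refine Units.ext ?_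
        exact h10.symm
      exact h11)
  let l : L →*₀ Ω :=
    { toFun := fun x => if h : x = 0 then 0 else
        ((f (Additive.ofMul (Units.mk0 x h))).toMul : Ω)
      map_zero' := dif_pos rfl
      map_one' := by
        rw [dif_neg one_ne_zero]
        have h1 : (Units.mk0 (1 : L) one_ne_zero) = 1 := Units.mk0_one
        rw [h1]
        have h2 : (Additive.ofMul (1 : Lˣ)) = 0 := rfl
        rw [h2, map_zero]
        rfl
      map_mul' := by
        intro x y
        by_cases hx : x = 0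
        · rw [dif_pos (by rw [hx, zero_mul]), dif_pos hx, zero_mul]
        · by_cases hy : y = 0
          · rw [dif_pos (by rw [hy, mul_zero]), dif_pos hy, mul_zero]
          · rw [dif_neg (mul_ne_zero hx hy), dif_neg hx, dif_neg hy, Units.mk0_mul _ _ (mul_ne_zero hx hy)]
            have h2 : Additive.ofMul (Units.mk0 x hx * Units.mk0 y hy) =
                Additive.ofMul (Units.mk0 x hx) + Additive.ofMul (Units.mk0 y hy) := rfl
            rw [h2, map_add]
            rfl }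
  have hl : ∀ (x : L) (h : x ≠ 0), l x = ((f (Additive.ofMul (Units.mk0 x h))).toMul : Ω) :=
    fun x h => dif_neg h
  refine ⟨l, fun x => ?_, fun y hy => ?_⟩
  · by_cases hx : x = 0
    · rw [hx, map_zero, map_zero, map_zero]
    · have hx' : algebraMap K L x ≠ 0 := (_root_.map_ne_zero (algebraMap K L)).2 hx
      rw [hl _ hx']
      have e : Additive.ofMul (Units.mk0 (algebraMap K L x) hx') = i₁ (Additive.ofMul (Units.mk0 x hx)) := by
        have e1 : Units.mk0 (algebraMap K L x) hx' = Units.map (algebraMap K L : K →* L) (Units.mk0 x hx) :=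
          Units.ext rfl
        rw [e1]
        rfl
      rw [e]
      have h1 := hf₁ ⟨i₁ (Additive.ofMul (Units.mk0 x hx)), ⟨_, rfl⟩⟩
      have h2 : f (i₁ (Additive.ofMul (Units.mk0 x hx))) =
          V.lH (e₁.symm ⟨i₁ (Additive.ofMul (Units.mk0 x hx)), ⟨_, rfl⟩⟩) := h1
      rw [h2, he₁]
      rfl
  · obtain ⟨u, rfl⟩ := hy
    have hu0 : (((u : Oˣ) : O) : L) ≠ 0 := by
      intro h
      have h1 : ((u : Oˣ) : O) = 0 := Subtype.ext h
      exact Units.ne_zero u h1
    rw [hl _ hu0]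
    have e : Additive.ofMul (Units.mk0 (((u : Oˣ) : O) : L) hu0) = i₂ (Additive.ofMul u) := by
      have e1 : Units.mk0 (((u : Oˣ) : O) : L) hu0 = Units.map (O.subtype : O →* L) u := Units.ext rfl
      rw [e1]
      rfl
    rw [e]
    have h1 := hf₂ ⟨i₂ (Additive.ofMul u), ⟨_, rfl⟩⟩
    have h2 : f (i₂ (Additive.ofMul u)) = g₂ (e₂.symm ⟨i₂ (Additive.ofMul u), ⟨_, rfl⟩⟩) := h1
    rw [h2, he₂]
    rfl

end QPL
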