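import Pool.Agent.QPL.Calc

set_option autoImplicit false

/-!
# QPL-18: a valuation ring above the valuation ring of a place

`A₀ = {x : K | V.ge 0 x}` is a valuation subring of `K` (a `ValuationSubring K`; local, its
nonunits are the `x` with `V.ini 0 x = 0`).  `IsLocalRing.exists_factor_valuationRing` for
`A₀ → K → L` gives `O` with `A₀ → O` local.  If `x ∈ K`, `algebraMap x ∈ O` and `v x < 0` then
`x⁻¹` is a nonunit of `A₀`, so of `O`: contradiction.  The residue field of `O` is algebraic over
the residue field of `A₀`: for `y ∈ O` take a polynomial over `K` with root `y`, divide it by a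
coefficient of minimal valuation, reduce.  `IsAlgClosed.lift` (the residue field of `A₀` maps to
`Ω` by `V.ini 0`) gives the residue field of `O` → `Ω`; `r` is the composition with
`IsLocalRing.residue`.
-/

noncomputable section

open Polynomial
open scoped Classical

namespace QPL

open Helper14.Gon

universe u v w

variable {K : Type u} {L : Type v} {Ω : Type w} [Field K] [Field L] [Algebra K L]
  [Algebra.IsAlgebraic K L] [Field Ω] [IsAlgClosed Ω]

/-- The valuation ring of a place. -/
def AC.O {k : Type v} [Field k] (V : AC K k) : ValuationSubring K where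
  carrier := {x | V.ge 0 x}
  mul_mem' := by
    intro x y hx hy
    have h := V.ge_mul hx hy
    rwa [add_zero] at h
  one_mem' := V.ge_one
  add_mem' := fun hx hy => V.ge_add hx hy
  zero_mem' := V.ge_zero 0
  neg_mem' := fun hx => V.ge_neg hx
  mem_or_inv_mem' := by
    intro x
    by_cases hx : x = 0
    · left; exact Or.inl hx
    · rcases le_total 0 (V.v x) with h | h
      · left; exact Or.inr h
      · right; refine Or.inr ?_; rw [V.v_inv hx]; linarith

/-- The residue map of a place. -/
def AC.resO {k : Type v} [Field k] (V : AC K k) : V.O →+* k where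
  toFun x := V.ini 0 x
  map_one' := V.ini_one
  map_mul' := fun x y => by
    have h := V.ini_mul x.2 y.2
    rwa [add_zero] at h
  map_zero' := V.ini_zero 0
  map_add' := fun x y => V.ini_add x.2 y.2

theorem ext_ring0 (L : Type v) [Field L] [Algebra K L] {k : Type w} [Field k] (V : AC K k) :
    ∃ O : ValuationSubring L,
      (∀ x : K, algebraMap K L x ∈ O ↔ V.ge 0 x) ∧
      (∀ (x : K) (h : algebraMap K L x ∈ O), V.ini 0 x = 0 →
        ¬ IsUnit (⟨algebraMap K L x, h⟩ : O)) := by
  obtain ⟨O, hmem, hloc⟩ :=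
    IsLocalRing.exists_factor_valuationRing ((algebraMap K L).comp V.O.subtype)
  have hge : ∀ x : K, algebraMap K L x ∈ O → V.ge 0 x := by
    intro x hx
    by_contra hn
    have hx0 : x ≠ 0 := fun h => hn (Or.inl h)
    have hxv : V.v x < 0 := by
      by_contra h
      exact hn (Or.inr (not_lt.1 h))
    have hinv : x⁻¹ ∈ V.O := by
      refine Or.inr ?_
      rw [V.v_inv hx0]; linarith
    have hu : IsUnit ((((algebraMap K L).comp V.O.subtype).codRestrict O.toSubring hmem)
        ⟨x⁻¹, hinv⟩) := by
      refine IsUnit.of_mul_eq_one (⟨algebraMap K L x, hx⟩ : O.toSubring) ?_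
      apply Subtype.ext
      change algebraMap K L x⁻¹ * algebraMap K L x = 1
      rw [← map_mul, inv_mul_cancel₀ hx0, map_one]
    have hu2 := hloc.map_nonunit _ hu
    obtain ⟨w, hw⟩ := hu2.exists_right_inv
    have hw2 : x⁻¹ * (w : K) = 1 := congrArg Subtype.val hw
    have hwx : (w : K) = x := by
      have := congrArg (fun t => x * t) hw2
      simpa [← mul_assoc, mul_inv_cancel₀ hx0] using this
    exact hn (hwx ▸ w.2)
  refine ⟨O, fun x => ⟨hge x, fun hx => hmem ⟨x, hx⟩⟩, ?_⟩
  intro x h hini hu
  have hx := hge x h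
  have hu2 : IsUnit (⟨x, hx⟩ : V.O) := hloc.map_nonunit _ hu
  have hu3 := hu2.map V.resO
  exact hu3.ne_zero hini

/-- Every element of `O` satisfies, modulo the maximal ideal, an equation over `A₀` which is not
`0` modulo the maximal ideal. -/
theorem ext_ring1 {k : Type w} [Field k] (V : AC K k) (O : ValuationSubring L)
    (hO : ∀ x : K, algebraMap K L x ∈ O ↔ V.ge 0 x) (y : L) (hy : y ∈ O) :
    ∃ P : K[X], (∀ i, V.ge 0 (P.coeff i)) ∧ (∃ i, V.ini 0 (P.coeff i) ≠ 0) ∧
      aeval y P = 0 := by
  obtain ⟨p, hp0, hpy⟩ := Algebra.IsAlgebraic.isAlgebraic (R := K) y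
  obtain ⟨i0, hi0, hmin⟩ := Finset.exists_min_image p.support (fun i => V.v (p.coeff i))
    (Polynomial.support_nonempty.2 hp0)
  have hc : p.coeff i0 ≠ 0 := Polynomial.mem_support_iff.1 hi0
  refine ⟨C (p.coeff i0)⁻¹ * p, ?_, ⟨i0, ?_⟩, ?_⟩
  · intro i
    rw [Polynomial.coeff_C_mul]
    by_cases hi : p.coeff i = 0
    · left; rw [hi, mul_zero]
    · right
      rw [V.v_mul (inv_ne_zero hc) hi, V.v_inv hc]
      have := hmin i (Polynomial.mem_support_iff.2 hi)
      linarith
  · rw [Polynomial.coeff_C_mul, inv_mul_cancel₀ hc, V.ini_one]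
    exact one_ne_zero
  · rw [map_mul, hpy, mul_zero]

theorem ext_ring (V : AC K Ω) : ∃ (O : ValuationSubring L) (r : O →+* Ω),
    (∀ x : K, algebraMap K L x ∈ O ↔ V.ge 0 x) ∧
    (∀ (x : K) (h : algebraMap K L x ∈ O), r ⟨algebraMap K L x, h⟩ = V.ini 0 x) ∧
    (∀ y : O, r y ≠ 0 → IsUnit y) := by
  obtain ⟨O, hO, hnu⟩ := ext_ring0 L V
  let ι : V.O →+* O := ((algebraMap K L).comp V.O.subtype).codRestrict O.toSubring
    (fun x => (hO x).2 x.2)
  have hιv : ∀ x : V.O, ((ι x : O) : L) = algebraMap K L x := fun x => rfl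
  -- units of V.O
  have hunit : ∀ x : V.O, V.ini 0 (x : K) ≠ 0 → IsUnit x := by
    intro x hx
    have h1 := V.of_ini_ne hx
    have hinv : (x : K)⁻¹ ∈ V.O := by
      refine Or.inr ?_
      rw [V.v_inv h1.1, h1.2.1]; simp
    refine IsUnit.of_mul_eq_one (⟨(x : K)⁻¹, hinv⟩ : V.O) ?_
    apply Subtype.ext
    change (x : K) * (x : K)⁻¹ = 1
    exact mul_inv_cancel₀ h1.1
  have hl1 : IsLocalHom ι := by
    constructor
    intro x hx
    apply hunit
    intro h0
    exact hnu x ((hO x).2 x.2) h0 hx
  have hl2 : IsLocalHom V.resO := by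
    constructor
    intro x hx
    exact hunit x hx.ne_zero
  let φ : IsLocalRing.ResidueField V.O →+* Ω := IsLocalRing.ResidueField.lift V.resO
  let ψ : IsLocalRing.ResidueField V.O →+* IsLocalRing.ResidueField O :=
    IsLocalRing.ResidueField.map ι
  let : Algebra (IsLocalRing.ResidueField V.O) Ω := φ.toAlgebra
  let : Algebra (IsLocalRing.ResidueField V.O) (IsLocalRing.ResidueField O) := ψ.toAlgebra
  have : Algebra.IsAlgebraic (IsLocalRing.ResidueField V.O) (IsLocalRing.ResidueField O) := by
    constructor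
    intro z
    obtain ⟨y, rfl⟩ := IsLocalRing.residue_surjective z
    obtain ⟨P, hP1, ⟨i, hi⟩, hP3⟩ := ext_ring1 V O hO y y.2
    have hsub : (↑P.coeffs : Set K) ⊆ V.O.toSubring := by
      intro c hc
      obtain ⟨n, -, rfl⟩ := Polynomial.mem_coeffs_iff.1 hc
      exact hP1 n
    let Q : V.O[X] := P.toSubring V.O.toSubring hsub
    have hQc : ∀ n, ((Q.coeff n : V.O) : K) = P.coeff n := fun n =>
      Polynomial.coeff_toSubring P V.O.toSubring hsub
    have hQm : Q.map V.O.subtype = P := by
      ext n
      rw [Polynomial.coeff_map]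
      exact hQc n
    have hQ0 : eval₂ ι y Q = 0 := by
      apply Subtype.coe_injective
      have h1 : ((eval₂ ι y Q : O) : L) = eval₂ (O.subtype.comp ι) (O.subtype y) Q :=
        Polynomial.hom_eval₂ Q ι O.subtype y
      change ((eval₂ ι y Q : O) : L) = ((0 : O) : L)
      rw [h1]
      have h2 : O.subtype.comp ι = (algebraMap K L).comp V.O.subtype := rfl
      rw [h2, ← Polynomial.eval₂_map, hQm]
      exact hP3
    refine ⟨Q.map (IsLocalRing.residue V.O), ?_, ?_⟩
    · intro h0
      have h1 := congrArg (fun q => q.coeff i) h0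
      simp only [Polynomial.coeff_map, Polynomial.coeff_zero] at h1
      rw [IsLocalRing.residue_eq_zero_iff] at h1
      apply h1
      apply hunit
      rw [hQc i]
      exact hi
    · rw [Polynomial.aeval_def, Polynomial.eval₂_map]
      have h2 : (algebraMap (IsLocalRing.ResidueField V.O) (IsLocalRing.ResidueField O)).comp
          (IsLocalRing.residue V.O) = (IsLocalRing.residue O).comp ι := rfl
      rw [h2, ← Polynomial.hom_eval₂, hQ0, map_zero]
  let g : IsLocalRing.ResidueField O →ₐ[IsLocalRing.ResidueField V.O] Ω := IsAlgClosed.lift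
  refine ⟨O, (g : IsLocalRing.ResidueField O →+* Ω).comp (IsLocalRing.residue O), hO, ?_, ?_⟩
  · intro x h
    have hx := (hO x).1 h
    exact g.commutes (IsLocalRing.residue V.O ⟨x, hx⟩)
  · intro y hy
    by_contra hn
    apply hy
    have h1 : IsLocalRing.residue O y = 0 := by
      rw [IsLocalRing.residue_eq_zero_iff]
      exact hn
    change g (IsLocalRing.residue O y) = 0
    rw [h1, map_zero]

end QPL
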