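import Pool.Agent.QPL.Calc

set_option autoImplicit false

/-!
# QPL-19: the rational valuation of the extension

`ext_pow`: `x` is a root of a nonzero polynomial over `K`; two of the terms `c_i x^i`, `c_j x^j`
(`i < j`) have the same (maximal) `O.valuation`, otherwise the sum is nonzero; so
`O.valuation (x^(j - i)) = O.valuation (c_i / c_j)`.
`ext_v`: `w x = V.v a / m`; well defined: `(m, a)`, `(m', a')` give
`O.valuation (a^m') = O.valuation (a'^m)` and for `b ∈ K^*`: `O.valuation b = 1` iff `V.v b = 0`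
(`hO` for `b` and `b⁻¹`).
-/

noncomputable section

open Polynomial
open scoped Classical

namespace QPL

open Helper14.Gon

universe u v w

variable {K : Type u} {L : Type v} {k : Type w} [Field K] [Field L] [Algebra K L]
  [Algebra.IsAlgebraic K L] [Field k]

private theorem extv_two (O : ValuationSubring L) (s : Finset ℕ) (f : ℕ → L)
    (hs : s.Nonempty) (hf : ∀ i ∈ s, f i ≠ 0) (h0 : ∑ i ∈ s, f i = 0) :
    ∃ i ∈ s, ∃ j ∈ s, i < j ∧ O.valuation (f i) = O.valuation (f j) := by
  obtain ⟨i0, hi0, hmax⟩ := s.exists_max_image (fun i => O.valuation (f i)) hs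
  have hne : O.valuation (f i0) ≠ 0 := (Valuation.ne_zero_iff _).2 (hf i0 hi0)
  by_contra hc
  push Not at hc
  have hlt : ∀ j ∈ s.erase i0, O.valuation (f j) < O.valuation (f i0) := by
    intro j hj
    obtain ⟨h1, h2⟩ := Finset.mem_erase.1 hj
    refine lt_of_le_of_ne (hmax j h2) fun he => ?_
    rcases lt_or_gt_of_ne h1 with h3 | h3
    · exact hc j h2 i0 hi0 h3 he
    · exact hc i0 hi0 j h2 h3 he.symm
  have hs2 : O.valuation (∑ j ∈ s.erase i0, f j) < O.valuation (f i0) :=
    Valuation.map_sum_lt _ hne hlt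
  have h4 : f i0 = - ∑ j ∈ s.erase i0, f j := by
    have h5 := Finset.add_sum_erase s f hi0
    rw [h0] at h5
    exact eq_neg_of_add_eq_zero_left h5
  rw [h4, Valuation.map_neg] at hs2
  exact lt_irrefl _ hs2

theorem ext_pow (O : ValuationSubring L) (x : L) (hx : x ≠ 0) :
    ∃ (m : ℕ) (a : K), 0 < m ∧ a ≠ 0 ∧
      O.valuation (x ^ m) = O.valuation (algebraMap K L a) := by
  obtain ⟨p, hp, hpx⟩ := Algebra.IsAlgebraic.isAlgebraic (R := K) x
  have h0 : ∑ i ∈ p.support, algebraMap K L (p.coeff i) * x ^ i = 0 := by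
    rw [← hpx, Polynomial.aeval_def, Polynomial.eval₂_eq_sum, Polynomial.sum]
  have hf : ∀ i ∈ p.support, algebraMap K L (p.coeff i) * x ^ i ≠ 0 := by
    intro i hi
    exact mul_ne_zero ((_root_.map_ne_zero _).2 (Polynomial.mem_support_iff.1 hi)) (pow_ne_zero _ hx)
  obtain ⟨i, hi, j, hj, hij, he⟩ := extv_two O p.support
    (fun i => algebraMap K L (p.coeff i) * x ^ i) (Polynomial.support_nonempty.2 hp) hf h0
  have hci := Polynomial.mem_support_iff.1 hi
  have hcj := Polynomial.mem_support_iff.1 hj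
  refine ⟨j - i, p.coeff i / p.coeff j, by omega, div_ne_zero hci hcj, ?_⟩
  have hxi : O.valuation (x ^ i) ≠ 0 := (Valuation.ne_zero_iff _).2 (pow_ne_zero _ hx)
  have hcj' : O.valuation (algebraMap K L (p.coeff j)) ≠ 0 :=
    (Valuation.ne_zero_iff _).2 ((_root_.map_ne_zero _).2 hcj)
  have h1 : x ^ j = x ^ (j - i) * x ^ i := by
    rw [← pow_add]
    congr 1
    omega
  simp only [map_mul, h1] at he
  rw [map_div₀, map_div₀, eq_div_iff hcj']
  have h2 : O.valuation (algebraMap K L (p.coeff i)) * O.valuation (x ^ i) =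
      (O.valuation (x ^ (j - i)) * O.valuation (algebraMap K L (p.coeff j))) *
        O.valuation (x ^ i) := by
    rw [he]
    ac_rfl
  exact (mul_right_cancel₀ hxi h2).symm

omit [Algebra K L] [Algebra.IsAlgebraic K L] in
private theorem extv_pow (V : AC K k) {a : K} (ha : a ≠ 0) (n : ℕ) :
    V.v (a ^ n) = n * V.v a := by
  induction n with
  | zero => rw [pow_zero, AC.v_one, Nat.cast_zero, zero_mul]
  | succ n ih =>
    rw [pow_succ, V.v_mul (pow_ne_zero _ ha) ha, ih, Nat.cast_succ]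
    ring

omit [Algebra.IsAlgebraic K L] in
private theorem extv_le (V : AC K k) (O : ValuationSubring L)
    (hO : ∀ x : K, algebraMap K L x ∈ O ↔ V.ge 0 x) {a : K} (ha : a ≠ 0) :
    O.valuation (algebraMap K L a) ≤ 1 ↔ 0 ≤ V.v a := by
  rw [ValuationSubring.valuation_le_one_iff, hO]
  constructor
  · rintro (h | h)
    · exact absurd h ha
    · exact h
  · exact fun h => Or.inr h

omit [Algebra.IsAlgebraic K L] in
private theorem extv_eq (V : AC K k) (O : ValuationSubring L)
    (hO : ∀ x : K, algebraMap K L x ∈ O ↔ V.ge 0 x) {a b : K} (ha : a ≠ 0) (hb : b ≠ 0)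
    (h : O.valuation (algebraMap K L a) = O.valuation (algebraMap K L b)) : V.v a = V.v b := by
  have ha' : O.valuation (algebraMap K L a) ≠ 0 :=
    (Valuation.ne_zero_iff _).2 ((_root_.map_ne_zero _).2 ha)
  have hb' : O.valuation (algebraMap K L b) ≠ 0 :=
    (Valuation.ne_zero_iff _).2 ((_root_.map_ne_zero _).2 hb)
  have h1 : O.valuation (algebraMap K L (a / b)) ≤ 1 := by
    rw [map_div₀, map_div₀, h, div_self hb']
  have h2 : O.valuation (algebraMap K L (b / a)) ≤ 1 := by
    rw [map_div₀, map_div₀, h, div_self hb']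
  rw [extv_le V O hO (div_ne_zero ha hb), V.v_div ha hb] at h1
  rw [extv_le V O hO (div_ne_zero hb ha), V.v_div hb ha] at h2
  linarith

omit [Algebra.IsAlgebraic K L] in
private theorem extv_uniq (V : AC K k) (O : ValuationSubring L)
    (hO : ∀ x : K, algebraMap K L x ∈ O ↔ V.ge 0 x) {x : L} {m n : ℕ} {a b : K} (hm : 0 < m)
    (hn : 0 < n) (ha : a ≠ 0) (hb : b ≠ 0)
    (h1 : O.valuation (x ^ m) = O.valuation (algebraMap K L a))
    (h2 : O.valuation (x ^ n) = O.valuation (algebraMap K L b)) :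
    V.v a / m = V.v b / n := by
  have h3 : O.valuation (algebraMap K L (a ^ n)) = O.valuation (algebraMap K L (b ^ m)) := by
    rw [map_pow, map_pow, map_pow, map_pow, ← h1, ← h2, map_pow, map_pow, ← pow_mul, ← pow_mul,
      mul_comm]
  have h4 := extv_eq V O hO (pow_ne_zero _ ha) (pow_ne_zero _ hb) h3
  rw [extv_pow V ha, extv_pow V hb] at h4
  have hm' : (m : ℚ) ≠ 0 := by exact_mod_cast hm.ne'
  have hn' : (n : ℚ) ≠ 0 := by exact_mod_cast hn.ne'
  rw [div_eq_div_iff hm' hn']
  linarith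

theorem ext_v (V : AC K k) (O : ValuationSubring L)
    (hO : ∀ x : K, algebraMap K L x ∈ O ↔ V.ge 0 x) :
    ∃ w : L → ℚ, (∀ x y, x ≠ 0 → y ≠ 0 → w (x * y) = w x + w y) ∧
      (∀ x, x ≠ 0 → (x ∈ O ↔ 0 ≤ w x)) ∧ (∀ x : K, x ≠ 0 → w (algebraMap K L x) = V.v x) := by
  have key : ∀ x : L, ∃ q : ℚ, x ≠ 0 → ∃ (m : ℕ) (a : K), 0 < m ∧ a ≠ 0 ∧
      O.valuation (x ^ m) = O.valuation (algebraMap K L a) ∧ q = V.v a / m := by
    intro x
    by_cases hx : x = 0
    · exact ⟨0, fun h => absurd hx h⟩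
    · obtain ⟨m, a, h1, h2, h3⟩ := ext_pow (K := K) O x hx
      exact ⟨V.v a / m, fun _ => ⟨m, a, h1, h2, h3, rfl⟩⟩
  choose w hw using key
  refine ⟨w, ?_, ?_, ?_⟩
  · intro x y hx hy
    obtain ⟨m, a, hm, ha, h1, e1⟩ := hw x hx
    obtain ⟨n, b, hn, hb, h2, e2⟩ := hw y hy
    obtain ⟨l, c, hl, hc, h3, e3⟩ := hw (x * y) (mul_ne_zero hx hy)
    have h4 : O.valuation ((x * y) ^ (m * n)) = O.valuation (algebraMap K L (a ^ n * b ^ m)) := by
      rw [mul_pow, map_mul, pow_mul, mul_comm m n, pow_mul, map_mul, map_mul]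
      rw [map_pow O.valuation (x ^ m), map_pow O.valuation (y ^ n), h1, h2, map_pow, map_pow,
        map_pow, map_pow]
    have h5 := extv_uniq V O hO hl (Nat.mul_pos hm hn) hc
      (mul_ne_zero (pow_ne_zero _ ha) (pow_ne_zero _ hb)) h3 h4
    rw [e3, h5, e1, e2, V.v_mul (pow_ne_zero _ ha) (pow_ne_zero _ hb), extv_pow V ha,
      extv_pow V hb, Nat.cast_mul]
    have hm' : (m : ℚ) ≠ 0 := by exact_mod_cast hm.ne'
    have hn' : (n : ℚ) ≠ 0 := by exact_mod_cast hn.ne'
    field_simp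
  · intro x hx
    obtain ⟨m, a, hm, ha, h1, e1⟩ := hw x hx
    have hm' : (0 : ℚ) < m := by exact_mod_cast hm
    rw [← ValuationSubring.valuation_le_one_iff, e1]
    have h2 : O.valuation x ≤ 1 ↔ O.valuation (x ^ m) ≤ 1 := by
      rw [map_pow]
      exact (pow_le_one_iff hm.ne').symm
    rw [h2, h1, extv_le V O hO ha]
    constructor
    · exact fun h => div_nonneg h hm'.le
    · intro h
      have h3 : V.v a = V.v a / m * m := by field_simp
      rw [h3]
      exact mul_nonneg h hm'.le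
  · intro x hx
    obtain ⟨m, a, hm, ha, h1, e1⟩ := hw (algebraMap K L x) ((_root_.map_ne_zero _).2 hx)
    have h2 := extv_uniq V O hO hm one_pos ha hx h1
      (show O.valuation ((algebraMap K L x) ^ 1) = O.valuation (algebraMap K L x) by rw [pow_one])
    rw [e1, h2, Nat.cast_one, div_one]

end QPL
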