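import Pool.Agent.Helper14.Gon.Fun
import Pool.Agent.QPL.ExtRing
import Pool.Agent.QPL.ExtV
import Pool.Agent.QPL.ExtLc

set_option autoImplicit false

/-!
# QPL-21: places extend to algebraic extensions

`ext_ring`, `ext_v`, `ext_lc`.  `add_lt`: `x + y = x (1 + y / x)`, `y / x ∈ O` is a nonunit, so
`1 + y / x` is a unit with `r = 1`.  `add_ne`, `add_eq`: `y / x` is a unit of `O`,
`r (y / x) = lc y / lc x`, `1 + y / x ∈ O` has `r ≠ 0` (so it is a unit, `v = 0`) resp. `r = 0`
(so it is `0` or not a unit, `v > 0`).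
-/

noncomputable section

open Polynomial
open scoped Classical

namespace QPL

open Helper14.Gon

universe u v w

theorem exists_ext {K : Type u} {Ω : Type w} [Field K] [Field Ω] [IsAlgClosed Ω] (V : AC K Ω)
    (L : Type v) [Field L] [Algebra K L] [Algebra.IsAlgebraic K L] :
    ∃ W : AC L Ω, (∀ x : K, x ≠ 0 → W.v (algebraMap K L x) = V.v x) ∧
      (∀ x : K, W.lc (algebraMap K L x) = V.lc x) := by
  obtain ⟨O, r, hO, hr, hu⟩ := ext_ring (L := L) V
  obtain ⟨w, wmul, wO, wv⟩ := ext_v V O hO
  obtain ⟨l, hl, hlr⟩ := ext_lc V O r hO hr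
  have w1 : w 1 = 0 := by
    have h := wmul 1 1 one_ne_zero one_ne_zero
    rw [mul_one] at h
    linarith
  have winv : ∀ x : L, x ≠ 0 → w x⁻¹ = - w x := by
    intro x hx
    have h := wmul x x⁻¹ hx (inv_ne_zero hx)
    rw [mul_inv_cancel₀ hx, w1] at h
    linarith
  have wdiv : ∀ x y : L, x ≠ 0 → y ≠ 0 → w (y / x) = w y - w x := by
    intro x y hx hy
    rw [div_eq_mul_inv, wmul y x⁻¹ hy (inv_ne_zero hx), winv x hx, sub_eq_add_neg]
  have lne : ∀ x : L, x ≠ 0 → l x ≠ 0 := fun x hx => (map_ne_zero l).2 hx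
  -- units of `O`
  have hunit : ∀ (z : L) (hz : z ∈ O), z ≠ 0 → w z = 0 → IsUnit (⟨z, hz⟩ : O) := by
    intro z hz h0 hw
    have hi : z⁻¹ ∈ O := (wO z⁻¹ (inv_ne_zero h0)).2 (by rw [winv z h0, hw, neg_zero])
    refine ⟨⟨⟨z, hz⟩, ⟨z⁻¹, hi⟩, ?_, ?_⟩, rfl⟩
    · exact Subtype.ext (mul_inv_cancel₀ h0)
    · exact Subtype.ext (inv_mul_cancel₀ h0)
  have hunit' : ∀ (z : L) (hz : z ∈ O), IsUnit (⟨z, hz⟩ : O) → z ≠ 0 ∧ w z = 0 := by
    intro z hz h
    obtain ⟨u, hu⟩ := h
    have hne : (((u⁻¹ : Oˣ) : O) : L) * z = 1 := by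
      have h2 : ((u⁻¹ : Oˣ) : O) * (⟨z, hz⟩ : O) = 1 := by
        rw [← hu]; exact Units.inv_mul u
      exact congrArg Subtype.val h2
    have h0 : z ≠ 0 := by
      rintro rfl
      rw [mul_zero] at hne
      exact zero_ne_one hne
    refine ⟨h0, ?_⟩
    have hi : z⁻¹ ∈ O := by
      have e : z⁻¹ = (((u⁻¹ : Oˣ) : O) : L) := (eq_inv_of_mul_eq_one_left hne).symm
      rw [e]
      exact ((u⁻¹ : Oˣ) : O).2
    have h1 := (wO z h0).1 hz
    have h2 := (wO z⁻¹ (inv_ne_zero h0)).1 hi
    rw [winv z h0] at h2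
    linarith
  have hpos : ∀ (z : L) (hz : z ∈ O), z ≠ 0 → 0 < w z → r ⟨z, hz⟩ = 0 := by
    intro z hz _ hw
    by_contra hne
    have := (hunit' z hz (hu _ hne)).2
    linarith
  -- the sum
  have key : ∀ x y : L, x ≠ 0 → x * (1 + y / x) = x + y := by
    intro x y hx
    field_simp
  let W : AC L Ω :=
    { v := w
      lc := l
      lc_ne := fun {x} hx => lne x hx
      v_mul := fun {x y} hx hy => wmul x y hx hy
      add_lt := by
        intro x y hx hy
        by_cases hy0 : y = 0
        · subst hy0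
          rw [add_zero]
          exact ⟨hx, rfl, rfl⟩
        have hlt : w x < w y := hy.resolve_left hy0
        have hz0 : y / x ≠ 0 := div_ne_zero hy0 hx
        have hwz : 0 < w (y / x) := by rw [wdiv x y hx hy0]; linarith
        have hzO : y / x ∈ O := (wO _ hz0).2 hwz.le
        have hrz := hpos _ hzO hz0 hwz
        have huO : 1 + y / x ∈ O := O.add_mem _ _ O.one_mem hzO
        have hru : r ⟨1 + y / x, huO⟩ = 1 := by
          have e : (⟨1 + y / x, huO⟩ : O) = 1 + ⟨y / x, hzO⟩ := rfl
          rw [e, map_add, map_one, hrz, add_zero]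
        have hun : IsUnit (⟨1 + y / x, huO⟩ : O) := hu _ (by rw [hru]; exact one_ne_zero)
        obtain ⟨h1, h2⟩ := hunit' _ huO hun
        have h3 : l (1 + y / x) = 1 := by
          have := hlr ⟨1 + y / x, huO⟩ hun
          rw [hru] at this
          exact this
        rw [← key x y hx]
        refine ⟨mul_ne_zero hx h1, ?_, ?_⟩
        · rw [wmul _ _ hx h1, h2, add_zero]
        · rw [map_mul, h3, mul_one]
      add_ne := by
        intro x y hx hy hv hne
        have hz0 : y / x ≠ 0 := div_ne_zero hy hx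
        have hwz : w (y / x) = 0 := by rw [wdiv x y hx hy]; linarith
        have hzO : y / x ∈ O := (wO _ hz0).2 hwz.ge
        have hlz : r ⟨y / x, hzO⟩ = l y / l x := by
          have := hlr ⟨y / x, hzO⟩ (hunit _ hzO hz0 hwz)
          rw [← this]
          exact map_div₀ l y x
        have huO : 1 + y / x ∈ O := O.add_mem _ _ O.one_mem hzO
        have hru : r ⟨1 + y / x, huO⟩ = 1 + l y / l x := by
          have e : (⟨1 + y / x, huO⟩ : O) = 1 + ⟨y / x, hzO⟩ := rfl
          rw [e, map_add, map_one, hlz]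
        have hlx := lne x hx
        have hmul : l x * (1 + l y / l x) = l x + l y := by field_simp
        have hun : IsUnit (⟨1 + y / x, huO⟩ : O) := by
          refine hu _ ?_
          rw [hru]
          intro h
          rw [h, mul_zero] at hmul
          exact hne hmul.symm
        obtain ⟨h1, h2⟩ := hunit' _ huO hun
        have h3 : l (1 + y / x) = 1 + l y / l x := by
          have := hlr ⟨1 + y / x, huO⟩ hun
          rw [hru] at this
          exact this
        rw [← key x y hx]
        refine ⟨mul_ne_zero hx h1, ?_, ?_⟩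
        · rw [wmul _ _ hx h1, h2, add_zero]
        · rw [map_mul, h3, hmul]
      add_eq := by
        intro x y hx hy hv he
        have hz0 : y / x ≠ 0 := div_ne_zero hy hx
        have hwz : w (y / x) = 0 := by rw [wdiv x y hx hy]; linarith
        have hzO : y / x ∈ O := (wO _ hz0).2 hwz.ge
        have hlz : r ⟨y / x, hzO⟩ = l y / l x := by
          have := hlr ⟨y / x, hzO⟩ (hunit _ hzO hz0 hwz)
          rw [← this]
          exact map_div₀ l y x
        have huO : 1 + y / x ∈ O := O.add_mem _ _ O.one_mem hzO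
        have hlx := lne x hx
        have hru : r ⟨1 + y / x, huO⟩ = 0 := by
          have e : (⟨1 + y / x, huO⟩ : O) = 1 + ⟨y / x, hzO⟩ := rfl
          rw [e, map_add, map_one, hlz]
          have hmul : l x * (1 + l y / l x) = l x + l y := by field_simp
          rw [he] at hmul
          exact (mul_eq_zero.1 hmul).resolve_left hlx
        rw [← key x y hx]
        by_cases h0 : 1 + y / x = 0
        · left; rw [h0, mul_zero]
        right
        rw [wmul _ _ hx h0]
        have h1 := (wO _ h0).1 huO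
        have h2 : w (1 + y / x) ≠ 0 := by
          intro h
          have h3 := (hunit _ huO h0 h).map r
          rw [hru] at h3
          exact not_isUnit_zero h3
        have h3 : 0 < w (1 + y / x) := lt_of_le_of_ne h1 (Ne.symm h2)
        linarith }
  exact ⟨W, wv, hl⟩

/-- The reduction maps of a place and of its extension agree. -/
theorem ext_rd {K : Type u} {L : Type v} {k : Type w} [Field K] [Field k] [Field L] (φ : K →+* L)
    (V : AC K k) (W : AC L k) (hv : ∀ x : K, x ≠ 0 → W.v (φ x) = V.v x)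
    (hl : ∀ x : K, W.lc (φ x) = V.lc x) (x : P1 K) : W.rd (mapP φ x) = V.rd x := by
  cases x with
  | none => rfl
  | some x =>
    rw [mapP_some]
    by_cases hx : x = 0
    · subst hx
      rw [map_zero]
      simp [AC.rd, AC.ini]
    · have hφ : φ x ≠ 0 := (map_ne_zero φ).2 hx
      simp only [AC.rd, AC.ini, hv x hx, hl x, ne_eq, hx, hφ, not_false_eq_true, true_and]

end QPL
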