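import Pool.Agent.QPL.TrA

set_option autoImplicit false

/-!
# QPL-50: separability

`spl_sep`: `p0.P` is irreducible; if its derivative is `0` so is the derivative of `F` (the map
`k0[X] → RatFunc k0` is injective) and of `F.map (evalRingHom 0) = ∏ (X - C (η i))`, which is separable
(`separable_prod_X_sub_C_iff`) of degree `N = deg F = deg p0.P > 0`.  `Irreducible.separable_iff...`
(`Polynomial.separable_iff_derivative_ne_zero`).
`exists_rho`: `RatFunc.liftRingHom` of `eval₂ i b` (injective as `b` is transcendental).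
`pnt_iff`: `RatFunc k0` is generated by constants and `X` (ring homs agreeing on polynomials are equal).
-/

noncomputable section

open Polynomial TensorProduct
open scoped Classical

namespace QPL

open Helper14.Gon Helper14.W4 TGF

universe u v w

section
variable {k0 L Ω : Type u} [Field k0] [Field L] [Field Ω]

private theorem rca_poly (f : RatFunc k0 →+* Ω) (P : k0[X]) :
    f (algebraMap k0[X] (RatFunc k0) P) = P.eval₂ (f.comp RatFunc.C) (f RatFunc.X) := by
  have h : f.comp (algebraMap k0[X] (RatFunc k0)) =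
      eval₂RingHom (f.comp RatFunc.C) (f RatFunc.X) := by
    refine Polynomial.ringHom_ext (fun a => ?_) ?_
    · rw [RingHom.comp_apply, coe_eval₂RingHom, eval₂_C, RatFunc.algebraMap_C]
      rfl
    · rw [RingHom.comp_apply, coe_eval₂RingHom, eval₂_X, RatFunc.algebraMap_X]
  have h1 := DFunLike.congr_fun h P
  rwa [RingHom.comp_apply, coe_eval₂RingHom] at h1

private theorem rca_ext (f g : RatFunc k0 →+* Ω) (h1 : f.comp RatFunc.C = g.comp RatFunc.C)
    (h2 : f RatFunc.X = g RatFunc.X) : f = g := by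
  refine IsLocalization.ringHom_ext (nonZeroDivisors k0[X]) (RingHom.ext fun P => ?_)
  rw [RingHom.comp_apply, RingHom.comp_apply, rca_poly, rca_poly, h1, h2]

theorem spl_sep (p0 : SRG.Pl (RatFunc k0) L) (hp0 : Spl p0) : p0.P.Separable := by
  obtain ⟨F, N, η, hF, hη, hFP, hF0⟩ := hp0
  rw [separable_iff_derivative_ne_zero p0.irr]
  intro h
  rw [← hFP, derivative_map] at h
  have hinj : Function.Injective (algebraMap k0[X] (RatFunc k0)) :=
    IsFractionRing.injective k0[X] (RatFunc k0)
  have h1 : derivative F = 0 := Polynomial.map_injective _ hinj (by rw [h, Polynomial.map_zero])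
  have h2 : derivative (F.map (evalRingHom (0 : k0))) = 0 := by
    rw [derivative_map, h1, Polynomial.map_zero]
  have h3 : (F.map (evalRingHom (0 : k0))).Separable := by
    rw [hF0]
    exact separable_prod_X_sub_C_iff.2 hη
  rw [separable_def, h2, isCoprime_zero_right] at h3
  have h4 : (F.map (evalRingHom (0 : k0))).natDegree = 0 := natDegree_eq_zero_of_isUnit h3
  rw [hF.natDegree_map] at h4
  have h5 : p0.P.natDegree = 0 := by
    rw [← hFP, hF.natDegree_map, h4]
  exact p0.irr.natDegree_pos.ne' h5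

/-- The evaluation `k0(T) → Ω`, `T ↦ b`. -/
theorem exists_rho (i : k0 →+* Ω) (b : Ω) (hb : ∀ P : k0[X], P ≠ 0 → P.eval₂ i b ≠ 0) :
    ∃ ρ : RatFunc k0 →+* Ω, (∀ c, ρ (RatFunc.C c) = i c) ∧ ρ RatFunc.X = b := by
  have hφ : nonZeroDivisors k0[X] ≤ (nonZeroDivisors Ω).comap (eval₂RingHom i b) := by
    intro P hP
    rw [Submonoid.mem_comap, mem_nonZeroDivisors_iff_ne_zero, coe_eval₂RingHom]
    exact hb P (mem_nonZeroDivisors_iff_ne_zero.1 hP)
  refine ⟨RatFunc.liftRingHom (eval₂RingHom i b) hφ, fun c => ?_, ?_⟩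
  · rw [← RatFunc.algebraMap_C, RatFunc.liftRingHom_algebraMap, coe_eval₂RingHom, eval₂_C]
  · rw [← RatFunc.algebraMap_X, RatFunc.liftRingHom_algebraMap, coe_eval₂RingHom, eval₂_X]

theorem pnt_iff (p0 : SRG.Pl (RatFunc k0) L) (i : k0 →+* Ω) (b : Ω) (ρ : RatFunc k0 →+* Ω)
    (h1 : ∀ c, ρ (RatFunc.C c) = i c) (h2 : ρ RatFunc.X = b) (y : L →+* Ω) :
    y.comp (p0.r.comp C) = ρ ↔ Pnt p0 i y ∧ y (cT p0) = b := by
  have h3 : ρ.comp RatFunc.C = i := RingHom.ext h1
  constructor
  · intro h
    have hT : y (cT p0) = b := by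
      rw [← h2, ← h]
      rfl
    refine ⟨⟨fun c => ?_, fun P hP => ?_⟩, hT⟩
    · rw [← h1, ← h]
      rfl
    · rw [hT, ← h2, ← h3, ← rca_poly]
      intro h0
      have h4 : algebraMap k0[X] (RatFunc k0) P = 0 := (map_eq_zero ρ).1 h0
      exact hP ((map_eq_zero_iff _ (IsFractionRing.injective k0[X] (RatFunc k0))).1 h4)
  · rintro ⟨hy, hT⟩
    refine rca_ext _ _ (RingHom.ext fun c => ?_) ?_
    · rw [h3]
      exact hy.ov c
    · rw [h2, ← hT]
      rfl

end

end QPL
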