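import Pool.Agent.QPL.RcB
import Pool.Agent.QPL.RcA

set_option autoImplicit false

/-!
# QPL-52: (R1)

`R1_fac`: strong induction on the degree of `g`, with one monic irreducible factor split off; the roots of the two
factors are disjoint as `p0.P.map (rm i)` is separable.  `R1`: `R1_fac` for `AlgebraicClosure (RatFunc Ω)` and
`g = p0.P.map (rm i)`; for another field `Mb'` use a homomorphism `λ` (`IsAlgClosed.lift`) and the bijection
`σ ↦ λ.comp σ`.
-/

noncomputable section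

open Polynomial TensorProduct
open scoped Classical

namespace QPL

open Helper14.Gon Helper14.W4 TGF

universe u v w

variable (H : Thy.{u}) (hH : Laws H) {k0 L Ω : Type u} [Field k0] [Field L] [Field Ω]
  (p0 : SRG.Pl (RatFunc k0) L) (hs : p0.P.Separable) (i : k0 →+* Ω) (G : (RatFunc Ω)[X])

include hH hs in
private theorem rcc_fac {Mb : Type u} [Field Mb] [IsAlgClosed Mb] (κ : RatFunc Ω →+* Mb)
    (T0 : Finset (L →+* Mb)) (hT0 : ∀ σ, σ ∈ T0 ↔ σ.comp (p0.r.comp C) = κ.comp (rm i))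
    (j : ℕ) (z : H.Y L j) (hz : z ∈ H.Z L j) (n : ℕ) : ∀ g : (RatFunc Ω)[X], g.natDegree = n → g.Monic →
    g ∣ p0.P.map (rm i) → IsCoprime g G →
    ∃ s ∈ H.Z (RatFunc Ω) (j + 1),
      ∑ σ ∈ T0.filter (fun σ => g.eval₂ κ (σ (th p0)) = 0),
        H.cup j (lg (G.eval₂ κ (σ (th p0)))) (H.map σ j z) - H.map κ (j + 1) s ∈
        H.N Mb (j + 1) := by
  induction n using Nat.strong_induction_on with
  | _ n ih =>
    intro g hn hm hd hG
    by_cases hu : IsUnit g
    · have h1 : g = 1 := hm.isUnit_iff.1 hu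
      refine ⟨0, zero_mem _, ?_⟩
      have h2 : T0.filter (fun σ => g.eval₂ κ (σ (th p0)) = 0) = ∅ := by
        refine Finset.filter_eq_empty_iff.2 fun σ _ h => ?_
        rw [h1, eval₂_one] at h
        exact one_ne_zero h
      rw [h2, Finset.sum_empty, map_zero, sub_zero]
      exact zero_mem _
    · obtain ⟨f1, hf1, hf1i, g1, rfl⟩ := exists_monic_irreducible_factor g hu
      have hg1 : g1.Monic := hf1.of_mul_monic_left hm
      have hdeg : g1.natDegree < n := by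
        rw [← hn, hf1.natDegree_mul hg1]
        have := hf1i.natDegree_pos
        omega
      obtain ⟨s1, hs1, h1⟩ := R1_irr H hH p0 i κ T0 hT0 G f1 hf1 hf1i ((Dvd.intro _ rfl).trans hd)
        hG.of_mul_left_left j z hz
      obtain ⟨s2, hs2, h2⟩ := ih _ hdeg g1 rfl hg1 ((Dvd.intro_left _ rfl).trans hd) hG.of_mul_left_right
      have hsep : (f1 * g1).Separable := (hs.map (f := rm i)).of_dvd hd
      obtain ⟨a, b, hab⟩ := hsep.isCoprime
      have hF : T0.filter (fun σ => (f1 * g1).eval₂ κ (σ (th p0)) = 0) =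
          T0.filter (fun σ => f1.eval₂ κ (σ (th p0)) = 0) ∪ T0.filter (fun σ => g1.eval₂ κ (σ (th p0)) = 0) := by
        ext σ
        rw [Finset.mem_union, Finset.mem_filter, Finset.mem_filter, Finset.mem_filter, eval₂_mul, mul_eq_zero]
        tauto
      have hdisj : Disjoint (T0.filter (fun σ => f1.eval₂ κ (σ (th p0)) = 0))
          (T0.filter (fun σ => g1.eval₂ κ (σ (th p0)) = 0)) := by
        refine Finset.disjoint_left.2 fun σ h3 h4 => ?_
        have h5 := congrArg (fun P => P.eval₂ κ (σ (th p0))) hab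
        simp only [eval₂_add, eval₂_mul, (Finset.mem_filter.1 h3).2, (Finset.mem_filter.1 h4).2, mul_zero, add_zero,
          eval₂_one] at h5
        exact zero_ne_one h5
      refine ⟨s1 + s2, add_mem hs1 hs2, ?_⟩
      rw [hF, Finset.sum_union hdisj, map_add, add_sub_add_comm]
      exact add_mem h1 h2

include hH hs in
theorem R1_fac {Mb : Type u} [Field Mb] [IsAlgClosed Mb] (κ : RatFunc Ω →+* Mb)
    (T0 : Finset (L →+* Mb)) (hT0 : ∀ σ, σ ∈ T0 ↔ σ.comp (p0.r.comp C) = κ.comp (rm i))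
    (g : (RatFunc Ω)[X]) (hm : g.Monic) (hd : g ∣ p0.P.map (rm i)) (hG : IsCoprime g G) (j : ℕ)
    (z : H.Y L j) (hz : z ∈ H.Z L j) :
    ∃ s ∈ H.Z (RatFunc Ω) (j + 1),
      ∑ σ ∈ T0.filter (fun σ => g.eval₂ κ (σ (th p0)) = 0),
        H.cup j (lg (G.eval₂ κ (σ (th p0)))) (H.map σ j z) - H.map κ (j + 1) s ∈
        H.N Mb (j + 1) := by
  exact rcc_fac H hH p0 hs i G κ T0 hT0 j z hz _ g rfl hm hd hG

/-- the embeddings into a larger field -/
private theorem rcc_bij {K k Kb Kb' : Type u} [Field K] [Field k] [Field Kb] [Field Kb'] [IsAlgClosed Kb]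
    (p : SRG.Pl K k) (ι : K →+* Kb) (l : Kb →+* Kb') (T : Finset (k →+* Kb)) (T' : Finset (k →+* Kb'))
    (hT : ∀ y, y ∈ T ↔ y.comp (p.r.comp C) = ι) (hT' : ∀ y, y ∈ T' ↔ y.comp (p.r.comp C) = l.comp ι)
    {M : Type u} [AddCommMonoid M] (f : (k →+* Kb') → M) : ∑ y ∈ T, f (l.comp y) = ∑ y ∈ T', f y := by
  refine Finset.sum_bij (fun y _ => l.comp y) ?_ ?_ ?_ ?_
  · intro y hy
    rw [hT', RingHom.comp_assoc, (hT y).1 hy]
  · intro y _ y' _ h
    refine RingHom.ext fun x => l.injective ?_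
    exact RingHom.congr_fun h x
  · intro y' hy'
    have h1 := emb_root p (l.comp ι) ((hT' y').1 hy')
    have h2 : y' (p.r X) ∈ ((p.P.map ι).map l).roots := by
      rw [Polynomial.map_map]
      exact (mem_roots_map_of_injective (l.comp ι).injective p.monic.ne_zero).2 h1
    rw [(IsAlgClosed.splits (p.P.map ι)).roots_map l, Multiset.mem_map] at h2
    obtain ⟨a, ha, ha'⟩ := h2
    have h3 : p.P.eval₂ ι a = 0 := (mem_roots_map_of_injective ι.injective p.monic.ne_zero).1 ha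
    obtain ⟨y, hy, hya⟩ := emb_exists p ι a h3
    refine ⟨y, (hT y).2 hy, ?_⟩
    refine emb_ext p (l.comp ι) (by rw [RingHom.comp_assoc, hy]) ((hT' y').1 hy') ?_
    rw [RingHom.comp_apply, hya, ha']
  · intro y _
    rfl

include hH hs in
theorem R1 (hG : IsCoprime (p0.P.map (rm i)) G) (j : ℕ) (z : H.Y L j) (hz : z ∈ H.Z L j) :
    ∃ s ∈ H.Z (RatFunc Ω) (j + 1), ∀ (Mb : Type u) [Field Mb] [IsAlgClosed Mb]
      (κ : RatFunc Ω →+* Mb) (T0 : Finset (L →+* Mb)),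
      (∀ σ, σ ∈ T0 ↔ σ.comp (p0.r.comp C) = κ.comp (rm i)) →
      ∑ σ ∈ T0, H.cup j (lg (G.eval₂ κ (σ (th p0)))) (H.map σ j z) - H.map κ (j + 1) s ∈
        H.N Mb (j + 1) := by
  let Mb0 := AlgebraicClosure (RatFunc Ω)
  let κ0 : RatFunc Ω →+* Mb0 := algebraMap (RatFunc Ω) Mb0
  obtain ⟨T00, -, hT00⟩ := exists_T p0 (κ0.comp (rm i))
  obtain ⟨s, hs', h⟩ := R1_fac H hH p0 hs i G κ0 T00 hT00 (p0.P.map (rm i)) (p0.monic.map _) dvd_rfl hG j z hz
  refine ⟨s, hs', fun Mb _ _ κ T0 hT0 => ?_⟩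
  have hfil : T00.filter (fun σ => (p0.P.map (rm i)).eval₂ κ0 (σ (th p0)) = 0) = T00 := by
    refine Finset.filter_true_of_mem fun σ hσ => ?_
    rw [eval₂_map]
    exact emb_root p0 (κ0.comp (rm i)) ((hT00 σ).1 hσ)
  rw [hfil] at h
  let _ : Algebra (RatFunc Ω) Mb := κ.toAlgebra
  let l : Mb0 →+* Mb := ((IsAlgClosed.lift : Mb0 →ₐ[RatFunc Ω] Mb) : Mb0 →+* Mb)
  have hl : l.comp κ0 = κ := by
    refine RingHom.ext fun x => ?_
    exact (IsAlgClosed.lift : Mb0 →ₐ[RatFunc Ω] Mb).commutes x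
  have h1 := hH.map_N _ _ l (j + 1) _ h
  rw [map_sub, map_sum, ← hH.map_comp, hl] at h1
  have hT0' : ∀ σ, σ ∈ T0 ↔ σ.comp (p0.r.comp C) = l.comp (κ0.comp (rm i)) := fun σ => by
    rw [← RingHom.comp_assoc (rm i) κ0 l, hl]
    exact hT0 σ
  rw [← rcc_bij p0 (κ0.comp (rm i)) l T00 T0 hT00 hT0'
    (fun σ => H.cup j (lg (G.eval₂ κ (σ (th p0)))) (H.map σ j z))]
  have h2 : ∀ σ ∈ T00, H.map l (j + 1) (H.cup j (lg (G.eval₂ κ0 (σ (th p0)))) (H.map σ j z)) =
      H.cup j (lg (G.eval₂ κ ((l.comp σ) (th p0)))) (H.map (l.comp σ) j z) := fun σ _ => by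
    rw [hH.map_cup, resU_lg, ← hH.map_comp, hom_eval₂, hl]
    rfl
  rw [Finset.sum_congr rfl h2] at h1
  exact h1

end QPL
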