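import Pool.Agent.QPL.RcH
import Pool.Agent.QPL.RcC
import Pool.Agent.QPL.Ext

set_option autoImplicit false

/-!
# QPL-58: (R3) the other residues vanish

`Mb = AlgebraicClosure (RatFunc Ω)`, `κ` the inclusion, `W : AC Mb Ω` extending `V` (`exists_ext`),
`A` from `exists_relcl`.  For `c : RatFunc k0`: `V.lc (rm i c) ∈ A` (hypothesis `hV`, proved below for
`t = b`, `b ∈ A`, and for `t = ∞`).  Every `x : L` is a root of a nonzero polynomial over `RatFunc k0` (`L` is
the residue field of `p0`: finite over `RatFunc k0`; e.g. `x = p0.r B` and Cayley-Hamilton, or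
`Algebra.IsAlgebraic`), so `W.lc (σ x) ∈ A` (`lc_alg` for `φ = κ.comp (rm i)`,
`σ.comp (p0.r.comp C) = φ`), a root of unity (`fin_unity`) if `x ≠ 0`.  So `hH.small` (characteristic `p` of
`Ω`, from `k0` finite) gives `H.re W j (H.cup j v (H.map σ j z)) ∈ H.N Ω j` for `σ ∈ T0`; with `hs` and
`re_N`, `re_comap`, `re_unif`: `H.re V j s ∈ H.N Ω j`.
`lc_at`: `c = A / B`: the polynomials `A.map i /ₘ (X - C b)^m` have coefficients in `A`.
-/

noncomputable section

open Polynomial TensorProduct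
open scoped Classical

namespace QPL

open Helper14.Gon Helper14.W4 TGF

universe u v w

section
variable {k0 Ω : Type u} [Field k0] [Field Ω] (i : k0 →+* Ω)

private theorem rci_rm (P : k0[X]) :
    rm i (algebraMap k0[X] (RatFunc k0) P) = algebraMap (Polynomial Ω) (RatFunc Ω) (P.map i) := by
  have h1 := RatFunc.map_apply_div (mapRingHom i) (by
    intro P hP
    rw [Submonoid.mem_comap, mem_nonZeroDivisors_iff_ne_zero]
    rw [mem_nonZeroDivisors_iff_ne_zero] at hP
    intro h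
    exact hP (map_injective i i.injective (by rw [Polynomial.map_zero]; exact h))) P 1
  rw [map_one, map_one, map_one, div_one, div_one] at h1
  exact h1

private theorem rci_ne {P : k0[X]} (hP : P ≠ 0) : P.map i ≠ 0 := by
  intro h
  exact hP (map_injective i i.injective (by rw [Polynomial.map_zero]; exact h))

private theorem rci_cases (A : Subfield Ω) (V : AC (RatFunc Ω) Ω)
    (h : ∀ P : k0[X], P ≠ 0 → V.lc (algebraMap (Polynomial Ω) (RatFunc Ω) (P.map i)) ∈ A)
    (c : RatFunc k0) : V.lc (rm i c) ∈ A := by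
  by_cases hc : c = 0
  · rw [hc, map_zero, map_zero]
    exact A.zero_mem
  · rw [← RatFunc.num_div_denom c, map_div₀, rci_rm, rci_rm, V.lc_div]
    exact A.div_mem (h _ (RatFunc.num_ne_zero hc)) (h _ (RatFunc.denom_ne_zero c))

theorem lc_at (A : Subfield Ω) (hA : ∀ c, i c ∈ A) (b : Ω) (hb : b ∈ A) (V : AC (RatFunc Ω) Ω)
    (hV : IsAt b V) (c : RatFunc k0) : V.lc (rm i c) ∈ A := by
  refine rci_cases i A V (fun P hP => ?_) c
  rw [hV.lc _ (rci_ne i hP)]
  obtain ⟨m, hm⟩ : ∃ m, m = (P.map i).rootMultiplicity b := ⟨_, rfl⟩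
  rw [← hm]
  obtain ⟨i', hi'⟩ : ∃ i' : k0 →+* A, A.subtype.comp i' = i :=
    ⟨i.codRestrict A hA, RingHom.ext fun _ => rfl⟩
  obtain ⟨b', hb'⟩ : ∃ b' : A, A.subtype b' = b := ⟨⟨b, hb⟩, rfl⟩
  have e1 : P.map i = (P.map i').map A.subtype := by rw [Polynomial.map_map, hi']
  have e2 : (Polynomial.X - Polynomial.C b : Polynomial Ω) ^ m =
      ((Polynomial.X - Polynomial.C b') ^ m).map A.subtype := by
    rw [Polynomial.map_pow, Polynomial.map_sub, map_X, map_C, hb']
  rw [e1, e2, ← map_divByMonic A.subtype ((monic_X_sub_C b').pow m), ← hb', eval_map,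
    eval₂_at_apply]
  exact SetLike.coe_mem _

theorem lc_inf (A : Subfield Ω) (hA : ∀ c, i c ∈ A) (V : AC (RatFunc Ω) Ω) (hV : IsInf V)
    (c : RatFunc k0) : V.lc (rm i c) ∈ A := by
  refine rci_cases i A V (fun P hP => ?_) c
  rw [hV.lc _ (rci_ne i hP), leadingCoeff_map]
  exact hA _

private theorem rci_int {L : Type u} [Field L] (p0 : SRG.Pl (RatFunc k0) L) (x : L) :
    ∃ P : (RatFunc k0)[X], P ≠ 0 ∧ P.eval₂ (p0.r.comp Polynomial.C) x = 0 := by
  have key : ∀ B : (RatFunc k0)[X], (p0.r.comp Polynomial.C).IsIntegralElem (p0.r B) := by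
    intro B
    induction B using Polynomial.induction_on' with
    | add p q hp hq =>
      rw [map_add]
      exact hp.add _ hq
    | monomial n a =>
      rw [← C_mul_X_pow_eq_monomial, map_mul, map_pow]
      refine RingHom.IsIntegralElem.mul _ ?_ ?_
      · exact (p0.r.comp Polynomial.C).isIntegralElem_map
      · have hX : (p0.r.comp Polynomial.C).IsIntegralElem (p0.r Polynomial.X) := by
          refine ⟨p0.P, p0.monic, ?_⟩
          have h := emb_eval p0 (p0.r.comp Polynomial.C) (y := RingHom.id L) (RingHom.id_comp _) p0.P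
          rw [RingHom.id_apply, RingHom.id_apply] at h
          rw [← h]
          exact (p0.ker p0.P).2 dvd_rfl
        induction n with
        | zero =>
          rw [pow_zero]
          exact RingHom.isIntegralElem_one _
        | succ n ih =>
          rw [pow_succ]
          exact RingHom.IsIntegralElem.mul _ ih hX
  obtain ⟨B, rfl⟩ := p0.surj x
  obtain ⟨P, h1, h2⟩ := key B
  exact ⟨P, h1.ne_zero, h2⟩

end

variable (H : Thy.{u}) (hH : Laws H) {k0 L Ω : Type u} [Field k0] [Finite k0] [Field L] [Field Ω]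
  [IsAlgClosed Ω] (p0 : SRG.Pl (RatFunc k0) L) (i : k0 →+* Ω) (G : (RatFunc Ω)[X])

include hH in
theorem R3 (j : ℕ) (hn : 2 ≤ j + H.off) (z : H.Y L j) (s : H.Y (RatFunc Ω) (j + 1))
    (hs : ∀ (Mb : Type u) [Field Mb] [IsAlgClosed Mb]
      (κ : RatFunc Ω →+* Mb) (T0 : Finset (L →+* Mb)),
      (∀ σ, σ ∈ T0 ↔ σ.comp (p0.r.comp C) = κ.comp (rm i)) →
      ∑ σ ∈ T0, H.cup j (lg (G.eval₂ κ (σ (th p0)))) (H.map σ j z) - H.map κ (j + 1) s ∈
        H.N Mb (j + 1))
    (A : Subfield Ω) (hA : ∀ a, a ∈ A ↔ ∃ P : k0[X], P ≠ 0 ∧ P.eval₂ i a = 0)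
    (hA' : ∀ (a : Ω) (Q : Polynomial Ω), Q ≠ 0 → (∀ n, Q.coeff n ∈ A) → Q.eval a = 0 → a ∈ A)
    (V : AC (RatFunc Ω) Ω) (hV : ∀ c : RatFunc k0, V.lc (rm i c) ∈ A) :
    H.re V j s ∈ H.N Ω j := by
  obtain ⟨W, hWv, hWl⟩ := exists_ext V (AlgebraicClosure (RatFunc Ω))
  obtain ⟨κ, hκ⟩ : ∃ κ : RatFunc Ω →+* AlgebraicClosure (RatFunc Ω), κ = algebraMap _ _ :=
    ⟨_, rfl⟩
  rw [← hκ] at hWv hWl
  obtain ⟨T0, -, hT0⟩ := exists_T p0 (κ.comp (rm i))
  have h1 := hH.re_N _ _ W j _ (hs _ κ T0 hT0)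
  rw [map_sub, map_sum] at h1
  obtain ⟨p, hp⟩ := CharP.exists k0
  have hpp : p.Prime := CharP.char_is_prime k0 p
  have hpΩ : CharP Ω p := charP_of_injective_ringHom i.injective p
  have h2 : ∑ σ ∈ T0, H.re W j (H.cup j (lg (G.eval₂ κ (σ (th p0)))) (H.map σ j z)) ∈
      H.N Ω j := by
    refine Submodule.sum_mem _ fun σ hσ => ?_
    refine hH.small p hpp L _ Ω W σ ?_ j hn _ z
    intro x hx
    obtain ⟨P, hP0, hP⟩ := rci_int p0 x
    have h3 : P.eval₂ (κ.comp (rm i)) (σ x) = 0 := by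
      rw [← (hT0 σ).1 hσ, ← hom_eval₂, hP, map_zero]
    have h4 : W.lc (σ x) ∈ A := by
      refine lc_alg W (κ.comp (rm i)) A hA' (fun c => ?_) (σ x) P hP0 h3
      rw [RingHom.comp_apply, hWl]
      exact hV c
    obtain ⟨Q, hQ0, hQ⟩ := (hA _).1 h4
    exact fin_unity i _ (W.lc_ne ((map_ne_zero σ).2 hx)) Q hQ0 hQ
  have h5 : H.re W j (H.map κ (j + 1) s) ∈ H.N Ω j := by
    have h6 := (H.N Ω j).sub_mem h2 h1
    rwa [sub_sub_cancel] at h6
  rw [← hH.re_comap, hH.re_unif _ _ V (W.comap κ) 1 ?_ ?_, one_smul] at h5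
  · exact h5
  · intro x hx
    rw [one_mul]
    exact hWv x hx
  · intro x _ _
    exact hWl x

end QPL
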