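import Pool.Agent.QPL.RcG
import Pool.Agent.QPL.RcI
import Pool.Agent.QPL.At

set_option autoImplicit false

/-!
# QPL-59: reciprocity on the curve (section 7)

`s` from `R1` (`spl_sep`).  `V b` from `exists_at`, `V'` from `exists_inf`; `hH.recip` over `Ω` for `s` gives
`S`.  Let `B` be the image of `o.support` under `y ↦ y (cT p0)` and `S' = S ∪ B`.  For every `b ∈ S'`:
`∑ over y ∈ o.support, y (cT p0) = b, of o y • H.map y j z - H.re (V b) j s ∈ N`: if `b` is transcendental
over `k0`, `R2` with `Y` from `exists_Y` (`o y = 0` for `y ∈ Y` outside the support; `y` in the support is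
`Pnt` by `h2`); if `b` is algebraic, the sum is empty (`Pnt.tr`) and `R3` with `lc_at`
(`exists_relcl`).  `H.re V' j s ∈ N` by `R3`, `lc_inf`.  Sum over `b ∈ S'` (`Finset.sum_fiberwise_of_maps_to`);
`H.re (V b) j s = 0` for `b ∉ S`.
-/

noncomputable section

open Polynomial TensorProduct
open scoped Classical

namespace QPL

open Helper14.Gon Helper14.W4 TGF

universe u v w

theorem Rec (H : Thy.{u}) (hH : Laws H) {k0 L Ω : Type u} [Field k0] [Finite k0] [Field L]
    [Field Ω] [IsAlgClosed Ω] (p0 : SRG.Pl (RatFunc k0) L) (hp0 : Spl p0) (i : k0 →+* Ω)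
    (G : (RatFunc Ω)[X]) (hG : IsCoprime (p0.P.map (rm i)) G) (j : ℕ) (hn : 2 ≤ j + H.off)
    (z : H.Y L j) (hz : z ∈ H.Z L j) (o : (L →+* Ω) →₀ ℤ)
    (h1 : ∀ y, Pnt p0 i y → OrdAt p0 i G y (o y)) (h2 : ∀ y, o y ≠ 0 → Pnt p0 i y) :
    o.sum (fun y m => m • H.map y j z) ∈ H.N Ω j := by
  obtain ⟨s, hsZ, hs⟩ := R1 H hH p0 (spl_sep p0 hp0) i G hG j z hz
  choose V hV using fun b : Ω => exists_at b
  obtain ⟨V', hV'⟩ := exists_inf (k := Ω)
  obtain ⟨S, hS, hSN⟩ := hH.recip Ω j s hsZ V V' hV hV'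
  obtain ⟨A, hA, hA'⟩ := exists_relcl i
  have hcA : ∀ c, i c ∈ A := by
    intro c
    rw [hA]
    refine ⟨Polynomial.X - C c, X_sub_C_ne_zero c, ?_⟩
    rw [eval₂_sub, eval₂_X, eval₂_C, sub_self]
  have hinf : H.re V' j s ∈ H.N Ω j :=
    R3 H hH p0 i G j hn z s hs A hA hA' V' (lc_inf i A hcA V' hV')
  have hkey : ∀ b : Ω, ∑ y ∈ o.support.filter (fun y => y (cT p0) = b), o y • H.map y j z -
      H.re (V b) j s ∈ H.N Ω j := by
    intro b
    by_cases hb : ∀ P : k0[X], P ≠ 0 → P.eval₂ i b ≠ 0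
    · obtain ⟨Y, hY⟩ := exists_Y p0 i b hb
      have h3 := R2 H hH p0 hp0 i G j z s hs b hb (V b) (hV b) (fun y => o y) h1 Y hY
      have h4 : ∑ y ∈ o.support.filter (fun y => y (cT p0) = b), o y • H.map y j z =
          ∑ y ∈ Y, o y • H.map y j z := by
        refine Finset.sum_subset (fun y hy => ?_) (fun y hy hy' => ?_)
        · rw [Finset.mem_filter, Finsupp.mem_support_iff] at hy
          exact (hY y).2 ⟨h2 y hy.1, hy.2⟩
        · have h5 : o y = 0 := by
            by_contra h6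
            exact hy' (Finset.mem_filter.2 ⟨Finsupp.mem_support_iff.2 h6, ((hY y).1 hy).2⟩)
          rw [h5, zero_smul]
      rw [h4]
      exact h3
    · push Not at hb
      obtain ⟨P, hP, hPb⟩ := hb
      have hbA : b ∈ A := (hA b).2 ⟨P, hP, hPb⟩
      have h3 : ∑ y ∈ o.support.filter (fun y => y (cT p0) = b), o y • H.map y j z = 0 := by
        refine Finset.sum_eq_zero fun y hy => ?_
        rw [Finset.mem_filter, Finsupp.mem_support_iff] at hy
        have h4 := (h2 y hy.1).tr P hP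
        rw [hy.2] at h4
        exact absurd hPb h4
      rw [h3, zero_sub]
      exact (H.N Ω j).neg_mem
        (R3 H hH p0 i G j hn z s hs A hA hA' (V b) (lc_at i A hcA b hbA (V b) (hV b)))
  have hsum := (H.N Ω j).sum_mem (t := S ∪ o.support.image (fun y => y (cT p0)))
    (f := fun b => ∑ y ∈ o.support.filter (fun y => y (cT p0) = b), o y • H.map y j z -
      H.re (V b) j s) (fun b _ => hkey b)
  have hfib : ∑ b ∈ S ∪ o.support.image (fun y => y (cT p0)),
      ∑ y ∈ o.support.filter (fun y => y (cT p0) = b), o y • H.map y j z =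
      ∑ y ∈ o.support, o y • H.map y j z :=
    Finset.sum_fiberwise_of_maps_to (g := fun y : L →+* Ω => y (cT p0))
      (fun y hy => Finset.mem_union_right _ (Finset.mem_image_of_mem _ hy)) _
  rw [Finset.sum_sub_distrib, hfib] at hsum
  have hre : ∑ b ∈ S ∪ o.support.image (fun y => y (cT p0)), H.re (V b) j s =
      ∑ b ∈ S, H.re (V b) j s :=
    (Finset.sum_subset Finset.subset_union_left fun b _ hb => hS b hb).symm
  rw [hre] at hsum
  have h5 : ∑ b ∈ S, H.re (V b) j s ∈ H.N Ω j := by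
    have h6 := (H.N Ω j).sub_mem hSN hinf
    rwa [add_sub_cancel_right] at h6
  have h7 := (H.N Ω j).add_mem hsum h5
  rw [sub_add_cancel] at h7
  exact h7

end QPL
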