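import Pool.Agent.QPL.Th
import Pool.Agent.TGF.Pf
import Pool.Agent.TGF.Df
import Pool.Agent.TGF.Rl
import Pool.Agent.TGF.Rl2
import Pool.Agent.TGF.S
import Pool.Agent.TGF.Cc
import Pool.Agent.QPL.ReN
import Pool.Agent.QPL.LawInj
import Pool.Agent.QPL.Colim
import Pool.Agent.QPL.ColimN
import Pool.Agent.QPL.Small
import Pool.Agent.QPL.RecX
import Pool.Agent.QPL.RecT

set_option autoImplicit false

/-!
# QPL-40: the laws of `th1`

One known lemma for each law.  `map_id`, `map_comp`, `map_cup`, `re_cup*`, `re_comap`, `sp_comap`,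
`re_push`, `re_triv`, `sp_triv`, `re_unif`: `TGF.Pf` (`mX_id` ... `reX_unif`, `reT_unif`; for `resT` see
also `TGF.Tm`, `Helper14.Gon.Tower`).  `map_Z`, `cup_Z`, `re_Z`: `TGF.Df`, `TGF.Rl`, `TGF.Rl2`.
`map_N`: `resC_bdry`, `c3_mX`, `c2_mX`, `resT_dT`.  `re_N`: `QPL.ReN`.  `frob`, `inj`: `QPL.LawFrob`,
`QPL.LawInj`.  `small`: `QPL.Small`.  `colim`: `QPL.Colim`.  `colimN`: `QPL.ColimN`.  `recip`:
`QPL.RecX` (`TGF.c2_rel` for `th2`), `QPL.RecT`.
-/

noncomputable section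

open Polynomial TensorProduct
open scoped Classical

namespace QPL

open Helper14.Gon Helper14.W4 TGF

universe u v w

private theorem th1_mN {F L : Type u} [Field F] [Field L] (φ : F →+* L) (j : ℕ) (z : X j F)
    (hz : z ∈ N2 j F) : mX j φ z ∈ N2 j L := by
  rw [mem_N2] at hz ⊢
  cases j with
  | zero => exact mX_rel 0 φ hz
  | succ j =>
    have hz' : z ∈ LinearMap.range (d3 j : X j F →ₗ[ℚ] X (j + 1) F) ⊔ Rel (j + 1) F := hz
    obtain ⟨y, hy, r, hr, rfl⟩ := Submodule.mem_sup.1 hz'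
    obtain ⟨x, rfl⟩ := hy
    have h1 : mX (j + 1) φ (d3 j x + r) ∈
        LinearMap.range (d3 j : X j L →ₗ[ℚ] X (j + 1) L) ⊔ Rel (j + 1) L := by
      rw [map_add, mX_d3]
      exact Submodule.add_mem_sup ⟨mX j φ x, rfl⟩ (mX_rel (j + 1) φ hr)
    exact h1

theorem laws1 (hres : Resid th1.{u}) : Laws th1.{u} where
  map_id F _ j z := mX_id j z
  map_comp F L M _ _ _ φ ψ j z := mX_comp j φ ψ z
  map_cup F L _ _ φ j v z := mX_wX j φ v z
  map_Z F L _ _ φ j z hz := by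
    have hz' : d2 j z = 0 := hz
    show d2 j (mX j φ z) = 0
    rw [← resT_d2, hz', map_zero]
  map_N F L _ _ φ j z hz := th1_mN φ j z hz
  cup_Z F _ j v z hz := by
    have hz' : d2 j z = 0 := hz
    show d2 (j + 1) (wX j v z) = 0
    rw [d2_wX, hz', map_zero]
  re_Z L k _ _ V j z hz := by
    have hz' : d2 (j + 1) z = 0 := hz
    show d2 j (reX V j z) = 0
    rw [← reT_d2, hz', map_zero]
  re_N L k _ _ V j z hz := reX_N2 V j z hz
  re_cup_zero L k _ _ V v z := reX_wX_zero V v z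
  re_cup L k _ _ V j v z := reX_wX V j v z
  re_comap F L k _ _ _ V φ j z := reX_comap V φ j z
  sp_comap F L k _ _ _ V φ j z := spX_comap V φ j z
  re_push L k l _ _ _ V ψ j z := reX_push V ψ j z
  re_triv L k _ _ V ψ h j z := reX_triv V ψ h j z
  sp_triv L k _ _ V ψ h j z := spX_triv V ψ h j z
  re_unif L k _ _ V V' m h h' j z := reX_unif V V' m h h' j z
  frob p hp F _ _ _ j z := frob_N2 p hp j z
  small p hp F L k _ _ _ _ V φ h j _ v z := small_N2 p hp V φ h j v z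
  inj F L _ _ _ φ j z hz := inj_N2 φ j z hz
  colim F _ j z hz := colim_ker j z hz
  colimN F M _ _ φ j z hz := colimN_N2 φ j z hz
  recip K _ _ j z hz V V' hV hV' := recip_N2 V V' hV hV' j z hz
  resid := hres

end QPL
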