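import Pool.Agent.QPL.Th
import Pool.Agent.TGF.Pf
import Pool.Agent.TGF.Df
import Pool.Agent.TGF.Rl
import Pool.Agent.TGF.Rl2
import Pool.Agent.TGF.S
import Pool.Agent.TGF.Cc
import Pool.Agent.QPL.ReN
import Pool.Agent.QPL.LawInj
import Pool.Agent.QPL.Colim
import Pool.Agent.QPL.ColimN
import Pool.Agent.QPL.Small
import Pool.Agent.QPL.RecX
import Pool.Agent.QPL.RecT

set_option autoImplicit false

/-!
# QPL-39: the laws of `th2`

One known lemma for each law.  `map_id`, `map_comp`, `map_cup`, `re_cup*`, `re_comap`, `sp_comap`,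
`re_push`, `re_triv`, `sp_triv`, `re_unif`: `TGF.Pf` (`mX_id` ... `reX_unif`, `reT_unif`; for `resT` see
also `TGF.Tm`, `Helper14.Gon.Tower`).  `map_Z`, `cup_Z`, `re_Z`: `TGF.Df`, `TGF.Rl`, `TGF.Rl2`.
`map_N`: `resC_bdry`, `c3_mX`, `c2_mX`, `resT_dT`.  `re_N`: `QPL.ReN`.  `frob`, `inj`: `QPL.LawFrob`,
`QPL.LawInj`.  `small`: `QPL.Small`.  `colim`: `QPL.Colim`.  `colimN`: `QPL.ColimN`.  `recip`:
`QPL.RecX` (`TGF.c2_rel` for `th2`), `QPL.RecT`.
-/

noncomputable section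

open Polynomial TensorProduct
open scoped Classical

namespace QPL

open Helper14.Gon Helper14.W4 TGF

universe u v w

private theorem th2_wX_ZX {F : Type u} [Field F] (j : ℕ) (v : Additive Fˣ) (z : X j F)
    (hz : z ∈ ZX j F) : wX j v z ∈ ZX (j + 1) F := by
  have hz' : d3 j z ∈ TGF.Rel (j + 1) F := hz
  change d3 (j + 1) (wX j v z) ∈ TGF.Rel (j + 2) F
  rw [TGF.d3_wX]
  exact Submodule.neg_mem _ (TGF.wX_rel (j + 1) v hz')

private theorem th2_reX_ZX {L : Type u} {k : Type u} [Field L] [Field k] (V : AC L k) (j : ℕ)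
    (z : X (j + 1) L) (hz : z ∈ ZX (j + 1) L) : reX V j z ∈ ZX j k := by
  have hz' : d3 (j + 1) z ∈ TGF.Rel (j + 2) L := hz
  change d3 j (reX V j z) ∈ TGF.Rel (j + 1) k
  have h := TGF.reX_rel V (j + 1) hz'
  rw [TGF.reX_d3] at h
  exact (Submodule.neg_mem_iff _).1 h

private theorem th2_mX_ZX {F : Type u} {L : Type u} [Field F] [Field L] (φ : F →+* L) (j : ℕ)
    (z : X j F) (hz : z ∈ ZX j F) : mX j φ z ∈ ZX j L := by
  have hz' : d3 j z ∈ TGF.Rel (j + 1) F := hz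
  change d3 j (mX j φ z) ∈ TGF.Rel (j + 1) L
  rw [← TGF.mX_d3]
  exact TGF.mX_rel (j + 1) φ hz'

private theorem th2_mX_NX {F : Type u} {L : Type u} [Field F] [Field L] (φ : F →+* L) (j : ℕ)
    (z : X j F) (hz : z ∈ NX j F) : mX j φ z ∈ NX j L := by
  have hz' : c3 j z ∈ bdry F 1 j := hz
  change c3 j (mX j φ z) ∈ bdry L 1 j
  rw [c3_mX]
  exact resC_bdry φ 1 j hz'

theorem laws2 (hres : Resid th2.{u}) : Laws th2.{u} where
  map_id _ _ j z := TGF.mX_id j z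
  map_comp _ _ _ _ _ _ φ ψ j z := TGF.mX_comp j φ ψ z
  map_cup _ _ _ _ φ j v z := TGF.mX_wX j φ v z
  map_Z _ _ _ _ φ j z hz := th2_mX_ZX φ j z hz
  map_N _ _ _ _ φ j z hz := th2_mX_NX φ j z hz
  cup_Z _ _ j v z hz := th2_wX_ZX j v z hz
  re_Z _ _ _ _ V j z hz := th2_reX_ZX V j z hz
  re_N _ _ _ _ V j z hz := reX_NX V j z hz
  re_cup_zero _ _ _ _ V v z := TGF.reX_wX_zero V v z
  re_cup _ _ _ _ V j v z := TGF.reX_wX V j v z
  re_comap _ _ _ _ _ _ V φ j z := TGF.reX_comap V φ j z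
  sp_comap _ _ _ _ _ _ V φ j z := TGF.spX_comap V φ j z
  re_push _ _ _ _ _ _ V ψ j z := TGF.reX_push V ψ j z
  re_triv _ _ _ _ V ψ h j z := TGF.reX_triv V ψ h j z
  sp_triv _ _ _ _ V ψ h j z := TGF.spX_triv V ψ h j z
  re_unif _ _ _ _ V V' m h h' j z := TGF.reX_unif V V' m h h' j z
  frob p hp _ _ _ _ j z := frob_NX p hp j z
  small p hp _ _ _ _ _ _ _ V φ h j _ v z := small_NX p hp V φ h j v z
  inj _ _ _ _ _ φ j z hz := inj_NX φ j z hz
  colim _ _ j z hz := colim_ZX j z hz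
  colimN _ _ _ _ φ j z hz := colimN_NX φ j z hz
  recip _ _ _ j z hz V V' hV hV' := recip_NX V V' hV hV' j z (TGF.c2_rel (j + 2) hz)
  resid := hres

end QPL
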