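import Pool.Agent.QPL.TrE

set_option autoImplicit false

/-!
# QPL-47: grouping the points according to their minimal polynomials

The sum over `S` is grouped along `a ↦ minpoly K a` (`0` if `a` is transcendental).
-/

noncomputable section

open Polynomial TensorProduct
open scoped Classical

namespace QPL

open Helper14.Gon Helper14.W4 TGF

universe u v w

variable {K Kb : Type u} [Field K] [Field Kb] (ι : K →+* Kb)

theorem fiber_sum {M : Type v} [AddCommGroup M] (D : AddSubgroup M) (g : Kb → M) (S : Finset Kb)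
    (hS : ∀ a, a ∉ S → g a = 0) (P0 : K[X]) (hm : P0.Monic) (hi : Irreducible P0)
    (htr : ∀ a, (∀ P : K[X], P ≠ 0 → P.eval₂ ι a ≠ 0) → g a = 0)
    (hal : ∀ P : K[X], P.Monic → Irreducible P → P ≠ P0 →
      ∑ a ∈ (P.map ι).roots.toFinset, g a ∈ D) :
    ∑ a ∈ S, g a - ∑ a ∈ (P0.map ι).roots.toFinset, g a ∈ D := by
  let _ : Algebra K Kb := ι.toAlgebra
  have hroot : ∀ P : K[X], P.Monic → Irreducible P → ∀ a : Kb,
      a ∈ (P.map ι).roots.toFinset ↔ minpoly K a = P := by
    intro P hPm hPi a
    have hP0 : P.map ι ≠ 0 := (hPm.map ι).ne_zero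
    rw [Multiset.mem_toFinset, Polynomial.mem_roots hP0, Polynomial.IsRoot.def,
      Polynomial.eval_map]
    constructor
    · intro h
      have h1 : Polynomial.aeval a P = 0 := h
      exact (minpoly.eq_of_irreducible_of_monic hPi h1 hPm).symm
    · intro h
      have h1 : Polynomial.aeval a (minpoly K a) = 0 := minpoly.aeval K a
      rw [h] at h1
      exact h1
  have hF : ∀ P : K[X], P.Monic → Irreducible P →
      ∑ a ∈ S with minpoly K a = P, g a = ∑ a ∈ (P.map ι).roots.toFinset, g a := by
    intro P hPm hPi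
    refine Finset.sum_subset ?_ ?_
    · intro a ha
      exact (hroot P hPm hPi a).2 (Finset.mem_filter.1 ha).2
    · intro a ha h
      refine hS a fun haS => h ?_
      exact Finset.mem_filter.2 ⟨haS, (hroot P hPm hPi a).1 ha⟩
  have hmaps : ∀ a ∈ S, minpoly K a ∈ insert P0 (S.image (minpoly K)) := fun a ha =>
    Finset.mem_insert_of_mem (Finset.mem_image_of_mem _ ha)
  rw [← Finset.sum_fiberwise_of_maps_to hmaps g, ← hF P0 hm hi,
    ← Finset.add_sum_erase _ _ (Finset.mem_insert_self P0 (S.image (minpoly K))),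
    add_sub_cancel_left]
  refine sum_mem fun P hP => ?_
  obtain ⟨hPne, hP1⟩ := Finset.mem_erase.1 hP
  rcases Finset.mem_insert.1 hP1 with h | h
  · exact absurd h hPne
  obtain ⟨b, _, rfl⟩ := Finset.mem_image.1 h
  by_cases hb : IsIntegral K b
  · rw [hF _ (minpoly.monic hb) (minpoly.irreducible hb)]
    exact hal _ (minpoly.monic hb) (minpoly.irreducible hb) hPne
  · have h0 : ∑ a ∈ S with minpoly K a = minpoly K b, g a = 0 := by
      refine Finset.sum_eq_zero fun a ha => ?_
      have ha2 := (Finset.mem_filter.1 ha).2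
      rw [minpoly.eq_zero hb] at ha2
      refine htr a fun P hP hPa => ?_
      have h1 : IsAlgebraic K a := ⟨P, hP, hPa⟩
      exact minpoly.ne_zero (isAlgebraic_iff_isIntegral.1 h1) ha2
    rw [h0]
    exact D.zero_mem

end QPL
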