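import Pool.Agent.QPL.TrG
import Pool.Agent.QPL.TrF
import Pool.Agent.QPL.At

set_option autoImplicit false

/-!
# QPL-49: transfers (section 5, (Tr))

Strong induction on `d = p.P.natDegree` for all `k`, `p`, `T`, `w` at once.  `V` from `TGF.exists_pt`,
`z` from `hH.resid`; `W a` from `exists_at a`, `W'` from `exists_inf` (over `Kb` and over `K`);
`hH.recip` for `map (rm ι) z` (`hH.map_Z`) gives `S`.  Put
`D = (H.Z K j).map (H.map ι j) ⊔ H.N Kb j` and `g a = H.re (W a) j (map (rm ι) z)`.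
`fiber_sum` with `P0 = p.P`: `htr` is `re_tr`; `hal` for `P`: closed point `p'` (`exists_pl_irr`), `V'`,
`T'` (`exists_T`), `sum_roots`: if `deg P < d` the induction hypothesis for
`H.re V' j z ∈ Z` (`hH.re_Z`), if `deg P ≥ d` then `H.re V' j z = 0`.
Infinity: `re_inf`, `hH.re_Z`.  So `∑ over the roots of p.P ∈ D`; `sum_roots`; and
`H.re V j z - w ∈ N`, `hH.map_N`; divide by `m`.
-/

noncomputable section

open Polynomial TensorProduct
open scoped Classical

namespace QPL

open Helper14.Gon Helper14.W4 TGF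

universe u v w

/-- the transfer, with the target as a submodule -/
private theorem tr_aux (H : Thy.{u}) (hH : Laws H) {K Kb : Type u} [Field K] [Field Kb]
    [IsAlgClosed Kb] (ι : K →+* Kb) (j n : ℕ) : ∀ (k : Type u) [Field k] (p : SRG.Pl K k),
    p.P.natDegree = n → ∀ (T : Finset (k →+* Kb)), (∀ y, y ∈ T ↔ y.comp (p.r.comp C) = ι) →
    ∀ w : H.Y k j, w ∈ H.Z k j →
      ∑ y ∈ T, H.map y j w ∈ (H.Z K j).map (H.map ι j) ⊔ H.N Kb j := by
  induction n using Nat.strong_induction_on with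
  | _ n ih =>
    intro k _ p hn T hT w hw
    set D : Submodule ℚ (H.Y Kb j) := (H.Z K j).map (H.map ι j) ⊔ H.N Kb j with hD
    have hND : ∀ x, x ∈ H.N Kb j → x ∈ D := fun x hx => Submodule.mem_sup_right hx
    have hZD : ∀ x, x ∈ H.Z K j → H.map ι j x ∈ D := fun x hx =>
      Submodule.mem_sup_left (Submodule.mem_map_of_mem hx)
    obtain ⟨V, hV⟩ := TGF.exists_pt p
    obtain ⟨z, hz, hzw, hz0⟩ := hH.resid K k p V hV j w hw
    choose W hW using fun a : Kb => exists_at a
    obtain ⟨W', hW'⟩ := exists_inf (k := Kb)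
    obtain ⟨W0, hW0⟩ := exists_inf (k := K)
    obtain ⟨S, hS, hSN⟩ := hH.recip Kb j (H.map (rm ι) (j + 1) z) (hH.map_Z _ _ _ _ z hz) W W' hW hW'
    have hsum : ∑ a ∈ S, H.re (W a) j (H.map (rm ι) (j + 1) z) ∈ D := by
      have h1 := hND _ hSN
      have h2 : H.re W' j (H.map (rm ι) (j + 1) z) ∈ D := by
        rw [re_inf H hH ι W' hW' W0 hW0 j z]
        exact hZD _ (hH.re_Z _ _ W0 j z hz)
      have h3 := D.sub_mem h1 h2
      rw [add_sub_cancel_right] at h3
      exact h3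
    have hfib := fiber_sum ι D.toAddSubgroup (fun a => H.re (W a) j (H.map (rm ι) (j + 1) z)) S hS
      p.P p.monic p.irr (fun a ha => re_tr H hH ι a (W a) (hW a) ha j z) (by
        intro P hm hi hne
        obtain ⟨k', _, p', rfl⟩ := exists_pl_irr P hm hi
        obtain ⟨V', hV'⟩ := TGF.exists_pt p'
        obtain ⟨T', _, hT'⟩ := exists_T p' ι
        obtain ⟨m, _, hm'⟩ := sum_roots H hH ι p' V' hV' T' hT' W hW j z
        change ∑ a ∈ (p'.P.map ι).roots.toFinset, H.re (W a) j (H.map (rm ι) (j + 1) z) ∈ D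
        rw [hm']
        refine D.smul_mem _ ?_
        by_cases hd : p'.P.natDegree < n
        · exact ih _ hd k' p' rfl T' hT' (H.re V' j z) (hH.re_Z _ _ V' j z hz)
        · rw [hz0 k' p' V' hV' hne (by omega)]
          have h0 : ∑ y ∈ T', H.map y j (0 : H.Y k' j) = 0 :=
            Finset.sum_eq_zero fun y _ => map_zero _
          rw [h0]
          exact zero_mem _)
    have hroots : ∑ a ∈ (p.P.map ι).roots.toFinset, H.re (W a) j (H.map (rm ι) (j + 1) z) ∈ D := by
      have h1 := D.sub_mem hsum hfib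
      rw [sub_sub_cancel] at h1
      exact h1
    obtain ⟨m, hm, hm'⟩ := sum_roots H hH ι p V hV T hT W hW j z
    rw [hm'] at hroots
    have hmq : (m : ℚ) ≠ 0 := by exact_mod_cast hm.ne'
    have h4 : ∑ y ∈ T, H.map y j (H.re V j z) ∈ D := by
      have h5 := D.smul_mem (m : ℚ)⁻¹ hroots
      rw [smul_smul, inv_mul_cancel₀ hmq, one_smul] at h5
      exact h5
    have h6 : ∑ y ∈ T, H.map y j (H.re V j z) - ∑ y ∈ T, H.map y j w ∈ D := by
      rw [← Finset.sum_sub_distrib]
      refine D.sum_mem fun y _ => ?_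
      rw [← map_sub]
      exact hND _ (hH.map_N _ _ y j _ hzw)
    have h7 := D.sub_mem h4 h6
    rw [sub_sub_cancel] at h7
    exact h7

theorem Tr (H : Thy.{u}) (hH : Laws H) {K k Kb : Type u} [Field K] [Field k] [Field Kb]
    [IsAlgClosed Kb] (p : SRG.Pl K k) (ι : K →+* Kb) (T : Finset (k →+* Kb))
    (hT : ∀ y, y ∈ T ↔ y.comp (p.r.comp C) = ι) (j : ℕ) (w : H.Y k j) (hw : w ∈ H.Z k j) :
    ∃ s ∈ H.Z K j, ∑ y ∈ T, H.map y j w - H.map ι j s ∈ H.N Kb j := by
  obtain ⟨x, hx, y, hy, h⟩ := Submodule.mem_sup.1 (tr_aux H hH ι j _ k p rfl T hT w hw)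
  obtain ⟨s, hs, rfl⟩ := hx
  refine ⟨s, hs, ?_⟩
  rw [← h, add_sub_cancel_left]
  exact hy

end QPL
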