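import Pool.Agent.TGF.Defs
import Pool.Agent.Helper14.Gon.Inj

set_option autoImplicit false

/-!
# QPL-35: boundaries over a finitely generated extension, first part

`KS φ s` is the subfield generated by `φ(M)` and `s`.  As in `Helper14.Gon.Inj` (`U_res` ... `range_dC`,
`range_dT`), with the `EvHom atTop F (fun s : Finset F => KS φ s)` given by
`f s x = x` if `x ∈ KS φ s` and `0` otherwise: `H.cx (resC φ z) = RP.mk (fun s => resC (toKS φ s) z)`,
`H.cx_dC`, `RP.exists_rep`, `Eventually.exists`.
-/

noncomputable section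

open Polynomial TensorProduct
open scoped Classical

namespace QPL

open Helper14.Gon Helper14.W4 TGF

universe u v w

variable {M : Type u} {F : Type v} [Field M] [Field F]

/-- The subfield generated by the image of `φ` and a finite set. -/
def KS (φ : M →+* F) (s : Finset F) : Subfield F := Subfield.closure (Set.range φ ∪ (s : Set F))

/-- The map to it. -/
def toKS (φ : M →+* F) (s : Finset F) : M →+* KS φ s :=
  φ.codRestrict (KS φ s) (fun x => Subfield.subset_closure (Or.inl ⟨x, rfl⟩))

private theorem colima_mem (φ : M →+* F) (s : Finset F) {x : F} (h : x ∈ s) : x ∈ KS φ s :=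
  Subfield.subset_closure (Or.inr h)

/-- The family of partial identities. -/
private def colima_H (φ : M →+* F) : EvHom (Filter.atTop : Filter (Finset F)) F
    (fun s : Finset F => (KS φ s : Type v)) where
  f s x := if h : x ∈ KS φ s then ⟨x, h⟩ else 0
  zero := Filter.Eventually.of_forall fun s => by
    rw [dif_pos (zero_mem _)]
    rfl
  one := Filter.Eventually.of_forall fun s => by
    rw [dif_pos (one_mem _)]
    rfl
  add x y := by
    filter_upwards [Filter.eventually_ge_atTop ({x, y} : Finset F)] with s hs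
    have hx : x ∈ KS φ s := colima_mem φ s (hs (by simp))
    have hy : y ∈ KS φ s := colima_mem φ s (hs (by simp))
    rw [dif_pos hx, dif_pos hy, dif_pos (add_mem hx hy)]
    rfl
  mul x y := by
    filter_upwards [Filter.eventually_ge_atTop ({x, y} : Finset F)] with s hs
    have hx : x ∈ KS φ s := colima_mem φ s (hs (by simp))
    have hy : y ∈ KS φ s := colima_mem φ s (hs (by simp))
    rw [dif_pos hx, dif_pos hy, dif_pos (mul_mem hx hy)]
    rfl

private theorem colima_f (φ : M →+* F) (s : Finset F) (x : M) :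
    (colima_H φ).f s (φ x) = toKS φ s x := by
  have h : φ x ∈ KS φ s := Subfield.subset_closure (Or.inl ⟨x, rfl⟩)
  change (if h : φ x ∈ KS φ s then (⟨φ x, h⟩ : KS φ s) else 0) = _
  rw [dif_pos h]
  rfl

private theorem colima_U (φ : M →+* F) (v : Additive Mˣ) :
    (colima_H φ).U (resU φ v) = RP.mk (fun s => resU (toKS φ s) v) := by
  rw [EvHom.U_apply]
  refine RP.mk_eq.2 (Filter.Eventually.of_forall fun s => ?_)
  change lg ((colima_H φ).f s (φ (v.toMul : M))) = _
  rw [colima_f, ← resU_lg, lg_unit]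
  rfl

private theorem colima_wedge (φ : M →+* F) (j : ℕ) (ω : Lam j M) :
    (colima_H φ).wedge j (resL j φ ω) = RP.mk (fun s => resL j (toKS φ s) ω) := by
  have key : ((colima_H φ).wedge j).toAddMonoidHom.comp (resL j φ).toAddMonoidHom =
      RP.hom (fun ω (s : Finset F) => resL j (toKS φ s) ω)
        (fun _ _ => Filter.Eventually.of_forall fun _ => map_add _ _ _) := by
    refine lam_ext fun w => ?_
    change (colima_H φ).wedge j (resL j φ _) = RP.mk _
    rw [resL, exteriorPower.map_apply_ιMulti, EvHom.wedge_ιMulti]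
    refine RP.mk_eq.2 ?_
    have : ∀ᶠ i in (Filter.atTop : Filter (Finset F)), ∀ m ∈ (Finset.univ : Finset (Fin j)),
        (colima_H φ).un (resU φ (w m)) i = resU (toKS φ i) (w m) :=
      (Finset.eventually_all _).2 fun m _ => RP.mk_eq.1 (colima_U φ (w m))
    filter_upwards [this] with i h1
    rw [resL, exteriorPower.map_apply_ιMulti]
    congr 1
    funext m
    exact h1 m (Finset.mem_univ m)
  exact DFunLike.congr_fun key ω

private theorem colima_cx (φ : M →+* F) (m j : ℕ) (z : Cx (m + 1) j M) :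
    (colima_H φ).cx m j (resC m j φ z) = RP.mk (fun s => resC m j (toKS φ s) z) := by
  have key : ((colima_H φ).cx m j).comp (resC m j φ).toAddMonoidHom =
      RP.hom (fun z (s : Finset F) => resC m j (toKS φ s) z)
        (fun a b => Filter.Eventually.of_forall fun s => (resC m j (toKS φ s)).map_add a b) := by
    refine Cx_ext_add fun q x ω => ?_
    change (colima_H φ).cx m j (resC m j φ (q • gen (m + 1) x ω)) = RP.mk _
    rw [map_smul, resC_gen, (colima_H φ).cx_gen m j q _ _ _ (colima_wedge φ j ω)]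
    refine RP.mk_eq.2 (Filter.Eventually.of_forall fun s => ?_)
    change _ = resC m j (toKS φ s) (q • gen (m + 1) x ω)
    rw [map_smul, resC_gen]
    cases x with
    | none => rfl
    | some x => rw [mapP_some, mapP_some, mapP_some, colima_f]
  exact DFunLike.congr_fun key z

private theorem colima_tx (φ : M →+* F) (n : ℕ) (z : Tx n M) :
    (colima_H φ).tx n (resT n φ z) = RP.mk (fun s => resT n (toKS φ s) z) := by
  induction z using TensorProduct.induction_on with
  | zero =>
    rw [map_zero, map_zero, ← RP.mk_zero]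
    refine RP.mk_eq.2 (Filter.Eventually.of_forall fun s => ?_)
    rw [map_zero]
  | add a b ha hb =>
    rw [map_add, map_add, ha, hb, ← RP.mk_add]
    refine RP.mk_eq.2 (Filter.Eventually.of_forall fun s => ?_)
    rw [map_add]
  | tmul q ω =>
    have e : (q ⊗ₜ[ℤ] ω : Tx n M) = q • toQ ω := by
      rw [toQ, smul_tmul', smul_eq_mul, mul_one]
    rw [e, map_smul, resT_toQ, (colima_H φ).tx_toQ n q _ _ (colima_wedge φ n ω)]
    refine RP.mk_eq.2 (Filter.Eventually.of_forall fun s => ?_)
    rw [map_smul, resT_toQ]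

theorem ks_bdry (φ : M →+* F) (k j : ℕ) (z : Cx (k + 2) j M)
    (h : resC (k + 1) j φ z ∈ bdry F k j) :
    ∃ s : Finset F, resC (k + 1) j (toKS φ s) z ∈ bdry (KS φ s) k j := by
  have h1 := colima_cx φ (k + 1) j z
  cases j with
  | zero =>
    have h0 : resC (k + 1) 0 φ z = 0 := h
    rw [h0, map_zero] at h1
    obtain ⟨s, hs⟩ := (RP.mk_eq_zero.1 h1.symm).exists
    exact ⟨s, hs⟩
  | succ j =>
    obtain ⟨η, hη⟩ : ∃ η : Cx (k + 3) j F, dC k j η = resC (k + 1) (j + 1) φ z := h
    rw [← hη, (colima_H φ).cx_dC] at h1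
    obtain ⟨η', hη'⟩ := RP.exists_rep ((colima_H φ).cx (k + 2) j η)
    rw [← hη', RP.map_mk] at h1
    obtain ⟨s, hs⟩ := (RP.mk_eq.1 h1).exists
    exact ⟨s, η' s, hs⟩

theorem ks_bdryT (φ : M →+* F) (j : ℕ) (z : Tx (j + 2) M)
    (h : resT (j + 2) φ z ∈ LinearMap.range (dT j : Cx 2 j F →ₗ[ℚ] Tx (j + 2) F)) :
    ∃ s : Finset F, resT (j + 2) (toKS φ s) z ∈
      LinearMap.range (dT j : Cx 2 j (KS φ s) →ₗ[ℚ] Tx (j + 2) (KS φ s)) := by
  have h1 := colima_tx φ (j + 2) z
  obtain ⟨η, hη⟩ := h
  rw [← hη, (colima_H φ).tx_dT] at h1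
  obtain ⟨η', hη'⟩ := RP.exists_rep ((colima_H φ).cx 1 j η)
  rw [← hη', RP.map_mk] at h1
  obtain ⟨s, hs⟩ := (RP.mk_eq.1 h1).exists
  exact ⟨s, η' s, hs⟩

/-- Fields over `M` and under `F` whose image contains `s` contain `KS φ s`. -/
theorem ks_lift (φ : M →+* F) (s : Finset F) {L : Type w} [Field L] (ψ : M →+* L) (i : L →+* F)
    (h : i.comp ψ = φ) (hs : ∀ x ∈ s, ∃ y : L, i y = x) :
    ∃ e : KS φ s →+* L, e.comp (toKS φ s) = ψ := by
  have hle : KS φ s ≤ i.fieldRange := by
    refine Subfield.closure_le.2 ?_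
    rintro x (⟨m, rfl⟩ | hx)
    · exact ⟨ψ m, by rw [← h]; rfl⟩
    · exact hs x hx
  have hc : ∀ x : KS φ s, ∃ y : L, i y = (x : F) := fun x => hle x.2
  choose e he using hc
  refine ⟨{
    toFun := e
    map_one' := i.injective (by rw [he, map_one]; rfl)
    map_mul' := fun x y => i.injective (by rw [he, map_mul, he, he]; rfl)
    map_zero' := i.injective (by rw [he, map_zero]; rfl)
    map_add' := fun x y => i.injective (by rw [he, map_add, he, he]; rfl) }, ?_⟩
  refine RingHom.ext fun m => i.injective ?_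
  change i (e (toKS φ s m)) = i (ψ m)
  rw [he, ← RingHom.comp_apply i ψ, h]
  rfl

end QPL
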