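import Pool.Agent.QPL.ReT

set_option autoImplicit false

/-!
# QPL-29: finitely many nonzero residues

A nonzero `f : RatFunc K` has `v_a f = 0` unless `a` is a root of `f.num` or `f.denom`
(`IsAt.v`, `f = f.num / f.denom`).  `reT` on `dm w` (`ctT_dm`, `Tx_ext`, induction on the tensor):
it is `0` if all `(V a).vH (w i) = 0`.
-/

noncomputable section

open Polynomial TensorProduct
open scoped Classical

namespace QPL

open Helper14.Gon Helper14.W4 TGF

universe u v w

variable {K : Type u} [Field K] (V : K → AC (RatFunc K) K) (hV : ∀ a, IsAt a (V a))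

include hV in
theorem v_fin (f : RatFunc K) (hf : f ≠ 0) : ∃ s : Finset K, ∀ a, a ∉ s → (V a).v f = 0 := by
  refine ⟨f.num.roots.toFinset ∪ f.denom.roots.toFinset, fun a ha => ?_⟩
  have hn : f.num ≠ 0 := RatFunc.num_ne_zero hf
  have hd : f.denom ≠ 0 := RatFunc.denom_ne_zero f
  have h1 : ¬ f.num.IsRoot a := by
    intro h
    exact ha (Finset.mem_union_left _ (Multiset.mem_toFinset.2 ((mem_roots hn).2 h)))
  have h2 : ¬ f.denom.IsRoot a := by
    intro h
    exact ha (Finset.mem_union_right _ (Multiset.mem_toFinset.2 ((mem_roots hd).2 h)))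
  have hn' : algebraMap K[X] (RatFunc K) f.num ≠ 0 := by
    intro h
    exact hn ((map_eq_zero_iff _ (RatFunc.algebraMap_injective K)).1 h)
  have hd' : algebraMap K[X] (RatFunc K) f.denom ≠ 0 := by
    intro h
    exact hd ((map_eq_zero_iff _ (RatFunc.algebraMap_injective K)).1 h)
  have h3 : (V a).v f = (V a).v (algebraMap K[X] (RatFunc K) f.num /
      algebraMap K[X] (RatFunc K) f.denom) := by
    rw [RatFunc.num_div_denom]
  rw [h3, (V a).v_div hn' hd', (hV a).v _ hn, (hV a).v _ hd, rootMultiplicity_eq_zero h1,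
    rootMultiplicity_eq_zero h2, sub_self]

/-- the elements with finitely many nonzero residues -/
private def recfin_P (j : ℕ) : Submodule ℚ (Tx (j + 1) (RatFunc K)) where
  carrier := {z | ∃ s : Finset K, ∀ a, a ∉ s → reT (V a) j z = 0}
  zero_mem' := ⟨∅, fun a _ => map_zero _⟩
  add_mem' := by
    rintro x y ⟨s, hs⟩ ⟨t, ht⟩
    refine ⟨s ∪ t, fun a ha => ?_⟩
    rw [Finset.mem_union, not_or] at ha
    rw [map_add, hs a ha.1, ht a ha.2, add_zero]
  smul_mem' := by
    rintro c x ⟨s, hs⟩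
    refine ⟨s, fun a ha => ?_⟩
    rw [map_smul, hs a ha, smul_zero]

private theorem recfin_mem (j : ℕ) (z : Tx (j + 1) (RatFunc K)) :
    z ∈ recfin_P V j ↔ ∃ s : Finset K, ∀ a, a ∉ s → reT (V a) j z = 0 := Iff.rfl

include hV in
private theorem recfin_dm (j : ℕ) (w : Fin (j + 1) → Additive (RatFunc K)ˣ) :
    dm w ∈ recfin_P V j := by
  rw [recfin_mem]
  have h : ∀ i, ∃ s : Finset K, ∀ a, a ∉ s → (V a).v ((w i).toMul : RatFunc K) = 0 := fun i =>
    v_fin V hV _ (Units.ne_zero _)
  choose s hs using h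
  refine ⟨Finset.univ.biUnion s, fun a ha => ?_⟩
  have h2 : ∀ i, (V a).vH (w i) = 0 := by
    intro i
    refine hs i a fun h3 => ha ?_
    exact Finset.mem_biUnion.2 ⟨i, Finset.mem_univ i, h3⟩
  change tm j (V a).lH (ctT j (V a).vH (dm w)) = 0
  rw [ctT_dm, Finset.sum_eq_zero, map_zero]
  intro i _
  rw [h2 i, zero_smul, smul_zero]

include hV in
theorem reT_fin (j : ℕ) (z : Tx (j + 1) (RatFunc K)) :
    ∃ s : Finset K, ∀ a, a ∉ s → reT (V a) j z = 0 := by
  have h : (recfin_P V j).mkQ = 0 := by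
    refine Tx_ext fun w => ?_
    rw [LinearMap.zero_apply, Submodule.mkQ_apply, Submodule.Quotient.mk_eq_zero]
    exact recfin_dm V hV j w
  have h2 : z ∈ recfin_P V j := by
    rw [← Submodule.Quotient.mk_eq_zero (recfin_P V j), ← Submodule.mkQ_apply, h,
      LinearMap.zero_apply]
  exact (recfin_mem V j z).1 h2

include hV in
theorem reX_fin (j : ℕ) (z : X (j + 1) (RatFunc K)) :
    ∃ s : Finset K, ∀ a, a ∉ s → reX (V a) j z = 0 := by
  induction z using x_ind with
  | h0 => exact ⟨∅, fun a _ => map_zero _⟩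
  | hadd x y hx hy =>
    obtain ⟨s, hs⟩ := hx
    obtain ⟨t, ht⟩ := hy
    refine ⟨s ∪ t, fun a ha => ?_⟩
    rw [Finset.mem_union, not_or] at ha
    rw [map_add, hs a ha.1, ht a ha.2, add_zero]
  | h1 x ω =>
    obtain ⟨s, hs⟩ := reT_fin V hV j ω
    refine ⟨s, fun a ha => ?_⟩
    rw [reX_bx, hs a ha, bx_zero, ite_self]

end QPL
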