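import Pool.Agent.TGF.Thy
import Pool.Agent.TGF.JD

set_option autoImplicit false

/-!
# QPL-42: embeddings of the residue field of a closed point

`emb_eval`: both sides are ring homomorphisms `K[X] → Kb` agreeing on `C c` and `X`.
`emb_ext`: `p.surj`.  `emb_exists`: the homomorphism `eval₂ ι a` kills `ker p.r` (`p.ker`: multiples of
`p.P`), so it factors through the surjection `p.r` (`RingHom.liftOfSurjective`).
`exists_T`: the image of the finite set of roots of `p.P.map ι`; nonempty since `p.P` is not constant.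
`sum_T`: `Finset.sum_bij` with `y ↦ y (p.r X)`.
-/

noncomputable section

open Polynomial TensorProduct
open scoped Classical

namespace QPL

open Helper14.Gon Helper14.W4 TGF

universe u v w

section
variable {K k Kb : Type u} [Field K] [Field k] [Field Kb] (p : SRG.Pl K k) (ι : K →+* Kb)

theorem emb_eval {y : k →+* Kb} (hy : y.comp (p.r.comp C) = ι) (A : K[X]) :
    y (p.r A) = A.eval₂ ι (y (p.r X)) := by
  have h : y.comp p.r = eval₂RingHom ι (y (p.r X)) := by
    refine Polynomial.ringHom_ext (fun a => ?_) ?_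
    · rw [RingHom.comp_apply, coe_eval₂RingHom, eval₂_C, ← hy]
      rfl
    · rw [RingHom.comp_apply, coe_eval₂RingHom, eval₂_X]
  have h1 := DFunLike.congr_fun h A
  rwa [RingHom.comp_apply, coe_eval₂RingHom] at h1

theorem emb_root {y : k →+* Kb} (hy : y.comp (p.r.comp C) = ι) :
    p.P.eval₂ ι (y (p.r X)) = 0 := by
  rw [← emb_eval p ι hy, (p.ker p.P).2 dvd_rfl, map_zero]

theorem emb_ext {y y' : k →+* Kb} (hy : y.comp (p.r.comp C) = ι) (hy' : y'.comp (p.r.comp C) = ι)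
    (h : y (p.r X) = y' (p.r X)) : y = y' := by
  refine RingHom.ext fun x => ?_
  obtain ⟨A, rfl⟩ := p.surj x
  rw [emb_eval p ι hy, emb_eval p ι hy', h]

theorem emb_exists (a : Kb) (ha : p.P.eval₂ ι a = 0) :
    ∃ y : k →+* Kb, y.comp (p.r.comp C) = ι ∧ y (p.r X) = a := by
  have hk : RingHom.ker p.r ≤ RingHom.ker (eval₂RingHom ι a) := by
    intro A hA
    rw [RingHom.mem_ker] at hA ⊢
    obtain ⟨Q, rfl⟩ := (p.ker A).1 hA
    rw [map_mul, coe_eval₂RingHom, ha, zero_mul]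
  have hl : ∀ A : K[X], p.r.liftOfSurjective p.surj ⟨eval₂RingHom ι a, hk⟩ (p.r A) =
      A.eval₂ ι a := fun A => RingHom.liftOfRightInverse_comp_apply _ _ _ _ A
  refine ⟨p.r.liftOfSurjective p.surj ⟨eval₂RingHom ι a, hk⟩, ?_, ?_⟩
  · refine RingHom.ext fun c => ?_
    change p.r.liftOfSurjective p.surj ⟨eval₂RingHom ι a, hk⟩ (p.r (C c)) = _
    rw [hl, eval₂_C]
  · rw [hl, eval₂_X]

private theorem tra_mem (a : Kb) : a ∈ (p.P.map ι).roots.toFinset ↔ p.P.eval₂ ι a = 0 := by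
  rw [Multiset.mem_toFinset, mem_roots_map_of_injective ι.injective p.monic.ne_zero]

theorem exists_T [IsAlgClosed Kb] :
    ∃ T : Finset (k →+* Kb), T.Nonempty ∧ ∀ y, y ∈ T ↔ y.comp (p.r.comp C) = ι := by
  have hex : ∀ a : Kb, ∃ y : k →+* Kb, p.P.eval₂ ι a = 0 →
      (y.comp (p.r.comp C) = ι ∧ y (p.r X) = a) := by
    have hdeg : p.P.degree ≠ 0 := fun h0 => p.irr.not_isUnit
      (isUnit_iff_degree_eq_zero.2 h0)
    obtain ⟨b, hb⟩ := IsAlgClosed.exists_eval₂_eq_zero ι p.P hdeg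
    obtain ⟨y0, -, -⟩ := emb_exists p ι b hb
    intro a
    by_cases ha : p.P.eval₂ ι a = 0
    · obtain ⟨y, h1, h2⟩ := emb_exists p ι a ha
      exact ⟨y, fun _ => ⟨h1, h2⟩⟩
    · exact ⟨y0, fun h => absurd h ha⟩
  choose Y hY using hex
  have key : ∀ y, y ∈ (p.P.map ι).roots.toFinset.image Y ↔ y.comp (p.r.comp C) = ι := by
    intro y
    rw [Finset.mem_image]
    constructor
    · rintro ⟨a, ha, rfl⟩
      exact (hY a ((tra_mem p ι a).1 ha)).1
    · intro hy
      have h0 := emb_root p ι hy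
      exact ⟨y (p.r X), (tra_mem p ι _).2 h0, emb_ext p ι (hY _ h0).1 hy (hY _ h0).2⟩
  refine ⟨(p.P.map ι).roots.toFinset.image Y, ?_, key⟩
  have hdeg : p.P.degree ≠ 0 := fun h0 => p.irr.not_isUnit
    (isUnit_iff_degree_eq_zero.2 h0)
  obtain ⟨b, hb⟩ := IsAlgClosed.exists_eval₂_eq_zero ι p.P hdeg
  exact ⟨Y b, Finset.mem_image_of_mem _ ((tra_mem p ι b).2 hb)⟩

theorem sum_T {M : Type v} [AddCommMonoid M] (T : Finset (k →+* Kb))
    (hT : ∀ y, y ∈ T ↔ y.comp (p.r.comp C) = ι) (f : Kb → M) :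
    ∑ y ∈ T, f (y (p.r X)) = ∑ a ∈ (p.P.map ι).roots.toFinset, f a := by
  refine Finset.sum_bij (fun y _ => y (p.r X)) ?_ ?_ ?_ ?_
  · intro y hy
    exact (tra_mem p ι _).2 (emb_root p ι ((hT y).1 hy))
  · intro y hy y' hy' h
    exact emb_ext p ι ((hT y).1 hy) ((hT y').1 hy') h
  · intro a ha
    obtain ⟨y, h1, h2⟩ := emb_exists p ι a ((tra_mem p ι a).1 ha)
    exact ⟨y, (hT y).2 h1, h2⟩
  · intro y _
    rfl

end

end QPL
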