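import Pool.Agent.TGF.Thy
import Pool.Agent.TGF.JD

set_option autoImplicit false

/-!
# QPL-43: the multiplicity of the roots of an irreducible polynomial is constant

`Polynomial.rootMultiplicity_eq_natTrailingDegree` (or `taylor`): the multiplicity of `a` is the least
`n` with `(hasseDeriv n P).eval₂ ι a ≠ 0`, and for `P` irreducible with root `a`:
`Q.eval₂ ι a = 0` iff `P ∣ Q` (`P` is coprime to `Q` otherwise).  So it does not depend on the root.
(Alternative: `Irreducible.hasSeparableContraction`.)
-/

noncomputable section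

open Polynomial TensorProduct
open scoped Classical

namespace QPL

open Helper14.Gon Helper14.W4 TGF

universe u v w

variable {K Kb : Type u} [Field K] [Field Kb]

private theorem trb_dvd (P Q : K[X]) (hP : Irreducible P) (ι : K →+* Kb) (a : Kb)
    (ha : P.eval₂ ι a = 0) : Q.eval₂ ι a = 0 ↔ P ∣ Q := by
  constructor
  · intro hQ
    by_contra hnd
    have hc : IsCoprime P Q := (hP.coprime_iff_not_dvd).2 hnd
    obtain ⟨u, v, huv⟩ := hc
    have h1 := congrArg (fun R => R.eval₂ ι a) huv
    simp only [eval₂_add, eval₂_mul, ha, hQ, mul_zero, add_zero, eval₂_one] at h1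
    exact zero_ne_one h1
  · rintro ⟨R, rfl⟩
    rw [eval₂_mul, ha, zero_mul]

private theorem trb_coeff (P : K[X]) (ι : K →+* Kb) (a : Kb) (n : ℕ) :
    (taylor a (P.map ι)).coeff n = (hasseDeriv n P).eval₂ ι a := by
  have h : hasseDeriv n (P.map ι) = (hasseDeriv n P).map ι := by
    ext m
    rw [hasseDeriv_coeff, coeff_map, coeff_map, hasseDeriv_coeff, map_mul, map_natCast]
  rw [taylor_coeff, ← eval_map, h]

theorem mult_const (P : K[X]) (hP : Irreducible P) (ι : K →+* Kb) (a b : Kb)
    (ha : P.eval₂ ι a = 0) (hb : P.eval₂ ι b = 0) :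
    (P.map ι).rootMultiplicity a = (P.map ι).rootMultiplicity b := by
  have h1 : (taylor a (P.map ι)).support = (taylor b (P.map ι)).support := by
    ext n
    rw [mem_support_iff, mem_support_iff, trb_coeff, trb_coeff, Ne, Ne,
      trb_dvd P _ hP ι a ha, trb_dvd P _ hP ι b hb]
  rw [rootMultiplicity_eq_natTrailingDegree, rootMultiplicity_eq_natTrailingDegree]
  rw [← taylor_apply, ← taylor_apply]
  unfold natTrailingDegree trailingDegree
  rw [h1]

theorem mult_pos (P : K[X]) (hP : P ≠ 0) (ι : K →+* Kb) (a : Kb) (ha : P.eval₂ ι a = 0) :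
    0 < (P.map ι).rootMultiplicity a := by
  rw [rootMultiplicity_pos ((Polynomial.map_ne_zero_iff ι.injective).2 hP), IsRoot.def, eval_map]
  exact ha

end QPL
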