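import Pool.Agent.TGF.Pt
import Pool.Agent.QPL.TrA

set_option autoImplicit false

/-!
# QPL-44: the valuations of `Kb(t)` restricted to `K(t)`

`rm ι` maps a quotient of polynomials to the quotient of their images; at an algebraic point the powers of the polynomial of the
point are split off.
-/

noncomputable section

open Polynomial TensorProduct
open scoped Classical

namespace QPL

open Helper14.Gon Helper14.W4 TGF

universe u v w

variable {K k Kb : Type u} [Field K] [Field k] [Field Kb] (ι : K →+* Kb)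

private theorem trc_rm (A : K[X]) :
    rm ι (algebraMap K[X] (RatFunc K) A) = algebraMap Kb[X] (RatFunc Kb) (A.map ι) := by
  have h1 := RatFunc.map_apply_div (mapRingHom ι) (by
    intro P hP
    rw [Submonoid.mem_comap, mem_nonZeroDivisors_iff_ne_zero]
    rw [mem_nonZeroDivisors_iff_ne_zero] at hP
    intro h
    exact hP (map_injective ι ι.injective (by rw [Polynomial.map_zero]; exact h))) A 1
  rw [map_one, map_one, map_one, div_one, div_one] at h1
  exact h1

private theorem trc_div (A B : K[X]) :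
    rm ι (algebraMap K[X] (RatFunc K) A / algebraMap K[X] (RatFunc K) B) =
      algebraMap Kb[X] (RatFunc Kb) (A.map ι) / algebraMap Kb[X] (RatFunc Kb) (B.map ι) := by
  rw [map_div₀, trc_rm, trc_rm]

private theorem trc_ne {A : K[X]} (hA : A ≠ 0) : A.map ι ≠ 0 := by
  intro h
  exact hA (map_injective ι ι.injective (by rw [Polynomial.map_zero]; exact h))

private theorem trc_am {F : Type u} [Field F] {A : F[X]} (hA : A ≠ 0) : algebraMap F[X] (RatFunc F) A ≠ 0 :=
  RatFunc.algebraMap_ne_zero hA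

/-- the values at a polynomial which is not zero at `a` -/
private theorem trc_at {a : Kb} {W : AC (RatFunc Kb) Kb} (hW : IsAt a W) {A : Kb[X]} (hA : A ≠ 0)
    (h : A.eval a ≠ 0) : W.v (algebraMap Kb[X] (RatFunc Kb) A) = 0 ∧
      W.lc (algebraMap Kb[X] (RatFunc Kb) A) = A.eval a := by
  have h1 : A.rootMultiplicity a = 0 := rootMultiplicity_eq_zero h
  constructor
  · rw [hW.v A hA, h1, Nat.cast_zero]
  · rw [hW.lc A hA, h1, pow_zero, divByMonic_one]

private theorem trc_ex (p : SRG.Pl K k) {A : K[X]} (hA : A ≠ 0) :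
    ∃ (m : ℕ) (B : K[X]), A = p.P ^ m * B ∧ ¬ p.P ∣ B := by
  have h1 : FiniteMultiplicity p.P A := FiniteMultiplicity.of_not_isUnit p.irr.not_isUnit hA
  obtain ⟨c, hc, hc'⟩ := h1.exists_eq_pow_mul_and_not_dvd
  exact ⟨_, c, hc, hc'⟩

private theorem trc_vpow {L l : Type u} [Field L] [Field l] (V : AC L l) {x : L} (hx : x ≠ 0) (m : ℕ) :
    V.v (x ^ m) = m * V.v x := by
  induction m with
  | zero => rw [pow_zero, TGF.v_one, Nat.cast_zero, zero_mul]
  | succ m ih =>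
    rw [pow_succ, V.v_mul (pow_ne_zero m hx) hx, ih, Nat.cast_succ]
    ring

theorem at_alg (p : SRG.Pl K k) (V : AC (RatFunc K) k) (hV : IsPt p V) (a : Kb)
    (W : AC (RatFunc Kb) Kb) (hW : IsAt a W) (y : k →+* Kb) (hy : y.comp (p.r.comp C) = ι)
    (ha : y (p.r X) = a) (x : RatFunc K) (hx : x ≠ 0) :
    W.v (rm ι x) = ((p.P.map ι).rootMultiplicity a : ℚ) * V.v x ∧
      (V.v x = 0 → W.lc (rm ι x) = y (V.lc x)) := by
  have hd : x.denom ≠ 0 := x.denom_ne_zero
  have hn : x.num ≠ 0 := RatFunc.num_ne_zero hx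
  obtain ⟨m, A, hA, hA'⟩ := trc_ex p hn
  obtain ⟨n, B, hB, hB'⟩ := trc_ex p hd
  have hA0 : A ≠ 0 := by
    rintro rfl
    exact hA' (dvd_zero _)
  have hB0 : B ≠ 0 := by
    rintro rfl
    exact hB' (dvd_zero _)
  have hPm := trc_ne ι p.irr.ne_zero
  have hP := trc_am hPm
  have hev : ∀ D : K[X], ¬ p.P ∣ D → (D.map ι).eval a = y (p.r D) ∧ (D.map ι).eval a ≠ 0 := by
    intro D hD
    have h1 : (D.map ι).eval a = y (p.r D) := by
      rw [emb_eval p ι hy D, ha, eval_map]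
    refine ⟨h1, ?_⟩
    rw [h1]
    exact (map_ne_zero y).2 fun h2 => hD ((p.ker D).1 h2)
  obtain ⟨eA, eA'⟩ := hev A hA'
  obtain ⟨eB, eB'⟩ := hev B hB'
  obtain ⟨vA, lA⟩ := trc_at hW (trc_ne ι hA0) eA'
  obtain ⟨vB, lB⟩ := trc_at hW (trc_ne ι hB0) eB'
  have hAm := trc_am (trc_ne ι hA0)
  have hBm := trc_am (trc_ne ι hB0)
  obtain ⟨p1, p2⟩ := pt_pow hV m hA'
  obtain ⟨p3, p4⟩ := pt_pow hV n hB'
  rw [← hA] at p1 p2
  rw [← hB] at p3 p4
  have hx' : x = algebraMap K[X] (RatFunc K) x.num / algebraMap K[X] (RatFunc K) x.denom :=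
    (RatFunc.num_div_denom x).symm
  have hV1 : V.v x = (m : ℚ) - n := by
    conv_lhs => rw [hx']
    rw [V.v_div (trc_am hn) (trc_am hd), p1, p3]
  have hV2 : V.lc x = p.r A / p.r B := by
    conv_lhs => rw [hx']
    rw [map_div₀, p2, p4]
  have e1 : algebraMap Kb[X] (RatFunc Kb) (x.num.map ι) =
      algebraMap Kb[X] (RatFunc Kb) (p.P.map ι) ^ m * algebraMap Kb[X] (RatFunc Kb) (A.map ι) := by
    conv_lhs => rw [hA]
    rw [Polynomial.map_mul, Polynomial.map_pow, map_mul, map_pow]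
  have e2 : algebraMap Kb[X] (RatFunc Kb) (x.denom.map ι) =
      algebraMap Kb[X] (RatFunc Kb) (p.P.map ι) ^ n * algebraMap Kb[X] (RatFunc Kb) (B.map ι) := by
    conv_lhs => rw [hB]
    rw [Polynomial.map_mul, Polynomial.map_pow, map_mul, map_pow]
  have hrx : rm ι x = (algebraMap Kb[X] (RatFunc Kb) (p.P.map ι) ^ m * algebraMap Kb[X] (RatFunc Kb) (A.map ι)) /
      (algebraMap Kb[X] (RatFunc Kb) (p.P.map ι) ^ n * algebraMap Kb[X] (RatFunc Kb) (B.map ι)) := by
    rw [← e1, ← e2, ← trc_div, ← hx']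
  constructor
  · rw [hrx, W.v_div (mul_ne_zero (pow_ne_zero m hP) hAm) (mul_ne_zero (pow_ne_zero n hP) hBm),
      W.v_mul (pow_ne_zero m hP) hAm, W.v_mul (pow_ne_zero n hP) hBm, trc_vpow W hP, trc_vpow W hP, vA, vB,
      hW.v _ hPm, hV1]
    ring
  · intro h0
    have hmn : m = n := by
      rw [hV1] at h0
      exact_mod_cast sub_eq_zero.1 h0
    rw [hrx, hmn, mul_div_mul_left _ _ (pow_ne_zero n hP), map_div₀, lA, lB, eA, eB, hV2, map_div₀]

theorem at_tr (a : Kb) (W : AC (RatFunc Kb) Kb) (hW : IsAt a W)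
    (ha : ∀ P : K[X], P ≠ 0 → P.eval₂ ι a ≠ 0) :
    ∃ ψ : RatFunc K →+* Kb, ∀ x : RatFunc K, x ≠ 0 → W.v (rm ι x) = 0 ∧ W.lc (rm ι x) = ψ x := by
  have h : ∀ P : K[X], eval₂RingHom ι a P = 0 → P = 0 := by
    intro P hP
    by_contra h1
    exact ha P h1 hP
  refine ⟨Helper14.Gon.sub (eval₂RingHom ι a) h, fun x hx => ?_⟩
  have hd : x.denom ≠ 0 := x.denom_ne_zero
  have hn : x.num ≠ 0 := RatFunc.num_ne_zero hx
  have hev : ∀ D : K[X], D ≠ 0 → (D.map ι).eval a ≠ 0 := by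
    intro D hD
    rw [eval_map]
    exact ha D hD
  obtain ⟨vA, lA⟩ := trc_at hW (trc_ne ι hn) (hev _ hn)
  obtain ⟨vB, lB⟩ := trc_at hW (trc_ne ι hd) (hev _ hd)
  have hx' : algebraMap K[X] (RatFunc K) x.num / algebraMap K[X] (RatFunc K) x.denom = x :=
    RatFunc.num_div_denom x
  have hrx := trc_div ι x.num x.denom
  have hsx := Helper14.Gon.sub_div (eval₂RingHom ι a) h x.num x.denom
  rw [hx'] at hrx hsx
  constructor
  · rw [hrx, W.v_div (trc_am (trc_ne ι hn)) (trc_am (trc_ne ι hd)), vA, vB, sub_zero]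
  · rw [hrx, map_div₀, lA, lB, hsx, eval_map, eval_map]
    rfl

theorem at_inf (W : AC (RatFunc Kb) Kb) (hW : IsInf W) (W' : AC (RatFunc K) K) (hW' : IsInf W')
    (x : RatFunc K) (hx : x ≠ 0) : W.v (rm ι x) = W'.v x ∧ W.lc (rm ι x) = ι (W'.lc x) := by
  have hd : x.denom ≠ 0 := x.denom_ne_zero
  have hn : x.num ≠ 0 := RatFunc.num_ne_zero hx
  have hx' : algebraMap K[X] (RatFunc K) x.num / algebraMap K[X] (RatFunc K) x.denom = x :=
    RatFunc.num_div_denom x
  have hrx := trc_div ι x.num x.denom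
  rw [hx'] at hrx
  have h1 : W'.v x = -(x.num.natDegree : ℚ) - -(x.denom.natDegree : ℚ) := by
    conv_lhs => rw [← hx']
    rw [W'.v_div (trc_am hn) (trc_am hd), hW'.v _ hn, hW'.v _ hd]
  have h2 : W'.lc x = x.num.leadingCoeff / x.denom.leadingCoeff := by
    conv_lhs => rw [← hx']
    rw [map_div₀, hW'.lc _ hn, hW'.lc _ hd]
  constructor
  · rw [hrx, W.v_div (trc_am (trc_ne ι hn)) (trc_am (trc_ne ι hd)), hW.v _ (trc_ne ι hn), hW.v _ (trc_ne ι hd),
      natDegree_map, natDegree_map, h1]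
  · rw [hrx, map_div₀, hW.lc _ (trc_ne ι hn), hW.lc _ (trc_ne ι hd), leadingCoeff_map, leadingCoeff_map, h2, map_div₀]

end QPL
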