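import Pool.Agent.QPL.TrC
import Pool.Agent.TGF.Thy

set_option autoImplicit false

/-!
# QPL-45: residues after extension of the constants

The residue of the image of a cochain in `Kb(t)` is the residue for the restricted valuation (`re_comap`), which is compared
with the valuation of the closed point (`re_unif`, `re_push`), is trivial at a transcendental point (`re_triv`), or is the
valuation at infinity.
-/

noncomputable section

open Polynomial TensorProduct
open scoped Classical

namespace QPL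

open Helper14.Gon Helper14.W4 TGF

universe u v w

variable (H : Thy.{u}) (hH : Laws H) {K k Kb : Type u} [Field K] [Field k] [Field Kb]
  (ι : K →+* Kb)

include hH

theorem re_alg (p : SRG.Pl K k) (V : AC (RatFunc K) k) (hV : IsPt p V) (a : Kb)
    (W : AC (RatFunc Kb) Kb) (hW : IsAt a W) (y : k →+* Kb) (hy : y.comp (p.r.comp C) = ι)
    (ha : y (p.r X) = a) (j : ℕ) (z : H.Y (RatFunc K) (j + 1)) :
    H.re W j (H.map (rm ι) (j + 1) z) =
      ((p.P.map ι).rootMultiplicity a : ℚ) • H.map y j (H.re V j z) := by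
  rw [← hH.re_comap, ← hH.re_push]
  exact hH.re_unif _ _ (V.push y) (W.comap (rm ι)) _ (fun x hx => (at_alg ι p V hV a W hW y hy ha x hx).1)
    (fun x hx h0 => (at_alg ι p V hV a W hW y hy ha x hx).2 h0) j z

theorem re_tr (a : Kb) (W : AC (RatFunc Kb) Kb) (hW : IsAt a W)
    (ha : ∀ P : K[X], P ≠ 0 → P.eval₂ ι a ≠ 0) (j : ℕ) (z : H.Y (RatFunc K) (j + 1)) :
    H.re W j (H.map (rm ι) (j + 1) z) = 0 := by
  obtain ⟨ψ, hψ⟩ := at_tr ι a W hW ha
  rw [← hH.re_comap]
  exact hH.re_triv _ _ (W.comap (rm ι)) ψ hψ j z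

theorem re_inf (W : AC (RatFunc Kb) Kb) (hW : IsInf W) (W' : AC (RatFunc K) K) (hW' : IsInf W')
    (j : ℕ) (z : H.Y (RatFunc K) (j + 1)) :
    H.re W j (H.map (rm ι) (j + 1) z) = H.map ι j (H.re W' j z) := by
  rw [← hH.re_comap, ← hH.re_push]
  have h1 := hH.re_unif _ _ (W'.push ι) (W.comap (rm ι)) 1
    (fun x hx => ((at_inf ι W hW W' hW' x hx).1).trans (one_mul _).symm)
    (fun x hx _ => (at_inf ι W hW W' hW' x hx).2) j z
  rw [one_smul] at h1
  exact h1

end QPL
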