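import Pool.Agent.TGF.Thy
import Pool.Agent.TGF.JD

set_option autoImplicit false

/-!
# QPL-46: closed points

`exists_pl_irr`: the residue field is `AdjoinRoot P`. The other two statements are about minimal
polynomials, for the algebra structure given by `ι`.
-/

noncomputable section

open Polynomial TensorProduct
open scoped Classical

namespace QPL

open Helper14.Gon Helper14.W4 TGF

universe u v w

theorem exists_pl_irr {K : Type u} [Field K] (P : K[X]) (hm : P.Monic) (hi : Irreducible P) :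
    ∃ (k' : Type u) (_ : Field k') (p' : SRG.Pl K k'), p'.P = P := by
  haveI : Fact (Irreducible P) := ⟨hi⟩
  exact ⟨AdjoinRoot P, AdjoinRoot.instField, ⟨P, hm, hi, AdjoinRoot.mk P,
    AdjoinRoot.mk_surjective, fun A => AdjoinRoot.mk_eq_zero⟩, rfl⟩

variable {K Kb : Type u} [Field K] [Field Kb] (ι : K →+* Kb)

theorem exists_pl (a : Kb) (P0 : K[X]) (h0 : P0 ≠ 0) (ha : P0.eval₂ ι a = 0) :
    ∃ P : K[X], P.Monic ∧ Irreducible P ∧ P.eval₂ ι a = 0 := by
  letI : Algebra K Kb := ι.toAlgebra
  have h1 : IsIntegral K a := isAlgebraic_iff_isIntegral.1 ⟨P0, h0, ha⟩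
  exact ⟨minpoly K a, minpoly.monic h1, minpoly.irreducible h1, minpoly.aeval K a⟩

theorem irr_unique (P Q : K[X]) (hP : Irreducible P) (hQ : Irreducible Q) (hPm : P.Monic)
    (hQm : Q.Monic) (a : Kb) (ha : P.eval₂ ι a = 0) (hb : Q.eval₂ ι a = 0) : P = Q := by
  letI : Algebra K Kb := ι.toAlgebra
  have h1 : P = minpoly K a := minpoly.eq_of_irreducible_of_monic hP ha hPm
  have h2 : Q = minpoly K a := minpoly.eq_of_irreducible_of_monic hQ hb hQm
  rw [h1, h2]

end QPL
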