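import Pool.Agent.QPL.Calc

set_option autoImplicit false

/-!
# QPL-2: places from graded data

A family of additive and multiplicative initial forms `ini m` on the sets `ge m` of a ring `A`,
for which every nonzero element has a degree with nonzero initial form, comes from a rational
valuation with leading coefficients.
-/

noncomputable section

open Polynomial
open scoped Classical

namespace QPL

open Helper14.Gon

universe u v w

variable {A : Type u} {k : Type v} [CommRing A] [Field k]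

/-- The degree of `x`, chosen. -/
private def ofgr_v (ge : ℚ → A → Prop) (ini : ℚ → A → k)
    (hex : ∀ x, x ≠ 0 → ∃ m, ge m x ∧ ini m x ≠ 0) (x : A) : ℚ :=
  if h : x ≠ 0 then (hex x h).choose else 0

private theorem ofgr_spec (ge : ℚ → A → Prop) (ini : ℚ → A → k)
    (hex : ∀ x, x ≠ 0 → ∃ m, ge m x ∧ ini m x ≠ 0) {x : A} (hx : x ≠ 0) :
    ge (ofgr_v ge ini hex x) x ∧ ini (ofgr_v ge ini hex x) x ≠ 0 := by
  have h : ofgr_v ge ini hex x = (hex x hx).choose := by
    unfold ofgr_v
    rw [dif_pos hx]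
  rw [h]
  exact (hex x hx).choose_spec

omit [CommRing A] in
private theorem ofgr_uniq (ge : ℚ → A → Prop) (ini : ℚ → A → k)
    (hlt : ∀ m n x, n < m → ge m x → ge n x ∧ ini n x = 0) {m n : ℚ} {x : A}
    (hm : ge m x) (hm' : ini m x ≠ 0) (hn : ge n x) (hn' : ini n x ≠ 0) : m = n := by
  rcases lt_trichotomy m n with h | h | h
  · exact absurd (hlt n m x h hn).2 hm'
  · exact h
  · exact absurd (hlt m n x h hm).2 hn'

private theorem ofgr_zero (ge : ℚ → A → Prop) (ini : ℚ → A → k) (h0 : ∀ m, ge m 0)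
    (hadd : ∀ m x y, ge m x → ge m y → ge m (x + y) ∧ ini m (x + y) = ini m x + ini m y)
    (m : ℚ) : ini m 0 = 0 := by
  have h := (hadd m 0 0 (h0 m) (h0 m)).2
  rw [add_zero] at h
  exact left_eq_add.1 h

private theorem ofgr_ne (ge : ℚ → A → Prop) (ini : ℚ → A → k) (h0 : ∀ m, ge m 0)
    (hadd : ∀ m x y, ge m x → ge m y → ge m (x + y) ∧ ini m (x + y) = ini m x + ini m y)
    {m : ℚ} {x : A} (h : ini m x ≠ 0) : x ≠ 0 := by
  intro hx
  rw [hx] at h
  exact h (ofgr_zero ge ini h0 hadd m)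

private theorem ofgr_v_eq (ge : ℚ → A → Prop) (ini : ℚ → A → k) (h0 : ∀ m, ge m 0)
    (hadd : ∀ m x y, ge m x → ge m y → ge m (x + y) ∧ ini m (x + y) = ini m x + ini m y)
    (hlt : ∀ m n x, n < m → ge m x → ge n x ∧ ini n x = 0)
    (hex : ∀ x, x ≠ 0 → ∃ m, ge m x ∧ ini m x ≠ 0) {m : ℚ} {x : A} (hm : ge m x)
    (h : ini m x ≠ 0) : ofgr_v ge ini hex x = m := by
  have hx := ofgr_ne ge ini h0 hadd h
  have hs := ofgr_spec ge ini hex hx
  exact ofgr_uniq ge ini hlt hs.1 hs.2 hm h

theorem exists_of_gr (ge : ℚ → A → Prop) (ini : ℚ → A → k) (h0 : ∀ m, ge m 0)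
    (h1 : ge 0 1 ∧ ini 0 1 = 1)
    (hadd : ∀ m x y, ge m x → ge m y → ge m (x + y) ∧ ini m (x + y) = ini m x + ini m y)
    (hmul : ∀ m n x y, ge m x → ge n y → ge (m + n) (x * y) ∧
      ini (m + n) (x * y) = ini m x * ini n y)
    (hlt : ∀ m n x, n < m → ge m x → ge n x ∧ ini n x = 0)
    (hex : ∀ x, x ≠ 0 → ∃ m, ge m x ∧ ini m x ≠ 0) :
    ∃ W : AC A k, ∀ m x, ge m x → W.ge m x ∧ W.ini m x = ini m x := by
  obtain ⟨val, hval⟩ : ∃ val : A → ℚ, val = ofgr_v ge ini hex := ⟨_, rfl⟩
  have hs : ∀ x : A, x ≠ 0 → ge (val x) x ∧ ini (val x) x ≠ 0 := by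
    intro x hx
    rw [hval]
    exact ofgr_spec ge ini hex hx
  have hu : ∀ (m : ℚ) (x : A), ge m x → ini m x ≠ 0 → val x = m := by
    intro m x hm h
    rw [hval]
    exact ofgr_v_eq ge ini h0 hadd hlt hex hm h
  have hz : ∀ m, ini m (0 : A) = 0 := ofgr_zero ge ini h0 hadd
  have hne : ∀ (m : ℚ) (x : A), ini m x ≠ 0 → x ≠ 0 := fun m x h =>
    ofgr_ne ge ini h0 hadd h
  have h1' : ini 0 (1 : A) ≠ 0 := by rw [h1.2]; exact one_ne_zero
  -- the leading coefficient
  obtain ⟨L, hL⟩ : ∃ L : A → k, ∀ x, L x = if x = 0 then 0 else ini (val x) x :=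
    ⟨fun x => if x = 0 then 0 else ini (val x) x, fun _ => rfl⟩
  have hL0 : L 0 = 0 := by rw [hL, if_pos rfl]
  have hLn : ∀ x : A, x ≠ 0 → L x = ini (val x) x := fun x hx => by rw [hL, if_neg hx]
  have hLne : ∀ x : A, x ≠ 0 → L x ≠ 0 := fun x hx => by rw [hLn x hx]; exact (hs x hx).2
  -- the value of an element with nonzero initial form
  have key : ∀ (m : ℚ) (x : A), ge m x → ini m x ≠ 0 → x ≠ 0 ∧ val x = m ∧ L x = ini m x := by
    intro m x hm h
    have hx := hne m x h
    have hv := hu m x hm h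
    exact ⟨hx, hv, by rw [hLn x hx, hv]⟩
  have hone : (1 : A) ≠ 0 ∧ val 1 = 0 ∧ L 1 = 1 := by
    obtain ⟨a, b, c⟩ := key 0 1 h1.1 h1'
    exact ⟨a, b, by rw [c, h1.2]⟩
  have hprod : ∀ x y : A, x ≠ 0 → y ≠ 0 →
      x * y ≠ 0 ∧ val (x * y) = val x + val y ∧ L (x * y) = L x * L y := by
    intro x y hx hy
    obtain ⟨hx1, hx2⟩ := hs x hx
    obtain ⟨hy1, hy2⟩ := hs y hy
    obtain ⟨h3, h4⟩ := hmul (val x) (val y) x y hx1 hy1
    have h5 : ini (val x + val y) (x * y) ≠ 0 := by
      rw [h4]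
      exact mul_ne_zero hx2 hy2
    obtain ⟨a, b, c⟩ := key _ _ h3 h5
    exact ⟨a, b, by rw [c, h4, hLn x hx, hLn y hy]⟩
  let lc : A →*₀ k :=
    { toFun := L
      map_zero' := hL0
      map_one' := hone.2.2
      map_mul' := by
        intro x y
        by_cases hx : x = 0
        · rw [hx, zero_mul, hL0, zero_mul]
        by_cases hy : y = 0
        · rw [hy, mul_zero, hL0, mul_zero]
        exact (hprod x y hx hy).2.2 }
  have hlcL : ∀ x, lc x = L x := fun _ => rfl
  have hlow : ∀ (m : ℚ) (x : A), x ≠ 0 → ge m x → ini m x = 0 → m < val x := by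
    intro m x hx hm h
    obtain ⟨a, b⟩ := hs x hx
    rcases lt_trichotomy m (val x) with h2 | h2 | h2
    · exact h2
    · rw [← h2] at b
      exact absurd h b
    · exact absurd (hlt m (val x) x h2 hm).2 b
  let W : AC A k :=
    { v := val
      lc := lc
      lc_ne := by
        intro x hx
        exact hLne x hx
      v_mul := by
        intro x y hx hy
        exact (hprod x y hx hy).2.1
      add_lt := by
        intro x y hx hy
        change x + y ≠ 0 ∧ val (x + y) = val x ∧ L (x + y) = L x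
        by_cases hy0 : y = 0
        · rw [hy0, add_zero]
          exact ⟨hx, rfl, rfl⟩
        have hxy : val x < val y := by
          rcases hy with h | h
          · exact absurd h hy0
          · exact h
        obtain ⟨a, b⟩ := hs x hx
        obtain ⟨c, _⟩ := hs y hy0
        obtain ⟨e, f⟩ := hlt (val y) (val x) y hxy c
        obtain ⟨g, h⟩ := hadd (val x) x y a e
        rw [f, add_zero] at h
        have h' : ini (val x) (x + y) ≠ 0 := by rw [h]; exact b
        obtain ⟨p, q, r⟩ := key _ _ g h'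
        exact ⟨p, q, by rw [r, h, hLn x hx]⟩
      add_ne := by
        intro x y hx hy hxy hl
        change x + y ≠ 0 ∧ val (x + y) = val x ∧ L (x + y) = L x + L y
        replace hl : L x + L y ≠ 0 := hl
        replace hxy : val x = val y := hxy
        obtain ⟨a, b⟩ := hs x hx
        obtain ⟨c, d⟩ := hs y hy
        have hLy : L y = ini (val x) y := by rw [hLn y hy, hxy]
        rw [← hxy] at c
        obtain ⟨g, h⟩ := hadd (val x) x y a c
        have h' : ini (val x) (x + y) ≠ 0 := by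
          rw [h, ← hLn x hx, ← hLy]
          exact hl
        obtain ⟨p, q, r⟩ := key _ _ g h'
        exact ⟨p, q, by rw [r, h, hLn x hx, hLy]⟩
      add_eq := by
        intro x y hx hy hxy hl
        replace hl : L x + L y = 0 := hl
        replace hxy : val x = val y := hxy
        by_cases h0' : x + y = 0
        · exact Or.inl h0'
        right
        obtain ⟨a, b⟩ := hs x hx
        obtain ⟨c, d⟩ := hs y hy
        have hLy : L y = ini (val x) y := by rw [hLn y hy, hxy]
        rw [← hxy] at c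
        obtain ⟨g, h⟩ := hadd (val x) x y a c
        rw [← hLn x hx, ← hLy, hl] at h
        exact hlow _ _ h0' g h }
  refine ⟨W, ?_⟩
  intro m x hm
  by_cases hx : x = 0
  · refine ⟨Or.inl hx, ?_⟩
    have h2 : ¬ (x ≠ 0 ∧ W.v x = m) := fun h => h.1 hx
    unfold AC.ini
    rw [if_neg h2, hx, hz]
  by_cases h : ini m x = 0
  · have h2 := hlow m x hx hm h
    refine ⟨Or.inr h2.le, ?_⟩
    have h3 : ¬ (x ≠ 0 ∧ W.v x = m) := fun h => h2.ne' h.2
    unfold AC.ini
    rw [if_neg h3, h]
  · obtain ⟨_, q, r⟩ := key m x hm h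
    refine ⟨Or.inr (le_of_eq q.symm), ?_⟩
    have h3 : x ≠ 0 ∧ W.v x = m := ⟨hx, q⟩
    unfold AC.ini
    rw [if_pos h3]
    exact r

end QPL
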