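import Pool.Agent.QPL.MonoA
import Pool.Agent.QPL.OfGr
import Pool.Agent.QPL.Frac

set_option autoImplicit false

/-!
# QPL-4b: the monomial extension

The monomial extension of a place to the rational functions exists; the value and the leading
coefficient of a polynomial with a given lowest monomial.
-/

noncomputable section

open Polynomial
open scoped Classical

namespace QPL

open Helper14.Gon

universe u v w

variable {L : Type u} {k : Type v} [Field L] [Field k]

private theorem mono_inj : Function.Injective (algebraMap k[X] (RatFunc k)) :=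
  IsFractionRing.injective k[X] (RatFunc k)

theorem exists_mono (V : AC L k) (q : ℚ) : ∃ W : AC (RatFunc L) (RatFunc k), IsMono V q W := by
  obtain ⟨W0, hW0⟩ := exists_of_gr (A := L[X]) (k := RatFunc k)
    (fun m P => V.geP q m P) (fun m P => algebraMap k[X] (RatFunc k) (V.iniP q m P))
    (fun m => geP_zero V q m)
    ⟨(one_geP V q).1, by
      change algebraMap k[X] (RatFunc k) (V.iniP q 0 1) = 1
      rw [(one_geP V q).2, map_one]⟩
    (fun m P Q hP hQ => ⟨(add_geP V q hP hQ).1, by
      change algebraMap k[X] (RatFunc k) (V.iniP q m (P + Q)) = _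
      rw [(add_geP V q hP hQ).2, map_add]⟩)
    (fun m n P Q hP hQ => ⟨(mul_geP V q hP hQ).1, by
      change algebraMap k[X] (RatFunc k) (V.iniP q (m + n) (P * Q)) = _
      rw [(mul_geP V q hP hQ).2, map_mul]⟩)
    (fun m n P h hP => ⟨(lt_geP V q h hP).1, by
      change algebraMap k[X] (RatFunc k) (V.iniP q n P) = 0
      rw [(lt_geP V q h hP).2, map_zero]⟩)
    (fun P hP => by
      obtain ⟨m, h1, h2⟩ := ex_geP V q hP
      refine ⟨m, h1, ?_⟩
      change algebraMap k[X] (RatFunc k) (V.iniP q m P) ≠ 0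
      intro h3
      exact h2 (mono_inj (by rw [h3, map_zero])))
  obtain ⟨W, hW⟩ := exists_frac W0 (RatFunc L)
  refine ⟨W, fun m P hP => ?_⟩
  obtain ⟨h1, h2⟩ := frac_ge W0 (RatFunc L) W hW m P
  obtain ⟨h3, h4⟩ := hW0 m P hP
  exact ⟨h1.2 h3, by rw [h2, h4]⟩

theorem mono_v {V : AC L k} {q : ℚ} {W : AC (RatFunc L) (RatFunc k)} (hW : IsMono V q W)
    (P : L[X]) (i : ℕ) (hi : P.coeff i ≠ 0)
    (hmin : ∀ j, P.coeff j ≠ 0 → V.v (P.coeff i) + i * q ≤ V.v (P.coeff j) + j * q) :
    W.v (algebraMap L[X] (RatFunc L) P) = V.v (P.coeff i) + i * q ∧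
      W.lc (algebraMap L[X] (RatFunc L) P) =
        algebraMap k[X] (RatFunc k) (V.iniP q (V.v (P.coeff i) + i * q) P) := by
  have h1 : V.geP q (V.v (P.coeff i) + i * q) P := by
    intro j
    by_cases h : P.coeff j = 0
    · exact Or.inl h
    · right
      have := hmin j h
      linarith
  obtain ⟨h2, h3⟩ := hW _ P h1
  have h4 : W.ini (V.v (P.coeff i) + i * q) (algebraMap L[X] (RatFunc L) P) ≠ 0 := by
    rw [h3]
    intro h5
    have h6 : V.iniP q (V.v (P.coeff i) + i * q) P = 0 := mono_inj (by rw [h5, map_zero])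
    have h7 := coeff_iniP V q (V.v (P.coeff i) + i * q) P i
    rw [h6, coeff_zero, add_sub_cancel_right, V.ini_self] at h7
    exact V.lc_ne hi h7.symm
  obtain ⟨h5, h6, h7⟩ := W.of_ini_ne h4
  exact ⟨h6, by rw [h7, h3]⟩

end QPL
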