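import Pool.Agent.QPL.Calc

set_option autoImplicit false

/-!
# QPL-4a: weighted parts of polynomials

The part of degree `m` of a polynomial, the variable having degree `q`: additivity,
multiplicativity, existence of the lowest degree.
-/

noncomputable section

open Polynomial
open scoped Classical

namespace QPL

open Helper14.Gon

universe u v w

variable {L : Type u} {k : Type v} [Field L] [Field k] (V : AC L k) (q : ℚ)

theorem coeff_iniP (m : ℚ) (P : L[X]) (i : ℕ) :
    (V.iniP q m P).coeff i = V.ini (m - i * q) (P.coeff i) := by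
  unfold AC.iniP
  rw [finset_sum_coeff]
  simp only [coeff_monomial]
  rw [Finset.sum_ite_eq']
  by_cases h : i ∈ P.support
  · rw [if_pos h]
  · rw [if_neg h, notMem_support_iff.1 h, V.ini_zero]

theorem geP_zero (m : ℚ) : V.geP q m 0 := by
  intro i
  rw [coeff_zero]
  exact V.ge_zero _

theorem one_geP : V.geP q 0 1 ∧ V.iniP q 0 1 = 1 := by
  constructor
  · intro i
    rw [coeff_one]
    by_cases h : i = 0
    · rw [if_pos h, h, Nat.cast_zero, zero_mul, sub_zero]
      exact V.ge_one
    · rw [if_neg h]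
      exact V.ge_zero _
  · ext i
    rw [coeff_iniP, coeff_one, coeff_one]
    by_cases h : i = 0
    · rw [if_pos h, if_pos h, h, Nat.cast_zero, zero_mul, sub_zero]
      exact V.ini_one
    · rw [if_neg h, if_neg h]
      exact V.ini_zero _

theorem add_geP {m : ℚ} {P Q : L[X]} (hP : V.geP q m P) (hQ : V.geP q m Q) :
    V.geP q m (P + Q) ∧ V.iniP q m (P + Q) = V.iniP q m P + V.iniP q m Q := by
  constructor
  · intro i
    rw [coeff_add]
    exact V.ge_add (hP i) (hQ i)
  · ext i
    rw [coeff_iniP, coeff_add, coeff_add, coeff_iniP, coeff_iniP]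
    exact V.ini_add (hP i) (hQ i)

theorem mul_geP {m n : ℚ} {P Q : L[X]} (hP : V.geP q m P) (hQ : V.geP q n Q) :
    V.geP q (m + n) (P * Q) ∧ V.iniP q (m + n) (P * Q) = V.iniP q m P * V.iniP q n Q := by
  have key : ∀ i : ℕ, ∀ x ∈ Finset.HasAntidiagonal.antidiagonal i,
      m + n - i * q = (m - x.1 * q) + (n - x.2 * q) := by
    intro i x hx
    rw [← Finset.HasAntidiagonal.mem_antidiagonal.1 hx]
    push_cast
    ring
  have hge : ∀ i : ℕ, ∀ x ∈ Finset.HasAntidiagonal.antidiagonal i,
      V.ge (m + n - i * q) (P.coeff x.1 * Q.coeff x.2) := by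
    intro i x hx
    rw [key i x hx]
    exact V.ge_mul (hP x.1) (hQ x.2)
  constructor
  · intro i
    rw [coeff_mul]
    exact V.ge_sum _ _ (hge i)
  · ext i
    rw [coeff_iniP, coeff_mul, coeff_mul, V.ini_sum _ _ (hge i)]
    refine Finset.sum_congr rfl fun x hx => ?_
    rw [coeff_iniP, coeff_iniP, key i x hx]
    exact V.ini_mul (hP x.1) (hQ x.2)

theorem lt_geP {m n : ℚ} (h : n < m) {P : L[X]} (hP : V.geP q m P) :
    V.geP q n P ∧ V.iniP q n P = 0 := by
  constructor
  · intro i
    exact V.ge_mono (by linarith) (hP i)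
  · ext i
    rw [coeff_iniP, coeff_zero]
    exact V.ini_of_lt (by linarith) (hP i)

/-- `m` is the minimum of `v(p_i) + i q` over the nonzero coefficients. -/
theorem ex_geP {P : L[X]} (hP : P ≠ 0) : ∃ m, V.geP q m P ∧ V.iniP q m P ≠ 0 := by
  have hs : P.support.Nonempty := support_nonempty.2 hP
  obtain ⟨j, hj, hmin⟩ := Finset.exists_min_image P.support (fun i => V.v (P.coeff i) + i * q) hs
  refine ⟨V.v (P.coeff j) + j * q, ?_, ?_⟩
  · intro i
    by_cases h : P.coeff i = 0
    · exact Or.inl h
    · right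
      have h1 : V.v (P.coeff j) + j * q ≤ V.v (P.coeff i) + i * q := hmin i (mem_support_iff.2 h)
      linarith
  · intro h
    have h1 := coeff_iniP V q (V.v (P.coeff j) + j * q) P j
    rw [h, coeff_zero, add_sub_cancel_right, V.ini_self] at h1
    exact V.lc_ne (mem_support_iff.1 hj) h1.symm

end QPL
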