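import Pool.Agent.QPL.Defs

set_option autoImplicit false

/-!
# QPL-1: calculus of `ge`, `ini` and `rd`

`lc 1 + lc (-1) = 0` (otherwise `add_ne` gives `1 + (-1) ≠ 0`).
`ge m`, `ini m` are additive; they are multiplicative in the graded sense.
-/

noncomputable section

open Polynomial
open scoped Classical

namespace QPL

open Helper14.Gon

universe u v w

section
variable {A : Type u} {k : Type v} [CommRing A] [Field k] (V : AC A k)

include V in
theorem AC.one_ne : (1 : A) ≠ 0 := by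
  intro h
  have h1 : V.lc 1 = 1 := map_one V.lc
  rw [h, map_zero] at h1
  exact zero_ne_one h1

theorem AC.v_one : V.v 1 = 0 := by
  have h := V.v_mul V.one_ne V.one_ne
  rw [mul_one] at h
  linarith

private theorem calc_vm1 : V.v (-1) = 0 := by
  have h0 : (-1 : A) ≠ 0 := neg_ne_zero.2 V.one_ne
  have h := V.v_mul h0 h0
  rw [neg_mul_neg, mul_one, V.v_one] at h
  linarith

private theorem calc_lm1 : V.lc (-1) = -1 := by
  have h0 : (-1 : A) ≠ 0 := neg_ne_zero.2 V.one_ne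
  by_contra h
  have h2 : V.lc 1 + V.lc (-1) ≠ 0 := by
    rw [map_one]
    intro h3
    exact h (by linear_combination h3)
  exact (V.add_ne V.one_ne h0 (by rw [V.v_one, calc_vm1 V]) h2).1 (by ring)

theorem AC.v_neg (x : A) : V.v (-x) = V.v x := by
  by_cases hx : x = 0
  · rw [hx, neg_zero]
  · have h0 : (-1 : A) ≠ 0 := neg_ne_zero.2 V.one_ne
    have h := V.v_mul h0 hx
    rw [neg_one_mul, calc_vm1 V, zero_add] at h
    exact h

theorem AC.lc_neg (x : A) : V.lc (-x) = - V.lc x := by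
  rw [← neg_one_mul, map_mul, calc_lm1 V, neg_one_mul]

include V in
theorem AC.mul_ne {x y : A} (hx : x ≠ 0) (hy : y ≠ 0) : x * y ≠ 0 := by
  intro h
  have h1 : V.lc (x * y) = V.lc x * V.lc y := map_mul V.lc x y
  rw [h, map_zero] at h1
  exact mul_ne_zero (V.lc_ne hx) (V.lc_ne hy) h1.symm

theorem AC.ge_zero (m : ℚ) : V.ge m 0 := by
  exact Or.inl rfl

theorem AC.ini_zero (m : ℚ) : V.ini m 0 = 0 := by
  exact if_neg (fun h => h.1 rfl)

theorem AC.ge_one : V.ge 0 1 := by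
  exact Or.inr V.v_one.ge

theorem AC.ini_one : V.ini 0 1 = 1 := by
  rw [AC.ini, if_pos ⟨V.one_ne, V.v_one⟩, map_one]

theorem AC.ge_self (x : A) : V.ge (V.v x) x := by
  exact Or.inr le_rfl

theorem AC.ini_self (x : A) : V.ini (V.v x) x = V.lc x := by
  by_cases hx : x = 0
  · rw [hx, V.ini_zero, map_zero]
  · rw [AC.ini, if_pos ⟨hx, rfl⟩]

theorem AC.ge_neg {m : ℚ} {x : A} (hx : V.ge m x) : V.ge m (-x) := by
  rcases hx with rfl | h
  · left; exact neg_zero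
  · right; rw [V.v_neg]; exact h

theorem AC.ini_neg (m : ℚ) (x : A) : V.ini m (-x) = - V.ini m x := by
  rw [AC.ini, AC.ini, V.v_neg, V.lc_neg]
  by_cases h : x ≠ 0 ∧ V.v x = m
  · rw [if_pos h, if_pos ⟨neg_ne_zero.2 h.1, h.2⟩]
  · rw [if_neg h, if_neg (fun h' => h ⟨neg_ne_zero.1 h'.1, h'.2⟩), neg_zero]

theorem AC.ge_mono {m n : ℚ} (h : n ≤ m) {x : A} (hx : V.ge m x) : V.ge n x := by
  exact hx.imp id (fun h' => h.trans h')

theorem AC.ini_of_lt {m n : ℚ} (h : n < m) {x : A} (hx : V.ge m x) : V.ini n x = 0 := by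
  refine if_neg ?_
  rintro ⟨h1, h2⟩
  rcases hx with h3 | h3
  · exact h1 h3
  · linarith

theorem AC.of_ini_ne {m : ℚ} {x : A} (h : V.ini m x ≠ 0) :
    x ≠ 0 ∧ V.v x = m ∧ V.lc x = V.ini m x := by
  by_cases h1 : x ≠ 0 ∧ V.v x = m
  · refine ⟨h1.1, h1.2, ?_⟩
    rw [AC.ini, if_pos h1]
  · exact absurd (if_neg h1) h

theorem AC.lt_of_ini {m : ℚ} {x : A} (hx : V.ge m x) (h : V.ini m x = 0) :
    x = 0 ∨ m < V.v x := by
  by_cases h0 : x = 0
  · exact Or.inl h0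
  · right
    rcases hx with h1 | h1
    · exact absurd h1 h0
    · refine lt_of_le_of_ne h1 fun h2 => ?_
      rw [AC.ini, if_pos ⟨h0, h2.symm⟩] at h
      exact V.lc_ne h0 h

private theorem calc_add {m : ℚ} {x y : A} (hx : V.ge m x) (hy : V.ge m y) :
    V.ge m (x + y) ∧ V.ini m (x + y) = V.ini m x + V.ini m y := by
  by_cases hx0 : x = 0
  · rw [hx0, zero_add, V.ini_zero, zero_add]; exact ⟨hy, rfl⟩
  by_cases hy0 : y = 0
  · rw [hy0, add_zero, V.ini_zero, add_zero]; exact ⟨hx, rfl⟩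
  have hx1 : m ≤ V.v x := hx.resolve_left hx0
  have hy1 : m ≤ V.v y := hy.resolve_left hy0
  rcases lt_trichotomy (V.v x) (V.v y) with h | h | h
  · obtain ⟨h1, h2, h3⟩ := V.add_lt hx0 (Or.inr h)
    refine ⟨Or.inr (h2 ▸ hx1), ?_⟩
    have h4 : V.ini m y = 0 := if_neg (fun h5 => by linarith [h5.2])
    rw [h4, add_zero, AC.ini, AC.ini, h2, h3]
    by_cases h5 : V.v x = m
    · rw [if_pos ⟨h1, h5⟩, if_pos ⟨hx0, h5⟩]
    · rw [if_neg (fun h6 => h5 h6.2), if_neg (fun h6 => h5 h6.2)]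
  · by_cases hs : V.lc x + V.lc y = 0
    · have h1 := V.add_eq hx0 hy0 h hs
      have h2 : V.ge m (x + y) := h1.imp id (fun h3 => hx1.trans h3.le)
      refine ⟨h2, ?_⟩
      have h3 : V.ini m (x + y) = 0 := by
        refine if_neg ?_
        rintro ⟨h4, h5⟩
        have := h1.resolve_left h4
        linarith
      rw [h3, AC.ini, AC.ini, ← h]
      by_cases h5 : V.v x = m
      · rw [if_pos ⟨hx0, h5⟩, if_pos ⟨hy0, h5⟩, hs]
      · rw [if_neg (fun h6 => h5 h6.2), if_neg (fun h6 => h5 h6.2), add_zero]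
    · obtain ⟨h1, h2, h3⟩ := V.add_ne hx0 hy0 h hs
      refine ⟨Or.inr (h2 ▸ hx1), ?_⟩
      rw [AC.ini, AC.ini, AC.ini, h2, h3, ← h]
      by_cases h5 : V.v x = m
      · rw [if_pos ⟨h1, h5⟩, if_pos ⟨hx0, h5⟩, if_pos ⟨hy0, h5⟩]
      · rw [if_neg (fun h6 => h5 h6.2), if_neg (fun h6 => h5 h6.2), if_neg (fun h6 => h5 h6.2),
          add_zero]
  · obtain ⟨h1, h2, h3⟩ := V.add_lt hy0 (Or.inr h)
    rw [add_comm] at h1 h2 h3
    refine ⟨Or.inr (h2 ▸ hy1), ?_⟩
    have h4 : V.ini m x = 0 := if_neg (fun h5 => by linarith [h5.2])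
    rw [h4, zero_add, AC.ini, AC.ini, h2, h3]
    by_cases h5 : V.v y = m
    · rw [if_pos ⟨h1, h5⟩, if_pos ⟨hy0, h5⟩]
    · rw [if_neg (fun h6 => h5 h6.2), if_neg (fun h6 => h5 h6.2)]

theorem AC.ge_add {m : ℚ} {x y : A} (hx : V.ge m x) (hy : V.ge m y) : V.ge m (x + y) := by
  exact (calc_add V hx hy).1

theorem AC.ini_add {m : ℚ} {x y : A} (hx : V.ge m x) (hy : V.ge m y) :
    V.ini m (x + y) = V.ini m x + V.ini m y := by
  exact (calc_add V hx hy).2

theorem AC.ge_mul {m n : ℚ} {x y : A} (hx : V.ge m x) (hy : V.ge n y) :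
    V.ge (m + n) (x * y) := by
  rcases hx with rfl | hx
  · left; exact zero_mul y
  rcases hy with rfl | hy
  · left; exact mul_zero x
  by_cases hx0 : x = 0
  · left; rw [hx0, zero_mul]
  by_cases hy0 : y = 0
  · left; rw [hy0, mul_zero]
  right
  rw [V.v_mul hx0 hy0]
  exact add_le_add hx hy

theorem AC.ini_mul {m n : ℚ} {x y : A} (hx : V.ge m x) (hy : V.ge n y) :
    V.ini (m + n) (x * y) = V.ini m x * V.ini n y := by
  by_cases hx0 : x = 0
  · rw [hx0, zero_mul, V.ini_zero, V.ini_zero, zero_mul]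
  by_cases hy0 : y = 0
  · rw [hy0, mul_zero, V.ini_zero, V.ini_zero, mul_zero]
  have hx1 : m ≤ V.v x := hx.resolve_left hx0
  have hy1 : n ≤ V.v y := hy.resolve_left hy0
  rw [AC.ini, AC.ini, AC.ini, V.v_mul hx0 hy0, map_mul]
  by_cases h : V.v x = m
  · by_cases h' : V.v y = n
    · rw [if_pos ⟨V.mul_ne hx0 hy0, by rw [h, h']⟩, if_pos ⟨hx0, h⟩, if_pos ⟨hy0, h'⟩]
    · rw [if_neg (fun h6 => h' (by linarith [h6.2])), if_neg (fun h6 : y ≠ 0 ∧ _ => h' h6.2),
        mul_zero]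
  · have h2 : m < V.v x := lt_of_le_of_ne hx1 (Ne.symm h)
    rw [if_neg (fun h6 => by linarith [h6.2]), if_neg (fun h6 : x ≠ 0 ∧ _ => h h6.2), zero_mul]

theorem AC.ge_sum {ι : Type w} (s : Finset ι) (f : ι → A) {m : ℚ}
    (h : ∀ i ∈ s, V.ge m (f i)) : V.ge m (∑ i ∈ s, f i) := by
  induction s using Finset.induction_on with
  | empty => exact Or.inl Finset.sum_empty
  | insert a s ha ih =>
    rw [Finset.sum_insert ha]
    exact V.ge_add (h a (Finset.mem_insert_self a s))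
      (ih fun i hi => h i (Finset.mem_insert_of_mem hi))

theorem AC.ini_sum {ι : Type w} (s : Finset ι) (f : ι → A) {m : ℚ}
    (h : ∀ i ∈ s, V.ge m (f i)) : V.ini m (∑ i ∈ s, f i) = ∑ i ∈ s, V.ini m (f i) := by
  induction s using Finset.induction_on with
  | empty => rw [Finset.sum_empty, Finset.sum_empty, V.ini_zero]
  | insert a s ha ih =>
    have h2 : ∀ i ∈ s, V.ge m (f i) := fun i hi => h i (Finset.mem_insert_of_mem hi)
    rw [Finset.sum_insert ha, Finset.sum_insert ha,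
      V.ini_add (h a (Finset.mem_insert_self a s)) (V.ge_sum s f h2), ih h2]

end

section
variable {L : Type u} {k : Type v} [Field L] [Field k] (V : AC L k)

theorem AC.v_inv {x : L} (hx : x ≠ 0) : V.v x⁻¹ = - V.v x := by
  have h := V.v_mul hx (inv_ne_zero hx)
  rw [mul_inv_cancel₀ hx, V.v_one] at h
  linarith

theorem AC.lc_inv (x : L) : V.lc x⁻¹ = (V.lc x)⁻¹ := map_inv₀ V.lc x

theorem AC.v_div {x y : L} (hx : x ≠ 0) (hy : y ≠ 0) : V.v (x / y) = V.v x - V.v y := by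
  rw [div_eq_mul_inv, V.v_mul hx (inv_ne_zero hy), V.v_inv hy]
  ring

theorem AC.lc_div (x y : L) : V.lc (x / y) = V.lc x / V.lc y := map_div₀ V.lc x y

theorem AC.rd_none : V.rd none = none := rfl

theorem AC.rd_zero : V.rd (some 0) = some 0 := by
  rw [AC.rd, if_neg (fun h => h.1 rfl), V.ini_zero]

theorem AC.rd_one : V.rd (some 1) = some 1 := by
  rw [AC.rd, if_neg (fun h => by linarith [h.2, V.v_one]), V.ini_one]

theorem AC.rd_neg {x : L} (hx : x ≠ 0) (h : V.v x < 0) : V.rd (some x) = none := by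
  rw [AC.rd, if_pos ⟨hx, h⟩]

theorem AC.rd_pos {x : L} (h : 0 < V.v x) : V.rd (some x) = some 0 := by
  rw [AC.rd, if_neg (fun h' => by linarith [h'.2]), AC.ini, if_neg (fun h' => by linarith [h'.2])]

theorem AC.rd_unit {x : L} (hx : x ≠ 0) (h : V.v x = 0) : V.rd (some x) = some (V.lc x) := by
  rw [AC.rd, if_neg (fun h' => by linarith [h'.2]), AC.ini, if_pos ⟨hx, h⟩]

theorem AC.rd_eq_some {x : L} {a : k} :
    V.rd (some x) = some a ↔ V.ge 0 x ∧ V.ini 0 x = a := by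
  rw [AC.rd]
  by_cases h : x ≠ 0 ∧ V.v x < 0
  · rw [if_pos h]
    refine ⟨fun h' => absurd h'.symm (Option.some_ne_none a), fun h' => ?_⟩
    rcases h'.1 with h2 | h2
    · exact absurd h2 h.1
    · linarith [h.2]
  · rw [if_neg h, Option.some.injEq]
    refine ⟨fun h' => ⟨?_, h'⟩, fun h' => h'.2⟩
    by_cases hx : x = 0
    · exact Or.inl hx
    · right
      by_contra h2
      exact h ⟨hx, not_le.1 h2⟩

theorem AC.rd_eq_none {x : L} : V.rd (some x) = none ↔ x ≠ 0 ∧ V.v x < 0 := by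
  rw [AC.rd]
  by_cases h : x ≠ 0 ∧ V.v x < 0
  · rw [if_pos h]; exact ⟨fun _ => h, fun _ => rfl⟩
  · rw [if_neg h]
    exact ⟨fun h' => absurd h' (Option.some_ne_none _), fun h' => absurd h' h⟩

theorem AC.rd_add {x y : L} {a b : k} (hx : V.rd (some x) = some a) (hy : V.rd (some y) = some b) :
    V.rd (some (x + y)) = some (a + b) := by
  rw [V.rd_eq_some] at hx hy ⊢
  exact ⟨V.ge_add hx.1 hy.1, by rw [V.ini_add hx.1 hy.1, hx.2, hy.2]⟩

theorem AC.rd_sub {x y : L} {a b : k} (hx : V.rd (some x) = some a) (hy : V.rd (some y) = some b) :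
    V.rd (some (x - y)) = some (a - b) := by
  rw [V.rd_eq_some] at hx hy ⊢
  rw [sub_eq_add_neg]
  exact ⟨V.ge_add hx.1 (V.ge_neg hy.1), by
    rw [V.ini_add hx.1 (V.ge_neg hy.1), V.ini_neg, hx.2, hy.2, ← sub_eq_add_neg]⟩

theorem AC.rd_mul {x y : L} {a b : k} (hx : V.rd (some x) = some a) (hy : V.rd (some y) = some b) :
    V.rd (some (x * y)) = some (a * b) := by
  rw [V.rd_eq_some] at hx hy ⊢
  have h1 := V.ge_mul hx.1 hy.1
  have h2 := V.ini_mul hx.1 hy.1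
  rw [add_zero] at h1 h2
  exact ⟨h1, by rw [h2, hx.2, hy.2]⟩

theorem AC.rd_inv_some {x : L} {a : k} (ha : a ≠ 0) (hx : V.rd (some x) = some a) :
    V.rd (some x⁻¹) = some a⁻¹ := by
  obtain ⟨h1, h2⟩ := V.rd_eq_some.1 hx
  obtain ⟨h3, h4, h5⟩ := V.of_ini_ne (m := 0) (x := x) (by rw [h2]; exact ha)
  rw [V.rd_unit (inv_ne_zero h3) (by rw [V.v_inv h3, h4, neg_zero]), V.lc_inv, h5, h2]

theorem AC.rd_inv_none {x : L} (hx : V.rd (some x) = none) : V.rd (some x⁻¹) = some 0 := by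
  obtain ⟨h1, h2⟩ := V.rd_eq_none.1 hx
  exact V.rd_pos (by rw [V.v_inv h1]; linarith)

theorem AC.rd_inv_zero {x : L} (h0 : x ≠ 0) (hx : V.rd (some x) = some 0) :
    V.rd (some x⁻¹) = none := by
  obtain ⟨h1, h2⟩ := V.rd_eq_some.1 hx
  rcases V.lt_of_ini h1 h2 with h3 | h3
  · exact absurd h3 h0
  · exact V.rd_neg (inv_ne_zero h0) (by rw [V.v_inv h0]; linarith)

@[simp] theorem AC.rdZ_single (x : P1 L) (m : ℤ) :
    V.rdZ (Finsupp.single x m) = Finsupp.single (V.rd x) m := by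
  simp [AC.rdZ]

end

end QPL
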