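import Pool.Agent.TGF.Defs
import Pool.Agent.QPL.Calc

set_option autoImplicit false

/-!
# QPL-23: residues and specialisation of exterior products

`spT V j = tm j V.lH`, `reT V j = tm j V.lH ∘ ctT j V.vH`; `ctT_wT`, `ctT_wT_zero`,
`Tx_ext_succ`.
-/

noncomputable section

open Polynomial TensorProduct
open scoped Classical

namespace QPL

open Helper14.Gon Helper14.W4 TGF

universe u v w

variable {L : Type u} {k : Type v} [Field L] [Field k] (V : AC L k)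

private lemma ret_tm_dm {j : ℕ} (σ : Additive Lˣ →+ Additive kˣ) (v : Fin j → Additive Lˣ) :
    tm j σ (dm v) = dm (fun i => σ (v i)) := by
  rw [tm, dm, toQ, LinearMap.baseChange_tmul, exteriorPower.map_apply_ιMulti]; rfl

private lemma ret_tm_wT (j : ℕ) (σ : Additive Lˣ →+ Additive kˣ) (v : Additive Lˣ) (ω : Tx j L) :
    tm (j + 1) σ (wT j v ω) = wT j (σ v) (tm j σ ω) := by
  have : (tm (j + 1) σ) ∘ₗ (wT j v) = (wT j (σ v)) ∘ₗ (tm j σ) := by
    refine Tx_ext fun w => ?_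
    change tm (j + 1) σ (wT j v (dm w)) = wT j (σ v) (tm j σ (dm w))
    rw [wT_dm, ret_tm_dm, ret_tm_dm, wT_dm]
    congr 1
    funext i
    refine Fin.cases ?_ (fun i => ?_) i
    · rfl
    · rfl
  exact LinearMap.congr_fun this ω

private lemma ret_lg_ne {F : Type w} [Field F] {x : F} (hx : x ≠ 0) :
    lg x = Additive.ofMul (Units.mk0 x hx) := by
  rw [lg, dif_neg hx]

theorem lH_lg {x : L} (hx : x ≠ 0) : V.lH (lg x) = lg (V.lc x) := by
  rw [ret_lg_ne hx, ret_lg_ne (V.lc_ne hx)]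
  refine congrArg Additive.ofMul (Units.ext ?_)
  rfl

theorem vH_lg {x : L} (hx : x ≠ 0) : V.vH (lg x) = V.v x := by
  rw [ret_lg_ne hx]
  rfl

theorem spT_wT (j : ℕ) (v : Additive Lˣ) (ω : Tx j L) :
    spT V (j + 1) (wT j v ω) = wT j (V.lH v) (spT V j ω) :=
  ret_tm_wT j V.lH v ω

theorem reT_wT (j : ℕ) (v : Additive Lˣ) (ω : Tx (j + 1) L) :
    reT V (j + 1) (wT (j + 1) v ω) = V.vH v • spT V (j + 1) ω - wT j (V.lH v) (reT V j ω) := by
  change tm (j + 1) V.lH (ctT (j + 1) V.vH (wT (j + 1) v ω)) =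
    V.vH v • tm (j + 1) V.lH ω - wT j (V.lH v) (tm j V.lH (ctT j V.vH ω))
  rw [ctT_wT, map_sub, map_smul, ret_tm_wT]

theorem reT_wT_zero (v : Additive Lˣ) (ω : Tx 0 L) :
    reT V 0 (wT 0 v ω) = V.vH v • spT V 0 ω := by
  change tm 0 V.lH (ctT 0 V.vH (wT 0 v ω)) = V.vH v • tm 0 V.lH ω
  rw [ctT_wT_zero, map_smul]

/-- the valuation and the leading coefficient of `1 - x` -/
private lemma ret_cases {x : L} (hx : x ≠ 0) :
    (V.v x ≠ 0 ∧ V.v (1 - x) = 0 ∧ V.lc (1 - x) = 1) ∨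
    (V.v x ≠ 0 ∧ V.v (1 - x) = V.v x ∧ V.lc (1 - x) = - V.lc x) ∨
    (V.v x = 0 ∧ V.v (1 - x) = 0 ∧ V.lc (1 - x) = 1 - V.lc x) ∨
    (V.v x = 0 ∧ V.lc x = 1) := by
  have hn : -x ≠ 0 := neg_ne_zero.2 hx
  rcases lt_trichotomy (V.v x) 0 with h | h | h
  · right; left
    have h1 := V.add_lt (x := -x) (y := 1) hn (Or.inr (by rw [V.v_neg, V.v_one]; exact h))
    rw [V.v_neg, V.lc_neg, show -x + 1 = 1 - x by ring] at h1
    exact ⟨h.ne, h1.2.1, h1.2.2⟩
  · rcases eq_or_ne (V.lc x) 1 with h1 | h1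
    · right; right; right
      exact ⟨h, h1⟩
    · right; right; left
      have h2 := V.add_ne (x := 1) (y := -x) one_ne_zero hn (by rw [V.v_neg, V.v_one, h])
        (by rw [V.lc_neg, map_one, ← sub_eq_add_neg]; exact sub_ne_zero.2 (Ne.symm h1))
      rw [V.lc_neg, V.v_one, map_one, ← sub_eq_add_neg, ← sub_eq_add_neg] at h2
      exact ⟨h, h2.2.1, h2.2.2⟩
  · left
    have h1 := V.add_lt (x := 1) (y := -x) one_ne_zero (Or.inr (by rw [V.v_neg, V.v_one]; exact h))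
    rw [V.v_one, map_one, ← sub_eq_add_neg] at h1
    exact ⟨h.ne', h1.2.1, h1.2.2⟩

/-- For `x ≠ 0, 1`, and everything `0` or `1` otherwise: the tame symbol of a Steinberg symbol
vanishes rationally.  Cases `v x > 0`: `v (1 - x) = 0`, `lc (1 - x) = 1`; `v x < 0`:
`v (1 - x) = v x`, `lc (1 - x) = - lc x` (`wT_lg_neg`); `v x = 0`, `lc x ≠ 1`:
`v (1 - x) = 0`, `lc (1 - x) = 1 - lc x`; `v x = 0`, `lc x = 1`: `v (1 - x) > 0`. -/
theorem reT_st (j : ℕ) (x : L) (ω : Tx (j + 1) L) :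
    reT V (j + 2) (wT (j + 2) (lg (1 - x)) (wT (j + 1) (lg x) ω)) =
      if x ≠ 0 ∧ V.v x = 0 then
        wT (j + 1) (lg (1 - V.lc x)) (wT j (lg (V.lc x)) (reT V j ω)) else 0 := by
  rcases eq_or_ne x 0 with rfl | hx
  · rw [if_neg (fun h => h.1 rfl), lg_zero, wT_zero, LinearMap.zero_apply, map_zero, map_zero]
  rcases eq_or_ne (1 - x) 0 with hx1 | hx1
  · have h1 : x = 1 := (sub_eq_zero.1 hx1).symm
    subst h1
    rw [sub_self, lg_zero, wT_zero, LinearMap.zero_apply, map_zero, map_one, sub_self, lg_zero,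
      wT_zero, LinearMap.zero_apply, ite_self]
  rw [reT_wT V (j + 1), reT_wT V j, spT_wT, lH_lg V hx, lH_lg V hx1, vH_lg V hx, vH_lg V hx1]
  rcases ret_cases V hx with ⟨h1, h2, h3⟩ | ⟨h1, h2, h3⟩ | ⟨h1, h2, h3⟩ | ⟨h1, h2⟩
  · rw [if_neg (fun h => h1 h.2), h2, h3, lg_one, wT_zero, LinearMap.zero_apply, zero_smul,
      sub_zero]
  · rw [if_neg (fun h => h1 h.2), h2, h3, wT_lg_neg _ (V.lc_ne hx), map_sub, map_smul, wT_self,
      sub_zero, sub_self]
  · rw [if_pos ⟨hx, h1⟩, h2, h3, h1, zero_smul, zero_smul, zero_sub, zero_sub, map_neg, neg_neg]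
  · rw [if_pos ⟨hx, h1⟩, h1, h2, lg_one, wT_zero, LinearMap.zero_apply, smul_zero, zero_smul,
      wT_zero, LinearMap.zero_apply, sub_zero, map_zero, map_zero, sub_zero]

theorem reT_st_zero (x : L) (ω : Tx 0 L) :
    reT V 1 (wT 1 (lg (1 - x)) (wT 0 (lg x) ω)) = 0 := by
  rcases eq_or_ne x 0 with rfl | hx
  · rw [lg_zero, wT_zero, LinearMap.zero_apply, map_zero, map_zero]
  rcases eq_or_ne (1 - x) 0 with hx1 | hx1
  · rw [hx1, lg_zero, wT_zero, LinearMap.zero_apply, map_zero]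
  rw [reT_wT V 0, reT_wT_zero V, spT_wT, lH_lg V hx, lH_lg V hx1, vH_lg V hx, vH_lg V hx1]
  rcases ret_cases V hx with ⟨h1, h2, h3⟩ | ⟨h1, h2, h3⟩ | ⟨h1, h2, h3⟩ | ⟨h1, h2⟩
  · rw [h2, h3, lg_one, wT_zero, LinearMap.zero_apply, zero_smul, sub_zero]
  · rw [h2, h3, wT_lg_neg _ (V.lc_ne hx), map_smul, sub_self]
  · rw [h2, h1, zero_smul, zero_smul, LinearMap.map_zero, sub_zero]
  · rw [h1, h2, lg_one, wT_zero, LinearMap.zero_apply, smul_zero, zero_smul, LinearMap.map_zero,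
      sub_zero]

end QPL
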