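import Pool.Agent.QPL.Five
import Pool.Agent.SRG.R2b

set_option autoImplicit false

/-!
# QPL-16: `R_2` specialises, rationally

The five-term function `x ↦ {x}_2` on `k` with values in `Cx 2 0 k` is pulled back along the
reduction map of `V`.  The function so obtained kills `R 2 L`, and an element of `ℤ[P¹(k)]` whose
class in `Cx 2 0 k` is `0` has a positive multiple in `R 2 k`.
-/

noncomputable section

open Polynomial TensorProduct
open scoped Classical

namespace QPL

open Helper14.Gon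

universe u v w

variable {L : Type u} {k : Type v} [Field L] [Field k]

/-- The class in `Cx 2 0 k`, as a homomorphism. -/
private def base_f : ZP k →+ Cx 2 0 k :=
  AddMonoidHom.mk' (fun α => fst 2 α) (by
    intro a b
    change fst 2 (a + b) = fst 2 a + fst 2 b
    rw [fst, QuotientAddGroup.mk_add, add_tmul, toQ, tmul_add, fst, fst])

private lemma base_f_br (x : P1 k) : base_f (br x) = Helper14.W4.bb x := by
  change fst 2 (br x) = Helper14.W4.PB 2 0 (cl 2 x) (Helper14.W4.u0 k)
  have h : Helper14.W4.u0 k = toQ (one0 k) := rfl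
  rw [h, Helper14.W4.PB_toQ]
  rfl

private lemma base_tors {α : ZP k} (h : base_f α = 0) : α ∈ RQ 2 k := by
  have h1 : toQ ((QuotientAddGroup.mk α : B 2 k) ⊗ₜ[ℤ] one0 k) = 0 := h
  rw [toQ_eq_zero] at h1
  obtain ⟨N, hN, h2⟩ := h1
  let e : B 2 k ⊗[ℤ] Lam 0 k ≃ₗ[ℤ] B 2 k :=
    (LinearEquiv.lTensor (B 2 k) (exteriorPower.zeroEquiv ℤ (Additive kˣ))).trans
      (TensorProduct.rid ℤ _)
  have h3 : ∀ b : B 2 k, e (b ⊗ₜ[ℤ] one0 k) = b := by
    intro b
    change TensorProduct.rid ℤ (B 2 k)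
      (b ⊗ₜ[ℤ] (exteriorPower.zeroEquiv ℤ (Additive kˣ) (one0 k))) = b
    rw [one0, exteriorPower.zeroEquiv_ιMulti, TensorProduct.rid_tmul, one_smul]
  have h4 : N • (QuotientAddGroup.mk α : B 2 k) = 0 := by
    have h5 := congrArg e h2
    rw [map_zsmul, h3, map_zero] at h5
    exact h5
  have h6 : N • α ∈ R 2 k := by
    rw [← QuotientAddGroup.eq_zero_iff]
    exact h4
  refine ⟨N.natAbs, Int.natAbs_pos.2 hN, ?_⟩
  rcases Int.natAbs_eq N with h7 | h7
  · have h8 : N.natAbs • α = N • α := by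
      rw [← natCast_zsmul, ← h7]
    rw [h8]
    exact h6
  · have h8 : N.natAbs • α = -(N • α) := by
      rw [← natCast_zsmul, ← neg_smul]
      congr 1
      omega
    rw [h8]
    exact (R 2 k).neg_mem h6

theorem base_R (V : AC L k) (ξ : ZP L) (hξ : ξ ∈ R 2 L) : V.rdZ ξ ∈ RQ 2 k := by
  obtain ⟨ψ, hψ⟩ := SRG.fv_of_lin (K := k) (W := Cx 2 0 k) LinearMap.id
  obtain ⟨φ, hφ⟩ := fv_rd V ψ
  have h0 : SRG.ex φ ξ = 0 := SRG.ex_R2 φ hξ
  have h1 : SRG.ex φ = base_f.comp V.rdZ := by
    refine hom_ext fun x => ?_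
    rw [SRG.ex, ext_br, AddMonoidHom.comp_apply]
    have h2 : V.rdZ (br x) = br (V.rd x) := AC.rdZ_single V x 1
    rw [h2, base_f_br]
    cases x with
    | none =>
      change (0 : Cx 2 0 k) = Helper14.W4.bb (V.rd none)
      rw [AC.rd_none, Helper14.W4.bb_inf]
    | some y =>
      change φ.g y = _
      rw [hφ y]
      cases V.rd (some y) with
      | none =>
        change (0 : Cx 2 0 k) = _
        rw [Helper14.W4.bb_inf]
      | some a =>
        change ψ.g a = _
        rw [hψ a]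
        rfl
  refine base_tors ?_
  rw [h1] at h0
  exact h0

end QPL
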