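import Pool.Agent.QPL.Calc

set_option autoImplicit false

/-!
# QPL-8: an interval without critical values, one polynomial

At `t = (a + b) / 2` the minimum of `v(p_j) + j t` is attained at one index `i` only.  For
`j ≠ i`, `p_j ≠ 0`: the affine function `D(q) = v(p_j) - v(p_i) + (j - i) q` is positive at `t` and
does not vanish on `(a, b)`, so it is positive on `(a, b)` and `≥ 0` at `a`, `b`.  If `j < i` it is
decreasing, so `D(a) > 0`; if `j > i` it is increasing, so `D(b) > 0`.
-/

noncomputable section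

open Polynomial
open scoped Classical

namespace QPL

open Helper14.Gon

universe u v w

variable {L : Type u} {k : Type v} [Field L] [Field k]

private theorem polystep_aff {c m a b t : ℚ} (hne : ∀ q, a < q → q < b → c + m * q ≠ 0)
    (h1 : a < t) (h2 : t < b) (h3 : 0 < c + m * t) : 0 ≤ c + m * a ∧ 0 ≤ c + m * b := by
  constructor
  · by_contra h
    push Not at h
    have hm : 0 < m := by
      by_contra hm
      push Not at hm
      nlinarith
    have h4 : c + m * (-c / m) = 0 := by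
      rw [mul_div_cancel₀ _ hm.ne']
      ring
    refine hne (-c / m) ?_ ?_ h4
    · rw [lt_div_iff₀ hm]
      linarith
    · refine lt_trans ?_ h2
      rw [div_lt_iff₀ hm]
      linarith
  · by_contra h
    push Not at h
    have hm : m < 0 := by
      by_contra hm
      push Not at hm
      nlinarith
    have h4 : c + m * (-c / m) = 0 := by
      rw [mul_div_cancel₀ _ hm.ne]
      ring
    refine hne (-c / m) ?_ ?_ h4
    · refine lt_trans h1 ?_
      rw [lt_div_iff_of_neg hm]
      linarith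
    · rw [div_lt_iff_of_neg hm]
      linarith

theorem poly_step (V : AC L k) {a b : ℚ} (hab : a < b) (P : L[X]) (hP : P ≠ 0)
    (hcr : ∀ i j : ℕ, i ≠ j → P.coeff i ≠ 0 → P.coeff j ≠ 0 → ∀ q, a < q → q < b →
      V.v (P.coeff i) + i * q ≠ V.v (P.coeff j) + j * q) :
    ∃ i : ℕ, P.coeff i ≠ 0 ∧
      (∀ j, P.coeff j ≠ 0 → V.v (P.coeff i) + i * a ≤ V.v (P.coeff j) + j * a) ∧
      (∀ j, P.coeff j ≠ 0 → j < i → V.v (P.coeff i) + i * a < V.v (P.coeff j) + j * a) ∧
      (∀ j, P.coeff j ≠ 0 → V.v (P.coeff i) + i * b ≤ V.v (P.coeff j) + j * b) ∧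
      (∀ j, P.coeff j ≠ 0 → i < j → V.v (P.coeff i) + i * b < V.v (P.coeff j) + j * b) := by
  obtain ⟨i, hi, hmin⟩ := Finset.exists_min_image P.support
    (fun j => V.v (P.coeff j) + (j : ℚ) * ((a + b) / 2)) (Polynomial.support_nonempty.2 hP)
  have hi0 : P.coeff i ≠ 0 := Polynomial.mem_support_iff.1 hi
  have h1 : a < (a + b) / 2 := by linarith
  have h2 : (a + b) / 2 < b := by linarith
  have key : ∀ j, P.coeff j ≠ 0 → i ≠ j →
      0 < (V.v (P.coeff j) - V.v (P.coeff i)) + ((j : ℚ) - i) * ((a + b) / 2) ∧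
      0 ≤ (V.v (P.coeff j) - V.v (P.coeff i)) + ((j : ℚ) - i) * a ∧
      0 ≤ (V.v (P.coeff j) - V.v (P.coeff i)) + ((j : ℚ) - i) * b := by
    intro j hj hij
    have h3 := hmin j (Polynomial.mem_support_iff.2 hj)
    have h4 := hcr i j hij hi0 hj ((a + b) / 2) h1 h2
    have h5 : 0 < (V.v (P.coeff j) - V.v (P.coeff i)) + ((j : ℚ) - i) * ((a + b) / 2) := by
      rcases lt_or_eq_of_le h3 with h | h
      · linarith
      · exact absurd h h4
    refine ⟨h5, polystep_aff (fun q hq hq' h => hcr i j hij hi0 hj q hq hq' ?_) h1 h2 h5⟩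
    linarith
  refine ⟨i, hi0, ?_, ?_, ?_, ?_⟩
  · intro j hj
    rcases eq_or_ne i j with h | h
    · rw [h]
    · have := (key j hj h).2.1
      linarith
  · intro j hj hji
    have h3 := (key j hj (by omega)).1
    have h4 : (j : ℚ) < i := by exact_mod_cast hji
    nlinarith
  · intro j hj
    rcases eq_or_ne i j with h | h
    · rw [h]
    · have := (key j hj h).2.2
      linarith
  · intro j hj hji
    have h3 := (key j hj (by omega)).1
    have h4 : (i : ℚ) < j := by exact_mod_cast hji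
    nlinarith

/-- Above all critical values: the trailing coefficient is the only minimum. -/
theorem poly_top (V : AC L k) {b : ℚ} (P : L[X]) (i : ℕ) (hi : P.coeff i ≠ 0)
    (hi' : ∀ j, j < i → P.coeff j = 0)
    (hcr : ∀ i j : ℕ, i ≠ j → P.coeff i ≠ 0 → P.coeff j ≠ 0 → ∀ q, b ≤ q →
      V.v (P.coeff i) + i * q ≠ V.v (P.coeff j) + j * q) (j : ℕ) (hj : P.coeff j ≠ 0)
    (hij : i ≠ j) : V.v (P.coeff i) + i * b < V.v (P.coeff j) + j * b := by
  have h1 : i < j := by
    by_contra h
    exact hj (hi' j (by omega))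
  have h2 : (0 : ℚ) < (j : ℚ) - i := by
    have : (i : ℚ) < j := by exact_mod_cast h1
    linarith
  by_contra h
  push Not at h
  have h4 : ((V.v (P.coeff i) - V.v (P.coeff j)) / ((j : ℚ) - i)) * ((j : ℚ) - i) =
      V.v (P.coeff i) - V.v (P.coeff j) := div_mul_cancel₀ _ h2.ne'
  refine hcr i j hij hi hj ((V.v (P.coeff i) - V.v (P.coeff j)) / ((j : ℚ) - i)) ?_ ?_
  · rw [le_div_iff₀ h2]
    linarith
  · linarith

/-- Below all critical values: the leading coefficient is the only minimum. -/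
theorem poly_bot (V : AC L k) {a : ℚ} (P : L[X]) (i : ℕ) (hi : P.coeff i ≠ 0)
    (hi' : ∀ j, i < j → P.coeff j = 0)
    (hcr : ∀ i j : ℕ, i ≠ j → P.coeff i ≠ 0 → P.coeff j ≠ 0 → ∀ q, q ≤ a →
      V.v (P.coeff i) + i * q ≠ V.v (P.coeff j) + j * q) (j : ℕ) (hj : P.coeff j ≠ 0)
    (hij : i ≠ j) : V.v (P.coeff i) + i * a < V.v (P.coeff j) + j * a := by
  have h1 : j < i := by
    by_contra h
    exact hj (hi' j (by omega))
  have h2 : (0 : ℚ) < (i : ℚ) - j := by
    have : (j : ℚ) < i := by exact_mod_cast h1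
    linarith
  by_contra h
  push Not at h
  have h4 : ((V.v (P.coeff j) - V.v (P.coeff i)) / ((i : ℚ) - j)) * ((i : ℚ) - j) =
      V.v (P.coeff j) - V.v (P.coeff i) := div_mul_cancel₀ _ h2.ne'
  refine hcr i j hij hi hj ((V.v (P.coeff j) - V.v (P.coeff i)) / ((i : ℚ) - j)) ?_ ?_
  · rw [div_le_iff₀ h2]
    linarith
  · linarith

end QPL
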