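import Pool.Agent.QPL.Defs

set_option autoImplicit false

/-!
# QPL-6: values of a quotient of polynomials at `0` and `∞`

`i`, `j` are the trailing (resp. leading) degrees of `A`, `B`.  At `0`: divide both by the power of
`X` with exponent `min i j` and use `spec_div`.  At `∞`: cross-multiplication with `num`, `denom`
and comparison of the degrees and the leading coefficients.
-/

noncomputable section

open Polynomial
open scoped Classical

namespace QPL

open Helper14.Gon

universe u v w

variable {k : Type u} [Field k]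

private lemma quot_red (A B : k[X]) (m : ℕ) (hA : ∀ l, l < m → A.coeff l = 0)
    (hB : ∀ l, l < m → B.coeff l = 0) :
    ∃ p q : k[X], (B ≠ 0 → q ≠ 0) ∧ p.eval 0 = A.coeff m ∧ q.eval 0 = B.coeff m ∧
      algebraMap k[X] (RatFunc k) A / algebraMap k[X] (RatFunc k) B =
        algebraMap k[X] (RatFunc k) p / algebraMap k[X] (RatFunc k) q := by
  obtain ⟨p, hp⟩ := X_pow_dvd_iff.2 hA
  obtain ⟨q, hq⟩ := X_pow_dvd_iff.2 hB
  refine ⟨p, q, ?_, ?_, ?_, ?_⟩
  · intro h h0
    apply h
    rw [hq, h0, mul_zero]
  · have h := coeff_X_pow_mul p m 0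
    rw [zero_add, ← hp] at h
    rw [h, coeff_zero_eq_eval_zero]
  · have h := coeff_X_pow_mul q m 0
    rw [zero_add, ← hq] at h
    rw [h, coeff_zero_eq_eval_zero]
  · have h : algebraMap k[X] (RatFunc k) (X ^ m) ≠ 0 :=
      RatFunc.algebraMap_ne_zero (pow_ne_zero _ X_ne_zero)
    rw [hp, hq, map_mul, map_mul, mul_div_mul_left _ _ h]

theorem spec_zero_quot (A B : k[X]) (i j : ℕ) (hA : A.coeff i ≠ 0) (hA' : ∀ l, l < i → A.coeff l = 0)
    (hB : B.coeff j ≠ 0) (hB' : ∀ l, l < j → B.coeff l = 0) :
    spec 0 (some (algebraMap k[X] (RatFunc k) A / algebraMap k[X] (RatFunc k) B)) =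
      if i < j then none else if i = j then some (A.coeff i / B.coeff j) else some 0 := by
  have hB0 : B ≠ 0 := by
    intro h
    apply hB
    rw [h, coeff_zero]
  obtain ⟨p, q, hq, h1, h2, h3⟩ := quot_red A B (min i j)
    (fun l hl => hA' l (lt_of_lt_of_le hl (min_le_left i j)))
    (fun l hl => hB' l (lt_of_lt_of_le hl (min_le_right i j)))
  rw [h3]
  rcases lt_trichotomy i j with hij | hij | hij
  · rw [min_eq_left hij.le] at h1 h2
    rw [spec_div 0 p q (hq hB0) (Or.inl (by rw [h1]; exact hA)), if_pos hij,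
      if_pos (by rw [h2]; exact hB' i hij)]
  · subst hij
    rw [min_self] at h1 h2
    rw [spec_div 0 p q (hq hB0) (Or.inl (by rw [h1]; exact hA)), if_neg (lt_irrefl i),
      if_pos rfl, if_neg (by rw [h2]; exact hB), h1, h2]
  · rw [min_eq_right hij.le] at h1 h2
    rw [spec_div 0 p q (hq hB0) (Or.inr (by rw [h2]; exact hB)), if_neg (not_lt.2 hij.le),
      if_neg hij.ne', if_neg (by rw [h2]; exact hB), h1, hA' j hij, zero_div]

theorem specI_quot (A B : k[X]) (i j : ℕ) (hA : A.coeff i ≠ 0) (hA' : ∀ l, i < l → A.coeff l = 0)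
    (hB : B.coeff j ≠ 0) (hB' : ∀ l, j < l → B.coeff l = 0) :
    specI (some (algebraMap k[X] (RatFunc k) A / algebraMap k[X] (RatFunc k) B)) =
      if j < i then none else if i = j then some (A.coeff i / B.coeff j) else some 0 := by
  have hA0 : A ≠ 0 := by
    intro h
    apply hA
    rw [h, coeff_zero]
  have hB0 : B ≠ 0 := by
    intro h
    apply hB
    rw [h, coeff_zero]
  have hdA : A.natDegree = i :=
    natDegree_eq_of_le_of_coeff_ne_zero (natDegree_le_iff_coeff_eq_zero.2 hA') hA
  have hdB : B.natDegree = j :=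
    natDegree_eq_of_le_of_coeff_ne_zero (natDegree_le_iff_coeff_eq_zero.2 hB') hB
  set f : RatFunc k := algebraMap k[X] (RatFunc k) A / algebraMap k[X] (RatFunc k) B with hf
  have hcross : f.num * B = A * f.denom := (RatFunc.num_mul_eq_mul_denom_iff hB0).2 hf
  have hd0 : f.denom ≠ 0 := f.denom_ne_zero
  have hn0 : f.num ≠ 0 := by
    intro h
    rw [h, zero_mul] at hcross
    exact mul_ne_zero hA0 hd0 hcross.symm
  have hdeg : f.num.natDegree + j = i + f.denom.natDegree := by
    have h := congrArg natDegree hcross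
    rwa [natDegree_mul hn0 hB0, natDegree_mul hA0 hd0, hdA, hdB] at h
  have hlc : f.num.leadingCoeff * B.coeff j = A.coeff i * f.denom.leadingCoeff := by
    have h := congrArg leadingCoeff hcross
    have h1 : A.leadingCoeff = A.coeff i := by rw [leadingCoeff, hdA]
    have h2 : B.leadingCoeff = B.coeff j := by rw [leadingCoeff, hdB]
    rwa [leadingCoeff_mul, leadingCoeff_mul, h1, h2] at h
  have hld : f.denom.leadingCoeff ≠ 0 := leadingCoeff_ne_zero.2 hd0
  change (if f.denom.natDegree < f.num.natDegree then none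
    else some (f.num.coeff f.denom.natDegree / f.denom.leadingCoeff)) = _
  rcases lt_trichotomy i j with hij | hij | hij
  · rw [if_neg (by omega), if_neg (by omega), if_neg (by omega),
      coeff_eq_zero_of_natDegree_lt (by omega), zero_div]
  · subst hij
    have h : f.denom.natDegree = f.num.natDegree := by omega
    rw [if_neg (by omega), if_neg (lt_irrefl i), if_pos rfl, h, coeff_natDegree]
    congr 1
    rw [div_eq_div_iff hld hB, hlc]
  · rw [if_pos (by omega), if_pos hij]

end QPL
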