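import Pool.Agent.QPL.Mono
import Pool.Agent.QPL.PolyStep
import Pool.Agent.QPL.Quot

set_option autoImplicit false

/-!
# QPL-10: one step of the chain

`f = P / Q`, `P = f.num`, `Q = f.denom` (`f = 0` is trivial).  `poly_step` for `P` and `Q` gives
indices `i`, `j`; `mono_v` gives `Wa.v f = D(a)`, `Wb.v f = D(b)`, with
`D(q) = v(p_i) + i q - v(q_j) - j q`, and the leading coefficients are quotients of `iniP`'s, with
trailing degrees `i`, `j` at `a` (coefficients `lc p_i`, `lc q_j`) and degrees `i`, `j` at `b`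
(`coeff_iniP`).  If `i = j`, both sides are the reduction of `p_i / q_j`.  If `i ≠ j`, `D` has no
zero in `(a, b)` (a zero would be in `V.crit f`), so: `D > 0` on `(a, b)`: if `i > j` then
`D(a) ≥ 0`, `D(b) > 0`, both sides are `0` (`spec_zero_quot` if `D(a) = 0`); if `i < j` then
`D(a) > 0`, `D(b) ≥ 0`, both are `0`.  `D < 0` on `(a, b)`: both are `∞`.
-/

noncomputable section

open Polynomial
open scoped Classical

namespace QPL

open Helper14.Gon

universe u v w

variable {L : Type u} {k : Type v} [Field L] [Field k]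

/-- the reduction of a quotient in a monomial extension -/
private theorem step_rd (V : AC L k) (q : ℚ) (W : AC (RatFunc L) (RatFunc k)) (hW : IsMono V q W)
    (P Q : L[X]) (i j : ℕ) (hi : P.coeff i ≠ 0) (hj : Q.coeff j ≠ 0)
    (hmi : ∀ l, P.coeff l ≠ 0 → V.v (P.coeff i) + i * q ≤ V.v (P.coeff l) + l * q)
    (hmj : ∀ l, Q.coeff l ≠ 0 → V.v (Q.coeff j) + j * q ≤ V.v (Q.coeff l) + l * q) (d : ℚ)
    (hd : d = V.v (P.coeff i) + i * q - (V.v (Q.coeff j) + j * q)) :
    (d < 0 → W.rd (some (algebraMap L[X] (RatFunc L) P / algebraMap L[X] (RatFunc L) Q)) = none) ∧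
    (0 < d → W.rd (some (algebraMap L[X] (RatFunc L) P / algebraMap L[X] (RatFunc L) Q)) = some 0) ∧
    (d = 0 → W.rd (some (algebraMap L[X] (RatFunc L) P / algebraMap L[X] (RatFunc L) Q)) =
      some (algebraMap k[X] (RatFunc k) (V.iniP q (V.v (P.coeff i) + i * q) P) /
        algebraMap k[X] (RatFunc k) (V.iniP q (V.v (Q.coeff j) + j * q) Q))) := by
  obtain ⟨hv1, hl1⟩ := mono_v hW P i hi hmi
  obtain ⟨hv2, hl2⟩ := mono_v hW Q j hj hmj
  have hP : P ≠ 0 := by
    rintro rfl
    exact hi (Polynomial.coeff_zero i)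
  have hQ : Q ≠ 0 := by
    rintro rfl
    exact hj (Polynomial.coeff_zero j)
  have hP' : algebraMap L[X] (RatFunc L) P ≠ 0 := RatFunc.algebraMap_ne_zero hP
  have hQ' : algebraMap L[X] (RatFunc L) Q ≠ 0 := RatFunc.algebraMap_ne_zero hQ
  have hv : W.v (algebraMap L[X] (RatFunc L) P / algebraMap L[X] (RatFunc L) Q) = d := by
    rw [W.v_div hP' hQ', hv1, hv2, hd]
  have hne : algebraMap L[X] (RatFunc L) P / algebraMap L[X] (RatFunc L) Q ≠ 0 := div_ne_zero hP' hQ'
  refine ⟨fun h => W.rd_neg hne (by rw [hv]; exact h), fun h => W.rd_pos (by rw [hv]; exact h), fun h => ?_⟩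
  rw [W.rd_unit hne (by rw [hv]; exact h), W.lc_div, hl1, hl2]

/-- the coefficients of the part of minimal degree -/
private theorem step_coeff (V : AC L k) (q : ℚ) (P : L[X]) (i : ℕ) (hi : P.coeff i ≠ 0) :
    (V.iniP q (V.v (P.coeff i) + i * q) P).coeff i = V.lc (P.coeff i) ∧
    ∀ l, (P.coeff l ≠ 0 → V.v (P.coeff i) + i * q < V.v (P.coeff l) + l * q) →
      (V.iniP q (V.v (P.coeff i) + i * q) P).coeff l = 0 := by
  constructor
  · rw [coeff_iniP, add_sub_cancel_right, V.ini_self]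
  · intro l hl
    rw [coeff_iniP]
    unfold AC.ini
    rw [if_neg]
    rintro ⟨h1, h2⟩
    have := hl h1
    rw [h2] at this
    linarith

theorem chain_step (V : AC L k) {a b : ℚ} (hab : a < b) (Wa Wb : AC (RatFunc L) (RatFunc k))
    (ha : IsMono V a Wa) (hb : IsMono V b Wb) (f : RatFunc L)
    (hcr : ∀ q ∈ V.crit f, ¬ (a < q ∧ q < b)) :
    spec 0 (Wa.rd (some f)) = specI (Wb.rd (some f)) := by
  by_cases hf : f = 0
  · subst hf
    rw [Wa.rd_zero, Wb.rd_zero, spec_zero]
    simp [specI]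
  obtain ⟨P, hPd⟩ : ∃ P, P = f.num := ⟨_, rfl⟩
  obtain ⟨Q, hQd⟩ : ∃ Q, Q = f.denom := ⟨_, rfl⟩
  have hP : P ≠ 0 := by
    rw [hPd]
    exact RatFunc.num_ne_zero hf
  have hQ : Q ≠ 0 := by
    rw [hQd]
    exact RatFunc.denom_ne_zero f
  have hfe : f = algebraMap L[X] (RatFunc L) P / algebraMap L[X] (RatFunc L) Q := by
    rw [hPd, hQd]
    exact (RatFunc.num_div_denom f).symm
  obtain ⟨i, hi, i1, i2, i3, i4⟩ := poly_step V hab P hP (fun i j hij h1 h2 q hq1 hq2 he =>
    hcr q ⟨P.coeff i, P.coeff j, i, j, h1, h2, hij, Or.inl (by rw [hPd]), Or.inl (by rw [hPd]), he⟩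
      ⟨hq1, hq2⟩)
  obtain ⟨j, hj, j1, j2, j3, j4⟩ := poly_step V hab Q hQ (fun i j hij h1 h2 q hq1 hq2 he =>
    hcr q ⟨Q.coeff i, Q.coeff j, i, j, h1, h2, hij, Or.inr (by rw [hQd]), Or.inr (by rw [hQd]), he⟩
      ⟨hq1, hq2⟩)
  have hD : i ≠ j → ∀ q, a < q → q < b →
      V.v (P.coeff i) + i * q - (V.v (Q.coeff j) + j * q) ≠ 0 := by
    intro hij q hq1 hq2 he
    exact hcr q ⟨P.coeff i, Q.coeff j, i, j, hi, hj, hij, Or.inl (by rw [hPd]), Or.inr (by rw [hQd]),
      by linarith⟩ ⟨hq1, hq2⟩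
  obtain ⟨A1, A2, A3⟩ := step_rd V a Wa ha P Q i j hi hj i1 j1 _ rfl
  obtain ⟨B1, B2, B3⟩ := step_rd V b Wb hb P Q i j hi hj i3 j3 _ rfl
  rw [← hfe] at A1 A2 A3 B1 B2 B3
  -- the values of the two quotients
  obtain ⟨ci, ci'⟩ := step_coeff V a P i hi
  obtain ⟨cj, cj'⟩ := step_coeff V a Q j hj
  obtain ⟨di, di'⟩ := step_coeff V b P i hi
  obtain ⟨dj, dj'⟩ := step_coeff V b Q j hj
  have hS := spec_zero_quot (V.iniP a (V.v (P.coeff i) + i * a) P)
    (V.iniP a (V.v (Q.coeff j) + j * a) Q) i j (by rw [ci]; exact V.lc_ne hi)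
    (fun l hl => ci' l (fun h => i2 l h hl)) (by rw [cj]; exact V.lc_ne hj)
    (fun l hl => cj' l (fun h => j2 l h hl))
  have hI := specI_quot (V.iniP b (V.v (P.coeff i) + i * b) P)
    (V.iniP b (V.v (Q.coeff j) + j * b) Q) i j (by rw [di]; exact V.lc_ne hi)
    (fun l hl => di' l (fun h => i4 l h hl)) (by rw [dj]; exact V.lc_ne hj)
    (fun l hl => dj' l (fun h => j4 l h hl))
  rw [ci, cj] at hS
  rw [di, dj] at hI
  have sN : spec 0 (none : P1 (RatFunc k)) = none := rfl
  have sZ : spec 0 (some (0 : RatFunc k)) = some 0 := spec_zero 0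
  have tN : specI (none : P1 (RatFunc k)) = none := rfl
  have tZ : specI (some (0 : RatFunc k)) = some 0 := by simp [specI]
  rcases lt_trichotomy i j with hij | hij | hij
  · -- `D` is decreasing
    rw [if_pos hij] at hS
    rw [if_neg (by omega), if_neg (by omega)] at hI
    have hdec : ((j : ℚ) - i) * (b - a) > 0 := by
      have h1 : (i : ℚ) < j := by exact_mod_cast hij
      exact mul_pos (by linarith) (by linarith)
    rcases le_or_gt (V.v (P.coeff i) + i * a - (V.v (Q.coeff j) + j * a)) 0 with h0 | h0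
    · have h1 : V.v (P.coeff i) + i * b - (V.v (Q.coeff j) + j * b) < 0 := by nlinarith
      rw [B1 h1, tN]
      rcases lt_or_eq_of_le h0 with h2 | h2
      · rw [A1 h2, sN]
      · rw [A3 h2, hS]
    · have h1 : 0 ≤ V.v (P.coeff i) + i * b - (V.v (Q.coeff j) + j * b) := by
        by_contra hlt
        rw [not_le] at hlt
        have hji : (j : ℚ) - i > 0 := by
          have h1 : (i : ℚ) < j := by exact_mod_cast hij
          linarith
        refine hD (by omega) ((V.v (P.coeff i) - V.v (Q.coeff j)) / ((j : ℚ) - i)) ?_ ?_ ?_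
        · rw [lt_div_iff₀ hji]
          nlinarith
        · rw [div_lt_iff₀ hji]
          nlinarith
        · field_simp
          ring
      rw [A2 h0, sZ]
      rcases lt_or_eq_of_le h1 with h2 | h2
      · rw [B2 h2, tZ]
      · rw [B3 h2.symm, hI]
  · subst hij
    rw [if_neg (by omega), if_pos rfl] at hS
    rw [if_neg (by omega), if_pos rfl] at hI
    have he : V.v (P.coeff i) + i * a - (V.v (Q.coeff i) + i * a) =
        V.v (P.coeff i) + i * b - (V.v (Q.coeff i) + i * b) := by ring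
    rcases lt_trichotomy (V.v (P.coeff i) + i * a - (V.v (Q.coeff i) + i * a)) 0 with h | h | h
    · rw [A1 h, B1 (by rw [← he]; exact h), sN, tN]
    · rw [A3 h, B3 (by rw [← he]; exact h), hS, hI]
    · rw [A2 h, B2 (by rw [← he]; exact h), sZ, tZ]
  · -- `D` is increasing
    rw [if_neg (by omega), if_neg (by omega)] at hS
    rw [if_pos hij] at hI
    have hij' : (0 : ℚ) < i - j := by
      have h1 : (j : ℚ) < i := by exact_mod_cast hij
      linarith
    have hinc : ((i : ℚ) - j) * (b - a) > 0 := mul_pos hij' (by linarith)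
    rcases le_or_gt 0 (V.v (P.coeff i) + i * a - (V.v (Q.coeff j) + j * a)) with h0 | h0
    · have h1 : 0 < V.v (P.coeff i) + i * b - (V.v (Q.coeff j) + j * b) := by nlinarith
      rw [B2 h1, tZ]
      rcases lt_or_eq_of_le h0 with h2 | h2
      · rw [A2 h2, sZ]
      · rw [A3 h2.symm, hS]
    · have h1 : V.v (P.coeff i) + i * b - (V.v (Q.coeff j) + j * b) ≤ 0 := by
        by_contra hlt
        rw [not_le] at hlt
        refine hD (by omega) ((V.v (Q.coeff j) - V.v (P.coeff i)) / ((i : ℚ) - j)) ?_ ?_ ?_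
        · rw [lt_div_iff₀ hij']
          nlinarith
        · rw [div_lt_iff₀ hij']
          nlinarith
        · field_simp
          ring
      rw [A1 h0, sN]
      rcases lt_or_eq_of_le h1 with h2 | h2
      · rw [B1 h2, tN]
      · rw [B3 h2, hI]

end QPL
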