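import Pool.Agent.QPL.Mono
import Pool.Agent.QPL.PolyStep
import Pool.Agent.QPL.Quot

set_option autoImplicit false

/-!
# QPL-11: the ends of the chain

`f = P / Q` with trailing degrees `i`, `j` (`f = 0` is trivial), `b` larger than all critical
values: `poly_top` and `mono_v` give `Wb.v f = D(b)`,
`D(q) = v(p_i) + i q - v(q_j) - j q`, leading coefficient `lc(p_i) s^i / (lc(q_j) s^j)`
(`coeff_iniP`: only one coefficient of `iniP` is nonzero).
`spec 0 f` is `0` if `i > j`, `p_i / q_j` if `i = j`, `∞` if `i < j` (`spec_zero_quot`).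
If `i > j`: `D(q) ≠ 0` for `q ≥ b` and `D` is increasing, so `D(b) > 0`; if `i < j`: `D(b) < 0`.
Similarly for `a` smaller than all critical values, with leading degrees and `specI_quot`.
-/

noncomputable section

open Polynomial
open scoped Classical

namespace QPL

open Helper14.Gon

universe u v w

variable {L : Type u} {k : Type v} [Field L] [Field k]

/-- the reduction of a quotient in a monomial extension -/
private theorem stepend_rd (V : AC L k) (q : ℚ) (W : AC (RatFunc L) (RatFunc k)) (hW : IsMono V q W)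
    (P Q : L[X]) (i j : ℕ) (hi : P.coeff i ≠ 0) (hj : Q.coeff j ≠ 0)
    (hmi : ∀ l, P.coeff l ≠ 0 → V.v (P.coeff i) + i * q ≤ V.v (P.coeff l) + l * q)
    (hmj : ∀ l, Q.coeff l ≠ 0 → V.v (Q.coeff j) + j * q ≤ V.v (Q.coeff l) + l * q) (d : ℚ)
    (hd : d = V.v (P.coeff i) + i * q - (V.v (Q.coeff j) + j * q)) :
    (d < 0 → W.rd (some (algebraMap L[X] (RatFunc L) P / algebraMap L[X] (RatFunc L) Q)) = none) ∧
    (0 < d → W.rd (some (algebraMap L[X] (RatFunc L) P / algebraMap L[X] (RatFunc L) Q)) = some 0) ∧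
    (d = 0 → W.rd (some (algebraMap L[X] (RatFunc L) P / algebraMap L[X] (RatFunc L) Q)) =
      some (algebraMap k[X] (RatFunc k) (V.iniP q (V.v (P.coeff i) + i * q) P) /
        algebraMap k[X] (RatFunc k) (V.iniP q (V.v (Q.coeff j) + j * q) Q))) := by
  obtain ⟨hv1, hl1⟩ := mono_v hW P i hi hmi
  obtain ⟨hv2, hl2⟩ := mono_v hW Q j hj hmj
  have hP : P ≠ 0 := by
    rintro rfl
    exact hi (Polynomial.coeff_zero i)
  have hQ : Q ≠ 0 := by
    rintro rfl
    exact hj (Polynomial.coeff_zero j)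
  have hP' : algebraMap L[X] (RatFunc L) P ≠ 0 := RatFunc.algebraMap_ne_zero hP
  have hQ' : algebraMap L[X] (RatFunc L) Q ≠ 0 := RatFunc.algebraMap_ne_zero hQ
  have hv : W.v (algebraMap L[X] (RatFunc L) P / algebraMap L[X] (RatFunc L) Q) = d := by
    rw [W.v_div hP' hQ', hv1, hv2, hd]
  have hne : algebraMap L[X] (RatFunc L) P / algebraMap L[X] (RatFunc L) Q ≠ 0 := div_ne_zero hP' hQ'
  refine ⟨fun h => W.rd_neg hne (by rw [hv]; exact h), fun h => W.rd_pos (by rw [hv]; exact h), fun h => ?_⟩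
  rw [W.rd_unit hne (by rw [hv]; exact h), W.lc_div, hl1, hl2]

/-- the coefficients of the part of minimal degree -/
private theorem stepend_coeff (V : AC L k) (q : ℚ) (P : L[X]) (i : ℕ) (hi : P.coeff i ≠ 0) :
    (V.iniP q (V.v (P.coeff i) + i * q) P).coeff i = V.lc (P.coeff i) ∧
    ∀ l, (P.coeff l ≠ 0 → V.v (P.coeff i) + i * q < V.v (P.coeff l) + l * q) →
      (V.iniP q (V.v (P.coeff i) + i * q) P).coeff l = 0 := by
  constructor
  · rw [coeff_iniP, add_sub_cancel_right, V.ini_self]
  · intro l hl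
    rw [coeff_iniP]
    unfold AC.ini
    rw [if_neg]
    rintro ⟨h1, h2⟩
    have := hl h1
    rw [h2] at this
    linarith

theorem chain_top (V : AC L k) {b : ℚ} (Wb : AC (RatFunc L) (RatFunc k)) (hb : IsMono V b Wb)
    (f : RatFunc L) (hcr : ∀ q ∈ V.crit f, q < b) :
    spec 0 (Wb.rd (some f)) = V.rd (spec 0 (some f)) := by
  by_cases hf : f = 0
  · subst hf
    have h0 : ∀ W : AC (RatFunc L) (RatFunc k), W.rd (some (0 : RatFunc L)) = some 0 :=
      fun W => W.rd_zero
    rw [h0]
    have h1 : spec (0 : L) (some (0 : RatFunc L)) = some 0 := by simp [spec]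
    have h2 : spec (0 : k) (some (0 : RatFunc k)) = some 0 := by simp [spec]
    rw [h1, h2, V.rd_zero]
  have hP : f.num ≠ 0 := RatFunc.num_ne_zero hf
  have hQ : f.denom ≠ 0 := f.denom_ne_zero
  have hfe : f = algebraMap L[X] (RatFunc L) f.num / algebraMap L[X] (RatFunc L) f.denom :=
    (RatFunc.num_div_denom f).symm
  set i := f.num.natTrailingDegree with hi_def
  set j := f.denom.natTrailingDegree with hj_def
  have hi : f.num.coeff i ≠ 0 := by
    rw [hi_def, ← Polynomial.trailingCoeff]; exact Polynomial.trailingCoeff_nonzero_iff_nonzero.2 hP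
  have hj : f.denom.coeff j ≠ 0 := by
    rw [hj_def, ← Polynomial.trailingCoeff]; exact Polynomial.trailingCoeff_nonzero_iff_nonzero.2 hQ
  have hi' : ∀ l, l < i → f.num.coeff l = 0 := fun l hl =>
    Polynomial.coeff_eq_zero_of_lt_natTrailingDegree hl
  have hj' : ∀ l, l < j → f.denom.coeff l = 0 := fun l hl =>
    Polynomial.coeff_eq_zero_of_lt_natTrailingDegree hl
  have htP := poly_top V (b := b) f.num i hi hi' (fun a c hac h1 h2 q hq h3 =>
    absurd (hcr q ⟨_, _, a, c, h1, h2, hac, Or.inl rfl, Or.inl rfl, h3⟩) (not_lt.2 hq))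
  have htQ := poly_top V (b := b) f.denom j hj hj' (fun a c hac h1 h2 q hq h3 =>
    absurd (hcr q ⟨_, _, a, c, h1, h2, hac, Or.inr rfl, Or.inr rfl, h3⟩) (not_lt.2 hq))
  have hmi : ∀ l, f.num.coeff l ≠ 0 →
      V.v (f.num.coeff i) + i * b ≤ V.v (f.num.coeff l) + l * b := by
    intro l hl
    by_cases hil : i = l
    · rw [← hil]
    · exact (htP l hl hil).le
  have hmj : ∀ l, f.denom.coeff l ≠ 0 →
      V.v (f.denom.coeff j) + j * b ≤ V.v (f.denom.coeff l) + l * b := by
    intro l hl
    by_cases hjl : j = l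
    · rw [← hjl]
    · exact (htQ l hl hjl).le
  obtain ⟨hr1, hr2, hr3⟩ := stepend_rd V b Wb hb f.num f.denom i j hi hj hmi hmj _ rfl
  have hcP := stepend_coeff V b f.num i hi
  have hcQ := stepend_coeff V b f.denom j hj
  have hsp := spec_zero_quot f.num f.denom i j hi hi' hj hj'
  rw [← hfe] at hr1 hr2 hr3 hsp
  rw [hsp]
  rcases lt_trichotomy i j with hij | hij | hij
  · rw [if_pos hij]
    have hlt : (i : ℚ) < j := by exact_mod_cast hij
    have hd : V.v (f.num.coeff i) + i * b - (V.v (f.denom.coeff j) + j * b) < 0 := by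
      by_contra hd
      push Not at hd
      have hji : (0 : ℚ) < (j : ℚ) - i := by linarith
      set D := V.v (f.num.coeff i) + i * b - (V.v (f.denom.coeff j) + j * b) with hD
      have hq : b ≤ b + D / ((j : ℚ) - i) := by
        have := div_nonneg hd hji.le
        linarith
      refine absurd (hcr (b + D / ((j : ℚ) - i)) ⟨_, _, i, j, hi, hj, hij.ne, Or.inl rfl,
        Or.inr rfl, ?_⟩) (not_lt.2 hq)
      have h5 : (D / ((j : ℚ) - i)) * ((j : ℚ) - i) = D := div_mul_cancel₀ D hji.ne'
      linear_combination (-1 : ℚ) * h5 - hD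
    rw [hr1 hd]
    rfl
  · rw [if_neg (by omega), if_pos hij]
    have hpq : f.num.coeff i / f.denom.coeff j ≠ 0 := div_ne_zero hi hj
    have hvv : V.v (f.num.coeff i / f.denom.coeff j) =
        V.v (f.num.coeff i) + i * b - (V.v (f.denom.coeff j) + j * b) := by
      rw [V.v_div hi hj, ← hij]; ring
    rcases lt_trichotomy (V.v (f.num.coeff i) + i * b - (V.v (f.denom.coeff j) + j * b)) 0 with
      hd | hd | hd
    · rw [hr1 hd, V.rd_neg hpq (by rw [hvv]; exact hd)]
      rfl
    · rw [hr3 hd, V.rd_unit hpq (by rw [hvv]; exact hd), V.lc_div]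
      rw [spec_zero_quot _ _ i j (by rw [hcP.1]; exact V.lc_ne hi)
        (fun l hl => hcP.2 l (fun h => absurd (hi' l hl) h))
        (by rw [hcQ.1]; exact V.lc_ne hj)
        (fun l hl => hcQ.2 l (fun h => absurd (hj' l hl) h)), if_neg (by omega), if_pos hij,
        hcP.1, hcQ.1]
    · rw [hr2 hd, V.rd_pos (by rw [hvv]; exact hd)]
      simp [spec]
  · rw [if_neg (by omega), if_neg (by omega), V.rd_zero]
    have hlt : (j : ℚ) < i := by exact_mod_cast hij
    have hd : 0 < V.v (f.num.coeff i) + i * b - (V.v (f.denom.coeff j) + j * b) := by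
      by_contra hd
      push Not at hd
      have hji : (0 : ℚ) < (i : ℚ) - j := by linarith
      set D := V.v (f.num.coeff i) + i * b - (V.v (f.denom.coeff j) + j * b) with hD
      have hq : b ≤ b + (-D) / ((i : ℚ) - j) := by
        have := div_nonneg (neg_nonneg.2 hd) hji.le
        linarith
      refine absurd (hcr (b + (-D) / ((i : ℚ) - j)) ⟨_, _, i, j, hi, hj, hij.ne', Or.inl rfl,
        Or.inr rfl, ?_⟩) (not_lt.2 hq)
      have h5 : ((-D) / ((i : ℚ) - j)) * ((i : ℚ) - j) = -D := div_mul_cancel₀ (-D) hji.ne'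
      linear_combination h5 - hD
    rw [hr2 hd]
    simp [spec]

theorem chain_bot (V : AC L k) {a : ℚ} (Wa : AC (RatFunc L) (RatFunc k)) (ha : IsMono V a Wa)
    (f : RatFunc L) (hcr : ∀ q ∈ V.crit f, a < q) :
    specI (Wa.rd (some f)) = V.rd (specI (some f)) := by
  by_cases hf : f = 0
  · subst hf
    have h0 : ∀ W : AC (RatFunc L) (RatFunc k), W.rd (some (0 : RatFunc L)) = some 0 :=
      fun W => W.rd_zero
    rw [h0]
    have h1 : specI (some (0 : RatFunc L)) = some 0 := by simp [specI]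
    have h2 : specI (some (0 : RatFunc k)) = some 0 := by simp [specI]
    rw [h1, h2, V.rd_zero]
  have hP : f.num ≠ 0 := RatFunc.num_ne_zero hf
  have hQ : f.denom ≠ 0 := f.denom_ne_zero
  have hfe : f = algebraMap L[X] (RatFunc L) f.num / algebraMap L[X] (RatFunc L) f.denom :=
    (RatFunc.num_div_denom f).symm
  set i := f.num.natDegree with hi_def
  set j := f.denom.natDegree with hj_def
  have hi : f.num.coeff i ≠ 0 := by
    rw [hi_def]; exact Polynomial.leadingCoeff_ne_zero.2 hP
  have hj : f.denom.coeff j ≠ 0 := by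
    rw [hj_def]; exact Polynomial.leadingCoeff_ne_zero.2 hQ
  have hi' : ∀ l, i < l → f.num.coeff l = 0 := fun l hl =>
    Polynomial.coeff_eq_zero_of_natDegree_lt hl
  have hj' : ∀ l, j < l → f.denom.coeff l = 0 := fun l hl =>
    Polynomial.coeff_eq_zero_of_natDegree_lt hl
  have htP := poly_bot V (a := a) f.num i hi hi' (fun a' c hac h1 h2 q hq h3 =>
    absurd (hcr q ⟨_, _, a', c, h1, h2, hac, Or.inl rfl, Or.inl rfl, h3⟩) (not_lt.2 hq))
  have htQ := poly_bot V (a := a) f.denom j hj hj' (fun a' c hac h1 h2 q hq h3 =>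
    absurd (hcr q ⟨_, _, a', c, h1, h2, hac, Or.inr rfl, Or.inr rfl, h3⟩) (not_lt.2 hq))
  have hmi : ∀ l, f.num.coeff l ≠ 0 →
      V.v (f.num.coeff i) + i * a ≤ V.v (f.num.coeff l) + l * a := by
    intro l hl
    by_cases hil : i = l
    · rw [← hil]
    · exact (htP l hl hil).le
  have hmj : ∀ l, f.denom.coeff l ≠ 0 →
      V.v (f.denom.coeff j) + j * a ≤ V.v (f.denom.coeff l) + l * a := by
    intro l hl
    by_cases hjl : j = l
    · rw [← hjl]
    · exact (htQ l hl hjl).le
  obtain ⟨hr1, hr2, hr3⟩ := stepend_rd V a Wa ha f.num f.denom i j hi hj hmi hmj _ rfl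
  have hcP := stepend_coeff V a f.num i hi
  have hcQ := stepend_coeff V a f.denom j hj
  have hsp := specI_quot f.num f.denom i j hi hi' hj hj'
  rw [← hfe] at hr1 hr2 hr3 hsp
  rw [hsp]
  rcases lt_trichotomy i j with hij | hij | hij
  · rw [if_neg (by omega), if_neg (by omega), V.rd_zero]
    have hlt : (i : ℚ) < j := by exact_mod_cast hij
    have hd : 0 < V.v (f.num.coeff i) + i * a - (V.v (f.denom.coeff j) + j * a) := by
      by_contra hd
      push Not at hd
      have hji : (0 : ℚ) < (j : ℚ) - i := by linarith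
      set D := V.v (f.num.coeff i) + i * a - (V.v (f.denom.coeff j) + j * a) with hD
      have hq : a + D / ((j : ℚ) - i) ≤ a := by
        have := div_nonpos_of_nonpos_of_nonneg hd hji.le
        linarith
      refine absurd (hcr (a + D / ((j : ℚ) - i)) ⟨_, _, i, j, hi, hj, hij.ne, Or.inl rfl,
        Or.inr rfl, ?_⟩) (not_lt.2 hq)
      have h5 : (D / ((j : ℚ) - i)) * ((j : ℚ) - i) = D := div_mul_cancel₀ D hji.ne'
      linear_combination (-1 : ℚ) * h5 - hD
    rw [hr2 hd]
    simp [specI]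
  · rw [if_neg (by omega), if_pos hij]
    have hpq : f.num.coeff i / f.denom.coeff j ≠ 0 := div_ne_zero hi hj
    have hvv : V.v (f.num.coeff i / f.denom.coeff j) =
        V.v (f.num.coeff i) + i * a - (V.v (f.denom.coeff j) + j * a) := by
      rw [V.v_div hi hj, ← hij]; ring
    rcases lt_trichotomy (V.v (f.num.coeff i) + i * a - (V.v (f.denom.coeff j) + j * a)) 0 with
      hd | hd | hd
    · rw [hr1 hd, V.rd_neg hpq (by rw [hvv]; exact hd)]
      rfl
    · rw [hr3 hd, V.rd_unit hpq (by rw [hvv]; exact hd), V.lc_div]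
      rw [specI_quot _ _ i j (by rw [hcP.1]; exact V.lc_ne hi)
        (fun l hl => hcP.2 l (fun h => absurd (hi' l hl) h))
        (by rw [hcQ.1]; exact V.lc_ne hj)
        (fun l hl => hcQ.2 l (fun h => absurd (hj' l hl) h)), if_neg (by omega), if_pos hij,
        hcP.1, hcQ.1]
    · rw [hr2 hd, V.rd_pos (by rw [hvv]; exact hd)]
      simp [specI]
  · rw [if_pos hij]
    have hlt : (j : ℚ) < i := by exact_mod_cast hij
    have hd : V.v (f.num.coeff i) + i * a - (V.v (f.denom.coeff j) + j * a) < 0 := by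
      by_contra hd
      push Not at hd
      have hji : (0 : ℚ) < (i : ℚ) - j := by linarith
      set D := V.v (f.num.coeff i) + i * a - (V.v (f.denom.coeff j) + j * a) with hD
      have hq : a + (-D) / ((i : ℚ) - j) ≤ a := by
        have := div_nonpos_of_nonpos_of_nonneg (neg_nonpos.2 hd) hji.le
        linarith
      refine absurd (hcr (a + (-D) / ((i : ℚ) - j)) ⟨_, _, i, j, hi, hj, hij.ne', Or.inl rfl,
        Or.inr rfl, ?_⟩) (not_lt.2 hq)
      have h5 : ((-D) / ((i : ℚ) - j)) * ((i : ℚ) - j) = -D := div_mul_cancel₀ (-D) hji.ne'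
      linear_combination h5 - hD
    rw [hr1 hd]
    rfl

end QPL
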