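import Pool.Agent.QPL.Crit
import Pool.Agent.QPL.Step
import Pool.Agent.QPL.StepEnd

set_option autoImplicit false

/-!
# QPL-12: the chain

`chain_abs`: strong induction on the number of elements of `C` in `(a, b)`: if there is none, `h2`;
otherwise for `c` in it `Fp a - Fm c`, `Fp c - Fm b`, `Fp c - Fm c ∈ H`.
`chain`: `C` is the union of the `V.crit f`, `some f ∈ α.support`,
`Fp q = specZ 0 (W_q.rdZ α)`, `Fm q = specIZ (W_q.rdZ α)`, `W_q` from `exists_mono`;
`chain_step`, and `chain_top`, `chain_bot` for `b` (`a`) larger (smaller) than all of `C`.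
(Equality of two `Finsupp.mapDomain`: `Finsupp.mapDomain_congr`, `mapDomain_comp`.)
-/

noncomputable section

open Polynomial
open scoped Classical

namespace QPL

open Helper14.Gon

universe u v w

variable {L : Type u} {k : Type v} [Field L] [Field k]

private theorem chain_card {C : Finset ℚ} {a b c a' b' : ℚ} (hc : c ∈ C) (h1 : a < c) (h2 : c < b)
    (ha : a ≤ a') (hb : b' ≤ b) (hn : ¬ (a' < c ∧ c < b')) :
    (C.filter fun q => a' < q ∧ q < b').card < (C.filter fun q => a < q ∧ q < b).card := by
  apply Finset.card_lt_card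
  rw [Finset.ssubset_iff_of_subset]
  · exact ⟨c, Finset.mem_filter.2 ⟨hc, h1, h2⟩, fun h => hn (Finset.mem_filter.1 h).2⟩
  · intro q hq
    obtain ⟨h3, h4, h5⟩ := Finset.mem_filter.1 hq
    exact Finset.mem_filter.2 ⟨h3, lt_of_le_of_lt ha h4, lt_of_lt_of_le h5 hb⟩

theorem chain_abs {M : Type w} [AddCommGroup M] (H : AddSubgroup M) (C : Set ℚ) (hC : C.Finite)
    (Fp Fm : ℚ → M) (h1 : ∀ q, Fp q - Fm q ∈ H)
    (h2 : ∀ a b, a < b → (∀ q ∈ C, ¬ (a < q ∧ q < b)) → Fp a = Fm b) (a b : ℚ) (hab : a < b) :
    Fp a - Fm b ∈ H := by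
  have key : ∀ n : ℕ, ∀ a b : ℚ, a < b →
      (hC.toFinset.filter fun q => a < q ∧ q < b).card ≤ n → Fp a - Fm b ∈ H := by
    intro n
    induction n with
    | zero =>
      intro a b hab hn
      rw [h2 a b hab, sub_self]
      · exact H.zero_mem
      · intro q hq hc
        have h0 : (hC.toFinset.filter fun q => a < q ∧ q < b) = ∅ :=
          Finset.card_eq_zero.1 (Nat.le_zero.1 hn)
        have h3 : q ∈ (hC.toFinset.filter fun q => a < q ∧ q < b) :=
          Finset.mem_filter.2 ⟨hC.mem_toFinset.2 hq, hc⟩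
        rw [h0] at h3
        exact absurd h3 (Finset.notMem_empty q)
    | succ n ih =>
      intro a b hab hn
      by_cases he : ∃ c ∈ C, a < c ∧ c < b
      · obtain ⟨c, hc, hac, hcb⟩ := he
        have k1 := chain_card (hC.mem_toFinset.2 hc) hac hcb le_rfl hcb.le
          (fun h => absurd h.2 (lt_irrefl c))
        have k2 := chain_card (hC.mem_toFinset.2 hc) hac hcb hac.le le_rfl
          (fun h => absurd h.1 (lt_irrefl c))
        have i1 := ih a c hac (by omega)
        have i2 := ih c b hcb (by omega)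
        have e : Fp a - Fm b = (Fp a - Fm c) - (Fp c - Fm c) + (Fp c - Fm b) := by abel
        rw [e]
        exact H.add_mem (H.sub_mem i1 (h1 c)) i2
      · rw [h2 a b hab, sub_self]
        · exact H.zero_mem
        · intro q hq hc
          exact he ⟨q, hq, hc⟩
  exact key _ a b hab le_rfl

theorem chain (V : AC L k) (H : AddSubgroup (ZP k)) (α : ZP (RatFunc L))
    (hα : ∀ (q : ℚ) (W : AC (RatFunc L) (RatFunc k)), IsMono V q W →
      specZ 0 (W.rdZ α) - specIZ (W.rdZ α) ∈ H) :
    V.rdZ (specZ 0 α) - V.rdZ (specIZ α) ∈ H := by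
  choose W hW using fun q => exists_mono V q
  have eP : ∀ q, specZ 0 ((W q).rdZ α) = Finsupp.mapDomain (fun x => spec 0 ((W q).rd x)) α :=
    fun q => (Finsupp.mapDomain_comp (f := (W q).rd) (g := spec 0) (v := α)).symm
  have eM : ∀ q, specIZ ((W q).rdZ α) = Finsupp.mapDomain (fun x => specI ((W q).rd x)) α :=
    fun q => (Finsupp.mapDomain_comp (f := (W q).rd) (g := specI) (v := α)).symm
  have eP' : V.rdZ (specZ 0 α) = Finsupp.mapDomain (fun x => V.rd (spec 0 x)) α :=
    (Finsupp.mapDomain_comp (f := spec 0) (g := V.rd) (v := α)).symm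
  have eM' : V.rdZ (specIZ α) = Finsupp.mapDomain (fun x => V.rd (specI x)) α :=
    (Finsupp.mapDomain_comp (f := specI) (g := V.rd) (v := α)).symm
  obtain ⟨C, hCd⟩ : ∃ C : Set ℚ, C = ⋃ x ∈ α.support, {q | ∃ f, x = some f ∧ q ∈ V.crit f} := ⟨_, rfl⟩
  have hC : C.Finite := by
    rw [hCd]
    refine Set.Finite.biUnion α.support.finite_toSet ?_
    intro x _
    cases x with
    | none =>
      refine Set.Finite.subset Set.finite_empty ?_
      rintro q ⟨f, hf, _⟩
      exact absurd hf (by simp)
    | some g =>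
      refine Set.Finite.subset (crit_finite V g) ?_
      rintro q ⟨f, hf, hq⟩
      rw [Option.some.inj hf]
      exact hq
  have hCm : ∀ f : RatFunc L, some f ∈ α.support → ∀ q ∈ V.crit f, q ∈ C := by
    intro f hf q hq
    rw [hCd]
    exact Set.mem_biUnion (x := some f) hf ⟨f, rfl, hq⟩
  obtain ⟨b, hb⟩ := hC.bddAbove
  obtain ⟨a, ha⟩ := hC.bddBelow
  have hab : min a b - 1 < max a b + 1 := by
    have h1 := min_le_left a b
    have h2 := le_max_left a b
    linarith
  have k1 := chain_abs H C hC (fun q => specZ 0 ((W q).rdZ α)) (fun q => specIZ ((W q).rdZ α))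
    (fun q => hα q (W q) (hW q)) (by
      intro a b hab hq
      rw [eP, eM]
      apply Finsupp.mapDomain_congr
      intro x hx
      cases x with
      | none => rfl
      | some f => exact chain_step V hab (W a) (W b) (hW a) (hW b) f (fun q hq' => hq q (hCm f hx q hq')))
    (min a b - 1) (max a b + 1) hab
  have k2 : specZ 0 ((W (max a b + 1)).rdZ α) = V.rdZ (specZ 0 α) := by
    rw [eP, eP']
    apply Finsupp.mapDomain_congr
    intro x hx
    cases x with
    | none => rfl
    | some f =>
      refine chain_top V (W (max a b + 1)) (hW _) f (fun q hq => ?_)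
      have h1 := hb (hCm f hx q hq)
      have h2 := le_max_right a b
      linarith
  have k3 : specIZ ((W (min a b - 1)).rdZ α) = V.rdZ (specIZ α) := by
    rw [eM, eM']
    apply Finsupp.mapDomain_congr
    intro x hx
    cases x with
    | none => rfl
    | some f =>
      refine chain_bot V (W (min a b - 1)) (hW _) f (fun q hq => ?_)
      have h1 := ha (hCm f hx q hq)
      have h2 := min_le_left a b
      linarith
  have e : V.rdZ (specZ 0 α) - V.rdZ (specIZ α) =
      (specZ 0 ((W (max a b + 1)).rdZ α) - specIZ ((W (max a b + 1)).rdZ α)) -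
      (specZ 0 ((W (min a b - 1)).rdZ α) - specIZ ((W (max a b + 1)).rdZ α)) +
      (specZ 0 ((W (min a b - 1)).rdZ α) - specIZ ((W (min a b - 1)).rdZ α)) := by
    rw [k2, k3]
    abel
  rw [e]
  exact H.add_mem (H.sub_mem (hα _ _ (hW _)) k1) (hα _ _ (hW _))

end QPL
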