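import Pool.Agent.QPL.Calc

set_option autoImplicit false

/-!
# QPL-9: finitely many critical values

For each of the finitely many `(c, d, i, j)` (coefficients of `f.num`, `f.denom` at `i`, `j` in the
supports) with `i ≠ j` there is one `q`, namely `(v d - v c) / (i - j)`.
-/

noncomputable section

open Polynomial
open scoped Classical

namespace QPL

open Helper14.Gon

universe u v w

variable {L : Type u} {k : Type v} [Field L] [Field k]

/-- the coefficient at `i` of the numerator or the denominator -/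
private def crit_co (f : RatFunc L) (a : Bool) (i : ℕ) : L :=
  if a then f.num.coeff i else f.denom.coeff i

private theorem crit_bd (f : RatFunc L) {c : L} {i : ℕ} (h0 : c ≠ 0)
    (h : c = f.num.coeff i ∨ c = f.denom.coeff i) :
    ∃ a : Bool, c = crit_co f a i ∧ i < f.num.natDegree + f.denom.natDegree + 1 := by
  rcases h with h | h
  · refine ⟨true, h, ?_⟩
    have h1 : i ≤ f.num.natDegree := Polynomial.le_natDegree_of_ne_zero (by rw [← h]; exact h0)
    omega
  · refine ⟨false, h, ?_⟩
    have h1 : i ≤ f.denom.natDegree := Polynomial.le_natDegree_of_ne_zero (by rw [← h]; exact h0)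
    omega

theorem crit_finite (V : AC L k) (f : RatFunc L) : (V.crit f).Finite := by
  refine Set.Finite.subset (Set.Finite.image (fun x : (ℕ × ℕ) × (Bool × Bool) =>
    (V.v (crit_co f x.2.2 x.1.2) - V.v (crit_co f x.2.1 x.1.1)) / ((x.1.1 : ℚ) - (x.1.2 : ℚ)))
    ((((Finset.range (f.num.natDegree + f.denom.natDegree + 1)) ×ˢ
      (Finset.range (f.num.natDegree + f.denom.natDegree + 1))) ×ˢ
      (Finset.univ : Finset (Bool × Bool))).finite_toSet)) ?_
  rintro q ⟨c, d, i, j, hc, hd, hij, hc1, hd1, h⟩
  obtain ⟨a, ha, hi⟩ := crit_bd f hc hc1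
  obtain ⟨b, hb, hj⟩ := crit_bd f hd hd1
  refine ⟨((i, j), (a, b)), ?_, ?_⟩
  · rw [Finset.mem_coe, Finset.mem_product, Finset.mem_product, Finset.mem_range, Finset.mem_range]
    exact ⟨⟨hi, hj⟩, Finset.mem_univ _⟩
  · have h1 : (i : ℚ) - (j : ℚ) ≠ 0 := by
      rw [sub_ne_zero]
      exact_mod_cast hij
    change (V.v (crit_co f b j) - V.v (crit_co f a i)) / ((i : ℚ) - (j : ℚ)) = q
    rw [← ha, ← hb, div_eq_iff h1]
    linarith

end QPL
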