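import Pool.Agent.QPL.Main
import Pool.Agent.QPL.ReT

set_option autoImplicit false

/-!
# QPL-24: residues on the terms `B_m ⊗ Λ^j ⊗ ℚ`

The additive map `x ↦ PB (m+2) j (cl (m+2) (V.rd x)) ∘ reT V j` on `ℤ[P¹(L)]` vanishes on
`R (m+2) L`: a positive multiple of `V.rdZ ξ` is in `R (m+2) k` (`rdZ_R`) and the target is a
`ℚ`-space.  So it factors through `B (m+2) L`; then `liftC`.
-/

noncomputable section

open Polynomial TensorProduct
open scoped Classical

namespace QPL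

open Helper14.Gon Helper14.W4 TGF

universe u v w

variable {L : Type u} {k : Type v} [Field L] [Field k]

private theorem cxmap_kill (m : ℕ) (V : AC L k) (j : ℕ) {β : ZP L} (hβ : β ∈ R (m + 2) L) :
    (PB (m + 2) j (QuotientAddGroup.mk (V.rdZ β) : B (m + 2) k)) ∘ₗ (reT V j) = 0 := by
  obtain ⟨N, hN, h1⟩ := rdZ_R m V β hβ
  have h2 : N • (QuotientAddGroup.mk (V.rdZ β) : B (m + 2) k) = 0 :=
    (QuotientAddGroup.eq_zero_iff _).2 h1
  have h3 : PB (m + 2) j (QuotientAddGroup.mk (V.rdZ β) : B (m + 2) k) = 0 := by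
    have h4 : N • PB (m + 2) j (QuotientAddGroup.mk (V.rdZ β) : B (m + 2) k) = 0 := by
      rw [← map_nsmul, h2, map_zero]
    have h5 : ((N : ℚ)) • PB (m + 2) j (QuotientAddGroup.mk (V.rdZ β) : B (m + 2) k) = 0 := by
      rw [Nat.cast_smul_eq_nsmul]
      exact h4
    rcases smul_eq_zero.1 h5 with h6 | h6
    · exact absurd (Nat.cast_eq_zero.1 h6) hN.ne'
    · exact h6
  rw [h3, LinearMap.zero_comp]

theorem exists_reC (m : ℕ) (V : AC L k) (j : ℕ) : ∃ ρ : Cx (m + 2) (j + 1) L →ₗ[ℚ] Cx (m + 2) j k,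
    ∀ (x : P1 L) (ω : Tx (j + 1) L), ρ (PB (m + 2) (j + 1) (cl (m + 2) x) ω) =
      PB (m + 2) j (cl (m + 2) (V.rd x)) (reT V j ω) := by
  refine ⟨liftC (QuotientAddGroup.lift (R (m + 2) L)
    (AddMonoidHom.mk' (fun α => (PB (m + 2) j (QuotientAddGroup.mk (V.rdZ α))) ∘ₗ (reT V j))
      (by
        intro a b
        rw [map_add, QuotientAddGroup.mk_add, map_add]
        rfl)) (fun β hβ => cxmap_kill m V j hβ)), fun x ω => ?_⟩
  rw [liftC_PB]
  change PB (m + 2) j (QuotientAddGroup.mk (V.rdZ (br x))) (reT V j ω) = _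
  have h : V.rdZ (br x) = br (V.rd x) := AC.rdZ_single V x 1
  rw [h]

/-- The residue on `B_(m+2) ⊗ Λ^(j+1) ⊗ ℚ`. -/
def reC (m : ℕ) (V : AC L k) (j : ℕ) : Cx (m + 2) (j + 1) L →ₗ[ℚ] Cx (m + 2) j k :=
  (exists_reC m V j).choose

theorem reC_PB (m : ℕ) (V : AC L k) (j : ℕ) (x : P1 L) (ω : Tx (j + 1) L) :
    reC m V j (PB (m + 2) (j + 1) (cl (m + 2) x) ω) =
      PB (m + 2) j (cl (m + 2) (V.rd x)) (reT V j ω) := (exists_reC m V j).choose_spec x ω

private theorem cxmap_pt (m : ℕ) (V : AC L k) (j : ℕ) (x : L) (ω : Tx j k) :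
    PB (m + 2) j (cl (m + 2) (V.rd (some x))) ω =
      if x = 0 ∨ V.v x = 0 then PB (m + 2) j (cl (m + 2) (some (V.lc x))) ω else 0 := by
  have h0 : (cl (m + 2) (some 0) : B (m + 2) k) = 0 :=
    (QuotientAddGroup.eq_zero_iff _).2 (br_zero_mem (m + 1))
  have hi : (cl (m + 2) (none : P1 k) : B (m + 2) k) = 0 :=
    (QuotientAddGroup.eq_zero_iff _).2 (br_inf_mem (m + 1))
  by_cases hx : x = 0
  · rw [if_pos (Or.inl hx), hx, AC.rd_zero, map_zero]
  · by_cases hv : V.v x = 0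
    · rw [if_pos (Or.inr hv), AC.rd_unit V hx hv]
    · rw [if_neg (fun h => h.elim hx hv)]
      rcases lt_or_gt_of_ne hv with h | h
      · rw [AC.rd_neg V hx h, hi, map_zero]
        rfl
      · rw [AC.rd_pos V h, h0, map_zero]
        rfl

theorem c3_reX (V : AC L k) (j : ℕ) (z : X (j + 1) L) :
    c3 j (reX V j z) = reC 1 V j (c3 (j + 1) z) := by
  have h : (c3 j) ∘ₗ (reX V j) = (reC 1 V j) ∘ₗ (c3 (j + 1)) := by
    refine x_ext fun x ω => ?_
    rw [LinearMap.comp_apply, LinearMap.comp_apply, reX_bx, c3_bx]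
    have h1 := reC_PB 1 V j (some x) ω
    have h2 := cxmap_pt 1 V j x (reT V j ω)
    refine Eq.trans ?_ (h2.symm.trans h1.symm)
    split_ifs
    · rw [c3_bx]
    · rw [map_zero]
  exact LinearMap.congr_fun h z

theorem c2_reX (V : AC L k) (j : ℕ) (z : X (j + 1) L) :
    c2 j (reX V j z) = reC 0 V j (c2 (j + 1) z) := by
  have h : (c2 j) ∘ₗ (reX V j) = (reC 0 V j) ∘ₗ (c2 (j + 1)) := by
    refine x_ext fun x ω => ?_
    rw [LinearMap.comp_apply, LinearMap.comp_apply, reX_bx, c2_bx]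
    have h1 := reC_PB 0 V j (some x) ω
    have h2 := cxmap_pt 0 V j x (reT V j ω)
    refine Eq.trans ?_ (h2.symm.trans h1.symm)
    split_ifs
    · rw [c2_bx]
    · rw [map_zero]
  exact LinearMap.congr_fun h z

end QPL
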