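import Pool.Agent.Helper14.Gon.Basic

set_option autoImplicit false

/-!
# Places with leading coefficients

`AC A k` : a rational valuation `v` on a domain `A` (for instance a field) together with a
multiplicative leading coefficient `lc : A → k`, compatible with addition.
The reduction map is `rd : P¹(L) → P¹(k)`.
-/

noncomputable section

open Polynomial
open scoped Classical

namespace QPL

open Helper14.Gon

universe u v w

/-- A rational valuation with leading coefficients. -/
structure AC (A : Type u) (k : Type v) [CommRing A] [Field k] where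
  /-- the valuation (its value at `0` is not used) -/
  v : A → ℚ
  /-- the leading coefficient -/
  lc : A →*₀ k
  lc_ne : ∀ {x : A}, x ≠ 0 → lc x ≠ 0
  v_mul : ∀ {x y : A}, x ≠ 0 → y ≠ 0 → v (x * y) = v x + v y
  add_lt : ∀ {x y : A}, x ≠ 0 → (y = 0 ∨ v x < v y) →
    x + y ≠ 0 ∧ v (x + y) = v x ∧ lc (x + y) = lc x
  add_ne : ∀ {x y : A}, x ≠ 0 → y ≠ 0 → v x = v y → lc x + lc y ≠ 0 →
    x + y ≠ 0 ∧ v (x + y) = v x ∧ lc (x + y) = lc x + lc y
  add_eq : ∀ {x y : A}, x ≠ 0 → y ≠ 0 → v x = v y → lc x + lc y = 0 →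
    x + y = 0 ∨ v x < v (x + y)

section
variable {A : Type u} {k : Type v} [CommRing A] [Field k]

/-- `x` has valuation `≥ m`. -/
def AC.ge (V : AC A k) (m : ℚ) (x : A) : Prop := x = 0 ∨ m ≤ V.v x

/-- The coefficient of `x` in degree `m`. -/
def AC.ini (V : AC A k) (m : ℚ) (x : A) : k := if x ≠ 0 ∧ V.v x = m then V.lc x else 0

end

section
variable {L : Type u} {k : Type v} [Field L] [Field k]

/-- The reduction map on `P¹`. -/
def AC.rd (V : AC L k) : P1 L → P1 k
  | none => none
  | some x => if x ≠ 0 ∧ V.v x < 0 then none else some (V.ini 0 x)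

/-- The reduction map on `ℤ[P¹]`. -/
def AC.rdZ (V : AC L k) : ZP L →+ ZP k := Finsupp.mapDomain.addMonoidHom V.rd

/-- The valuation, as a homomorphism on `L^*`. -/
def AC.vH (V : AC L k) : Additive Lˣ →+ ℚ where
  toFun x := V.v (x.toMul : L)
  map_zero' := by
    have h := V.v_mul (x := (1 : L)) (y := 1) one_ne_zero one_ne_zero
    rw [mul_one] at h
    have h2 : V.v (1 : L) = 0 := by linarith
    simpa using h2
  map_add' x y := by
    simpa using V.v_mul (x := (x.toMul : L)) (y := (y.toMul : L)) (Units.ne_zero _) (Units.ne_zero _)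

/-- The leading coefficient, as a homomorphism on `L^*`. -/
def AC.lH (V : AC L k) : Additive Lˣ →+ Additive kˣ :=
  MonoidHom.toAdditive (Units.map (V.lc : L →* k))

/-- The restriction of `V` along a map of fields. -/
def AC.comap {K : Type w} [Field K] (V : AC L k) (φ : K →+* L) : AC K k where
  v x := V.v (φ x)
  lc := V.lc.comp φ.toMonoidWithZeroHom
  lc_ne h := V.lc_ne ((map_ne_zero φ).2 h)
  v_mul hx hy := by
    rw [map_mul]; exact V.v_mul ((map_ne_zero φ).2 hx) ((map_ne_zero φ).2 hy)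
  add_lt {x y} hx hy := by
    have h := V.add_lt (x := φ x) (y := φ y) ((map_ne_zero φ).2 hx)
      (hy.imp (fun h => by rw [h, map_zero]) id)
    rw [← map_add] at h
    exact ⟨(map_ne_zero φ).1 h.1, h.2.1, h.2.2⟩
  add_ne {x y} hx hy h1 h2 := by
    have h := V.add_ne (x := φ x) (y := φ y) ((map_ne_zero φ).2 hx) ((map_ne_zero φ).2 hy) h1 h2
    rw [← map_add] at h
    exact ⟨(map_ne_zero φ).1 h.1, h.2.1, h.2.2⟩
  add_eq {x y} hx hy h1 h2 := by
    have h := V.add_eq (x := φ x) (y := φ y) ((map_ne_zero φ).2 hx) ((map_ne_zero φ).2 hy) h1 h2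
    rw [← map_add] at h
    exact h.imp (fun h => (map_eq_zero φ).1 h) id

/-- The trivial valuation; the leading coefficient is an embedding of fields. -/
def AC.emb (φ : L →+* k) : AC L k where
  v _ := 0
  lc := φ.toMonoidWithZeroHom
  lc_ne h := (map_ne_zero φ).2 h
  v_mul _ _ := by simp
  add_lt {x y} hx hy := by
    rcases hy with rfl | h
    · simpa using hx
    · exact absurd h (lt_irrefl _)
  add_ne {x y} hx hy h1 h2 := by
    have h3 : φ (x + y) ≠ 0 := by rw [map_add]; exact h2
    exact ⟨(map_ne_zero φ).1 h3, rfl, by simp⟩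
  add_eq {x y} hx hy h1 h2 := by
    left
    have h3 : φ (x + y) = 0 := by rw [map_add]; exact h2
    exact (map_eq_zero φ).1 h3

/-- The leading coefficients, in a larger field. -/
def AC.push {l : Type w} [Field l] (V : AC L k) (ψ : k →+* l) : AC L l where
  v := V.v
  lc := ψ.toMonoidWithZeroHom.comp V.lc
  lc_ne h := (map_ne_zero ψ).2 (V.lc_ne h)
  v_mul := V.v_mul
  add_lt {x y} hx hy := by
    obtain ⟨h1, h2, h3⟩ := V.add_lt hx hy
    exact ⟨h1, h2, congrArg ψ h3⟩
  add_ne {x y} hx hy h1 h2 := by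
    have h2' : V.lc x + V.lc y ≠ 0 := by
      intro h
      apply h2
      change ψ (V.lc x) + ψ (V.lc y) = 0
      rw [← map_add, h, map_zero]
    obtain ⟨h3, h4, h5⟩ := V.add_ne hx hy h1 h2'
    refine ⟨h3, h4, ?_⟩
    change ψ (V.lc (x + y)) = ψ (V.lc x) + ψ (V.lc y)
    rw [h5, map_add]
  add_eq {x y} hx hy h1 h2 := by
    refine V.add_eq hx hy h1 ((map_eq_zero ψ).1 ?_)
    rw [map_add]; exact h2

/-- All coefficients `p_i` of `P` have `v(p_i) + i q ≥ m`. -/
def AC.geP (V : AC L k) (q m : ℚ) (P : L[X]) : Prop := ∀ i : ℕ, V.ge (m - i * q) (P.coeff i)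

/-- The part of degree `m` of `P`, the variable having degree `q`. -/
def AC.iniP (V : AC L k) (q m : ℚ) (P : L[X]) : k[X] :=
  ∑ i ∈ P.support, monomial i (V.ini (m - i * q) (P.coeff i))

/-- `W` is the monomial extension of `V` to `L(s)` for which `s` has value `q` and leading
coefficient `s`. -/
def IsMono (V : AC L k) (q : ℚ) (W : AC (RatFunc L) (RatFunc k)) : Prop :=
  ∀ (m : ℚ) (P : L[X]), V.geP q m P →
    W.ge m (algebraMap L[X] (RatFunc L) P) ∧
      W.ini m (algebraMap L[X] (RatFunc L) P) = algebraMap k[X] (RatFunc k) (V.iniP q m P)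

/-- `q` is critical for `f = P/Q`: two monomials of different degree of `P` or `Q` have the
same value. -/
def AC.crit (V : AC L k) (f : RatFunc L) : Set ℚ :=
  {q | ∃ (c d : L) (i j : ℕ), c ≠ 0 ∧ d ≠ 0 ∧ i ≠ j ∧
    (c = f.num.coeff i ∨ c = f.denom.coeff i) ∧ (d = f.num.coeff j ∨ d = f.denom.coeff j) ∧
    V.v c + i * q = V.v d + j * q}

/-- The value at `∞` of a point of `P¹(k(t))`. -/
def specI : P1 (RatFunc k) → P1 k
  | none => none
  | some f => if f.denom.natDegree < f.num.natDegree then none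
      else some (f.num.coeff f.denom.natDegree / f.denom.leadingCoeff)

/-- The value at `∞`, on `ℤ[P¹(k(t))]`. -/
def specIZ : ZP (RatFunc k) →+ ZP k := Finsupp.mapDomain.addMonoidHom specI

/-- The valuation of `k(t)` at `t = c`, uniformizer `t - c`. -/
structure IsAt (c : k) (W : AC (RatFunc k) k) : Prop where
  rd : W.rd = spec c
  v : ∀ P : k[X], P ≠ 0 → W.v (algebraMap k[X] (RatFunc k) P) = (P.rootMultiplicity c : ℚ)
  lc : ∀ P : k[X], P ≠ 0 → W.lc (algebraMap k[X] (RatFunc k) P) =
    (P /ₘ (X - C c) ^ P.rootMultiplicity c).eval c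

/-- The valuation of `k(t)` at `t = ∞`, uniformizer `1/t`. -/
structure IsInf (W : AC (RatFunc k) k) : Prop where
  rd : W.rd = specI
  v : ∀ P : k[X], P ≠ 0 → W.v (algebraMap k[X] (RatFunc k) P) = -(P.natDegree : ℚ)
  lc : ∀ P : k[X], P ≠ 0 → W.lc (algebraMap k[X] (RatFunc k) P) = P.leadingCoeff

end

/-- The elements with a positive multiple in `R_n(k)`. -/
def RQ (n : ℕ) (k : Type u) [Field k] : AddSubgroup (ZP k) where
  carrier := {ξ | ∃ N : ℕ, 0 < N ∧ N • ξ ∈ R n k}
  zero_mem' := ⟨1, one_pos, by simp⟩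
  add_mem' := by
    rintro a b ⟨N, hN, ha⟩ ⟨M, hM, hb⟩
    refine ⟨N * M, Nat.mul_pos hN hM, ?_⟩
    rw [smul_add]
    refine (R n k).add_mem ?_ ?_
    · rw [mul_comm, mul_smul]; exact (R n k).nsmul_mem ha M
    · rw [mul_smul]; exact (R n k).nsmul_mem hb N
  neg_mem' := by
    rintro a ⟨N, hN, ha⟩
    exact ⟨N, hN, by rw [smul_neg]; exact (R n k).neg_mem ha⟩

end QPL
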