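import Pool.Agent.QPL.Calc

set_option autoImplicit false

/-!
# QPL-22: the place of the field of Laurent series

`HahnSeries.order_mul`, `HahnSeries.leadingCoeff_mul`, coefficients: `x ≠ 0`:
`x.coeff x.order = x.leadingCoeff ≠ 0`, `x.coeff n = 0` for `n < x.order`.
-/

noncomputable section

open Polynomial
open scoped Classical

namespace QPL

open Helper14.Gon

universe u v w

private theorem laurent_key {k : Type u} [Field k] {x : LaurentSeries k} {n : ℤ}
    (h : x.coeff n ≠ 0) (h' : ∀ m < n, x.coeff m = 0) :
    x ≠ 0 ∧ HahnSeries.order x = n ∧ HahnSeries.leadingCoeff x = x.coeff n := by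
  have hx : x ≠ 0 := by
    rintro rfl
    exact h rfl
  have h1 : HahnSeries.order x ≤ n := HahnSeries.order_le_of_coeff_ne_zero h
  have h2 : HahnSeries.order x = n := by
    rcases lt_or_eq_of_le h1 with h3 | h3
    · exact absurd (HahnSeries.coeff_order_eq_zero.1 (h' _ h3)) hx
    · exact h3
  exact ⟨hx, h2, by rw [HahnSeries.leadingCoeff_eq, h2]⟩

private theorem laurent_add {k : Type u} [Field k] {x y : LaurentSeries k} (n : ℤ) :
    (x + y).coeff n = x.coeff n + y.coeff n := rfl

private theorem laurent_lt {k : Type u} [Field k] {x y : LaurentSeries k} (hx : x ≠ 0)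
    (h : y = 0 ∨ HahnSeries.order x < HahnSeries.order y) :
    x + y ≠ 0 ∧ HahnSeries.order (x + y) = HahnSeries.order x ∧
      HahnSeries.leadingCoeff (x + y) = HahnSeries.leadingCoeff x := by
  rcases h with rfl | h
  · rw [add_zero]
    exact ⟨hx, rfl, rfl⟩
  · have e : (x + y).coeff (HahnSeries.order x) = HahnSeries.leadingCoeff x := by
      rw [laurent_add, HahnSeries.coeff_eq_zero_of_lt_order h, add_zero, HahnSeries.leadingCoeff_eq]
    have h1 := laurent_key (x := x + y) (n := HahnSeries.order x)
      (by rw [e]; exact HahnSeries.leadingCoeff_ne_zero.2 hx)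
      (fun m hm => by
        rw [laurent_add, HahnSeries.coeff_eq_zero_of_lt_order hm,
          HahnSeries.coeff_eq_zero_of_lt_order (hm.trans h), add_zero])
    exact ⟨h1.1, h1.2.1, h1.2.2.trans e⟩

private theorem laurent_ne {k : Type u} [Field k] {x y : LaurentSeries k}
    (h : HahnSeries.order x = HahnSeries.order y)
    (hl : HahnSeries.leadingCoeff x + HahnSeries.leadingCoeff y ≠ 0) :
    x + y ≠ 0 ∧ HahnSeries.order (x + y) = HahnSeries.order x ∧
      HahnSeries.leadingCoeff (x + y) = HahnSeries.leadingCoeff x + HahnSeries.leadingCoeff y := by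
  have e : (x + y).coeff (HahnSeries.order x) =
      HahnSeries.leadingCoeff x + HahnSeries.leadingCoeff y := by
    rw [laurent_add, HahnSeries.leadingCoeff_eq, HahnSeries.leadingCoeff_eq, h]
  have h1 := laurent_key (x := x + y) (n := HahnSeries.order x)
    (by rw [e]; exact hl)
    (fun m hm => by
      rw [laurent_add, HahnSeries.coeff_eq_zero_of_lt_order hm,
        HahnSeries.coeff_eq_zero_of_lt_order (h ▸ hm), add_zero])
  exact ⟨h1.1, h1.2.1, h1.2.2.trans e⟩

private theorem laurent_eq {k : Type u} [Field k] {x y : LaurentSeries k}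
    (h : HahnSeries.order x = HahnSeries.order y)
    (hl : HahnSeries.leadingCoeff x + HahnSeries.leadingCoeff y = 0) :
    x + y = 0 ∨ HahnSeries.order x < HahnSeries.order (x + y) := by
  by_cases h0 : x + y = 0
  · exact Or.inl h0
  · right
    by_contra hc
    have hc' := not_lt.1 hc
    have h1 : (x + y).coeff (HahnSeries.order (x + y)) ≠ 0 := fun h2 =>
      h0 (HahnSeries.coeff_order_eq_zero.1 h2)
    apply h1
    rcases lt_or_eq_of_le hc' with h3 | h3
    · rw [laurent_add, HahnSeries.coeff_eq_zero_of_lt_order h3,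
        HahnSeries.coeff_eq_zero_of_lt_order (h ▸ h3), add_zero]
    · rw [HahnSeries.leadingCoeff_eq, HahnSeries.leadingCoeff_eq, ← h] at hl
      rw [laurent_add, h3]
      exact hl

theorem exists_laurent (k : Type u) [Field k] : ∃ W : AC (LaurentSeries k) k,
    ∀ x : LaurentSeries k, x ≠ 0 →
      W.v x = ((HahnSeries.order x : ℤ) : ℚ) ∧ W.lc x = HahnSeries.leadingCoeff x := by
  refine ⟨{ v := fun x => ((HahnSeries.order x : ℤ) : ℚ)
            lc := { toFun := HahnSeries.leadingCoeff
                    map_zero' := HahnSeries.leadingCoeff_zero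
                    map_one' := HahnSeries.leadingCoeff_one
                    map_mul' := fun x y => HahnSeries.leadingCoeff_mul x y }
            lc_ne := fun {x} hx => HahnSeries.leadingCoeff_ne_zero.2 hx
            v_mul := fun {x y} hx hy => ?_
            add_lt := fun {x y} hx hy => ?_
            add_ne := fun {x y} hx hy h1 h2 => ?_
            add_eq := fun {x y} hx hy h1 h2 => ?_ }, fun x _ => ⟨rfl, rfl⟩⟩
  · rw [HahnSeries.order_mul hx hy]
    exact Int.cast_add _ _
  · have h1 := laurent_lt (y := y) hx (hy.imp id (fun h => by exact_mod_cast h))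
    exact ⟨h1.1, by rw [h1.2.1], h1.2.2⟩
  · have h3 := laurent_ne (x := x) (y := y) (by exact_mod_cast h1) h2
    exact ⟨h3.1, by rw [h3.2.1], h3.2.2⟩
  · exact (laurent_eq (x := x) (y := y) (by exact_mod_cast h1) h2).imp id
      (fun h => by exact_mod_cast h)

end QPL
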