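import Pool.Agent.QPL.At
import Pool.Agent.QPL.Quot
import Pool.Agent.Helper14.Gon.Fun

set_option autoImplicit false

/-!
# QPL-13: the involution `t ↦ t / (t - 1)`

`μ` is `sub φ h` with `φ P = P(t / (t - 1))`; for `f = A / B` one has `μ f = A^h / B^h`, where
`A^h = Σ a_i X^i (X - 1)^(N - i)`, `N = max (deg A) (deg B)`; `A^h(0) = ± A(0)`, `A^h(1) = a_N`, and
the coefficient of `A^h` in degree `N` is `A(1)`.
-/

noncomputable section

open Polynomial
open scoped Classical

namespace QPL

open Helper14.Gon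

universe u v w

variable {k : Type u} [Field k]

/-- homogenisation -/
private def mob_h (N : ℕ) (P : k[X]) : k[X] :=
  ∑ i ∈ Finset.range (N + 1), C (P.coeff i) * (X ^ i * (X - C 1) ^ (N - i))

private def mob_t (k : Type u) [Field k] : RatFunc k :=
  algebraMap k[X] (RatFunc k) X / algebraMap k[X] (RatFunc k) (X - C 1)

private def mob_f (k : Type u) [Field k] : k[X] →+* RatFunc k :=
  eval₂RingHom ((algebraMap k[X] (RatFunc k)).comp C) (mob_t k)

private lemma mob_ne (k : Type u) [Field k] : algebraMap k[X] (RatFunc k) (X - C 1) ≠ 0 := by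
  rw [Ne, map_eq_zero_iff _ (RatFunc.algebraMap_injective k)]
  exact X_sub_C_ne_zero 1

private lemma mob_map (N : ℕ) (P : k[X]) (hP : P.natDegree ≤ N) :
    algebraMap k[X] (RatFunc k) (mob_h N P) =
      mob_f k P * algebraMap k[X] (RatFunc k) (X - C 1) ^ N := by
  have h1 : mob_f k P = ∑ i ∈ Finset.range (N + 1),
      algebraMap k[X] (RatFunc k) (C (P.coeff i)) * mob_t k ^ i := by
    show eval₂ _ _ P = _
    rw [eval₂_eq_sum_range' _ (Nat.lt_succ_of_le hP)]
    rfl
  rw [h1, mob_h, map_sum, Finset.sum_mul]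
  refine Finset.sum_congr rfl fun i hi => ?_
  have hi' : i ≤ N := Nat.lt_succ_iff.1 (Finset.mem_range.1 hi)
  rw [map_mul, map_mul, map_pow, map_pow, mul_assoc]
  congr 1
  rw [mob_t, div_pow]
  have h2 : algebraMap k[X] (RatFunc k) (X - C 1) ^ N =
      algebraMap k[X] (RatFunc k) (X - C 1) ^ i * algebraMap k[X] (RatFunc k) (X - C 1) ^ (N - i) := by
    rw [← pow_add, Nat.add_sub_cancel' hi']
  rw [h2]
  have h3 : algebraMap k[X] (RatFunc k) (X - C 1) ^ i ≠ 0 := pow_ne_zero _ (mob_ne k)
  field_simp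

private lemma mob_e0 (N : ℕ) (P : k[X]) : (mob_h N P).eval 0 = P.eval 0 * (-1) ^ N := by
  rw [mob_h, eval_finsetSum, Finset.sum_eq_single 0]
  · rw [eval_mul, eval_C, eval_mul, eval_pow, eval_X, eval_pow, eval_sub, eval_X, eval_C,
      coeff_zero_eq_eval_zero]
    simp
  · intro i _ hi
    rw [eval_mul, eval_mul, eval_pow, eval_X, zero_pow hi]
    ring
  · intro h
    exact absurd (Finset.mem_range.2 (Nat.succ_pos N)) h

private lemma mob_e1 (N : ℕ) (P : k[X]) : (mob_h N P).eval 1 = P.coeff N := by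
  rw [mob_h, eval_finsetSum, Finset.sum_eq_single N]
  · rw [eval_mul, eval_C, eval_mul, eval_pow, eval_X]
    simp
  · intro i hi hiN
    have hi' : i ≤ N := Nat.lt_succ_iff.1 (Finset.mem_range.1 hi)
    have h1 : N - i ≠ 0 := by omega
    rw [eval_mul, eval_mul, eval_pow (n := N - i), eval_sub, eval_X, eval_C (x := (1 : k)) (a := 1),
      sub_self, zero_pow h1, mul_zero, mul_zero]
  · intro h
    exact absurd (Finset.mem_range.2 (Nat.lt_succ_self N)) h

private lemma mob_deg1 (N i : ℕ) (hi : i ≤ N) :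
    (X ^ i * (X - C 1) ^ (N - i) : k[X]).natDegree ≤ N := by
  refine natDegree_mul_le.trans ?_
  rw [natDegree_X_pow, natDegree_pow, natDegree_X_sub_C]
  omega

private lemma mob_deg (N : ℕ) (P : k[X]) : (mob_h N P).natDegree ≤ N := by
  rw [mob_h]
  refine natDegree_sum_le_of_forall_le _ _ fun i hi => ?_
  have hi' : i ≤ N := Nat.lt_succ_iff.1 (Finset.mem_range.1 hi)
  exact (natDegree_C_mul_le _ _).trans (mob_deg1 N i hi')

private lemma mob_cN (N : ℕ) (P : k[X]) (hP : P.natDegree ≤ N) :
    (mob_h N P).coeff N = P.eval 1 := by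
  rw [mob_h, finsetSum_coeff, eval_eq_sum_range' (Nat.lt_succ_of_le hP)]
  refine Finset.sum_congr rfl fun i hi => ?_
  have hi' : i ≤ N := Nat.lt_succ_iff.1 (Finset.mem_range.1 hi)
  rw [coeff_C_mul, one_pow]
  congr 1
  have hm : (X ^ i * (X - C 1) ^ (N - i) : k[X]).Monic :=
    (monic_X_pow i).mul ((monic_X_sub_C 1).pow _)
  have hd : (X ^ i * (X - C 1) ^ (N - i) : k[X]).natDegree = N := by
    rw [(monic_X_pow i).natDegree_mul ((monic_X_sub_C 1).pow _), natDegree_X_pow, natDegree_pow,
      natDegree_X_sub_C]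
    omega
  have h1 := hm.coeff_natDegree
  rwa [hd] at h1

private lemma mob_inj (P : k[X]) (h : mob_f k P = 0) : P = 0 := by
  by_contra hP
  have h1 := mob_map P.natDegree P le_rfl
  rw [h, zero_mul, map_eq_zero_iff _ (RatFunc.algebraMap_injective k)] at h1
  have h2 := mob_e1 P.natDegree P
  rw [h1, eval_zero] at h2
  exact hP (leadingCoeff_eq_zero.1 h2.symm)

private lemma mob_cross (P Q : k[X]) (hQ : Q ≠ 0) :
    (algebraMap k[X] (RatFunc k) P / algebraMap k[X] (RatFunc k) Q).num * Q =
      P * (algebraMap k[X] (RatFunc k) P / algebraMap k[X] (RatFunc k) Q).denom := by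
  have h := RatFunc.num_div_denom (algebraMap k[X] (RatFunc k) P / algebraMap k[X] (RatFunc k) Q)
  have hQ' : algebraMap k[X] (RatFunc k) Q ≠ 0 := by
    rwa [Ne, map_eq_zero_iff _ (RatFunc.algebraMap_injective k)]
  have hD : algebraMap k[X] (RatFunc k)
      (algebraMap k[X] (RatFunc k) P / algebraMap k[X] (RatFunc k) Q).denom ≠ 0 := by
    rw [Ne, map_eq_zero_iff _ (RatFunc.algebraMap_injective k)]
    exact RatFunc.denom_ne_zero _
  rw [div_eq_div_iff hD hQ', ← map_mul, ← map_mul] at h
  exact RatFunc.algebraMap_injective k h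

private lemma mob_spec (c : k) (P Q : k[X]) (hQ : Q ≠ 0) (h : ¬ (P.eval c = 0 ∧ Q.eval c = 0)) :
    spec c (some (algebraMap k[X] (RatFunc k) P / algebraMap k[X] (RatFunc k) Q)) =
      if Q.eval c = 0 then none else some (P.eval c / Q.eval c) := by
  have hc := congrArg (eval c) (mob_cross P Q hQ)
  rw [eval_mul, eval_mul] at hc
  have hcop := RatFunc.isCoprime_num_denom
    (algebraMap k[X] (RatFunc k) P / algebraMap k[X] (RatFunc k) Q)
  show (if _ then _ else _) = _
  set f := algebraMap k[X] (RatFunc k) P / algebraMap k[X] (RatFunc k) Q with hf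
  by_cases hQc : Q.eval c = 0
  · have hPc : P.eval c ≠ 0 := fun h0 => h ⟨h0, hQc⟩
    rw [hQc, mul_zero] at hc
    have hd : f.denom.eval c = 0 := (mul_eq_zero.1 hc.symm).resolve_left hPc
    rw [if_pos hd, if_pos hQc]
  · have hd : f.denom.eval c ≠ 0 := by
      intro hd
      rw [hd, mul_zero] at hc
      have hn : f.num.eval c = 0 := (mul_eq_zero.1 hc).resolve_right hQc
      obtain ⟨a, b, hab⟩ := hcop
      have h1 := congrArg (eval c) hab
      rw [eval_add, eval_mul, eval_mul, hd, hn, eval_one] at h1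
      simp at h1
    rw [if_neg hd, if_neg hQc]
    congr 1
    rw [div_eq_div_iff hd hQc]
    exact hc

private lemma mob_specI (N : ℕ) (P Q : k[X]) (hP : P.natDegree ≤ N) (hQN : Q.natDegree ≤ N)
    (hQ : Q ≠ 0) (h : ¬ (P.coeff N = 0 ∧ Q.coeff N = 0)) :
    specI (some (algebraMap k[X] (RatFunc k) P / algebraMap k[X] (RatFunc k) Q)) =
      if Q.coeff N = 0 then none else some (P.coeff N / Q.coeff N) := by
  have hc := mob_cross P Q hQ
  show (if _ then _ else _) = _
  set f := algebraMap k[X] (RatFunc k) P / algebraMap k[X] (RatFunc k) Q with hf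
  have hd0 : f.denom ≠ 0 := RatFunc.denom_ne_zero f
  have hdeg := congrArg natDegree hc
  by_cases hQc : Q.coeff N = 0
  · have hPc : P.coeff N ≠ 0 := fun h0 => h ⟨h0, hQc⟩
    have hP0 : P ≠ 0 := fun h0 => hPc (by rw [h0, coeff_zero])
    have hPd : P.natDegree = N := le_antisymm hP (le_natDegree_of_ne_zero hPc)
    have hn0 : f.num ≠ 0 := by
      intro h0
      rw [h0, zero_mul] at hc
      exact (mul_ne_zero hP0 hd0) hc.symm
    have hQd : Q.natDegree < N := by
      refine lt_of_le_of_ne hQN fun h0 => ?_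
      rw [← h0] at hQc
      exact hQ (leadingCoeff_eq_zero.1 hQc)
    rw [natDegree_mul hn0 hQ, natDegree_mul hP0 hd0, hPd] at hdeg
    rw [if_pos (by omega), if_pos hQc]
  · have hQd : Q.natDegree = N := le_antisymm hQN (le_natDegree_of_ne_zero hQc)
    have hle : f.num.natDegree ≤ f.denom.natDegree := by
      by_cases hn0 : f.num = 0
      · rw [hn0, natDegree_zero]
        exact Nat.zero_le _
      · have hP0 : P ≠ 0 := by
          intro h0
          rw [h0, zero_mul] at hc
          exact (mul_ne_zero hn0 hQ) hc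
        rw [natDegree_mul hn0 hQ, natDegree_mul hP0 hd0] at hdeg
        omega
    rw [if_neg (by omega), if_neg hQc]
    congr 1
    have hl : f.denom.leadingCoeff ≠ 0 := leadingCoeff_ne_zero.2 hd0
    rw [div_eq_div_iff hl hQc]
    have h1 := congrArg (fun R : k[X] => R.coeff (f.denom.natDegree + N)) hc
    rw [coeff_mul_add_eq_of_natDegree_le hle hQN, mul_comm P f.denom,
      coeff_mul_add_eq_of_natDegree_le le_rfl hP] at h1
    rw [h1, leadingCoeff, mul_comm]

theorem exists_mob (k : Type u) [Field k] : ∃ μ : RatFunc k →+* RatFunc k,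
    (∀ x, spec 0 (mapP μ x) = spec 0 x) ∧ (∀ x, spec 1 (mapP μ x) = specI x) ∧
    (∀ x, specI (mapP μ x) = spec 1 x) := by
  refine ⟨sub (mob_f k) mob_inj, ?_⟩
  -- the value of the map at `f`
  have key : ∀ f : RatFunc k, ∃ N : ℕ, f.num.natDegree ≤ N ∧ f.denom.natDegree ≤ N ∧
      ¬ (f.num.coeff N = 0 ∧ f.denom.coeff N = 0) ∧ mob_h N f.denom ≠ 0 ∧
      sub (mob_f k) mob_inj f = algebraMap k[X] (RatFunc k) (mob_h N f.num) /
        algebraMap k[X] (RatFunc k) (mob_h N f.denom) := by
    intro f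
    refine ⟨max f.num.natDegree f.denom.natDegree, le_max_left _ _, le_max_right _ _, ?_, ?_, ?_⟩
    · rintro ⟨h1, h2⟩
      have hd0 : f.denom ≠ 0 := RatFunc.denom_ne_zero f
      rcases le_total f.num.natDegree f.denom.natDegree with h | h
      · rw [max_eq_right h] at h2
        exact hd0 (leadingCoeff_eq_zero.1 h2)
      · rw [max_eq_left h] at h1 h2
        have h3 : f.num = 0 := leadingCoeff_eq_zero.1 h1
        have h4 : f.denom.natDegree = f.num.natDegree := by
          rw [h3, natDegree_zero] at h ⊢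
          omega
        rw [← h4] at h2
        exact hd0 (leadingCoeff_eq_zero.1 h2)
    · intro h0
      have h1 := mob_map (max f.num.natDegree f.denom.natDegree) f.denom (le_max_right _ _)
      rw [h0, map_zero] at h1
      rcases mul_eq_zero.1 h1.symm with h2 | h2
      · exact RatFunc.denom_ne_zero f (mob_inj _ h2)
      · exact pow_ne_zero _ (mob_ne k) h2
    · conv_lhs => rw [← RatFunc.num_div_denom f]
      rw [Helper14.Gon.sub_div, mob_map _ _ (le_max_left _ _), mob_map _ _ (le_max_right _ _),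
        mul_div_mul_right _ _ (pow_ne_zero _ (mob_ne k))]
  have hcop : ∀ (f : RatFunc k) (c : k), ¬ (f.num.eval c = 0 ∧ f.denom.eval c = 0) := by
    rintro f c ⟨h1, h2⟩
    obtain ⟨a, b, hab⟩ := RatFunc.isCoprime_num_denom f
    have h3 := congrArg (eval c) hab
    rw [eval_add, eval_mul, eval_mul, h1, h2, eval_one] at h3
    simp at h3
  refine ⟨fun x => ?_, fun x => ?_, fun x => ?_⟩
  · cases x with
    | none => rfl
    | some f =>
      obtain ⟨N, hn, hd, _, h0, hv⟩ := key f
      have hu : ((-1 : k)) ^ N ≠ 0 := pow_ne_zero _ (neg_ne_zero.2 one_ne_zero)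
      rw [mapP_some, hv, mob_spec 0 _ _ h0 (by
        rw [mob_e0, mob_e0]
        rintro ⟨h1, h2⟩
        exact hcop f 0 ⟨(mul_eq_zero.1 h1).resolve_right hu, (mul_eq_zero.1 h2).resolve_right hu⟩),
        mob_e0, mob_e0]
      show _ = (if _ then _ else _)
      by_cases h1 : f.denom.eval 0 = 0
      · rw [if_pos (by rw [h1, zero_mul]), if_pos h1]
      · rw [if_neg (mul_ne_zero h1 hu), if_neg h1, mul_div_mul_right _ _ hu]
  · cases x with
    | none => rfl
    | some f =>
      obtain ⟨N, hn, hd, hN, h0, hv⟩ := key f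
      rw [mapP_some, hv, mob_spec 1 _ _ h0 (by rw [mob_e1, mob_e1]; exact hN), mob_e1, mob_e1]
      conv_rhs => rw [← RatFunc.num_div_denom f]
      rw [mob_specI N _ _ hn hd (RatFunc.denom_ne_zero f) hN]
  · cases x with
    | none => rfl
    | some f =>
      obtain ⟨N, hn, hd, _, h0, hv⟩ := key f
      rw [mapP_some, hv, mob_specI N _ _ (mob_deg N _) (mob_deg N _) h0 (by
        rw [mob_cN N _ hn, mob_cN N _ hd]
        exact hcop f 1), mob_cN N _ hn, mob_cN N _ hd]
      rfl

end QPL
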