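import Pool.Agent.QPL.StepA
import Pool.Agent.QPL.Chain
import Pool.Agent.QPL.Mob

set_option autoImplicit false

/-!
# QPL-15: `R_n` specialises, rationally, if `A_n` does

Generators of `R (n+2) L` (`R_add_two`, `relFrom`): `{0}`, `{∞}` and `α(0) - α(1)`,
`α ∈ A (n+2) (RatFunc L)`.  With `μ` from `exists_mob L`, `α' = μ α ∈ A` (`map_mem_A`),
`specZ 0 α' = specZ 0 α`, `specIZ α' = specZ 1 α`.  `chain` for `α'`, `H = RQ (n+2) k`:
`N • W.rdZ α' ∈ A (n+2) (RatFunc k)` by `hA`, and for `β ∈ A (n+2) (RatFunc k)`: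
`specZ 0 β - specIZ β ∈ R (n+2) k` (with `μ'` from `exists_mob k`,
`= specZ 0 (μ' β) - specZ 1 (μ' β)`).
-/

noncomputable section

open Polynomial
open scoped Classical

namespace QPL

open Helper14.Gon

universe u v w

variable {L : Type u} {k : Type v} [Field L] [Field k]

private lemma stepr_rdZ_br (V : AC L k) (x : P1 L) : V.rdZ (br x) = br (V.rd x) :=
  AC.rdZ_single V x 1

private lemma stepr_R_le (n : ℕ) {ξ : ZP k} (h : ξ ∈ R n k) : ξ ∈ RQ n k :=
  ⟨1, one_pos, by rwa [one_smul]⟩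

private lemma stepr_specZ_mob {F : Type w} [Field F] (c : F) {μ : RatFunc F →+* RatFunc F}
    {g : P1 (RatFunc F) → P1 F} (h : ∀ x, spec c (mapP μ x) = g x) (α : ZP (RatFunc F)) :
    specZ c (mapZ μ α) = Finsupp.mapDomain.addMonoidHom g α := by
  have h1 : (specZ c).comp (mapZ μ) = Finsupp.mapDomain.addMonoidHom g := by
    refine hom_ext fun x => ?_
    simp only [AddMonoidHom.comp_apply]
    rw [br, mapZ_single, specZ_single, h]
    simp
  exact DFunLike.congr_fun h1 α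

private lemma stepr_specIZ_mob {F : Type w} [Field F] {μ : RatFunc F →+* RatFunc F}
    {g : P1 (RatFunc F) → P1 F} (h : ∀ x, specI (mapP μ x) = g x) (α : ZP (RatFunc F)) :
    specIZ (mapZ μ α) = Finsupp.mapDomain.addMonoidHom g α := by
  have h1 : (specIZ).comp (mapZ μ) = Finsupp.mapDomain.addMonoidHom g := by
    refine hom_ext fun x => ?_
    simp only [AddMonoidHom.comp_apply]
    rw [br, mapZ_single]
    simp [specIZ, h]
  exact DFunLike.congr_fun h1 α

private lemma stepr_diff {F : Type w} [Field F] (n : ℕ) (β : ZP (RatFunc F))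
    (hβ : β ∈ A (n + 2) (RatFunc F)) : specZ 0 β - specIZ β ∈ R (n + 2) F := by
  obtain ⟨μ, h0, h1, -⟩ := exists_mob F
  have h2 := rel_mem (map_mem_A μ hβ)
  rw [stepr_specZ_mob 0 h0, stepr_specZ_mob 1 h1] at h2
  exact h2

theorem step_R (n : ℕ) (V : AC L k)
    (hA : ∀ W : AC (RatFunc L) (RatFunc k), ∀ α ∈ A (n + 2) (RatFunc L),
      ∃ N : ℕ, 0 < N ∧ N • W.rdZ α ∈ A (n + 2) (RatFunc k))
    (ξ : ZP L) (hξ : ξ ∈ R (n + 2) L) : V.rdZ ξ ∈ RQ (n + 2) k := by
  rw [R_add_two, relFrom] at hξ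
  have hle : AddSubgroup.closure
      (({br (some 0), br none} : Set (ZP L)) ∪
        {ξ | ∃ α ∈ A (n + 2) (RatFunc L), ξ = specZ 0 α - specZ 1 α}) ≤
      (RQ (n + 2) k).comap V.rdZ := by
    rw [AddSubgroup.closure_le]
    rintro ξ ((rfl | rfl) | ⟨α, hα, rfl⟩)
    · refine stepr_R_le _ ?_
      rw [stepr_rdZ_br, AC.rd_zero]
      exact br_zero_mem (n + 1)
    · refine stepr_R_le _ ?_
      rw [stepr_rdZ_br, AC.rd_none]
      exact br_inf_mem (n + 1)
    · change V.rdZ (specZ 0 α - specZ 1 α) ∈ RQ (n + 2) k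
      obtain ⟨μ, h0, -, h1⟩ := exists_mob L
      have hα' := map_mem_A μ hα
      have e0 : specZ 0 (mapZ μ α) = specZ 0 α := stepr_specZ_mob 0 h0 α
      have e1 : specIZ (mapZ μ α) = specZ 1 α := stepr_specIZ_mob h1 α
      rw [map_sub, ← e0, ← e1]
      refine chain V (RQ (n + 2) k) (mapZ μ α) fun q W _ => ?_
      obtain ⟨N, hN, hN2⟩ := hA W _ hα'
      refine ⟨N, hN, ?_⟩
      have h3 := stepr_diff n _ hN2
      rwa [map_nsmul, map_nsmul, ← smul_sub] at h3
  exact hle hξ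

end QPL
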