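import Pool.Agent.QPL.Base
import Pool.Agent.QPL.StepR

set_option autoImplicit false

/-!
# QPL-17: `R_n` and `A_n` specialise, rationally

Induction on `n`, for all fields and places at once: `base_R`, `step_A`, `step_R`
(`RatFunc L : Type u`).
-/

noncomputable section

open Polynomial
open scoped Classical

namespace QPL

open Helper14.Gon

universe u v w

theorem rdZ_R (n : ℕ) : ∀ {L : Type u} {k : Type v} [Field L] [Field k] (V : AC L k) (ξ : ZP L),
    ξ ∈ R (n + 2) L → V.rdZ ξ ∈ RQ (n + 2) k := by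
  induction n with
  | zero =>
    intro L k _ _ V ξ hξ
    exact base_R V ξ hξ
  | succ n ih =>
    intro L k _ _ V ξ hξ
    exact step_R (n + 1) V (fun W α hα => step_A n W (fun ζ hζ => ih W ζ hζ) α hα) ξ hξ

theorem rdZ_A (n : ℕ) {L : Type u} {k : Type v} [Field L] [Field k] (V : AC L k) (α : ZP L)
    (hα : α ∈ A (n + 3) L) : ∃ N : ℕ, 0 < N ∧ N • V.rdZ α ∈ A (n + 3) k := by
  exact step_A n V (fun ζ hζ => rdZ_R n V ζ hζ) α hα

end QPL
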