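import Pool.Agent.QPL.Tr

set_option autoImplicit false

/-!
# QPL-51: (R1) for one irreducible factor

`M = RatFunc Ω`, `f1` a monic irreducible divisor of `p0.P.map (rm i)`.  `exists_pl_irr` gives a closed
point `p1 : SRG.Pl M k1`, `p1.P = f1`.  `σ1 : L → k1` with `σ1 (p0.r A) = p1.r (A.map (rm i))`
(`p0.surj`, `p0.ker`, `f1 ∣ p0.P.map (rm i)`; or `emb_exists p0` with `ι = p1.r.comp (C.comp (rm i))`).
`p1.r G ≠ 0` (`hG`).  `w = H.cup j (lg (p1.r G)) (H.map σ1 j z) ∈ H.Z k1 (j+1)`, and `Tr` for `p1`, `κ`,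
`T1` (`exists_T`).  For `y ∈ T1`: `y.comp σ1 ∈ T0`, `y (p1.r G) = G.eval₂ κ (y (p1.r X))` (`emb_eval`),
`(y.comp σ1) (th p0) = y (p1.r X)`.  `y ↦ y.comp σ1` is a bijection of `T1` with the `σ ∈ T0` with
`f1.eval₂ κ (σ (th p0)) = 0` (`emb_exists`, `emb_ext`, `emb_root`).  `hH.map_cup`, `hH.map_comp`,
`resU_lg`.
-/

noncomputable section

open Polynomial TensorProduct
open scoped Classical

namespace QPL

open Helper14.Gon Helper14.W4 TGF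

universe u v w

variable (H : Thy.{u}) (hH : Laws H) {k0 L Ω Mb : Type u} [Field k0] [Field L] [Field Ω]
  [Field Mb] [IsAlgClosed Mb] (p0 : SRG.Pl (RatFunc k0) L) (i : k0 →+* Ω)
  (κ : RatFunc Ω →+* Mb) (T0 : Finset (L →+* Mb))
  (hT0 : ∀ σ, σ ∈ T0 ↔ σ.comp (p0.r.comp C) = κ.comp (rm i)) (G : (RatFunc Ω)[X])

include hH hT0 in
theorem R1_irr (f1 : (RatFunc Ω)[X]) (hm : f1.Monic) (hi : Irreducible f1)
    (hd : f1 ∣ p0.P.map (rm i)) (hG : IsCoprime f1 G) (j : ℕ) (z : H.Y L j) (hz : z ∈ H.Z L j) :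
    ∃ s ∈ H.Z (RatFunc Ω) (j + 1),
      ∑ σ ∈ T0.filter (fun σ => f1.eval₂ κ (σ (th p0)) = 0),
        H.cup j (lg (G.eval₂ κ (σ (th p0)))) (H.map σ j z) - H.map κ (j + 1) s ∈
        H.N Mb (j + 1) := by
  obtain ⟨k1, _, p1, rfl⟩ := exists_pl_irr f1 hm hi
  have hroot : p0.P.eval₂ (p1.r.comp (C.comp (rm i))) (p1.r X) = 0 := by
    have h1 : p0.P.eval₂ (p1.r.comp (C.comp (rm i))) (p1.r X) =
        p1.r (p0.P.eval₂ (C.comp (rm i)) X) :=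
      (Polynomial.hom_eval₂ p0.P (C.comp (rm i)) p1.r X).symm
    have h2 : p0.P.eval₂ (C.comp (rm i)) X = p0.P.map (rm i) := rfl
    rw [h1, h2]
    exact (p1.ker _).2 hd
  obtain ⟨σ1, hσ1, hσX⟩ := emb_exists p0 (p1.r.comp (C.comp (rm i))) (p1.r X) hroot
  obtain ⟨T1, -, hT1⟩ := exists_T p1 κ
  have hw : H.cup j (lg (p1.r G)) (H.map σ1 j z) ∈ H.Z k1 (j + 1) :=
    hH.cup_Z _ _ _ _ (hH.map_Z _ _ σ1 j z hz)
  obtain ⟨s, hs, hsN⟩ := Tr H hH p1 κ T1 hT1 (j + 1) _ hw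
  refine ⟨s, hs, ?_⟩
  have hcomp : ∀ y : k1 →+* Mb, y.comp (p1.r.comp C) = κ →
      (y.comp σ1).comp (p0.r.comp C) = κ.comp (rm i) := by
    intro y hy
    rw [RingHom.comp_assoc, hσ1, ← hy]
    rfl
  have hval : ∀ y : k1 →+* Mb, (y.comp σ1) (th p0) = y (p1.r X) := fun y => congrArg y hσX
  have hsum : ∑ σ ∈ T0.filter (fun σ => p1.P.eval₂ κ (σ (th p0)) = 0),
      H.cup j (lg (G.eval₂ κ (σ (th p0)))) (H.map σ j z) =
      ∑ y ∈ T1, H.map y (j + 1) (H.cup j (lg (p1.r G)) (H.map σ1 j z)) := by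
    symm
    refine Finset.sum_bij (fun y _ => y.comp σ1) ?_ ?_ ?_ ?_
    · intro y hy
      rw [Finset.mem_filter]
      have hy' := (hT1 y).1 hy
      refine ⟨(hT0 _).2 (hcomp y hy'), ?_⟩
      rw [hval]
      exact emb_root p1 κ hy'
    · intro y hy y' hy' h
      refine emb_ext p1 κ ((hT1 y).1 hy) ((hT1 y').1 hy') ?_
      rw [← hval y, ← hval y']
      exact congrArg (fun f : L →+* Mb => f (th p0)) h
    · intro σ hσ
      rw [Finset.mem_filter] at hσ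
      obtain ⟨y, hy, hyX⟩ := emb_exists p1 κ (σ (th p0)) hσ.2
      refine ⟨y, (hT1 y).2 hy, ?_⟩
      refine emb_ext p0 (κ.comp (rm i)) (hcomp y hy) ((hT0 σ).1 hσ.1) ?_
      exact (hval y).trans hyX
    · intro y hy
      rw [hH.map_cup, resU_lg, emb_eval p1 κ ((hT1 y).1 hy), hval, hH.map_comp]
  rw [hsum]
  exact hsN

end QPL
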