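import Pool.Agent.QPL.RcA
import Pool.Agent.QPL.Laurent

set_option autoImplicit false

/-!
# QPL-53: the embedding `Ω(T) → Ω((ε))`, `T ↦ b + ε`

Existence of the embedding, order and leading coefficient of the image are the valuation and the
leading coefficient at `T = b`, the image of constants of `k0(T)` for `b` transcendental over `k0`.
-/

noncomputable section

open Polynomial TensorProduct
open scoped Classical

namespace QPL

open Helper14.Gon Helper14.W4 TGF

universe u v w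

section
variable {Ω : Type u} [Field Ω]

/-- The power series of a polynomial at `b`. -/
private def rcd_ser (b : Ω) : (Polynomial Ω) →+* PowerSeries Ω :=
  (coeToPowerSeries.ringHom (R := Ω)).comp (compRingHom (Polynomial.X + C b))

/-- The Laurent series of a polynomial at `b`. -/
private def rcd_pol (b : Ω) : (Polynomial Ω) →+* LaurentSeries Ω :=
  (HahnSeries.ofPowerSeries ℤ Ω).comp (rcd_ser b)

private theorem rcd_ser_apply (b : Ω) (P : (Polynomial Ω)) :
    rcd_ser b P = ((P.comp (Polynomial.X + C b) : (Polynomial Ω)) : PowerSeries Ω) := rfl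

private theorem rcd_pol_apply (b : Ω) (P : (Polynomial Ω)) :
    rcd_pol b P = ((rcd_ser b P : PowerSeries Ω) : LaurentSeries Ω) := rfl

private theorem rcd_const (b : Ω) (P : (Polynomial Ω)) :
    PowerSeries.constantCoeff (rcd_ser b P) = P.eval b := by
  rw [rcd_ser_apply, constantCoeff_coe, coeff_zero_eq_eval_zero, eval_comp]
  simp

private theorem rcd_pol_C (b c : Ω) : rcd_pol b (C c) = HahnSeries.C c := by
  rw [rcd_pol_apply, rcd_ser_apply, C_comp, Polynomial.coe_C, HahnSeries.ofPowerSeries_C]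

private theorem rcd_pol_X (b : Ω) :
    rcd_pol b Polynomial.X = HahnSeries.C b + HahnSeries.single 1 1 := by
  rw [rcd_pol_apply, rcd_ser_apply, X_comp, Polynomial.coe_add, Polynomial.coe_C, Polynomial.coe_X,
    map_add, HahnSeries.ofPowerSeries_C, HahnSeries.ofPowerSeries_X, add_comm]

private theorem rcd_pol_inj (b : Ω) : Function.Injective (rcd_pol b) := by
  intro P Q h
  rw [rcd_pol_apply, rcd_pol_apply] at h
  have h1 := HahnSeries.ofPowerSeries_injective h
  rw [rcd_ser_apply, rcd_ser_apply] at h1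
  have h2 : P.comp (Polynomial.X + C b) = Q.comp (Polynomial.X + C b) := Polynomial.coe_injective Ω h1
  exact taylor_injective b h2

theorem exists_tau (b : Ω) : ∃ τ : RatFunc Ω →+* LaurentSeries Ω, IsTau b τ := by
  have h0 : nonZeroDivisors (Polynomial Ω) ≤ Submonoid.comap (rcd_pol b)
      (nonZeroDivisors (LaurentSeries Ω)) := by
    intro P hP
    rw [mem_nonZeroDivisors_iff_ne_zero] at hP
    rw [Submonoid.mem_comap, mem_nonZeroDivisors_iff_ne_zero]
    intro h
    exact hP (rcd_pol_inj b (by rw [h, map_zero]))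
  refine ⟨RatFunc.liftRingHom (rcd_pol b) h0, fun c => ?_, ?_⟩
  · rw [← RatFunc.algebraMap_C, RatFunc.liftRingHom_algebraMap, rcd_pol_C]
  · rw [← RatFunc.algebraMap_X, RatFunc.liftRingHom_algebraMap, rcd_pol_X]

private theorem rcd_tau {b : Ω} {τ : RatFunc Ω →+* LaurentSeries Ω} (hτ : IsTau b τ) (P : (Polynomial Ω)) :
    τ (algebraMap (Polynomial Ω) (RatFunc Ω) P) = rcd_pol b P := by
  have h : τ.comp (algebraMap (Polynomial Ω) (RatFunc Ω)) = rcd_pol b := by
    refine Polynomial.ringHom_ext (fun c => ?_) ?_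
    · rw [RingHom.comp_apply, RatFunc.algebraMap_C, hτ.C, rcd_pol_C]
    · rw [RingHom.comp_apply, RatFunc.algebraMap_X, hτ.X, rcd_pol_X]
  exact DFunLike.congr_fun h P

private theorem rcd_v_pow {A : Type v} {k : Type w} [CommRing A] [Field k] (V : AC A k) {x : A}
    (hx : x ≠ 0) (n : ℕ) : x ^ n ≠ 0 ∧ V.v (x ^ n) = n * V.v x := by
  induction n with
  | zero =>
    rw [pow_zero, V.v_one, Nat.cast_zero, zero_mul]
    exact ⟨V.one_ne, rfl⟩
  | succ n ih =>
    rw [pow_succ, V.v_mul ih.1 hx, ih.2]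
    refine ⟨V.mul_ne ih.1 hx, ?_⟩
    push_cast
    ring

private theorem rcd_unit (g : PowerSeries Ω) (h : PowerSeries.constantCoeff g ≠ 0) :
    (g : LaurentSeries Ω) ≠ 0 ∧ HahnSeries.order (g : LaurentSeries Ω) = 0 ∧
      HahnSeries.leadingCoeff (g : LaurentSeries Ω) = PowerSeries.constantCoeff g := by
  have h0 : (g : LaurentSeries Ω).coeff 0 = PowerSeries.constantCoeff g := by
    rw [PowerSeries.coeff_coe, if_neg (lt_irrefl _), Int.natAbs_zero,
      PowerSeries.coeff_zero_eq_constantCoeff]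
  have h1 : ∀ m : ℤ, m < 0 → (g : LaurentSeries Ω).coeff m = 0 := fun m hm => by
    rw [PowerSeries.coeff_coe, if_pos hm]
  have hx : (g : LaurentSeries Ω) ≠ 0 := by
    intro hx
    rw [hx] at h0
    exact h h0.symm
  have h2 : HahnSeries.order (g : LaurentSeries Ω) ≤ 0 :=
    HahnSeries.order_le_of_coeff_ne_zero (by rw [h0]; exact h)
  have h3 : HahnSeries.order (g : LaurentSeries Ω) = 0 := by
    rcases lt_or_eq_of_le h2 with h4 | h4
    · exact absurd (HahnSeries.coeff_order_eq_zero.1 (h1 _ h4)) hx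
    · exact h4
  exact ⟨hx, h3, by rw [HahnSeries.leadingCoeff_eq, h3, h0]⟩

private theorem rcd_single : (HahnSeries.single (1 : ℤ) (1 : Ω) : LaurentSeries Ω) ≠ 0 ∧
    HahnSeries.order (HahnSeries.single (1 : ℤ) (1 : Ω) : LaurentSeries Ω) = 1 ∧
      HahnSeries.leadingCoeff (HahnSeries.single (1 : ℤ) (1 : Ω) : LaurentSeries Ω) = 1 := by
  refine ⟨?_, HahnSeries.order_single one_ne_zero, ?_⟩
  · exact HahnSeries.single_ne_zero one_ne_zero
  · rw [HahnSeries.leadingCoeff_eq, HahnSeries.order_single one_ne_zero,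
      HahnSeries.coeff_single_same]

private theorem rcd_at_pol (b : Ω) (W0 : AC (LaurentSeries Ω) Ω) (hW0 : ∀ x : LaurentSeries Ω,
      x ≠ 0 → W0.v x = ((HahnSeries.order x : ℤ) : ℚ) ∧ W0.lc x = HahnSeries.leadingCoeff x)
    (P : (Polynomial Ω)) (hP : P ≠ 0) :
    W0.v (rcd_pol b P) = (P.rootMultiplicity b : ℚ) ∧
      W0.lc (rcd_pol b P) = (P /ₘ (Polynomial.X - C b) ^ P.rootMultiplicity b).eval b := by
  obtain ⟨Q, hQ⟩ : ∃ Q, Q = P /ₘ (Polynomial.X - C b) ^ P.rootMultiplicity b := ⟨_, rfl⟩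
  have h1 : (Polynomial.X - C b) ^ P.rootMultiplicity b * Q = P := by
    rw [hQ]
    exact pow_mul_divByMonic_rootMultiplicity_eq P b
  have h2 : Q.eval b ≠ 0 := by
    rw [hQ]
    exact eval_divByMonic_pow_rootMultiplicity_ne_zero b hP
  rw [← hQ]
  obtain ⟨m, hm⟩ : ∃ m, m = P.rootMultiplicity b := ⟨_, rfl⟩
  rw [← hm] at h1 ⊢
  have h3 : rcd_pol b P = (HahnSeries.single (1 : ℤ) (1 : Ω)) ^ m * rcd_pol b Q := by
    rw [← h1, map_mul, map_pow, map_sub, rcd_pol_X, rcd_pol_C, add_sub_cancel_left]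
  obtain ⟨s1, s2, s3⟩ := rcd_single (Ω := Ω)
  obtain ⟨t1, t2⟩ := hW0 _ s1
  rw [s2] at t1
  rw [s3] at t2
  obtain ⟨p1, p2⟩ := rcd_v_pow W0 s1 m
  obtain ⟨q1, q2, q3⟩ := rcd_unit (rcd_ser b Q) (by rw [rcd_const]; exact h2)
  obtain ⟨r1, r2⟩ := hW0 _ q1
  rw [q2] at r1
  rw [q3, rcd_const] at r2
  rw [h3, rcd_pol_apply b Q]
  constructor
  · rw [W0.v_mul p1 q1, p2, t1, r1]
    simp
  · rw [map_mul, map_pow, t2, r2, one_pow, one_mul]

theorem tau_at (b : Ω) (τ : RatFunc Ω →+* LaurentSeries Ω) (hτ : IsTau b τ)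
    (W0 : AC (LaurentSeries Ω) Ω) (hW0 : ∀ x : LaurentSeries Ω, x ≠ 0 →
      W0.v x = ((HahnSeries.order x : ℤ) : ℚ) ∧ W0.lc x = HahnSeries.leadingCoeff x)
    (V : AC (RatFunc Ω) Ω) (hV : IsAt b V) (x : RatFunc Ω) (hx : x ≠ 0) :
    W0.v (τ x) = V.v x ∧ W0.lc (τ x) = V.lc x := by
  have hP : x.num ≠ 0 := RatFunc.num_ne_zero hx
  have hQ : x.denom ≠ 0 := RatFunc.denom_ne_zero x
  have inj : Function.Injective (algebraMap (Polynomial Ω) (RatFunc Ω)) :=
    IsFractionRing.injective (Polynomial Ω) (RatFunc Ω)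
  have hP' : algebraMap (Polynomial Ω) (RatFunc Ω) x.num ≠ 0 := fun h => hP (inj (by rw [h, map_zero]))
  have hQ' : algebraMap (Polynomial Ω) (RatFunc Ω) x.denom ≠ 0 := fun h => hQ (inj (by rw [h, map_zero]))
  have e : x = algebraMap (Polynomial Ω) (RatFunc Ω) x.num / algebraMap (Polynomial Ω) (RatFunc Ω) x.denom :=
    (RatFunc.num_div_denom x).symm
  obtain ⟨a1, a2⟩ := rcd_at_pol b W0 hW0 x.num hP
  obtain ⟨b1, b2⟩ := rcd_at_pol b W0 hW0 x.denom hQ
  have hPt : τ (algebraMap (Polynomial Ω) (RatFunc Ω) x.num) ≠ 0 := (map_ne_zero τ).2 hP'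
  have hQt : τ (algebraMap (Polynomial Ω) (RatFunc Ω) x.denom) ≠ 0 := (map_ne_zero τ).2 hQ'
  constructor
  · conv_rhs => rw [e]
    conv_lhs => rw [e]
    rw [map_div₀, W0.v_div hPt hQt, V.v_div hP' hQ', hV.v _ hP, hV.v _ hQ, rcd_tau hτ, rcd_tau hτ,
      a1, b1]
  · conv_rhs => rw [e]
    conv_lhs => rw [e]
    rw [map_div₀, W0.lc_div, V.lc_div, hV.lc _ hP, hV.lc _ hQ, rcd_tau hτ, rcd_tau hτ, a2, b2]

theorem tau_const {k0 : Type u} [Field k0] (i : k0 →+* Ω) (b : Ω)
    (hb : ∀ P : k0[X], P ≠ 0 → P.eval₂ i b ≠ 0) (ρ : RatFunc k0 →+* Ω)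
    (h1 : ∀ c, ρ (RatFunc.C c) = i c) (h2 : ρ RatFunc.X = b)
    (τ : RatFunc Ω →+* LaurentSeries Ω) (hτ : IsTau b τ) (x : RatFunc k0) :
    ∃ g : PowerSeries Ω, τ (rm i x) = (g : LaurentSeries Ω) ∧ PowerSeries.constantCoeff g = ρ x := by
  have hρ : ∀ P : k0[X], ρ (algebraMap k0[X] (RatFunc k0) P) = P.eval₂ i b := by
    intro P
    have h : ρ.comp (algebraMap k0[X] (RatFunc k0)) = eval₂RingHom i b := by
      refine Polynomial.ringHom_ext (fun c => ?_) ?_
      · rw [RingHom.comp_apply, RatFunc.algebraMap_C, h1, coe_eval₂RingHom, eval₂_C]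
      · rw [RingHom.comp_apply, RatFunc.algebraMap_X, h2, coe_eval₂RingHom, eval₂_X]
    exact DFunLike.congr_fun h P
  have hQ : x.denom ≠ 0 := RatFunc.denom_ne_zero x
  have hB : PowerSeries.constantCoeff (rcd_ser b (x.denom.map i)) ≠ 0 := by
    rw [rcd_const, eval_map]
    exact hb _ hQ
  have hB' : ((rcd_ser b (x.denom.map i) : PowerSeries Ω) : LaurentSeries Ω) ≠ 0 :=
    (rcd_unit _ hB).1
  refine ⟨rcd_ser b (x.num.map i) * (rcd_ser b (x.denom.map i))⁻¹, ?_, ?_⟩
  · have e : rm i x = algebraMap (Polynomial Ω) (RatFunc Ω) (x.num.map i) /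
        algebraMap (Polynomial Ω) (RatFunc Ω) (x.denom.map i) := by
      unfold rm
      rw [RatFunc.coe_mapRingHom_eq_coe_map, RatFunc.map_apply]
      rfl
    rw [e, map_div₀, rcd_tau hτ, rcd_tau hτ, div_eq_iff (by rw [rcd_pol_apply]; exact hB'),
      rcd_pol_apply, rcd_pol_apply, ← map_mul, mul_assoc, mul_comm _ (rcd_ser b (x.denom.map i)),
      PowerSeries.mul_inv_cancel _ hB, mul_one]
  · have e : ρ x = x.num.eval₂ i b / x.denom.eval₂ i b := by
      conv_lhs => rw [← RatFunc.num_div_denom x]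
      rw [map_div₀, hρ, hρ]
    rw [e, map_mul, PowerSeries.constantCoeff_inv, rcd_const, rcd_const, eval_map, eval_map,
      div_eq_mul_inv]

end

end QPL
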