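import Pool.Agent.QPL.RcD

set_option autoImplicit false

/-!
# QPL-54: expansions at a nonconstant point

`ρ = y.comp (p0.r.comp C)`, `b = y (cT p0)`.  By `tau_const` the polynomial `p0.P.map (τ.comp (rm i))`
has power series coefficients, with reduction `p0.P.map ρ`, separable (`spl_sep`, `Separable.map`), with
root `y (th p0)` (`emb_root`).  Hensel for `Ω⟦X⟧` (`IsAdicComplete (Ideal.span {X}) Ω⟦X⟧`,
`IsAdicComplete.henselianRing`; or `HenselianLocalRing`) gives a root `α : Ω⟦X⟧` with constant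
coefficient `y (th p0)`.  `emb_exists p0` for `ι = τ.comp (rm i)`, `a = α`, gives `E`.  For `x = p0.r A`:
`E x = ∑ τ (rm i (A.coeff n)) α^n` is a power series with constant coefficient
`∑ ρ (A.coeff n) (y θ)^n = y x` (`emb_eval`), nonzero if `x ≠ 0`, so of order `0`.
-/

noncomputable section

open Polynomial TensorProduct
open scoped Classical

namespace QPL

open Helper14.Gon Helper14.W4 TGF

universe u v w

variable {k0 L Ω : Type u} [Field k0] [Field L] [Field Ω]

private theorem rce_rm_alg (φ : k0 →+* Ω) (P : k0[X]) :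
    rm φ (algebraMap k0[X] (RatFunc k0) P) = algebraMap (Polynomial Ω) (RatFunc Ω) (P.map φ) := by
  have hφ : nonZeroDivisors k0[X] ≤ (nonZeroDivisors (Polynomial Ω)).comap (mapRingHom φ) := by
    intro P hP
    rw [Submonoid.mem_comap, mem_nonZeroDivisors_iff_ne_zero]
    rw [mem_nonZeroDivisors_iff_ne_zero] at hP
    intro h
    exact hP (map_injective φ φ.injective (by rw [Polynomial.map_zero]; exact h))
  have h := RatFunc.map_apply_div (K := k0) (mapRingHom φ) hφ P 1
  rw [map_one, map_one, map_one, div_one, div_one] at h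
  exact h

private theorem rce_rm_C (φ : k0 →+* Ω) (c : k0) : rm φ (RatFunc.C c) = RatFunc.C (φ c) := by
  rw [← RatFunc.algebraMap_C, rce_rm_alg, Polynomial.map_C, RatFunc.algebraMap_C]

private theorem rce_rm_X (φ : k0 →+* Ω) : rm φ RatFunc.X = RatFunc.X := by
  rw [← RatFunc.algebraMap_X, rce_rm_alg, Polynomial.map_X, RatFunc.algebraMap_X]

/-- a ring homomorphism to Laurent series all whose values are power series -/
private theorem rce_lift {R : Type u} [Ring R] (σ : R →+* LaurentSeries Ω) (ρ : R →+* Ω)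
    (h : ∀ x, ∃ g : PowerSeries Ω, σ x = (g : LaurentSeries Ω) ∧
      PowerSeries.constantCoeff g = ρ x) :
    ∃ γ : R →+* PowerSeries Ω, (HahnSeries.ofPowerSeries ℤ Ω).comp γ = σ ∧
      (PowerSeries.constantCoeff).comp γ = ρ := by
  choose g hg1 hg2 using h
  have hinj : Function.Injective (HahnSeries.ofPowerSeries ℤ Ω) :=
    HahnSeries.ofPowerSeries_injective
  refine ⟨⟨⟨⟨g, hinj ?_⟩, fun a b => hinj ?_⟩, hinj ?_, fun a b => hinj ?_⟩, ?_, ?_⟩
  · rw [map_one, ← hg1, map_one]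
  · show HahnSeries.ofPowerSeries ℤ Ω (g (a * b)) = HahnSeries.ofPowerSeries ℤ Ω (g a * g b)
    rw [map_mul, ← hg1, ← hg1, ← hg1, map_mul]
  · show HahnSeries.ofPowerSeries ℤ Ω (g 0) = HahnSeries.ofPowerSeries ℤ Ω 0
    rw [map_zero, ← hg1, map_zero]
  · show HahnSeries.ofPowerSeries ℤ Ω (g (a + b)) = HahnSeries.ofPowerSeries ℤ Ω (g a + g b)
    rw [map_add, ← hg1, ← hg1, ← hg1, map_add]
  · exact RingHom.ext fun x => (hg1 x).symm
  · exact RingHom.ext fun x => hg2 x

/-- Hensel's lemma for power series -/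
private theorem rce_hensel (f : Polynomial (PowerSeries Ω)) (hf : f.Monic) (a : Ω)
    (h1 : (f.map PowerSeries.constantCoeff).eval a = 0)
    (h2 : (derivative (f.map PowerSeries.constantCoeff)).eval a ≠ 0) :
    ∃ α : PowerSeries Ω, f.eval α = 0 ∧ PowerSeries.constantCoeff α = a := by
  have e : ∀ q : Polynomial (PowerSeries Ω), PowerSeries.constantCoeff (q.eval (PowerSeries.C a)) =
      (q.map PowerSeries.constantCoeff).eval a := by
    intro q
    rw [← Polynomial.eval₂_at_apply, Polynomial.eval_map]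
    simp
  obtain ⟨α, h3, h4⟩ := HenselianRing.is_henselian (I := Ideal.span {(PowerSeries.X : PowerSeries Ω)})
    f hf (PowerSeries.C a)
    (by rw [Ideal.mem_span_singleton, PowerSeries.X_dvd_iff, e, h1])
    (by
      refine IsUnit.map _ ?_
      rw [PowerSeries.isUnit_iff_constantCoeff, e, ← Polynomial.derivative_map]
      exact h2.isUnit)
  refine ⟨α, h3, ?_⟩
  rw [Ideal.mem_span_singleton, PowerSeries.X_dvd_iff, map_sub, sub_eq_zero] at h4
  rw [h4]
  simp

theorem exists_exp (p0 : SRG.Pl (RatFunc k0) L) (hp0 : Spl p0) (i : k0 →+* Ω) (y : L →+* Ω)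
    (hy : Pnt p0 i y) (τ : RatFunc Ω →+* LaurentSeries Ω) (hτ : IsTau (y (cT p0)) τ) :
    ∃ E : L →+* LaurentSeries Ω, IsExp p0 i y E ∧ E.comp (p0.r.comp C) = τ.comp (rm i) := by
  set ρ : RatFunc k0 →+* Ω := y.comp (p0.r.comp C) with hρ
  obtain ⟨γ, hγ1, hγ2⟩ := rce_lift (τ.comp (rm i)) ρ
    (fun x => tau_const i (y (cT p0)) hy.tr ρ (fun c => hy.ov c) rfl τ hτ x)
  have hroot : (p0.P.map ρ).eval (y (th p0)) = 0 := by
    rw [Polynomial.eval_map]
    exact emb_root p0 ρ rfl
  have hsep : (p0.P.map ρ).Separable := (spl_sep p0 hp0).map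
  have hder : (derivative (p0.P.map ρ)).eval (y (th p0)) ≠ 0 := by
    intro h0
    obtain ⟨a, b, hab⟩ := hsep
    have h1 := congrArg (Polynomial.eval (y (th p0))) hab
    rw [Polynomial.eval_add, Polynomial.eval_mul, Polynomial.eval_mul, hroot, h0, mul_zero,
      mul_zero, add_zero, Polynomial.eval_one] at h1
    exact zero_ne_one h1
  have hmap : (p0.P.map γ).map PowerSeries.constantCoeff = p0.P.map ρ := by
    rw [Polynomial.map_map, hγ2]
  obtain ⟨α, hα1, hα2⟩ := rce_hensel (p0.P.map γ) (p0.monic.map γ) (y (th p0))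
    (by rw [hmap]; exact hroot) (by rw [hmap]; exact hder)
  have hev : ∀ A : (RatFunc k0)[X], A.eval₂ (τ.comp (rm i)) (HahnSeries.ofPowerSeries ℤ Ω α) =
      HahnSeries.ofPowerSeries ℤ Ω (A.eval₂ γ α) := by
    intro A
    rw [Polynomial.hom_eval₂, hγ1]
  obtain ⟨E, hE1, hE2⟩ := emb_exists p0 (τ.comp (rm i)) (HahnSeries.ofPowerSeries ℤ Ω α)
    (by rw [hev, ← Polynomial.eval_map, hα1, map_zero])
  have key : ∀ x : L, ∃ g : PowerSeries Ω, E x = HahnSeries.ofPowerSeries ℤ Ω g ∧
      PowerSeries.constantCoeff g = y x := by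
    intro x
    obtain ⟨A, rfl⟩ := p0.surj x
    refine ⟨A.eval₂ γ α, ?_, ?_⟩
    · rw [emb_eval p0 (τ.comp (rm i)) hE1, hE2, hev]
    · rw [Polynomial.hom_eval₂, hγ2, hα2, emb_eval p0 ρ rfl]
      rfl
  have hcoeff : ∀ (g : PowerSeries Ω) (n : ℤ), n < 0 →
      (HahnSeries.ofPowerSeries ℤ Ω g).coeff n = 0 := by
    intro g n hn
    have h := PowerSeries.coeff_coe g n
    rw [if_pos hn] at h
    exact h
  have hcoeff0 : ∀ (g : PowerSeries Ω),
      (HahnSeries.ofPowerSeries ℤ Ω g).coeff 0 = PowerSeries.constantCoeff g := by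
    intro g
    have h := PowerSeries.coeff_coe g 0
    rw [if_neg (lt_irrefl _)] at h
    rw [h]
    simp
  have hE3 : ∀ x : RatFunc k0, E (p0.r (C x)) = τ (rm i x) := fun x =>
    DFunLike.congr_fun hE1 x
  refine ⟨E, ⟨fun c => ?_, ?_, fun x hx => ?_, fun x => ?_⟩, hE1⟩
  · rw [← hτ.C, ← rce_rm_C]
    exact hE3 (RatFunc.C c)
  · rw [← hτ.X, ← rce_rm_X i]
    exact hE3 RatFunc.X
  · obtain ⟨g, hg1, hg2⟩ := key x
    rw [hg1]
    have h0 : (HahnSeries.ofPowerSeries ℤ Ω g).coeff 0 ≠ 0 := by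
      rw [hcoeff0, hg2]
      exact (map_ne_zero y).2 hx
    have h1 : (HahnSeries.ofPowerSeries ℤ Ω g) ≠ 0 := by
      intro h
      rw [h] at h0
      exact h0 rfl
    refine le_antisymm (HahnSeries.order_le_of_coeff_ne_zero h0) ?_
    by_contra hlt
    push Not at hlt
    exact h1 (HahnSeries.coeff_order_eq_zero.1 (hcoeff g _ hlt))
  · obtain ⟨g, hg1, hg2⟩ := key x
    rw [hg1, hcoeff0, hg2]

end QPL
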