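import Pool.Agent.QPL.RcE

set_option autoImplicit false

/-!
# QPL-55: the embeddings `L → FF` are given by the expansions at the points above `b`

`FF` is an algebraically closed field containing `Ω((ε))` (by `inc`).  Choose `E y` by `exists_exp` for
`y ∈ Y` (`pnt_iff`).  `y ↦ inc.comp (E y)` maps `Y` to `T0`, injectively (`IsExp.co`), and both sets have
`p0.P.natDegree` elements (`emb_ext`, `emb_exists`: they are in bijection with the roots of
`p0.P.map _` in `Ω`, `FF`, which are distinct: `spl_sep`).  So it is a bijection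
(`Finset.sum_bij`, or `Finset.surj_on_of_inj_on_of_card_le`).
-/

noncomputable section

open Polynomial TensorProduct
open scoped Classical

namespace QPL

open Helper14.Gon Helper14.W4 TGF

universe u v w

variable {k0 L Ω FF : Type u} [Field k0] [Field L] [Field Ω] [IsAlgClosed Ω] [Field FF]
  [IsAlgClosed FF]

omit [IsAlgClosed Ω] [Field FF] [IsAlgClosed FF] [Field Ω] in
/-- the number of embeddings is the degree -/
private theorem rcf_card {K k Kb : Type u} [Field K] [Field k] [Field Kb] [IsAlgClosed Kb]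
    (p : SRG.Pl K k) (hs : p.P.Separable) (ι : K →+* Kb) (T : Finset (k →+* Kb))
    (hT : ∀ y, y ∈ T ↔ y.comp (p.r.comp C) = ι) : T.card = p.P.natDegree := by
  have h1 := sum_T p ι T hT (fun _ => 1)
  rw [Finset.sum_const, Finset.sum_const, smul_eq_mul, smul_eq_mul, mul_one, mul_one,
    Multiset.toFinset_card_of_nodup (nodup_roots (hs.map (f := ι))),
    IsAlgClosed.card_roots_eq_natDegree, natDegree_map] at h1
  exact h1

theorem exp_bij (p0 : SRG.Pl (RatFunc k0) L) (hp0 : Spl p0) (i : k0 →+* Ω) (b : Ω)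
    (hb : ∀ P : k0[X], P ≠ 0 → P.eval₂ i b ≠ 0)
    (τ : RatFunc Ω →+* LaurentSeries Ω) (hτ : IsTau b τ) (inc : LaurentSeries Ω →+* FF)
    (T0 : Finset (L →+* FF))
    (hT0 : ∀ σ, σ ∈ T0 ↔ σ.comp (p0.r.comp C) = (inc.comp τ).comp (rm i))
    (Y : Finset (L →+* Ω)) (hY : ∀ y, y ∈ Y ↔ Pnt p0 i y ∧ y (cT p0) = b) :
    ∃ E : (L →+* Ω) → (L →+* LaurentSeries Ω), (∀ y ∈ Y, IsExp p0 i y (E y)) ∧
      T0 = Y.image (fun y => inc.comp (E y)) ∧
      (∀ y ∈ Y, ∀ y' ∈ Y, inc.comp (E y) = inc.comp (E y') → y = y') := by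
  have hex : ∀ y : L →+* Ω, ∃ E : L →+* LaurentSeries Ω, y ∈ Y →
      (IsExp p0 i y E ∧ E.comp (p0.r.comp C) = τ.comp (rm i)) := by
    intro y
    by_cases h : y ∈ Y
    · obtain ⟨h1, h2⟩ := (hY y).1 h
      obtain ⟨E, hE⟩ := exists_exp p0 hp0 i y h1 τ (by rw [h2]; exact hτ)
      exact ⟨E, fun _ => hE⟩
    · exact ⟨HahnSeries.C.comp y, fun h' => absurd h' h⟩
  choose E hE using hex
  have hinj : ∀ y ∈ Y, ∀ y' ∈ Y, inc.comp (E y) = inc.comp (E y') → y = y' := by
    intro y hy y' hy' h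
    refine RingHom.ext fun x => ?_
    have h1 : E y x = E y' x := inc.injective (DFunLike.congr_fun h x)
    rw [← (hE y hy).1.co x, ← (hE y' hy').1.co x, h1]
  refine ⟨E, fun y hy => (hE y hy).1, ?_, hinj⟩
  have hsub : Y.image (fun y => inc.comp (E y)) ⊆ T0 := by
    intro σ hσ
    obtain ⟨y, hy, rfl⟩ := Finset.mem_image.1 hσ
    rw [hT0, RingHom.comp_assoc, (hE y hy).2, RingHom.comp_assoc]
  obtain ⟨ρ, h1, h2⟩ := exists_rho i b hb
  have c1 : T0.card = p0.P.natDegree := rcf_card p0 (spl_sep p0 hp0) _ T0 hT0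
  have c2 : Y.card = p0.P.natDegree := rcf_card p0 (spl_sep p0 hp0) ρ Y fun y => by
    rw [hY, pnt_iff p0 i b ρ h1 h2 y]
  refine (Finset.eq_of_subset_of_card_le hsub ?_).symm
  rw [Finset.card_image_of_injOn fun y hy y' hy' h => hinj y hy y' hy' h, c1, c2]

/-- The set of points above `b` is finite. -/
theorem exists_Y (p0 : SRG.Pl (RatFunc k0) L) (i : k0 →+* Ω) (b : Ω)
    (hb : ∀ P : k0[X], P ≠ 0 → P.eval₂ i b ≠ 0) :
    ∃ Y : Finset (L →+* Ω), ∀ y, y ∈ Y ↔ Pnt p0 i y ∧ y (cT p0) = b := by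
  obtain ⟨ρ, h1, h2⟩ := exists_rho i b hb
  obtain ⟨T, _, hT⟩ := exists_T p0 ρ
  exact ⟨T, fun y => by rw [hT, pnt_iff p0 i b ρ h1 h2 y]⟩

end QPL
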