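import Pool.Agent.QPL.RcF
import Pool.Agent.QPL.RcC
import Pool.Agent.QPL.Ext

set_option autoImplicit false

/-!
# QPL-56: (R2) residues at the nonconstant points

`FF = AlgebraicClosure (LaurentSeries Ω)`, `W0` from `exists_laurent`, `WF : AC FF Ω` from `exists_ext`,
`κ = inc.comp τ`.  `hs` for `FF`, `κ`, `T0` (`exists_T`); apply `H.re WF j` (`hH.re_N`, `map_sum`):
* `H.re WF j (H.map κ (j+1) s) = H.re V j s`: `re_comap`, `re_unif` with factor `1` (`tau_at`);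
* for `σ = inc.comp (E y)`: `WF.comap σ` is trivial with `ψ = y`: `WF.v (σ x) = order (E y x) = 0`,
  `WF.lc (σ x) = (E y x).leadingCoeff = y x` (`IsExp`), so `H.re WF _ (H.map σ _ z) = 0`
  (`re_comap`, `re_triv`), `H.sp WF j (H.map σ j z) = H.map y j z` (`sp_comap`, `sp_triv`), and
  `re_cup_zero`, `re_cup`: `H.re WF j (H.cup j v (H.map σ j z)) = WF.vH v • H.map y j z`, with
  `WF.vH (lg g) = WF.v g = order (G.eval₂ τ (E y θ)) = o y` (`g = inc (G.eval₂ τ (E y θ)) ≠ 0`,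
  `h1 : OrdAt`).
-/

noncomputable section

open Polynomial TensorProduct
open scoped Classical

namespace QPL

open Helper14.Gon Helper14.W4 TGF

universe u v w

variable (H : Thy.{u}) (hH : Laws H) {k0 L Ω : Type u} [Field k0] [Field L] [Field Ω]
  [IsAlgClosed Ω] (p0 : SRG.Pl (RatFunc k0) L) (hp0 : Spl p0) (i : k0 →+* Ω) (G : (RatFunc Ω)[X])

private theorem rcg_vH_lg {M k : Type u} [Field M] [Field k] (V : AC M k) {x : M} (hx : x ≠ 0) :
    V.vH (lg x) = V.v x := by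
  rw [lg, dif_neg hx]
  rfl

include hH in
/-- residue of a product with a unit, if the restriction of the valuation is trivial -/
private theorem rcg_cup {M F : Type u} [Field M] [Field F] (W : AC M F) (σ : L →+* M)
    (y : L →+* F) (h : ∀ x : L, x ≠ 0 → W.v (σ x) = 0 ∧ W.lc (σ x) = y x) (j : ℕ)
    (v : Additive Mˣ) (z : H.Y L j) :
    H.re W j (H.cup j v (H.map σ j z)) = W.vH v • H.map y j z := by
  have htriv : ∀ x : L, x ≠ 0 → (W.comap σ).v x = 0 ∧ (W.comap σ).lc x = y x := h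
  have hsp : H.sp W j (H.map σ j z) = H.map y j z := by
    rw [← hH.sp_comap, hH.sp_triv _ _ (W.comap σ) y htriv]
  cases j with
  | zero => rw [hH.re_cup_zero, hsp]
  | succ j =>
    rw [hH.re_cup, hsp, ← hH.re_comap, hH.re_triv _ _ (W.comap σ) y htriv, map_zero, sub_zero]

include hH hp0 in
theorem R2 (j : ℕ) (z : H.Y L j) (s : H.Y (RatFunc Ω) (j + 1))
    (hs : ∀ (Mb : Type u) [Field Mb] [IsAlgClosed Mb]
      (κ : RatFunc Ω →+* Mb) (T0 : Finset (L →+* Mb)),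
      (∀ σ, σ ∈ T0 ↔ σ.comp (p0.r.comp C) = κ.comp (rm i)) →
      ∑ σ ∈ T0, H.cup j (lg (G.eval₂ κ (σ (th p0)))) (H.map σ j z) - H.map κ (j + 1) s ∈
        H.N Mb (j + 1))
    (b : Ω) (hb : ∀ P : k0[X], P ≠ 0 → P.eval₂ i b ≠ 0) (V : AC (RatFunc Ω) Ω) (hV : IsAt b V)
    (o : (L →+* Ω) → ℤ) (h1 : ∀ y, Pnt p0 i y → OrdAt p0 i G y (o y)) (Y : Finset (L →+* Ω))
    (hY : ∀ y, y ∈ Y ↔ Pnt p0 i y ∧ y (cT p0) = b) :
    ∑ y ∈ Y, o y • H.map y j z - H.re V j s ∈ H.N Ω j := by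
  obtain ⟨τ, hτ⟩ := exists_tau b
  obtain ⟨W0, hW0⟩ := exists_laurent Ω
  obtain ⟨WF, hWv, hWl⟩ := exists_ext W0 (AlgebraicClosure (LaurentSeries Ω))
  set inc : LaurentSeries Ω →+* AlgebraicClosure (LaurentSeries Ω) :=
    algebraMap (LaurentSeries Ω) (AlgebraicClosure (LaurentSeries Ω)) with hinc
  obtain ⟨T0, -, hT0⟩ := exists_T p0 ((inc.comp τ).comp (rm i))
  obtain ⟨E, hE, hT, hinj⟩ := exp_bij p0 hp0 i b hb τ hτ inc T0 hT0 Y hY
  have h2 := hs _ (inc.comp τ) T0 hT0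
  have h3 := hH.re_N _ _ WF j _ h2
  -- the residue of `κ (s)`
  have hA : H.re WF j (H.map (inc.comp τ) (j + 1) s) = H.re V j s := by
    rw [← hH.re_comap]
    have h4 := hH.re_unif _ _ V (WF.comap (inc.comp τ)) 1 (fun x hx => ?_) (fun x hx _ => ?_) j s
    · rw [h4, one_smul]
    · have hx' : τ x ≠ 0 := (map_ne_zero τ).2 hx
      rw [one_mul]
      change WF.v (inc (τ x)) = V.v x
      rw [hWv _ hx', (tau_at b τ hτ W0 hW0 V hV x hx).1]
    · change WF.lc (inc (τ x)) = V.lc x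
      rw [hWl, (tau_at b τ hτ W0 hW0 V hV x hx).2]
  -- the residues of the products
  have hB : ∀ y ∈ Y, H.re WF j (H.cup j (lg (G.eval₂ (inc.comp τ) ((inc.comp (E y)) (th p0))))
      (H.map (inc.comp (E y)) j z)) = o y • H.map y j z := by
    intro y hy
    obtain ⟨hp, hyb⟩ := (hY y).1 hy
    have hEy := hE y hy
    have hord := h1 y hp (E y) τ hEy (by rw [hyb]; exact hτ)
    have htriv : ∀ x : L, x ≠ 0 → WF.v ((inc.comp (E y)) x) = 0 ∧
        WF.lc ((inc.comp (E y)) x) = y x := by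
      intro x hx
      have hx' : E y x ≠ 0 := (map_ne_zero (E y)).2 hx
      rw [RingHom.comp_apply]
      constructor
      · rw [hWv _ hx', (hW0 _ hx').1, hEy.ord x hx, Int.cast_zero]
      · rw [hWl, (hW0 _ hx').2, HahnSeries.leadingCoeff_eq, hEy.ord x hx, hEy.co]
    rw [rcg_cup H hH WF (inc.comp (E y)) y htriv]
    have e : G.eval₂ (inc.comp τ) ((inc.comp (E y)) (th p0)) = inc (G.eval₂ τ (E y (th p0))) := by
      rw [hom_eval₂, RingHom.comp_apply]
    rw [e, rcg_vH_lg WF ((map_ne_zero inc).2 hord.1), hWv _ hord.1, (hW0 _ hord.1).1, hord.2,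
      Int.cast_smul_eq_zsmul]
  rw [map_sub, hA, map_sum] at h3
  rw [hT, Finset.sum_image hinj, Finset.sum_congr rfl hB] at h3
  exact h3

end QPL
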