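import Pool.Agent.TGF.Thy
import Pool.Agent.QPL.Calc

set_option autoImplicit false

/-!
# QPL-57: leading coefficients of algebraic elements

`x ≠ 0`.  Let `m` be the minimum of `W.v (φ (P.coeff n) * x^n)` over the `n` with `P.coeff n ≠ 0`; `ini m` of
the sum is `0` (`ini_zero`, `ini_sum`), and it is `∑ ini m (φ (P.coeff n) x^n)`, each term being `0` or
`W.lc (φ (P.coeff n)) * (W.lc x)^n`, and some term nonzero.  So `W.lc x` is a root of a nonzero
polynomial with coefficients in `A`.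
`fin_unity`: the subfield generated by `i(k0)` and `a` is finite (a finite extension of the finite
field), so `a ^ (card - 1) = 1`.
-/

noncomputable section

open Polynomial TensorProduct
open scoped Classical

namespace QPL

open Helper14.Gon Helper14.W4 TGF

universe u v w

theorem lc_alg {K : Type u} {M : Type v} {Ω : Type w} [Field K] [Field M] [Field Ω] (W : AC M Ω)
    (φ : K →+* M) (A : Subfield Ω)
    (hA : ∀ (a : Ω) (Q : Polynomial Ω), Q ≠ 0 → (∀ n, Q.coeff n ∈ A) → Q.eval a = 0 → a ∈ A)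
    (hφ : ∀ c : K, W.lc (φ c) ∈ A) (x : M) (P : K[X]) (hP : P ≠ 0) (hx : P.eval₂ φ x = 0) :
    W.lc x ∈ A := by
  by_cases hx0 : x = 0
  · rw [hx0, map_zero]
    exact A.zero_mem
  have hne : ∀ n ∈ P.support, φ (P.coeff n) * x ^ n ≠ 0 := fun n hn =>
    mul_ne_zero ((map_ne_zero φ).2 (Polynomial.mem_support_iff.1 hn)) (pow_ne_zero _ hx0)
  obtain ⟨n0, hn0, hmin⟩ := Finset.exists_min_image P.support
    (fun n => W.v (φ (P.coeff n) * x ^ n)) (Polynomial.support_nonempty.2 hP)
  obtain ⟨m, hm⟩ : ∃ m : ℚ, m = W.v (φ (P.coeff n0) * x ^ n0) := ⟨_, rfl⟩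
  have hge : ∀ n ∈ P.support, W.ge m (φ (P.coeff n) * x ^ n) := by
    intro n hn
    right
    rw [hm]
    exact hmin n hn
  have hsum : ∑ n ∈ P.support, φ (P.coeff n) * x ^ n = 0 := by
    rw [← hx, Polynomial.eval₂_eq_sum, Polynomial.sum_def]
  have hini : ∑ n ∈ P.support, W.ini m (φ (P.coeff n) * x ^ n) = 0 := by
    rw [← W.ini_sum P.support _ hge, hsum, W.ini_zero]
  let Q : Polynomial Ω := ∑ n ∈ P.support, Polynomial.monomial n
    (if W.v (φ (P.coeff n) * x ^ n) = m then W.lc (φ (P.coeff n)) else 0)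
  have hQc : ∀ n, Q.coeff n = if n ∈ P.support then
      (if W.v (φ (P.coeff n) * x ^ n) = m then W.lc (φ (P.coeff n)) else 0) else 0 := by
    intro n
    simp only [Q, Polynomial.finsetSum_coeff, Polynomial.coeff_monomial]
    rw [Finset.sum_ite_eq' P.support n]
  refine hA (W.lc x) Q ?_ ?_ ?_
  · intro hQ
    have h1 := hQc n0
    rw [hQ, Polynomial.coeff_zero, if_pos hn0, if_pos hm.symm] at h1
    exact W.lc_ne ((map_ne_zero φ).2 (Polynomial.mem_support_iff.1 hn0)) h1.symm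
  · intro n
    rw [hQc n]
    split_ifs
    · exact hφ _
    · exact A.zero_mem
    · exact A.zero_mem
  · rw [← hini]
    simp only [Q, Polynomial.eval_finsetSum, Polynomial.eval_monomial]
    refine Finset.sum_congr rfl fun n hn => ?_
    unfold AC.ini
    by_cases h1 : W.v (φ (P.coeff n) * x ^ n) = m
    · rw [if_pos h1, if_pos ⟨hne n hn, h1⟩, map_mul, map_pow]
    · rw [if_neg h1, if_neg (fun h2 => h1 h2.2), zero_mul]

theorem fin_unity {k0 : Type u} {Ω : Type v} [Field k0] [Finite k0] [Field Ω] (i : k0 →+* Ω)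
    (a : Ω) (ha : a ≠ 0) (P : k0[X]) (hP : P ≠ 0) (h : P.eval₂ i a = 0) :
    ∃ m : ℕ, m ≠ 0 ∧ a ^ m = 1 := by
  letI : Algebra k0 Ω := i.toAlgebra
  have halg : IsAlgebraic k0 a := ⟨P, hP, h⟩
  have hint : IsIntegral k0 a := halg.isIntegral
  have hfd : FiniteDimensional k0 (IntermediateField.adjoin k0 {a}) :=
    IntermediateField.adjoin.finiteDimensional hint
  have hfin : Finite (IntermediateField.adjoin k0 {a}) := Module.finite_of_finite k0
  obtain ⟨b, hb⟩ : ∃ b : IntermediateField.adjoin k0 {a}, (b : Ω) = a :=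
    ⟨⟨a, IntermediateField.mem_adjoin_simple_self k0 a⟩, rfl⟩
  have hb0 : b ≠ 0 := by
    rintro rfl
    exact ha (by rw [← hb]; rfl)
  have hford : IsOfFinOrder (Units.mk0 b hb0) := isOfFinOrder_of_finite _
  obtain ⟨m, hm, hm2⟩ := isOfFinOrder_iff_pow_eq_one.1 hford
  refine ⟨m, hm.ne', ?_⟩
  have h1 : b ^ m = 1 := by
    have h2 := congrArg Units.val hm2
    rw [Units.val_pow_eq_pow_val, Units.val_mk0, Units.val_one] at h2
    exact h2
  have h3 := congrArg (Subtype.val) h1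
  rw [← hb]
  exact h3

/-- The relative algebraic closure of `k0` in `Ω`. -/
theorem exists_relcl {k0 : Type u} {Ω : Type v} [Field k0] [Field Ω] (i : k0 →+* Ω) :
    ∃ A : Subfield Ω, (∀ a, a ∈ A ↔ ∃ P : k0[X], P ≠ 0 ∧ P.eval₂ i a = 0) ∧
      (∀ (a : Ω) (Q : Polynomial Ω), Q ≠ 0 → (∀ n, Q.coeff n ∈ A) → Q.eval a = 0 → a ∈ A) := by
  letI : Algebra k0 Ω := i.toAlgebra
  refine ⟨(algebraicClosure k0 Ω).toSubfield, ?_, ?_⟩
  · intro a
    exact mem_algebraicClosure_iff
  · intro a Q hQ hc h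
    have h1 : Q ∈ Polynomial.lifts (algebraMap (algebraicClosure k0 Ω) Ω) := by
      rw [Polynomial.lifts_iff_coeff_lifts]
      intro n
      exact ⟨⟨Q.coeff n, hc n⟩, rfl⟩
    obtain ⟨Q', hQ'⟩ := (Polynomial.mem_lifts _).1 h1
    have h2 : IsAlgebraic (algebraicClosure k0 Ω) a := by
      refine ⟨Q', ?_, ?_⟩
      · rintro rfl
        apply hQ
        rw [← hQ', Polynomial.map_zero]
      · rw [Polynomial.aeval_def, ← Polynomial.eval_map, hQ', h]
    have h3 : IsAlgebraic k0 a := h2.restrictScalars k0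
    exact mem_algebraicClosure_iff.2 h3

end QPL
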