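import Pool.Agent.QPL.Calc
import Pool.Agent.Helper14.Gon.Wd

set_option autoImplicit false

/-!
# QPL-14: `A_n` specialises, rationally, if `R_(n-1)` does

`rdZ` induces `ρ : B_(n+2)(L) → ℚ ⊗ B_(n+2)(k)`, `ξ ↦ 1 ⊗ rdZ ξ` (an element with a positive
multiple `0` is `0` in `ℚ ⊗ M`), and `ρ ⊗ lH : B ⊗ L^* → (ℚ ⊗ B_(n+2)(k)) ⊗ k^*` maps
`deltaS {x}` to the image of `deltaS {rd x}`: if `rd x ≠ 0, ∞` then `v x = 0` and `lc x` is
`rd x`; otherwise `{rd x} ∈ R` (`br_zero_mem`, `br_inf_mem`).  So the image of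
`deltaS (rdZ α)` in `(ℚ ⊗ B) ⊗ k^* = ℚ ⊗ (B ⊗ k^*)` is `0`, and it is torsion
(as in `Pool.Agent.Helper14.Gon` / `torsion`: `1 ⊗ x = 0` in `ℚ ⊗ M` iff `x` is torsion; localization).
-/

noncomputable section

open Polynomial TensorProduct
open scoped Classical

namespace QPL

open Helper14.Gon

universe u v w

variable {L : Type u} {k : Type v} [Field L] [Field k]

private lemma stepa_toQ_zero {m : ℕ} (V : AC L k)
    (h : ∀ ξ ∈ R m L, V.rdZ ξ ∈ RQ m k) (β : ZP L) (hβ : β ∈ R m L) (w : Additive kˣ) :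
    toQ ((QuotientAddGroup.mk (V.rdZ β) : ZP k ⧸ R m k) ⊗ₜ[ℤ] w) = 0 := by
  rw [toQ_eq_zero]
  obtain ⟨N, hN, h1⟩ := h β hβ
  refine ⟨(N : ℤ), by exact_mod_cast hN.ne', ?_⟩
  rw [← zs_tmul]
  have h2 : (N : ℤ) • (QuotientAddGroup.mk (V.rdZ β) : ZP k ⧸ R m k) = 0 := by
    rw [natCast_zsmul]
    exact (QuotientAddGroup.eq_zero_iff _).2 h1
  rw [h2, zero_tmul]

/-- The specialisation map `B_m(L) ⊗ L^* → ℚ ⊗ (B_m(k) ⊗ k^*)`. -/
private def stepa_spT {m : ℕ} (V : AC L k) (h : ∀ ξ ∈ R m L, V.rdZ ξ ∈ RQ m k) :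
    (ZP L ⧸ R m L) ⊗[ℤ] Additive Lˣ →+ ℚ ⊗[ℤ] ((ZP k ⧸ R m k) ⊗[ℤ] Additive kˣ) :=
  TensorProduct.liftAddHom
    (QuotientAddGroup.lift (R m L)
      (AddMonoidHom.mk' (fun α => AddMonoidHom.mk'
        (fun w => toQ ((QuotientAddGroup.mk (V.rdZ α) : ZP k ⧸ R m k) ⊗ₜ[ℤ] V.lH w))
        (by intro a b; rw [map_add, tmul_add, toQ, tmul_add]))
        (by
          intro a b
          refine DFunLike.ext _ _ fun w => ?_
          change toQ ((QuotientAddGroup.mk (V.rdZ (a + b)) : ZP k ⧸ R m k) ⊗ₜ[ℤ] V.lH w) =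
            toQ ((QuotientAddGroup.mk (V.rdZ a) : ZP k ⧸ R m k) ⊗ₜ[ℤ] V.lH w) +
            toQ ((QuotientAddGroup.mk (V.rdZ b) : ZP k ⧸ R m k) ⊗ₜ[ℤ] V.lH w)
          rw [map_add, QuotientAddGroup.mk_add, add_tmul, toQ, tmul_add]))
      (by
        intro β hβ
        refine DFunLike.ext _ _ fun w => ?_
        exact stepa_toQ_zero V h β hβ (V.lH w)))
    (by
      intro r m n
      rw [map_zsmul, map_zsmul]
      rfl)

private lemma stepa_spT_tmul {m : ℕ} (V : AC L k) (h : ∀ ξ ∈ R m L, V.rdZ ξ ∈ RQ m k)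
    (α : ZP L) (w : Additive Lˣ) :
    stepa_spT V h ((QuotientAddGroup.mk α : ZP L ⧸ R m L) ⊗ₜ[ℤ] w) =
      toQ ((QuotientAddGroup.mk (V.rdZ α) : ZP k ⧸ R m k) ⊗ₜ[ℤ] V.lH w) := rfl

private lemma stepa_lH_lg (V : AC L k) (x : L) : V.lH (lg x) = lg (V.lc x) := by
  by_cases hx : x = 0
  · subst hx; simp
  · have h := V.lc_ne hx
    rw [lg, lg, dif_neg hx, dif_neg h]
    change Additive.ofMul _ = Additive.ofMul _
    congr 1
    ext
    simp

private lemma stepa_deltaS {n : ℕ} (V : AC L k)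
    (h : ∀ ξ ∈ R (n + 2) L, V.rdZ ξ ∈ RQ (n + 2) k) (α : ZP L) :
    stepa_spT V h (deltaS (R (n + 2) L) α) = toQ (deltaS (R (n + 2) k) (V.rdZ α)) := by
  have key : ∀ x : P1 L,
      stepa_spT V h (dst (R (n + 2) L) x) = toQ (dst (R (n + 2) k) (V.rd x)) := by
    intro x
    cases x with
    | none => simp [dst, AC.rd_none]
    | some f =>
      rw [dst, stepa_spT_tmul, AC.rdZ_single, dst, lgP_some, stepa_lH_lg]
      rcases hs : V.rd (some f) with _ | y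
      · have : (QuotientAddGroup.mk (br none) : ZP k ⧸ R (n + 2) k) = 0 :=
          (QuotientAddGroup.eq_zero_iff _).2 (br_inf_mem _)
        rw [this, zero_tmul, zero_tmul]
      · by_cases hy : y = 0
        · subst hy
          have : (QuotientAddGroup.mk (br (some 0)) : ZP k ⧸ R (n + 2) k) = 0 :=
            (QuotientAddGroup.eq_zero_iff _).2 (br_zero_mem _)
          rw [this, zero_tmul, zero_tmul]
        · obtain ⟨h1, h2⟩ := (AC.rd_eq_some V).1 hs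
          have h3 : V.ini 0 f ≠ 0 := by rw [h2]; exact hy
          obtain ⟨-, -, h4⟩ := V.of_ini_ne h3
          rw [h4, h2, lgP_some]
  have : (stepa_spT V h).comp (deltaS (R (n + 2) L)) =
      ((TensorProduct.mk ℤ ℚ ((ZP k ⧸ R (n + 2) k) ⊗[ℤ] Additive kˣ) 1).toAddMonoidHom.comp
        (deltaS (R (n + 2) k))).comp V.rdZ := by
    refine hom_ext fun x => ?_
    simp only [AddMonoidHom.comp_apply, deltaS, ext_br, AC.rdZ_single]
    exact key x
  exact DFunLike.congr_fun this α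

theorem step_A (n : ℕ) (V : AC L k) (hR : ∀ ξ ∈ R (n + 2) L, V.rdZ ξ ∈ RQ (n + 2) k)
    (α : ZP L) (hα : α ∈ A (n + 3) L) :
    ∃ N : ℕ, 0 < N ∧ N • V.rdZ α ∈ A (n + 3) k := by
  have h0 : deltaS (R (n + 2) L) α = 0 := hα
  have h1 := stepa_deltaS V hR α
  rw [h0, map_zero] at h1
  obtain ⟨N, hN, h2⟩ := (toQ_eq_zero _).1 h1.symm
  have h3 : (N.natAbs : ℤ) • deltaS (R (n + 2) k) (V.rdZ α) = 0 := by
    rcases Int.natAbs_eq N with h | h
    · rw [← h]; exact h2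
    · have h4 : (N.natAbs : ℤ) = -N := by omega
      rw [h4, neg_smul, h2, neg_zero]
  refine ⟨N.natAbs, Int.natAbs_pos.2 hN, ?_⟩
  change deltaS (R (n + 2) k) _ = 0
  rw [map_nsmul, ← natCast_zsmul, h3]

end QPL
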