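import Pool.Agent.QPL.TrD
import Pool.Agent.QPL.TrB

set_option autoImplicit false

/-!
# QPL-48: the sum of the residues over the roots of one irreducible polynomial

`sum_T` (backwards), `re_alg`, `mult_const`, `mult_pos`, `Finset.smul_sum`.
-/

noncomputable section

open Polynomial TensorProduct
open scoped Classical

namespace QPL

open Helper14.Gon Helper14.W4 TGF

universe u v w

variable (H : Thy.{u}) (hH : Laws H) {K k Kb : Type u} [Field K] [Field k] [Field Kb]
  [IsAlgClosed Kb] (ι : K →+* Kb)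

include hH in
theorem sum_roots (p : SRG.Pl K k) (V : AC (RatFunc K) k) (hV : IsPt p V) (T : Finset (k →+* Kb))
    (hT : ∀ y, y ∈ T ↔ y.comp (p.r.comp C) = ι) (W : Kb → AC (RatFunc Kb) Kb)
    (hW : ∀ a, IsAt a (W a)) (j : ℕ) (z : H.Y (RatFunc K) (j + 1)) :
    ∃ m : ℕ, 0 < m ∧ ∑ a ∈ (p.P.map ι).roots.toFinset, H.re (W a) j (H.map (rm ι) (j + 1) z) =
      (m : ℚ) • ∑ y ∈ T, H.map y j (H.re V j z) := by
  have h1 := sum_T p ι T hT (fun a => H.re (W a) j (H.map (rm ι) (j + 1) z))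
  rcases T.eq_empty_or_nonempty with h0 | ⟨y0, hy0⟩
  · refine ⟨1, one_pos, ?_⟩
    rw [← h1, h0, Finset.sum_empty, Finset.sum_empty, smul_zero]
  · have hy0' := (hT y0).1 hy0
    refine ⟨(p.P.map ι).rootMultiplicity (y0 (p.r X)),
      mult_pos p.P p.irr.ne_zero ι _ (emb_root p ι hy0'), ?_⟩
    rw [← h1, Finset.smul_sum]
    refine Finset.sum_congr rfl fun y hy => ?_
    have hy' := (hT y).1 hy
    have h2 := re_alg H hH ι p V hV (y (p.r X)) (W (y (p.r X))) (hW _) y hy' rfl j z
    rw [mult_const p.P p.irr ι _ _ (emb_root p ι hy') (emb_root p ι hy0')] at h2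
    exact h2

end QPL
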